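import Mathlib

/-!
# TANK G: the transcendence rank of finite sets (bookkeeping tool)

`frk F s : ℕ` is the transcendence degree of `F(s)` over `F`, for a finite set `s` of elements of an
extension field `L` of `F`.  It is monotone, submodular, and grows by at most one when one element
is added; an element is algebraic over `F(s)` iff adding it does not change the rank; a finite family
`c` is algebraically independent over `F(s)` iff adding it raises the rank by its cardinality.
-/

set_option autoImplicit false

open scoped Classical

namespace Pool.Agent.TGJ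

universe u v

section
variable (F : Type u) {L : Type v} [Field F] [Field L] [Algebra F L]

/-- The transcendence rank over `F` of a finite set. -/
noncomputable def frk (s : Finset L) : ℕ :=
  ((AlgebraicIndependent.matroid F L).eRk (s : Set L)).toNat

theorem eRk_ne_top (s : Finset L) :
    (AlgebraicIndependent.matroid F L).eRk (s : Set L) ≠ ⊤ := by
  have h1 := (AlgebraicIndependent.matroid F L).eRk_le_encard (s : Set L)
  have h2 : (s : Set L).encard ≠ ⊤ := by
    rw [Set.encard_ne_top_iff]
    exact s.finite_toSet
  exact ne_top_of_le_ne_top h2 h1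

theorem coe_frk (s : Finset L) :
    ((frk F s : ℕ) : ℕ∞) = (AlgebraicIndependent.matroid F L).eRk (s : Set L) :=
  ENat.natCast_toNat (eRk_ne_top F s)

@[simp] theorem frk_empty : frk F (∅ : Finset L) = 0 := by
  simp [frk]

theorem frk_mono {s t : Finset L} (h : s ⊆ t) : frk F s ≤ frk F t := by
  have h1 := (AlgebraicIndependent.matroid F L).eRk_mono (Finset.coe_subset.2 h)
  rw [← coe_frk, ← coe_frk] at h1
  exact_mod_cast h1

theorem frk_le_card (s : Finset L) : frk F s ≤ s.card := by
  have h1 := (AlgebraicIndependent.matroid F L).eRk_le_encard (s : Set L)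
  rw [← coe_frk, Set.encard_coe_eq_coe_finsetCard] at h1
  exact_mod_cast h1

theorem frk_inter_add_union_le (s t : Finset L) :
    frk F (s ∩ t) + frk F (s ∪ t) ≤ frk F s + frk F t := by
  have h1 := (AlgebraicIndependent.matroid F L).eRk_inter_add_eRk_union_le (s : Set L) (t : Set L)
  rw [← Finset.coe_inter, ← Finset.coe_union, ← coe_frk, ← coe_frk, ← coe_frk, ← coe_frk] at h1
  exact_mod_cast h1

theorem frk_union_le (s t : Finset L) : frk F (s ∪ t) ≤ frk F s + frk F t := by
  have := frk_inter_add_union_le F s t
  omega

theorem frk_union_le_add_card (s t : Finset L) : frk F (s ∪ t) ≤ frk F s + t.card := by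
  have := frk_union_le F s t
  have := frk_le_card F t
  omega

theorem frk_insert_le (a : L) (s : Finset L) : frk F (insert a s) ≤ frk F s + 1 := by
  have h := frk_union_le_add_card F s {a}
  rw [Finset.card_singleton] at h
  rwa [Finset.insert_eq, Finset.union_comm]

/-- Adding a set to a larger set raises the rank by less. -/
theorem frk_union_sub {s t : Finset L} (h : s ⊆ t) (r : Finset L) :
    frk F (t ∪ r) + frk F s ≤ frk F t + frk F (s ∪ r) := by
  have h1 := frk_inter_add_union_le F t (s ∪ r)
  have h2 : frk F s ≤ frk F (t ∩ (s ∪ r)) :=
    frk_mono F (Finset.subset_inter h Finset.subset_union_left)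
  have h3 : t ∪ (s ∪ r) = t ∪ r := by
    ext x
    simp only [Finset.mem_union]
    constructor
    · rintro (h | h | h)
      · exact Or.inl h
      · exact Or.inl (by exact (‹s ⊆ t› h))
      · exact Or.inr h
    · rintro (h | h)
      · exact Or.inl h
      · exact Or.inr (Or.inr h)
  rw [h3] at h1
  omega

theorem mem_closure_iff (s : Set L) (a : L) :
    a ∈ (AlgebraicIndependent.matroid F L).closure s ↔
      IsAlgebraic (IntermediateField.adjoin F s) a := by
  rw [AlgebraicIndependent.matroid_closure_eq]
  rw [SetLike.mem_coe, Subalgebra.mem_algebraicClosure, IntermediateField.isAlgebraic_adjoin_iff]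

theorem frk_insert_eq_iff (s : Finset L) (a : L) :
    frk F (insert a s) = frk F s ↔ IsAlgebraic (IntermediateField.adjoin F (s : Set L)) a := by
  rw [← mem_closure_iff]
  constructor
  · intro h
    by_contra hcon
    have h1 := (AlgebraicIndependent.matroid F L).eRk_insert_eq_add_one (e := a) (X := (s : Set L))
      ⟨by simp, hcon⟩
    rw [← Finset.coe_insert, ← coe_frk, ← coe_frk, h] at h1
    have h2 : frk F s = frk F s + 1 := by exact_mod_cast h1
    omega
  · intro h
    have h1 : (AlgebraicIndependent.matroid F L).eRk (insert a (s : Set L)) =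
        (AlgebraicIndependent.matroid F L).eRk (s : Set L) := by
      rw [← (AlgebraicIndependent.matroid F L).eRk_insert_closure_eq,
        Set.insert_eq_of_mem h, Matroid.eRk_closure_eq]
    rw [← Finset.coe_insert, ← coe_frk, ← coe_frk] at h1
    exact_mod_cast h1

theorem frk_union_eq_iff (s t : Finset L) :
    frk F (s ∪ t) = frk F s ↔
      ∀ a ∈ t, IsAlgebraic (IntermediateField.adjoin F (s : Set L)) a := by
  constructor
  · intro h a ha
    rw [← frk_insert_eq_iff]
    apply le_antisymm _ (frk_mono F (Finset.subset_insert _ _))
    rw [← h]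
    apply frk_mono
    intro x hx
    rw [Finset.mem_insert] at hx
    rcases hx with rfl | hx
    · exact Finset.mem_union_right _ ha
    · exact Finset.mem_union_left _ hx
  · intro h
    have h1 : (s : Set L) ∪ (t : Set L) ⊆
        (AlgebraicIndependent.matroid F L).closure (s : Set L) := by
      intro x hx
      rcases hx with hx | hx
      · exact (AlgebraicIndependent.matroid F L).mem_closure_of_mem hx (by simp)
      · rw [mem_closure_iff]
        exact h x hx
    have h2 := (AlgebraicIndependent.matroid F L).eRk_mono h1
    rw [Matroid.eRk_closure_eq, ← Finset.coe_union, ← coe_frk, ← coe_frk] at h2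
    have h3 : frk F (s ∪ t) ≤ frk F s := by exact_mod_cast h2
    exact le_antisymm h3 (frk_mono F Finset.subset_union_left)

/-- The rank depends only on the algebraic closure. -/
theorem frk_congr_of_algebraic {s t : Finset L}
    (h1 : ∀ a ∈ t, IsAlgebraic (IntermediateField.adjoin F (s : Set L)) a)
    (h2 : ∀ a ∈ s, IsAlgebraic (IntermediateField.adjoin F (t : Set L)) a) :
    frk F s = frk F t := by
  rw [← (frk_union_eq_iff F s t).2 h1, ← (frk_union_eq_iff F t s).2 h2, Finset.union_comm]

theorem frk_le_of_algebraic {s t : Finset L}
    (h1 : ∀ a ∈ t, IsAlgebraic (IntermediateField.adjoin F (s : Set L)) a) :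
    frk F t ≤ frk F s := by
  rw [← (frk_union_eq_iff F s t).2 h1]
  exact frk_mono F Finset.subset_union_right


theorem isAlgebraic_of_range {A B M : Type*} [Field A] [Field B] [Field M] [Algebra A M]
    [Algebra B M] (h : ∀ a : A, ∃ b : B, algebraMap B M b = algebraMap A M a) {x : M}
    (hx : IsAlgebraic A x) : IsAlgebraic B x := by
  choose f hf using h
  have hinj := (algebraMap B M).injective
  let φ : A →+* B :=
    { toFun := f
      map_one' := hinj (by rw [hf, map_one, map_one])
      map_mul' := fun a b => hinj (by rw [hf, map_mul, map_mul, hf, hf])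
      map_zero' := hinj (by rw [hf, map_zero, map_zero])
      map_add' := fun a b => hinj (by rw [hf, map_add, map_add, hf, hf]) }
  obtain ⟨q, hq, hq0⟩ := hx
  refine ⟨q.map φ, ?_, ?_⟩
  · rwa [Ne, Polynomial.map_eq_zero]
  · rw [Polynomial.aeval_def, Polynomial.eval₂_map]
    have h1 : (algebraMap B M).comp φ = algebraMap A M := by
      ext a
      exact hf a
    rw [h1]
    exact hq0

theorem isAlgebraic_adjoin_adjoin_iff (s t : Set L) (a : L) :
    IsAlgebraic (Algebra.adjoin (IntermediateField.adjoin F s) t) a ↔
      IsAlgebraic (IntermediateField.adjoin F (s ∪ t)) a := by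
  rw [← IntermediateField.isAlgebraic_adjoin_iff]
  have h1 : (IntermediateField.adjoin (IntermediateField.adjoin F s) t).restrictScalars F =
      IntermediateField.adjoin F (s ∪ t) := IntermediateField.adjoin_adjoin_left F s t
  constructor
  · refine isAlgebraic_of_range fun b => ⟨⟨(b : L), ?_⟩, rfl⟩
    rw [← h1]
    exact b.2
  · refine isAlgebraic_of_range fun b => ⟨⟨(b : L), ?_⟩, rfl⟩
    have h2 : (b : L) ∈ (IntermediateField.adjoin (IntermediateField.adjoin F s) t).restrictScalars
        F := by
      rw [h1]
      exact b.2
    exact h2

/-- A finite family is algebraically independent over `F(s)` iff adding it raises the rank by its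
cardinality. -/
theorem algebraicIndepOn_adjoin_iff {ι : Type} (s : Finset L) (c : ι → L) (T : Finset ι) :
    AlgebraicIndepOn (IntermediateField.adjoin F (s : Set L)) c (T : Set ι) ↔
      frk F (s ∪ T.image c) = frk F s + T.card := by
  induction T using Finset.induction_on with
  | empty =>
    simp only [Finset.coe_empty, Finset.image_empty, Finset.union_empty, Finset.card_empty,
      add_zero, iff_true]
    rw [AlgebraicIndepOn, algebraicIndependent_empty_type_iff]
    exact (algebraMap (IntermediateField.adjoin F (s : Set L)) L).injective
  | insert i T hi ih =>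
    rw [Finset.coe_insert, AlgebraicIndepOn.insert_iff (by exact_mod_cast hi), ih,
      Finset.card_insert_of_notMem hi, Finset.image_insert, Finset.union_insert,
      Transcendental, isAlgebraic_adjoin_adjoin_iff]
    have h1 : (s : Set L) ∪ c '' (T : Set ι) = ((s ∪ T.image c : Finset L) : Set L) := by
      simp
    rw [h1, ← frk_insert_eq_iff]
    have h2 := frk_insert_le F (c i) (s ∪ T.image c)
    have h3 := frk_mono F (Finset.subset_insert (c i) (s ∪ T.image c))
    have h4 := frk_union_le_add_card F s (T.image c)
    have h5 := Finset.card_image_le (s := T) (f := c)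
    constructor
    · rintro ⟨a, b⟩
      omega
    · intro a
      constructor <;> omega

theorem algebraicIndependent_adjoin_iff {ι : Type} [Fintype ι] (s : Finset L) (c : ι → L) :
    AlgebraicIndependent (IntermediateField.adjoin F (s : Set L)) c ↔
      frk F (s ∪ Finset.univ.image c) = frk F s + Fintype.card ι := by
  have h1 := algebraicIndepOn_adjoin_iff F s c Finset.univ
  rw [Finset.card_univ] at h1
  rw [← h1, Finset.coe_univ, AlgebraicIndepOn]
  exact (algebraicIndependent_equiv (Equiv.Set.univ ι)).symm

theorem algebraicIndepOn_iff_frk {ι : Type} (c : ι → L) (T : Finset ι) :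
    AlgebraicIndepOn F c (T : Set ι) ↔ frk F (T.image c) = T.card := by
  induction T using Finset.induction_on with
  | empty =>
    simp only [Finset.coe_empty, Finset.image_empty, frk_empty, Finset.card_empty, iff_true]
    rw [AlgebraicIndepOn, algebraicIndependent_empty_type_iff]
    exact (algebraMap F L).injective
  | insert i T hi ih =>
    rw [Finset.coe_insert, AlgebraicIndepOn.insert_iff (by exact_mod_cast hi), ih,
      Finset.card_insert_of_notMem hi, Finset.image_insert, Transcendental,
      ← IntermediateField.isAlgebraic_adjoin_iff]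
    have h1 : c '' (T : Set ι) = ((T.image c : Finset L) : Set L) := by
      simp
    rw [h1, ← frk_insert_eq_iff]
    have h2 := frk_insert_le F (c i) (T.image c)
    have h3 := frk_mono F (Finset.subset_insert (c i) (T.image c))
    have h4 := frk_le_card F (T.image c)
    have h5 := Finset.card_image_le (s := T) (f := c)
    constructor
    · rintro ⟨a, b⟩
      omega
    · intro a
      constructor <;> omega

theorem algebraicIndependent_iff_frk {ι : Type} [Fintype ι] (c : ι → L) :
    AlgebraicIndependent F c ↔ frk F (Finset.univ.image c) = Fintype.card ι := by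
  have h1 := algebraicIndepOn_iff_frk F c Finset.univ
  rw [Finset.card_univ] at h1
  rw [← h1, Finset.coe_univ, AlgebraicIndepOn]
  exact (algebraicIndependent_equiv (Equiv.Set.univ ι)).symm

/-- Every finite set contains a transcendence basis of itself. -/
theorem exists_basis (s : Finset L) : ∃ b ⊆ s, b.card = frk F s ∧
    AlgebraicIndependent F ((↑) : b → L) ∧
    ∀ a ∈ s, IsAlgebraic (IntermediateField.adjoin F (b : Set L)) a := by
  obtain ⟨B, hB⟩ := (AlgebraicIndependent.matroid F L).exists_isBasis (s : Set L)
  have hfin : B.Finite := s.finite_toSet.subset hB.subset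
  refine ⟨hfin.toFinset, ?_, ?_, ?_, ?_⟩
  · intro x hx
    exact hB.subset (hfin.mem_toFinset.1 hx)
  · have h1 := hB.encard_eq_eRk
    rw [← coe_frk] at h1
    rw [← hfin.coe_toFinset, Set.encard_coe_eq_coe_finsetCard] at h1
    exact_mod_cast h1
  · have h1 : AlgebraicIndepOn F id B := hB.indep
    have h2 : (hfin.toFinset : Set L) = B := hfin.coe_toFinset
    have h3 : AlgebraicIndepOn F id (hfin.toFinset : Set L) := by rwa [h2]
    exact h3
  · intro a ha
    rw [← mem_closure_iff, hfin.coe_toFinset]
    exact hB.subset_closure ha

end

end Pool.Agent.TGJ
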