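import Pool.Agent.Lib.TGJ.Iface
import Pool.Agent.Lib.TG_h51.DivB

/-!
# TANK G, block C, row R5: prime divisors through a normal point

* `NPt.isNoetherianRing`, `NPt.isIntegrallyClosed`, `NPt.isFractionRing`
* `isDiv_iff` : prime divisors = local rings at the primes of height one
* `NPt.finite_div` : finitely many prime divisors contain a given element
* `NPt.hartogs` : `S_q` is the intersection of the prime divisors with centre inside `q`
* `IsDiv.isOrd`
-/

set_option autoImplicit false

namespace Pool.Agent.TGJ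

open Pool.Agent.TG (ncl Ov ZDim)
open Pool.Agent.TGh4 (Disc ordV)
open Pool.Agent.TG51 (InLoc valP locP mem_valP valuation_lt_one_iff disc_valP)

universe u

section Loc

variable {k K : Type u} [Field k] [Field K] [Algebra k K] {S : Subalgebra k K} {res : S →ₐ[k] k}

theorem NPt.isFractionRing (h : NPt S res) : IsFractionRing S K := by
  refine IsFractionRing.of_field S K fun z => ?_
  obtain ⟨a, b, hb, e⟩ := h.frac z
  refine ⟨a, b, ?_⟩
  have e' : z * algebraMap S K b = algebraMap S K a := e
  have hb' : algebraMap S K b ≠ 0 := hb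
  rw [eq_div_iff hb']
  exact e'

theorem NPt.isIntegrallyClosed (h : NPt S res) : IsIntegrallyClosed S := by
  have := h.isFractionRing
  rw [isIntegrallyClosed_iff K]
  intro x hx
  exact ⟨⟨x, h.ic x hx⟩, rfl⟩

theorem NPt.isNoetherianRing (h : NPt S res) : IsNoetherianRing S := by
  obtain ⟨A, hA, hAS, hloc⟩ := h.fg
  have hft : Algebra.FiniteType k A := (Subalgebra.fg_iff_finiteType A).1 hA
  have hn : IsNoetherianRing A := Algebra.FiniteType.isNoetherianRing k A
  rw [isNoetherianRing_iff_ideal_fg]
  intro I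
  let ι : A →+* S := (Subalgebra.inclusion hAS).toRingHom
  have hI : I = Ideal.map ι (Ideal.comap ι I) := by
    refine le_antisymm ?_ Ideal.map_comap_le
    intro x hx
    obtain ⟨a, b, hb, e⟩ := hloc x
    have hb0 : res (ι b) ≠ 0 := by
      have : res (ι b) = 1 := hb
      rw [this]; exact one_ne_zero
    have hbi := h.inv (ι b) hb0
    have hbK : ((ι b : S) : K) ≠ 0 := by
      intro h0
      apply hb0
      have : ι b = 0 := Subtype.ext h0
      rw [this, map_zero]
    have e1 : x * ι b = ι a := Subtype.ext e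
    have ha : a ∈ Ideal.comap ι I := by
      rw [Ideal.mem_comap, ← e1]
      exact I.mul_mem_right _ hx
    have e2 : x = ι a * ⟨((ι b : S) : K)⁻¹, hbi⟩ := by
      apply Subtype.ext
      show (x : K) = ((ι a : S) : K) * ((ι b : S) : K)⁻¹
      have e3 : (x : K) * ((ι b : S) : K) = ((ι a : S) : K) := congrArg Subtype.val e1
      rw [← e3, mul_assoc, mul_inv_cancel₀ hbK, mul_one]
    rw [e2]
    exact Ideal.mul_mem_right _ _ (Ideal.mem_map_of_mem _ ha)
  rw [hI]
  exact Ideal.FG.map (IsNoetherian.noetherian _) _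

end Loc

section Div

variable {k K : Type u} [Field k] [Field K] [Algebra k K] {S : Subalgebra k K}
  {V : ValuationSubring K}

theorem IsDiv.mem_cen (h : IsDiv S V) (a : S) : a ∈ cen S V ↔ V.valuation (a : K) < 1 :=
  TGJ.mem_cen h.le a

theorem IsDiv.notMem_cen (h : IsDiv S V) (a : S) : a ∉ cen S V ↔ V.valuation (a : K) = 1 := by
  rw [h.mem_cen, not_lt]
  exact ⟨fun h1 => le_antisymm ((V.valuation_le_one_iff _).2 (h.le _ a.2)) h1, fun h1 => h1.ge⟩

/-- `V = S_P`, `P = cen S V`. -/
theorem IsDiv.mem_iff (h : IsDiv S V) (x : K) : x ∈ V ↔ InLoc (cen S V) x := by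
  constructor
  · intro hx
    obtain ⟨a, ha, b, hb, hb1, e⟩ := h.loc x hx
    exact ⟨⟨a, ha⟩, ⟨b, hb⟩, (h.notMem_cen _).2 hb1, e⟩
  · rintro ⟨a, b, hb, e⟩
    rw [h.notMem_cen] at hb
    rw [← V.valuation_le_one_iff]
    have e' : x * (b : K) = (a : K) := e
    have h1 : V.valuation x * V.valuation (b : K) = V.valuation (a : K) := by
      rw [← map_mul, e']
    rw [hb, mul_one] at h1
    rw [h1]
    exact (V.valuation_le_one_iff _).2 (h.le _ a.2)

/-- A prime divisor is determined by its centre. -/
theorem IsDiv.eq_of_cen {V' : ValuationSubring K} (h : IsDiv S V) (h' : IsDiv S V')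
    (e : cen S V = cen S V') : V = V' := by
  ext x
  rw [h.mem_iff, h'.mem_iff, e]

theorem IsDiv.cen_ne_bot (h : IsDiv S V) [IsFractionRing S K] : cen S V ≠ ⊥ := by
  intro hb
  obtain ⟨π, hπ⟩ := h.disc
  obtain ⟨a, b, hb0, e⟩ := IsFractionRing.div_surjective S π
  have hb' : (b : K) ≠ 0 := by
    intro h0
    have : b = 0 := Subtype.ext h0
    rw [this] at hb0
    exact nonZeroDivisors.ne_zero hb0 rfl
  have h1 : ∀ c : S, (c : K) ≠ 0 → V.valuation (c : K) = 1 := by
    intro c hc
    rw [← h.notMem_cen, hb, Ideal.mem_bot]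
    intro h0
    exact hc (by rw [h0]; rfl)
  have ha' : (a : K) ≠ 0 := by
    intro h0
    have : algebraMap S K a = 0 := h0
    rw [this, zero_div] at e
    exact hπ.ne e.symm
  have h2 := hπ.lt
  rw [← e, map_div₀, show V.valuation (algebraMap S K a) = 1 from h1 a ha',
    show V.valuation (algebraMap S K b) = 1 from h1 b hb', div_one] at h2
  exact lt_irrefl _ h2

/-- The centre of a prime divisor has height one. -/
theorem IsDiv.height (h : IsDiv S V) [IsFractionRing S K] : (cen S V).height = 1 := by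
  refine TG51.height_eq_one_of_forall h.cen_ne_bot ?_
  intro Q hQ hlt
  by_contra hQ0
  obtain ⟨a, haP, haQ⟩ := SetLike.exists_of_lt hlt
  obtain ⟨q, hq, hq0⟩ := (Submodule.ne_bot_iff _).1 hQ0
  obtain ⟨π, hπ⟩ := h.disc
  have ha0 : (a : K) ≠ 0 := fun h0 => haQ (by
    have : a = 0 := Subtype.ext h0
    rw [this]; exact Q.zero_mem)
  have hq0' : (q : K) ≠ 0 := fun h0 => hq0 (Subtype.ext h0)
  obtain ⟨m, hm⟩ := hπ.gen _ ha0
  obtain ⟨n, hn⟩ := hπ.gen _ hq0'
  have hapos : 0 < m := by
    have := (h.mem_cen a).1 haP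
    rw [hm] at this
    exact hπ.zpow_lt_one.1 this
  -- `a ^ N / q ∈ V` for large `N`
  have hN : (a : K) ^ n.toNat / (q : K) ∈ V := by
    rw [← V.valuation_le_one_iff, map_div₀, map_pow, hm, hn, ← zpow_natCast, ← zpow_mul,
      ← zpow_sub₀ hπ.pos.ne']
    have h2 := hπ.zpow_le (m := m * (n.toNat : ℤ) - n) (n := 0)
    rw [zpow_zero] at h2
    rw [h2]
    have h3 : n ≤ (n.toNat : ℤ) := Int.self_le_toNat n
    have h4 : (0 : ℤ) ≤ (n.toNat : ℤ) := Int.natCast_nonneg _
    nlinarith
  obtain ⟨c, s, hs, e⟩ := (h.mem_iff _).1 hN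
  have e1 : s * a ^ n.toNat = q * c := by
    apply Subtype.ext
    show (s : K) * (a : K) ^ n.toNat = (q : K) * (c : K)
    have e2 : (a : K) ^ n.toNat / (q : K) * (s : K) = (c : K) := e
    field_simp at e2
    linear_combination e2
  have h5 : s * a ^ n.toNat ∈ Q := by
    rw [e1]
    exact Q.mul_mem_right _ hq
  rcases hQ.mem_or_mem h5 with h6 | h6
  · exact hs (hlt.le h6)
  · exact haQ (hQ.mem_of_pow_mem _ h6)

theorem IsDiv.eq_valP (h : IsDiv S V) [IsFractionRing S K] [IsNoetherianRing S]
    [IsIntegrallyClosed S] : V = valP K (cen S V) h.height := by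
  ext x
  rw [h.mem_iff, mem_valP]

theorem isDiv_valP [IsFractionRing S K] [IsNoetherianRing S] [IsIntegrallyClosed S]
    (P : Ideal S) [P.IsPrime] (h : P.height = 1) : IsDiv S (valP K P h) where
  le := fun a ha => TG51.algebraMap_mem_valP h ⟨a, ha⟩
  loc := fun x hx => by
    obtain ⟨a, b, hb, e⟩ := mem_valP.1 hx
    refine ⟨a, a.2, b, b.2, ?_, e⟩
    have h1 : ¬ (valP K P h).valuation (algebraMap S K b) < 1 := fun h2 =>
      hb ((valuation_lt_one_iff (K := K) h b).1 h2)
    exact le_antisymm ((ValuationSubring.valuation_le_one_iff _ _).2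
      (TG51.algebraMap_mem_valP h b)) (not_lt.1 h1)
  disc := disc_valP h

theorem cen_valP [IsFractionRing S K] [IsNoetherianRing S] [IsIntegrallyClosed S]
    (P : Ideal S) [P.IsPrime] (h : P.height = 1) : cen S (valP K P h) = P := by
  ext a
  rw [(isDiv_valP P h).mem_cen]
  exact valuation_lt_one_iff (K := K) h a

/-- R5: the prime divisors are the local rings at the primes of height one. -/
theorem isDiv_iff [IsFractionRing S K] [IsNoetherianRing S] [IsIntegrallyClosed S] :
    IsDiv S V ↔ ∃ (P : Ideal S) (_ : P.IsPrime) (h : P.height = 1), V = valP K P h := by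
  constructor
  · intro h
    exact ⟨cen S V, inferInstance, h.height, h.eq_valP⟩
  · rintro ⟨P, hP, h, rfl⟩
    exact isDiv_valP P h

/-- R5: finitely many prime divisors contain a given element. -/
theorem finite_div [IsFractionRing S K] [IsNoetherianRing S] (g : S) (hg : g ≠ 0) :
    {V : ValuationSubring K | IsDiv S V ∧ g ∈ cen S V}.Finite := by
  have h1 := TG51.finite_height_one g hg
  refine Set.Finite.of_finite_image (f := fun V => cen S V) (h1.subset ?_) ?_
  · rintro _ ⟨V, ⟨hV, hgV⟩, rfl⟩
    exact ⟨inferInstance, hV.height, hgV⟩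
  · rintro V ⟨hV, -⟩ V' ⟨hV', -⟩ e
    exact hV.eq_of_cen hV' e

/-- R5: Hartogs at a prime `q`. -/
theorem hartogs_prime [IsFractionRing S K] [IsNoetherianRing S] [IsIntegrallyClosed S]
    (q : Ideal S) [q.IsPrime] (x : K)
    (hx : ∀ V : ValuationSubring K, IsDiv S V → cen S V ≤ q → x ∈ V) :
    ∃ a b : S, b ∉ q ∧ x * (b : K) = (a : K) := by
  classical
  have hM : q.primeCompl ≤ nonZeroDivisors S := Ideal.primeCompl_le_nonZeroDivisors _
  let B : Subalgebra S K := Localization.subalgebra.ofField K q.primeCompl hM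
  have hmemB : ∀ x : K, x ∈ B ↔ ∃ (a s : S) (_ : s ∈ q.primeCompl),
      x = algebraMap S K a * (algebraMap S K s)⁻¹ := fun x => Iff.rfl
  have hloc : IsLocalization q.primeCompl B :=
    Localization.subalgebra.isLocalization_ofField K q.primeCompl hM
  have hnoeth : IsNoetherianRing B := IsLocalization.isNoetherianRing q.primeCompl B inferInstance
  have hic : IsIntegrallyClosed B := isIntegrallyClosed_of_isLocalization B q.primeCompl hM
  have hfr : IsFractionRing B K :=
    Localization.subalgebra.isFractionRing_ofField K q.primeCompl hM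
  have key : ∃ b : B, algebraMap B K b = x := by
    refine TG51.mem_of_height_one x ?_
    intro P' hP' h1
    let P : Ideal S := P'.comap (algebraMap S B)
    have hP : P.IsPrime := Ideal.IsPrime.comap _
    have hPh : P.height = 1 := by
      have := IsLocalization.height_under q.primeCompl P'
      rw [← h1, ← this]
    have hPq : P ≤ q := by
      intro s hs
      by_contra hsq
      apply hP'.ne_top
      rw [Ideal.eq_top_iff_one]
      have h2 : IsUnit (algebraMap S B s) :=
        IsLocalization.map_units B (⟨s, hsq⟩ : q.primeCompl)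
      obtain ⟨u, hu⟩ := h2
      have h3 : algebraMap S B s ∈ P' := hs
      rw [← hu] at h3
      have h4 := P'.mul_mem_left ((u⁻¹ : Bˣ) : B) h3
      rwa [Units.inv_mul] at h4
    have hV := hx (valP K P hPh) (isDiv_valP P hPh) (by rw [cen_valP]; exact hPq)
    obtain ⟨a, s, hs, e⟩ := mem_valP.1 hV
    refine ⟨algebraMap S B a, algebraMap S B s, fun h5 => hs h5, ?_⟩
    exact e
  obtain ⟨⟨y, a, s, hs, rfl⟩, hb⟩ := key
  refine ⟨a, s, hs, ?_⟩
  have hs0 : (s : K) ≠ 0 := by
    intro h0
    apply hs
    have : s = 0 := Subtype.ext h0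
    rw [this]
    exact q.zero_mem
  rw [← hb]
  show (a : K) * (s : K)⁻¹ * (s : K) = (a : K)
  rw [mul_assoc, inv_mul_cancel₀ hs0, mul_one]

/-- Hartogs for `S` itself. -/
theorem hartogs [IsFractionRing S K] [IsNoetherianRing S] [IsIntegrallyClosed S] (x : K)
    (hx : ∀ V : ValuationSubring K, IsDiv S V → x ∈ V) : x ∈ S := by
  obtain ⟨a, ha⟩ := TG51.mem_of_height_one (A := S) x (by
    intro P hP h
    exact mem_valP.1 (hx _ (isDiv_valP P h)))
  rw [← ha]
  exact a.2

theorem IsDiv.isOrd (h : IsDiv S V) : IsOrd V.toSubring (ordV V) where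
  mul := fun _ _ hx hy => TGh4.ordV_mul V hx hy
  mem := fun _ hx => TGh4.mem_iff h.disc hx

end Div

section NPt

variable {k K : Type u} [Field k] [Field K] [Algebra k K] {S : Subalgebra k K} {res : S →ₐ[k] k}

theorem NPt.finite_div (h : NPt S res) (g : S) (hg : g ≠ 0) :
    {V : ValuationSubring K | IsDiv S V ∧ g ∈ cen S V}.Finite := by
  have := h.isFractionRing
  have := h.isNoetherianRing
  exact TGJ.finite_div g hg

theorem NPt.isDiv_iff (h : NPt S res) {V : ValuationSubring K} :
    IsDiv S V ↔ Disc V ∧ (∀ a ∈ S, a ∈ V) ∧ (cen S V).height = 1 := by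
  have := h.isFractionRing
  have := h.isNoetherianRing
  have := h.isIntegrallyClosed
  constructor
  · intro hV
    exact ⟨hV.disc, hV.le, hV.height⟩
  · rintro ⟨hd, hle, h1⟩
    have hV : V = valP K (cen S V) h1 := by
      refine TG51.eq_valP_of_le h1 V ?_ ?_
      · rintro rfl
        obtain ⟨π, hπ⟩ := hd
        have h2 := hπ.lt
        have h3 : (⊤ : ValuationSubring K).valuation π⁻¹ ≤ 1 :=
          (ValuationSubring.valuation_le_one_iff _ _).2 trivial
        rw [map_inv₀, inv_le_one₀ hπ.pos] at h3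
        exact absurd h2 (not_lt.2 h3)
      · rintro x ⟨a, s, hs, e⟩
        have hs1 : V.valuation (s : K) = 1 := by
          refine le_antisymm ((V.valuation_le_one_iff _).2 (hle _ s.2)) (not_lt.1 fun h2 => hs ?_)
          exact (TGJ.mem_cen hle s).2 h2
        rw [← V.valuation_le_one_iff]
        have e' : x * (s : K) = (a : K) := e
        have h4 : V.valuation x * V.valuation (s : K) = V.valuation (a : K) := by
          rw [← map_mul, e']
        rw [hs1, mul_one] at h4
        rw [h4]
        exact (V.valuation_le_one_iff _).2 (hle _ a.2)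
    rw [hV]
    exact isDiv_valP _ _

theorem NPt.hartogs_prime (h : NPt S res) (q : Ideal S) [q.IsPrime] (x : K)
    (hx : ∀ V : ValuationSubring K, IsDiv S V → cen S V ≤ q → x ∈ V) :
    ∃ a b : S, b ∉ q ∧ x * (b : K) = (a : K) := by
  have := h.isFractionRing
  have := h.isNoetherianRing
  have := h.isIntegrallyClosed
  exact TGJ.hartogs_prime q x hx

theorem NPt.hartogs (h : NPt S res) (x : K)
    (hx : ∀ V : ValuationSubring K, IsDiv S V → x ∈ V) : x ∈ S := by
  have := h.isFractionRing
  have := h.isNoetherianRing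
  have := h.isIntegrallyClosed
  exact TGJ.hartogs x hx

theorem NPt.exists_isDiv (h : NPt S res) (P : Ideal S) [P.IsPrime] (hP : P.height = 1) :
    ∃ V : ValuationSubring K, IsDiv S V ∧ cen S V = P := by
  have := h.isFractionRing
  have := h.isNoetherianRing
  have := h.isIntegrallyClosed
  exact ⟨valP K P hP, isDiv_valP P hP, cen_valP P hP⟩

theorem NPt.height (h : NPt S res) {V : ValuationSubring K} (hV : IsDiv S V) :
    (cen S V).height = 1 := by
  have := h.isFractionRing
  exact hV.height

/-- An element of `S` contained in no prime divisor is a unit of `S`. -/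
theorem NPt.isUnit_of_forall (h : NPt S res) (g : S)
    (hV : ∀ V : ValuationSubring K, IsDiv S V → g ∉ cen S V) : (g : K)⁻¹ ∈ S := by
  refine h.hartogs _ fun V hd => ?_
  have h1 := (hd.notMem_cen g).1 (hV V hd)
  rw [← V.valuation_le_one_iff, map_inv₀, h1, inv_one]

end NPt

end Pool.Agent.TGJ
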