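import Pool.Agent.Lib.TGJ.NVPt

/-!
# TANK G, block C, R13: the affine coordinates exist
-/

set_option autoImplicit false

namespace Pool.Agent.TGJ

open Pool.Agent.TG (ncl Ov ZDim IsMin IsModel NV RV)

universe u

variable {k K : Type u} [Field k] [Field K] [Algebra k K] {m : ℕ} {W : Submodule k K}
  {h : Fin (m + 2) → K} {Θ : Set (ValuationSubring K)} {d : ℕ}

/-- `h j` is a generator of `W ^ N` at `V` if all `h i / h j` are in `V`. -/
theorem GPOut.exists_isMin (H : GPOut W h Θ d) {V : ValuationSubring K} (hV : ZDim k V)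
    {j : Fin (m + 2)} (hj : ∀ i, h i / h j ∈ V) :
    ∃ N : ℕ, IsMin V (W ^ (N + 1)) (h j) ∧ ∀ i, h i ∈ W ^ (N + 1) := by
  obtain ⟨N, hN, hmem, hall⟩ := H.bpf
  obtain ⟨M, rfl⟩ := Nat.exists_eq_succ_of_ne_zero hN.ne'
  obtain ⟨j', hj'⟩ := hall V hV
  refine ⟨M, ⟨hmem j, H.ne j, fun g hg => ?_⟩, hmem⟩
  have h1 : g / h j = (g / h j') * (h j' / h j) := by
    rw [div_mul_div_cancel₀ (H.ne j')]
  rw [h1]
  exact V.mul_mem _ _ (hj'.div g hg) (hj j')

/-- The ratios are in the local ring of the normalised model. -/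
theorem GPOut.ratio_mem (H : GPOut W h Θ d) {V : ValuationSubring K} (hV : ZDim k V)
    {j : Fin (m + 2)} (hj : ∀ i, h i / h j ∈ V) (i : Fin (m + 2)) : h i / h j ∈ NV V W := by
  obtain ⟨N, hmin, hmem⟩ := H.exists_isMin hV hj
  have h1 := TG.div_mem_RV hmin (hmem i)
  rw [TG.RV_pow hV.ov H.model] at h1
  exact TG.RV_le_NV h1

/-- **The affine coordinates exist.** -/
theorem GPOut.exists_coord (H : GPOut W h Θ d) {V : ValuationSubring K} (hV : ZDim k V)
    {j : Fin (m + 2)} (hj : ∀ i, h i / h j ∈ V) (res : NV V W →ₐ[k] k) :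
    ∃ y : Fin (m + 1) → NV V W, Coord h j res y := by
  refine ⟨fun i => ⟨h (j.succAbove i) / h j, H.ratio_mem hV hj _⟩ -
    algebraMap k _ (res ⟨h (j.succAbove i) / h j, H.ratio_mem hV hj _⟩), fun i => ⟨?_, ?_⟩⟩
  · rw [map_sub, AlgHom.commutes]
    exact sub_self _
  · exact ⟨res ⟨h (j.succAbove i) / h j, H.ratio_mem hV hj _⟩, rfl⟩

/-- At every zero-dimensional valuation ring one of the charts `h j ≠ 0` is a chart. -/
theorem GPOut.exists_chart (H : GPOut W h Θ d) {V : ValuationSubring K} (hV : ZDim k V) :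
    ∃ j, ∀ i, h i / h j ∈ V := by
  obtain ⟨N, -, hmem, hall⟩ := H.bpf
  obtain ⟨j, hj⟩ := hall V hV
  exact ⟨j, fun i => hj.div _ (hmem i)⟩

/-- The coordinates generate the same algebra as the ratios. -/
theorem Coord.adjoin_eq {j : Fin (m + 2)} {S : Subalgebra k K} {res : S →ₐ[k] k}
    {y : Fin (m + 1) → S} (hne : ∀ i, h i ≠ 0) (hy : Coord h j res y) :
    kf k (fun i => (y i : K)) = Algebra.adjoin k (Set.range fun i => h i / h j) := by
  have h1 : ∀ i, ∃ c : k, (y i : K) = h (j.succAbove i) / h j - algebraMap k K c :=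
    fun i => (hy i).2
  choose c hc using h1
  apply le_antisymm
  · refine Algebra.adjoin_le ?_
    rintro _ ⟨i, rfl⟩
    change (y i : K) ∈ _
    rw [hc i]
    exact sub_mem (Algebra.subset_adjoin ⟨_, rfl⟩) (Subalgebra.algebraMap_mem _ _)
  · refine Algebra.adjoin_le ?_
    rintro _ ⟨i, rfl⟩
    by_cases hij : i = j
    · change h i / h j ∈ _
      rw [hij, div_self (hne j)]
      exact one_mem _
    · obtain ⟨i', rfl⟩ := Fin.exists_succAbove_eq hij
      have h2 : h (j.succAbove i') / h j = (y i' : K) + algebraMap k K (c i') := by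
        rw [hc i']; ring
      change h (j.succAbove i') / h j ∈ _
      rw [h2]
      exact add_mem (Algebra.subset_adjoin ⟨i', rfl⟩) (Subalgebra.algebraMap_mem _ _)

end Pool.Agent.TGJ
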