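import Pool.Agent.Lib.TGJ.Iface
import Pool.Agent.Lib.TG_h82.Rho

/-!
# TANK G, block C, row R13: the local degrees `Rho` of `Iface` and the local degrees of points

`A ⊆ F` an integrally closed `k`-algebra with field of fractions `F`, `L / F` finite, and
`k[f] = A` in `L`.  Then `TGJ.rho f` is the function of the local degrees `TG82.rho A`.
-/

set_option autoImplicit false

namespace Pool.Agent.TGJ

open Pool.Agent.TG (ncl up Ov ZDim)
open Pool.Agent.TG82 (toC)

universe u

section Link

variable {k F L : Type u} [Field k] [Field F] [Field L] [Algebra k F] [Algebra k L]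
  [Algebra F L] [IsScalarTower k F L] {m : ℕ} {A : Subalgebra k F} {f : Fin m → L}

theorem icf_eq (hf : kf k f = up L A) : icf k f = ncl (up L A) := by
  rw [icf, hf]

/-- The identification of the integral closures. -/
def icfE (hf : kf k f = up L A) : icf k f ≃ₐ[k] ncl (up L A) :=
  Subalgebra.equivOfEq _ _ (icf_eq hf)

@[simp] theorem icfE_coe (hf : kf k f = up L A) (a : icf k f) :
    ((icfE hf a : ncl (up L A)) : L) = a := rfl

@[simp] theorem icfE_symm_coe (hf : kf k f = up L A) (a : ncl (up L A)) :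
    (((icfE hf).symm a : icf k f) : L) = a := rfl

/-- A point over `f = 0` restricts to `A` as the point `f = 0`. -/
theorem over0_ext (hf : kf k f = up L A) (x y : ncl (up L A) →ₐ[k] k)
    (hx : Over0 f (x.comp (icfE hf).toAlgHom)) (hy : Over0 f (y.comp (icfE hf).toAlgHom)) :
    x.comp (toC L A) = y.comp (toC L A) := by
  have h1 : ∀ b ∈ kf k f, ∀ hb : b ∈ ncl (up L A), x ⟨b, hb⟩ = y ⟨b, hb⟩ := by
    intro b hb
    induction hb using Algebra.adjoin_induction with
    | mem b hb =>
      obtain ⟨i, rfl⟩ := hb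
      intro hb
      exact (hx i).trans (hy i).symm
    | algebraMap c =>
      intro hb
      exact (x.commutes c).trans (y.commutes c).symm
    | add a b ha hb iha ihb =>
      intro hab
      have ha' : a ∈ ncl (up L A) := by
        rw [← icf_eq hf]; exact kf_le_icf f ha
      have hb' : b ∈ ncl (up L A) := by
        rw [← icf_eq hf]; exact kf_le_icf f hb
      have h2 : (⟨a + b, hab⟩ : ncl (up L A)) = ⟨a, ha'⟩ + ⟨b, hb'⟩ := rfl
      rw [h2, map_add, map_add, iha, ihb]
    | mul a b ha hb iha ihb =>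
      intro hab
      have ha' : a ∈ ncl (up L A) := by
        rw [← icf_eq hf]; exact kf_le_icf f ha
      have hb' : b ∈ ncl (up L A) := by
        rw [← icf_eq hf]; exact kf_le_icf f hb
      have h2 : (⟨a * b, hab⟩ : ncl (up L A)) = ⟨a, ha'⟩ * ⟨b, hb'⟩ := rfl
      rw [h2, map_mul, map_mul, iha, ihb]
  refine AlgHom.ext fun a => ?_
  exact h1 _ (by rw [hf]; exact ⟨a, a.2, rfl⟩) _

/-- The field of `k[f]` is `F`. -/
theorem adjoin_eq (hf : kf k f = up L A) (hfr : ∀ g : F, ∃ a ∈ A, ∃ b ∈ A, b ≠ 0 ∧ g = a / b)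
    (g : L) : g ∈ IntermediateField.adjoin k (Set.range f) ↔ ∃ c : F, algebraMap F L c = g := by
  constructor
  · intro hg
    have h1 : IntermediateField.adjoin k (Set.range f) ≤
        (IsScalarTower.toAlgHom k F L).fieldRange := by
      rw [IntermediateField.adjoin_le_iff]
      rintro _ ⟨i, rfl⟩
      have h2 : f i ∈ up L A := by
        rw [← hf]; exact Algebra.subset_adjoin ⟨i, rfl⟩
      obtain ⟨a, -, ha⟩ := h2
      exact ⟨a, ha⟩
    obtain ⟨c, hc⟩ := h1 hg
    exact ⟨c, hc⟩
  · rintro ⟨c, rfl⟩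
    obtain ⟨a, ha, b, hb, -, rfl⟩ := hfr c
    have h2 : ∀ a ∈ A, algebraMap F L a ∈ IntermediateField.adjoin k (Set.range f) := by
      intro a ha
      have h3 : algebraMap F L a ∈ kf k f := by rw [hf]; exact ⟨a, ha, rfl⟩
      exact IntermediateField.algebra_adjoin_le_adjoin k _ h3
    rw [map_div₀]
    exact div_mem (h2 a ha) (h2 b hb)

/-- `F` is isomorphic to the field generated by `f`. -/
noncomputable def adjE (hf : kf k f = up L A)
    (hfr : ∀ g : F, ∃ a ∈ A, ∃ b ∈ A, b ≠ 0 ∧ g = a / b) :
    F ≃+* IntermediateField.adjoin k (Set.range f) :=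
  RingEquiv.ofBijective
    ((algebraMap F L).codRestrict (IntermediateField.adjoin k (Set.range f)).toSubring
      fun c => (adjoin_eq hf hfr _).2 ⟨c, rfl⟩ : F →+* IntermediateField.adjoin k (Set.range f))
    ⟨RingHom.injective _, fun g => by
      obtain ⟨c, hc⟩ := (adjoin_eq hf hfr _).1 g.2
      exact ⟨c, Subtype.ext hc⟩⟩

theorem adjE_coe (hf : kf k f = up L A)
    (hfr : ∀ g : F, ∃ a ∈ A, ∃ b ∈ A, b ≠ 0 ∧ g = a / b) (c : F) :
    ((adjE hf hfr c : IntermediateField.adjoin k (Set.range f)) : L) = algebraMap F L c := rfl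

/-- The norms agree. -/
theorem norm_eq (hf : kf k f = up L A)
    (hfr : ∀ g : F, ∃ a ∈ A, ∃ b ∈ A, b ≠ 0 ∧ g = a / b) (a : L) :
    ((Algebra.norm (IntermediateField.adjoin k (Set.range f)) a :
      IntermediateField.adjoin k (Set.range f)) : L) = algebraMap F L (Algebra.norm F a) := by
  rw [← adjE_coe hf hfr, Algebra.norm_eq_of_equiv_equiv (adjE hf hfr) (RingEquiv.refl L)
    (RingHom.ext fun c => rfl) a, RingEquiv.apply_symm_apply]
  rfl

variable [IsAlgClosed k] [FiniteDimensional F L]

open Classical in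
/-- The function of the local degrees. -/
noncomputable def rfun (hf : kf k f = up L A) (x : icf k f →ₐ[k] k) : ℕ :=
  if Over0 f x then TG82.rho A (x.comp (icfE hf).symm.toAlgHom) else 0

omit [IsAlgClosed k] [FiniteDimensional F L] in
theorem comp_symm (hf : kf k f = up L A) (x : icf k f →ₐ[k] k) :
    (x.comp (icfE hf).symm.toAlgHom).comp (icfE hf).toAlgHom = x := by
  refine AlgHom.ext fun a => ?_
  exact congrArg x ((icfE hf).symm_apply_apply a)

/-- **Existence of the function of local degrees.** -/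
theorem isRho_rfun (hA : ∀ b : F, IsIntegral A b → b ∈ A) (hf : kf k f = up L A)
    (hfr : ∀ g : F, ∃ a ∈ A, ∃ b ∈ A, b ≠ 0 ∧ g = a / b) : IsRho f (rfun hf) := by
  classical
  have key : ∀ x₀ : icf k f →ₐ[k] k, Over0 f x₀ → ∀ x : icf k f →ₐ[k] k, Over0 f x ↔
      (x.comp (icfE hf).symm.toAlgHom).comp (toC L A) =
        (x₀.comp (icfE hf).symm.toAlgHom).comp (toC L A) := by
    intro x₀ hx₀ x
    constructor
    · intro hx
      refine over0_ext hf _ _ ?_ ?_
      · rw [comp_symm]; exact hx
      · rw [comp_symm]; exact hx₀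
    · intro h i
      have h1 : f i ∈ up L A := by
        rw [← hf]; exact Algebra.subset_adjoin ⟨i, rfl⟩
      obtain ⟨a, ha, hai⟩ := h1
      have h2 := DFunLike.congr_fun h ⟨a, ha⟩
      have h3 : ∀ y : icf k f →ₐ[k] k, (y.comp (icfE hf).symm.toAlgHom).comp (toC L A) ⟨a, ha⟩ =
          y (icf.X f i) := fun y => congrArg y (Subtype.ext hai)
      rw [h3, h3] at h2
      rw [h2]
      exact hx₀ i
  refine ⟨?_, ?_, ?_⟩
  · by_cases hne : ∃ x₀ : icf k f →ₐ[k] k, Over0 f x₀
    · obtain ⟨x₀, hx₀⟩ := hne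
      have h1 := TG82.finite_points (L := L) hA
        ((x₀.comp (icfE hf).symm.toAlgHom).comp (toC L A))
      refine Set.Finite.of_finite_image (f := fun x => x.comp (icfE hf).symm.toAlgHom)
        (h1.subset ?_) ?_
      · rintro _ ⟨x, hx, rfl⟩
        exact (key x₀ hx₀ x).1 hx
      · intro x _ y _ hxy
        have h2 := congrArg (fun z : ncl (up L A) →ₐ[k] k => z.comp (icfE hf).toAlgHom) hxy
        simp only [comp_symm] at h2
        exact h2
    · push Not at hne
      have : {x : icf k f →ₐ[k] k | Over0 f x} = ∅ := Set.eq_empty_iff_forall_notMem.2 hne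
      rw [this]
      exact Set.finite_empty
  · intro x
    unfold rfun
    split_ifs with h
    · exact ⟨fun _ => h, fun _ => (TG82.rho_pos A _).ne'⟩
    · exact ⟨fun h0 => absurd rfl h0, fun h0 => absurd h0 h⟩
  · intro a
    obtain ⟨n, hn⟩ := TG82.exists_norm hA (icfE hf a)
    refine ⟨(icfE hf).symm (toC L A n), ?_, fun x hx => ?_⟩
    · rw [icfE_symm_coe, TG82.toC_coe, hn, norm_eq hf hfr]
      rfl
    · have hX := TG82.finite_points (L := L) hA
        ((x.comp (icfE hf).symm.toAlgHom).comp (toC L A))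
      have h1 := TG82.norm_rho hA ((x.comp (icfE hf).symm.toAlgHom).comp (toC L A)) hX.toFinset
        (fun y => by rw [Set.Finite.mem_toFinset]; rfl) (icfE hf a) n hn
      refine Eq.trans (b := ((x.comp (icfE hf).symm.toAlgHom).comp (toC L A)) n) rfl
        (h1.trans ?_)
      have h2 : ∀ y : icf k f →ₐ[k] k, y ∈ Function.mulSupport
          (fun y : icf k f →ₐ[k] k => y a ^ rfun hf y) → Over0 f y := by
        intro y hy
        by_contra h0
        refine hy ?_
        change y a ^ rfun hf y = 1
        rw [rfun, if_neg h0, pow_zero]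
      have hfin : (Function.mulSupport
          (fun y : icf k f →ₐ[k] k => y a ^ rfun hf y)).Finite := by
        refine Set.Finite.of_finite_image (f := fun x => x.comp (icfE hf).symm.toAlgHom)
          (hX.subset ?_) ?_
        · rintro _ ⟨y, hy, rfl⟩
          exact (key x hx y).1 (h2 y hy)
        · intro y _ z _ hyz
          have h3 := congrArg (fun z : ncl (up L A) →ₐ[k] k => z.comp (icfE hf).toAlgHom) hyz
          simp only [comp_symm] at h3
          exact h3
      let e : (ncl (up L A) →ₐ[k] k) ≃ (icf k f →ₐ[k] k) :=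
        { toFun := fun z => z.comp (icfE hf).toAlgHom
          invFun := fun z => z.comp (icfE hf).symm.toAlgHom
          left_inv := fun z => AlgHom.ext fun b => congrArg z ((icfE hf).apply_symm_apply b)
          right_inv := fun z => comp_symm hf z }
      rw [← finprod_comp_equiv e, finprod_eq_prod_of_mulSupport_subset (s := hX.toFinset)]
      · refine Finset.prod_congr rfl fun y hy => ?_
        have h3 : Over0 f (e y) := by
          rw [key x hx]
          have h4 : (e y).comp (icfE hf).symm.toAlgHom = y := e.left_inv y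
          rw [h4]
          exact hX.mem_toFinset.1 hy
        change y (icfE hf a) ^ TG82.rho A y = e y a ^ rfun hf (e y)
        rw [rfun, if_pos h3]
        have h4 : (e y).comp (icfE hf).symm.toAlgHom = y := e.left_inv y
        rw [h4]
        rfl
      · intro y hy
        have h3 : Over0 f (e y) := h2 _ hy
        rw [key x hx] at h3
        have h4 : (e y).comp (icfE hf).symm.toAlgHom = y := e.left_inv y
        rw [h4] at h3
        exact hX.mem_toFinset.2 h3

/-- **Uniqueness of the function of local degrees.** -/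
theorem isRho_eq (hA : ∀ b : F, IsIntegral A b → b ∈ A) (hf : kf k f = up L A)
    (hfr : ∀ g : F, ∃ a ∈ A, ∃ b ∈ A, b ≠ 0 ∧ g = a / b) {r : (icf k f →ₐ[k] k) → ℕ}
    (hr : IsRho f r) : r = rfun hf := by
  classical
  have h0 := isRho_rfun hA hf hfr
  funext x
  by_cases hx : Over0 f x
  · by_contra hne
    -- compare the exponents at `x`
    have h1 : ∀ t : k, t ^ r x = t ^ rfun hf x := by
      intro t
      obtain ⟨a, ha⟩ := TG82.exists_values' (hr.fin.toFinset) (fun y => if y = x then t else 1)
      obtain ⟨N, hN, h2⟩ := hr.norm a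
      obtain ⟨N', hN', h3⟩ := h0.norm a
      have h4 : N = N' := Subtype.ext (hN.trans hN'.symm)
      have h5 := h2 x hx
      have h6 := h3 x hx
      rw [← h4, h5] at h6
      have h7 : ∀ s : (icf k f →ₐ[k] k) → ℕ, (∀ y, s y ≠ 0 → Over0 f y) →
          ∏ᶠ y : icf k f →ₐ[k] k, y a ^ s y = t ^ s x := by
        intro s hs
        rw [finprod_eq_single _ x]
        · rw [ha x (hr.fin.mem_toFinset.2 hx), if_pos rfl]
        · intro y hyx
          by_cases hsy : s y = 0
          · rw [hsy, pow_zero]
          · rw [ha y (hr.fin.mem_toFinset.2 (hs y hsy)), if_neg hyx, one_pow]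
      rw [h7 r (fun y hy => (hr.supp y).1 hy), h7 _ (fun y hy => (h0.supp y).1 hy)] at h6
      exact h6
    have hinf : Infinite k := IsAlgClosed.instInfinite
    have h3 : (Polynomial.X ^ r x - Polynomial.X ^ rfun hf x : Polynomial k) = 0 :=
      Polynomial.funext fun t => by simp [h1 t]
    have h4 : (Polynomial.X ^ r x : Polynomial k) = Polynomial.X ^ rfun hf x := sub_eq_zero.1 h3
    have h5 := congrArg Polynomial.natDegree h4
    rw [Polynomial.natDegree_X_pow, Polynomial.natDegree_X_pow] at h5
    exact hne h5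
  · have h1 : r x = 0 := by
      by_contra h2
      exact hx ((hr.supp x).1 h2)
    have h2 : rfun hf x = 0 := by
      by_contra h2
      exact hx ((h0.supp x).1 h2)
    rw [h1, h2]

/-- **The link.** -/
theorem rho_eq_rfun (hA : ∀ b : F, IsIntegral A b → b ∈ A) (hf : kf k f = up L A)
    (hfr : ∀ g : F, ∃ a ∈ A, ∃ b ∈ A, b ≠ 0 ∧ g = a / b) (x : icf k f →ₐ[k] k) :
    rho f x = rfun hf x := by
  have h : ∃ r, IsRho f r := ⟨_, isRho_rfun hA hf hfr⟩
  rw [rho, dif_pos h]
  exact congrFun (isRho_eq hA hf hfr h.choose_spec) x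

/-- **The link**, for the points of the integral closure of `A`. -/
theorem link_rho (hA : ∀ b : F, IsIntegral A b → b ∈ A) (hf : kf k f = up L A)
    (hfr : ∀ g : F, ∃ a ∈ A, ∃ b ∈ A, b ≠ 0 ∧ g = a / b) (x : ncl (up L A) →ₐ[k] k)
    (hx : Over0 f (x.comp (icfE hf).toAlgHom)) :
    rho f (x.comp (icfE hf).toAlgHom) = TG82.rho A x := by
  rw [rho_eq_rfun hA hf hfr, rfun, if_pos hx]
  exact congrArg (TG82.rho A) (AlgHom.ext fun b => congrArg x ((icfE hf).apply_symm_apply b))

end Link

end Pool.Agent.TGJ
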