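import Pool.Agent.Lib.TGJ.Iface
import Pool.Agent.Lib.TGJ_h88.Locx

/-!
# TANK G, block C: symmetry of `Rho`; `RhoV` in terms of the residue field of a prime of the
integral closure (helper5)
-/

set_option autoImplicit false

namespace Pool.Agent.TGJ

open Pool.Agent.TG (ncl)
open Pool.Agent.TGh4 (Disc ordV)
open Pool.Agent.TGJ88 (locx idl le_locx mem_locx inv_mem_locx)

universe u

variable {k : Type u} [Field k]

/-! ### Symmetry: `Rho` depends only on the set of the parameters -/

section Perm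

variable {L : Type u} [Field L] [Algebra k L] {S : Type u} [CommRing S] [Algebra k S]

/-- The point kills `T`. -/
def OverT (T : Set L) (x : ncl (Algebra.adjoin k T) →ₐ[k] k) : Prop :=
  ∀ (t : L) (h : t ∈ ncl (Algebra.adjoin k T)), t ∈ T → x ⟨t, h⟩ = 0

/-- `IsRho` for a set of parameters. -/
structure IsRhoT (T : Set L) (r : (ncl (Algebra.adjoin k T) →ₐ[k] k) → ℕ) : Prop where
  fin : {x : ncl (Algebra.adjoin k T) →ₐ[k] k | OverT T x}.Finite
  supp : ∀ x : ncl (Algebra.adjoin k T) →ₐ[k] k, r x ≠ 0 ↔ OverT T x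
  norm : ∀ a : ncl (Algebra.adjoin k T), ∃ N : ncl (Algebra.adjoin k T),
    (N : L) = ((Algebra.norm (IntermediateField.adjoin k T) (a : L) :
      IntermediateField.adjoin k T) : L) ∧
    ∀ x : ncl (Algebra.adjoin k T) →ₐ[k] k, OverT T x →
      x N = ∏ᶠ y : ncl (Algebra.adjoin k T) →ₐ[k] k, y a ^ r y

open Classical in
/-- `rho` for a set of parameters. -/
noncomputable def rhoT (T : Set L) (x : ncl (Algebra.adjoin k T) →ₐ[k] k) : ℕ :=
  if h : ∃ r, IsRhoT T r then h.choose x else 0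

/-- `Rho` for a set of parameters. -/
noncomputable def RhoT (φ : S →ₐ[k] L) (res : S →ₐ[k] k) (T : Set L) : ℕ :=
  ∑ᶠ x ∈ {x : ncl (Algebra.adjoin k T) →ₐ[k] k | OverT T x ∧
    ∀ s : S, ∃ a b : ncl (Algebra.adjoin k T), x b = 1 ∧ φ s * b = a ∧ x a = res s}, rhoT T x

theorem over0_iff {m : ℕ} (f : Fin m → L) (x : icf k f →ₐ[k] k) :
    Over0 f x ↔ OverT (Set.range f) x := by
  constructor
  · rintro h t ht ⟨i, rfl⟩
    exact h i
  · intro h i
    exact h (f i) _ ⟨i, rfl⟩

theorem isRho_iff {m : ℕ} (f : Fin m → L) (r : (icf k f →ₐ[k] k) → ℕ) :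
    IsRho f r ↔ IsRhoT (Set.range f) r := by
  have h0 : ∀ x : icf k f →ₐ[k] k, Over0 f x ↔ OverT (Set.range f) x := over0_iff f
  constructor
  · intro h
    refine ⟨?_, fun x => (h.supp x).trans (h0 x), fun a => ?_⟩
    · refine h.fin.subset ?_
      intro x hx
      exact (h0 x).2 hx
    · obtain ⟨N, h1, h2⟩ := h.norm a
      exact ⟨N, h1, fun x hx => h2 x ((h0 x).2 hx)⟩
  · intro h
    refine ⟨?_, fun x => (h.supp x).trans (h0 x).symm, fun a => ?_⟩
    · refine h.fin.subset ?_
      intro x hx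
      exact (h0 x).1 hx
    · obtain ⟨N, h1, h2⟩ := h.norm a
      exact ⟨N, h1, fun x hx => h2 x ((h0 x).1 hx)⟩

theorem choose_eq {α : Type*} {P Q : α → Prop} (h : P = Q) (hP : ∃ r, P r) (hQ : ∃ r, Q r) :
    hP.choose = hQ.choose := by
  subst h
  rfl

theorem rho_eq_rhoT {m : ℕ} (f : Fin m → L) (x : icf k f →ₐ[k] k) :
    rho f x = rhoT (Set.range f) x := by
  have h1 : (IsRho f : ((icf k f →ₐ[k] k) → ℕ) → Prop) = IsRhoT (Set.range f) :=
    funext fun r => propext (isRho_iff f r)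
  by_cases h : ∃ r, IsRho (k := k) f r
  · have h' : ∃ r, IsRhoT (k := k) (Set.range f) r := by
      obtain ⟨r, hr⟩ := h
      exact ⟨r, (isRho_iff f r).1 hr⟩
    rw [rho, dif_pos h, rhoT, dif_pos h']
    exact congrFun (choose_eq h1 h h') x
  · have h' : ¬ ∃ r, IsRhoT (k := k) (Set.range f) r := by
      rintro ⟨r, hr⟩
      exact h ⟨r, (isRho_iff f r).2 hr⟩
    rw [rho, dif_neg h, rhoT, dif_neg h']

theorem Rho_eq_RhoT {m : ℕ} (φ : S →ₐ[k] L) (res : S →ₐ[k] k) (f : Fin m → S) :
    Rho φ res f = RhoT φ res (Set.range fun i => φ (f i)) := by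
  unfold Rho RhoT
  have h1 : {x : icf k (fun i => φ (f i)) →ₐ[k] k | Over0 _ x ∧ Doms φ res _ x} =
      {x : ncl (Algebra.adjoin k (Set.range fun i => φ (f i))) →ₐ[k] k |
        OverT (Set.range fun i => φ (f i)) x ∧
        ∀ s : S, ∃ a b : ncl (Algebra.adjoin k (Set.range fun i => φ (f i))),
          x b = 1 ∧ φ s * b = a ∧ x a = res s} := by
    ext x
    exact and_congr_left fun _ => over0_iff _ x
  rw [h1]
  exact finsum_congr fun x => finsum_congr fun _ => rho_eq_rhoT _ x

theorem Rho_congr_range {m m' : ℕ} (φ : S →ₐ[k] L) (res : S →ₐ[k] k) (f : Fin m → S)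
    (f' : Fin m' → S) (h : Set.range (fun i => φ (f i)) = Set.range fun i => φ (f' i)) :
    Rho φ res f = Rho φ res f' := by
  rw [Rho_eq_RhoT, Rho_eq_RhoT, h]

/-- Symmetry. -/
theorem perm (k : Type u) [Field k] : Perm k := by
  intro S L _ _ _ _ φ res m f σ
  refine Rho_congr_range φ res _ _ ?_
  ext t
  constructor
  · rintro ⟨i, rfl⟩
    exact ⟨σ i, rfl⟩
  · rintro ⟨i, rfl⟩
    exact ⟨σ.symm i, by simp⟩

end Perm

/-! ### Primes of the integral closure -/

/-- `Rho φ` depends only on the kernel of `φ`. -/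
def RhoCongr (k : Type u) [Field k] : Prop :=
  ∀ (S L L' : Type u) [CommRing S] [Algebra k S] [Field L] [Algebra k L] [Field L'] [Algebra k L']
    (φ : S →ₐ[k] L) (φ' : S →ₐ[k] L') (res : S →ₐ[k] k) (m : ℕ) (f : Fin m → S),
    RingHom.ker φ = RingHom.ker φ' → FracOf φ → FracOf φ' → Rho φ res f = Rho φ' res f

section Corr

variable {K : Type u} [Field K] [Algebra k K]

/-- The residue field of a prime is the field of fractions of the image. -/
theorem fracOf_residue {C : Type u} [CommRing C] [Algebra k C] (Q : Ideal C) [Q.IsPrime] :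
    FracOf (IsScalarTower.toAlgHom k C Q.ResidueField) := by
  intro l
  obtain ⟨a, b, hb, hab⟩ := IsFractionRing.div_surjective (A := C ⧸ Q) l
  obtain ⟨a, rfl⟩ := Ideal.Quotient.mk_surjective a
  obtain ⟨b, rfl⟩ := Ideal.Quotient.mk_surjective b
  have h1 : ∀ c : C, algebraMap (C ⧸ Q) Q.ResidueField (Ideal.Quotient.mk Q c) =
      IsScalarTower.toAlgHom k C Q.ResidueField c := fun c => rfl
  have h2 : algebraMap (C ⧸ Q) Q.ResidueField (Ideal.Quotient.mk Q b) ≠ 0 :=
    IsFractionRing.to_map_ne_zero_of_mem_nonZeroDivisors hb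
  refine ⟨a, b, by rw [← h1]; exact h2, ?_⟩
  rw [← h1, ← h1, ← hab, div_mul_cancel₀ _ h2]

theorem isIntegral_image {n m : ℕ} {f' : Fin n → K} (Q : Ideal (icf k f')) [Q.IsPrime]
    (w' : Fin m → icf k f') (hint : ∀ i, icf.X f' i ∈ Q ∨ ∃ j, icf.X f' i = w' j)
    (c : icf k f') : algebraMap (icf k f') Q.ResidueField c ∈
      icf k (fun i => algebraMap (icf k f') Q.ResidueField (w' i)) := by
  -- the image of `k[f']`
  have h1 : ∀ a (ha : a ∈ kf k f'), algebraMap (icf k f') Q.ResidueField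
      ⟨a, kf_le_icf f' ha⟩ ∈ kf k (fun i => algebraMap (icf k f') Q.ResidueField (w' i)) := by
    intro a ha
    have hle : kf k f' ≤ icf k f' := kf_le_icf f'
    let g : kf k f' →ₐ[k] Q.ResidueField :=
      (IsScalarTower.toAlgHom k (icf k f') Q.ResidueField).comp (Subalgebra.inclusion hle)
    have h2 : ∀ b : kf k f', g b ∈
        kf k (fun i => algebraMap (icf k f') Q.ResidueField (w' i)) := by
      rintro ⟨b, hb⟩
      induction hb using Algebra.adjoin_induction with
      | mem x hx =>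
        obtain ⟨i, rfl⟩ := hx
        have e : g ⟨f' i, Algebra.subset_adjoin ⟨i, rfl⟩⟩ =
            algebraMap (icf k f') Q.ResidueField (icf.X f' i) := rfl
        rw [e]
        rcases hint i with h3 | ⟨j, h3⟩
        · have h4 : algebraMap (icf k f') Q.ResidueField (icf.X f' i) = 0 :=
            Ideal.algebraMap_residueField_eq_zero.2 h3
          rw [h4]
          exact Subalgebra.zero_mem _
        · rw [h3]
          exact Algebra.subset_adjoin ⟨j, rfl⟩
      | algebraMap r =>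
        have e : g ⟨algebraMap k K r, Subalgebra.algebraMap_mem _ r⟩ =
            algebraMap k Q.ResidueField r := g.commutes r
        rw [e]
        exact Subalgebra.algebraMap_mem _ r
      | add x y hx hy h3 h4 =>
        have e : g ⟨x + y, Subalgebra.add_mem _ hx hy⟩ = g ⟨x, hx⟩ + g ⟨y, hy⟩ :=
          map_add g ⟨x, hx⟩ ⟨y, hy⟩
        rw [e]
        exact Subalgebra.add_mem _ h3 h4
      | mul x y hx hy h3 h4 =>
        have e : g ⟨x * y, Subalgebra.mul_mem _ hx hy⟩ = g ⟨x, hx⟩ * g ⟨y, hy⟩ :=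
          map_mul g ⟨x, hx⟩ ⟨y, hy⟩
        rw [e]
        exact Subalgebra.mul_mem _ h3 h4
    exact h2 ⟨a, ha⟩
  obtain ⟨P, hP, hPc⟩ := c.2
  let ι : kf k f' →+* icf k f' := (Subalgebra.inclusion (kf_le_icf f')).toRingHom
  let g : kf k f' →+* kf k (fun i => algebraMap (icf k f') Q.ResidueField (w' i)) :=
    ((algebraMap (icf k f') Q.ResidueField).comp ι).codRestrict
      (kf k (fun i => algebraMap (icf k f') Q.ResidueField (w' i))).toSubring
      (fun b => h1 b b.2)
  refine ⟨P.map g, hP.map _, ?_⟩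
  rw [Polynomial.eval₂_map]
  have h3 : (algebraMap (kf k (fun i => algebraMap (icf k f') Q.ResidueField (w' i)))
      Q.ResidueField).comp g = (algebraMap (icf k f') Q.ResidueField).comp ι :=
    RingHom.ext fun b => rfl
  rw [h3, ← Polynomial.hom_eval₂]
  have h4 : Polynomial.eval₂ ι c P = 0 := by
    apply Subtype.ext
    have h5 := Polynomial.hom_eval₂ P ι ((icf k f').val : icf k f' →+* K) c
    refine h5.trans ?_
    exact hPc
  rw [h4, map_zero]

/-- `RhoV` in terms of the residue field of the prime `Q` of the integral closure. -/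
theorem rhoV_corr (hcongr : RhoCongr k) {n m : ℕ} {S : Subalgebra k K} {res : S →ₐ[k] k}
    {f' : Fin n → K} {x0 : icf k f' →ₐ[k] k} (hS : locx (icf k f') x0 = S)
    (hd : Doms S.val res f' x0) (Q : Ideal (icf k f')) [Q.IsPrime] (V : ValuationSubring K)
    (hV : IsDiv S V) (hQ : ∀ c : icf k f', c ∈ Q ↔ V.valuation (c : K) < 1) (w : Fin m → S)
    (w' : Fin m → icf k f') (hw : ∀ i, (w i : K) = w' i)
    (hint : ∀ i, icf.X f' i ∈ Q ∨ ∃ j, icf.X f' i = w' j) :
    RhoV S V res w =
      ∑ᶠ x' ∈ {x' : icf k (fun i => algebraMap (icf k f') Q.ResidueField (w' i)) →ₐ[k] k |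
        Over0 _ x' ∧ ∀ c : icf k f', ∃ h : algebraMap (icf k f') Q.ResidueField c ∈
          icf k (fun i => algebraMap (icf k f') Q.ResidueField (w' i)), x' ⟨_, h⟩ = x0 c},
        rho _ x' := by
  subst hS
  have hCS : ∀ c : icf k f', (c : K) ∈ locx (icf k f') x0 := fun c => le_locx _ _ c.2
  -- the residue map extends `x0`
  have hres : ∀ c : icf k f', res ⟨c, hCS c⟩ = x0 c := by
    intro c
    obtain ⟨a, b, hb, hab, ha⟩ := hd ⟨c, hCS c⟩
    have h1 : c * b = a := Subtype.ext hab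
    rw [← ha, ← h1, map_mul, hb, mul_one]
  -- `Q ≤ ker x0`
  have hunit : ∀ b : icf k f', x0 b ≠ 0 → V.valuation (b : K) = 1 := by
    intro b hb
    have h1 : (b : K)⁻¹ ∈ V := hV.le _ (inv_mem_locx hb)
    have h2 : (b : K) ∈ V := hV.le _ (hCS b)
    have h3 : (b : K) ≠ 0 := TGJ88.ne_zero_of_ev hb
    have h4 := (V.valuation_le_one_iff _).2 h1
    have h5 := (V.valuation_le_one_iff _).2 h2
    rw [map_inv₀] at h4
    have h6 : 0 < V.valuation (b : K) := zero_lt_iff.2 ((Valuation.ne_zero_iff _).2 h3)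
    exact le_antisymm h5 ((inv_le_one₀ h6).1 h4)
  have hnQ : ∀ b : icf k f', x0 b ≠ 0 → b ∉ Q := fun b hb hbQ =>
    absurd ((hQ b).1 hbQ) (by rw [hunit b hb]; exact lt_irrefl _)
  -- the map of the local ring to the residue field of `Q`
  let φ' : locx (icf k f') x0 →ₐ[k] Q.ResidueField :=
    IsLocalization.liftAlgHom (M := (idl x0).primeCompl)
      (f := IsScalarTower.toAlgHom k (icf k f') Q.ResidueField) fun y =>
      (Ne.isUnit fun h => hnQ y (fun h' => y.2 h') (Ideal.algebraMap_residueField_eq_zero.1 h) :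
        IsUnit (algebraMap (icf k f') Q.ResidueField (y : icf k f')))
  have hφ' : ∀ c : icf k f', φ' ⟨c, hCS c⟩ = algebraMap (icf k f') Q.ResidueField c := fun c =>
    IsLocalization.lift_eq _ _
  have hker : RingHom.ker (toRes (locx (icf k f') x0) V) = RingHom.ker φ' := by
    ext s
    have h1 : s ∈ RingHom.ker (toRes (locx (icf k f') x0) V) ↔ V.valuation (s : K) < 1 := by
      rw [← mem_cen hV.le]
      exact Ideal.algebraMap_residueField_eq_zero
    rw [h1]
    obtain ⟨a, b, hb, hab⟩ := s.2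
    have h2 : s * ⟨b, hCS b⟩ = ⟨a, hCS a⟩ := Subtype.ext hab
    have h3 : φ' s * algebraMap (icf k f') Q.ResidueField b =
        algebraMap (icf k f') Q.ResidueField a := by
      rw [← hφ', ← hφ', ← map_mul, h2]
    have h4 : algebraMap (icf k f') Q.ResidueField b ≠ 0 := fun h =>
      hnQ b hb (Ideal.algebraMap_residueField_eq_zero.1 h)
    have h5 : V.valuation (s : K) = V.valuation (a : K) := by
      rw [← hab, map_mul, hunit b hb, mul_one]
    rw [h5, ← hQ, RingHom.mem_ker]
    constructor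
    · intro h
      rw [Ideal.algebraMap_residueField_eq_zero.2 h] at h3
      exact (mul_eq_zero.1 h3).resolve_right h4
    · intro h
      rw [h, zero_mul] at h3
      exact Ideal.algebraMap_residueField_eq_zero.1 h3.symm
  have hfr' : FracOf φ' := by
    intro l
    obtain ⟨a, b, hb, hab⟩ := fracOf_residue (k := k) Q l
    exact ⟨⟨a, hCS a⟩, ⟨b, hCS b⟩, by rw [hφ']; exact hb, by rw [hφ', hφ']; exact hab⟩
  rw [RhoV, hcongr _ _ _ (toRes (locx (icf k f') x0) V) φ' res m w hker (fracOf_residue _) hfr',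
    Rho]
  have hfun : (fun i => φ' (w i)) = fun i => algebraMap (icf k f') Q.ResidueField (w' i) := by
    funext i
    rw [← hφ']
    congr 1
    exact Subtype.ext (hw i)
  have key : ∀ g : Fin m → Q.ResidueField,
      (fun i => algebraMap (icf k f') Q.ResidueField (w' i)) = g →
      ∑ᶠ x ∈ {x : icf k g →ₐ[k] k | Over0 _ x ∧ Doms φ' res _ x}, rho _ x =
      ∑ᶠ x' ∈ {x' : icf k g →ₐ[k] k | Over0 _ x' ∧
        ∀ c : icf k f', ∃ h : algebraMap (icf k f') Q.ResidueField c ∈ icf k g,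
          x' ⟨_, h⟩ = x0 c}, rho _ x' := by
    intro g hg
    have hset : {x : icf k g →ₐ[k] k | Over0 _ x ∧ Doms φ' res _ x} =
        {x' : icf k g →ₐ[k] k | Over0 _ x' ∧
          ∀ c : icf k f', ∃ h : algebraMap (icf k f') Q.ResidueField c ∈ icf k g,
            x' ⟨_, h⟩ = x0 c} := ?_
    · rw [hset]
    ext x
    refine and_congr_right fun _ => ?_
    constructor
    · intro h c
      have hm : algebraMap (icf k f') Q.ResidueField c ∈ icf k g := by
        rw [← hg]
        exact isIntegral_image Q w' hint c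
      refine ⟨hm, ?_⟩
      obtain ⟨a, b, hb, hab, ha⟩ := h ⟨c, hCS c⟩
      rw [hφ'] at hab
      have h1 : (⟨_, hm⟩ : icf k g) * b = a := Subtype.ext hab
      have h2 := congrArg x h1
      rw [map_mul, hb, mul_one, ha, hres] at h2
      exact h2
    · intro h s
      obtain ⟨a, b, hb, hab⟩ := s.2
      have h2 : s * ⟨b, hCS b⟩ = ⟨a, hCS a⟩ := Subtype.ext hab
      have h3 : φ' s * algebraMap (icf k f') Q.ResidueField b =
          algebraMap (icf k f') Q.ResidueField a := by
        rw [← hφ', ← hφ', ← map_mul, h2]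
      have h4 : res s * x0 b = x0 a := by
        rw [← hres, ← hres, ← map_mul, h2]
      obtain ⟨ha, ha'⟩ := h a
      obtain ⟨hb', hb''⟩ := h b
      -- normalise `b`
      have hbi : (x0 b)⁻¹ ≠ 0 := inv_ne_zero hb
      refine ⟨(x0 b)⁻¹ • ⟨_, ha⟩, (x0 b)⁻¹ • ⟨_, hb'⟩, ?_, ?_, ?_⟩
      · rw [map_smul, hb'', smul_eq_mul, inv_mul_cancel₀ hb]
      · change φ' s * ((x0 b)⁻¹ • algebraMap (icf k f') Q.ResidueField b) =
          (x0 b)⁻¹ • algebraMap (icf k f') Q.ResidueField a
        rw [mul_smul_comm, h3]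
      · rw [map_smul, ha', smul_eq_mul, ← h4, mul_comm (res s), ← mul_assoc,
          inv_mul_cancel₀ hb, one_mul]
  rw [key _ hfun.symm]
  rw [hfun]

end Corr

end Pool.Agent.TGJ
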