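import Pool.Agent.Lib.TGJ.Iface
import Pool.Agent.Lib.TG.Basic

/-!
# TANK G, block C: the output of the general position theorem (all points), row R13

`W` a model of `K`, `h : Fin (m + 2) → K` elements of `W ^ N` (the generic projection to
`P^(m+1)`), `Θ` a finite set of prime divisors (boundary).  `GPOut` is what rows R11 (ThmC), R12
(genericity) and R14 (inputs) give together; row R13 proves `GPOut → ProjP`.
-/

set_option autoImplicit false

namespace Pool.Agent.TGJ

open Pool.Agent.TG (ncl Ov ZDim IsMin IsModel NV)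

universe u

variable {k K : Type u} [Field k] [Field K] [Algebra k K] {m : ℕ}

/-- `res` is the residue map of `S` at the zero-dimensional valuation ring `V`. -/
def ResAt (V : ValuationSubring K) {S : Subalgebra k K} (res : S →ₐ[k] k) : Prop :=
  ∀ a : S, V.valuation ((a : K) - algebraMap k K (res a)) < 1

/-- `y` are the affine coordinates `h i / h j`, `i ≠ j`, minus their values at `res`. -/
def Coord (h : Fin (m + 2) → K) (j : Fin (m + 2)) {S : Subalgebra k K} (res : S →ₐ[k] k)
    (y : Fin (m + 1) → S) : Prop :=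
  ∀ i, res (y i) = 0 ∧ ∃ c : k, (y i : K) = h (j.succAbove i) / h j - algebraMap k K c

/-- **The output of general position**, at all closed points of the normalisation of the model
`W`. -/
structure GPOut (W : Submodule k K) (h : Fin (m + 2) → K) (Θ : Set (ValuationSubring K))
    (d : ℕ) : Prop where
  model : IsModel W
  fin' : TG.Fin' W
  ne : ∀ i, h i ≠ 0
  fin : Θ.Finite
  /-- at every point one of the `h j` is a generator of `W ^ N` -/
  bpf : ∃ N : ℕ, 0 < N ∧ (∀ i, h i ∈ W ^ N) ∧
    ∀ V : ValuationSubring K, ZDim k V → ∃ j, IsMin V (W ^ N) (h j)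
  /-- local degrees over `P^(m+1)`, in every chart -/
  deg : ∀ V : ValuationSubring K, ZDim k V → ∀ j, (∀ i, h i / h j ∈ V) →
    ∀ res : NV V W →ₐ[k] k, ResAt V res → ∀ y : Fin (m + 1) → NV V W, Coord h j res y →
      Proper (NV V W).val res y ∧ Rho (NV V W).val res y ≤ d
  /-- local degrees of the ramification and boundary divisors over `P^m`, in the charts `h j ≠ 0`,
  `j ≠ last` -/
  ram : ∀ V : ValuationSubring K, ZDim k V → ∀ j, j ≠ Fin.last (m + 1) → (∀ i, h i / h j ∈ V) →
    ∀ res : NV V W →ₐ[k] k, ResAt V res → ∀ y : Fin (m + 1) → NV V W, Coord h j res y →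
      ∀ v, IsDiv (NV V W) v → (ramV v y ≠ 0 ∨ v ∈ Θ) →
        ProperV (NV V W) v res (y ∘ Fin.castSucc) ∧ RhoV (NV V W) v res (y ∘ Fin.castSucc) ≤ d
  /-- the ramification and boundary divisors do not pass through the points over
  `O = [0 : .. : 0 : 1]` -/
  out : ∀ V : ValuationSubring K, ZDim k V → (∀ i, h i / h (Fin.last (m + 1)) ∈ V) →
    (∀ i, i ≠ Fin.last (m + 1) → V.valuation (h i / h (Fin.last (m + 1))) < 1) →
    ∀ res : NV V W →ₐ[k] k, ResAt V res → ∀ y : Fin (m + 1) → NV V W,
      Coord h (Fin.last (m + 1)) res y → ∀ v, IsDiv (NV V W) v → ramV v y = 0 ∧ v ∉ Θ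

end Pool.Agent.TGJ
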