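import Pool.Agent.Lib.TGJ.Link

/-!
# TANK G, block C: the function of local degrees exists, is unique, and depends only on the kernel
-/

set_option autoImplicit false

open Polynomial

namespace Pool.Agent.TGJ

open Pool.Agent.TG (ncl up Ov ZDim)

universe u

section Unique

variable {k L : Type u} [Field k] [Field L] [Algebra k L] {m : ℕ} {f : Fin m → L}

/-- **Uniqueness of the function of local degrees**, for every `f`. -/
theorem IsRho.unique74 [Infinite k] {r r' : (icf k f →ₐ[k] k) → ℕ} (h : IsRho f r)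
    (h' : IsRho f r') : r = r' := by
  classical
  funext x
  by_cases hx : Over0 f x
  · by_contra hne
    have h1 : ∀ t : k, t ^ r x = t ^ r' x := by
      intro t
      obtain ⟨a, ha⟩ := TG82.exists_values' (h.fin.toFinset) (fun y => if y = x then t else 1)
      obtain ⟨N, hN, h2⟩ := h.norm a
      obtain ⟨N', hN', h3⟩ := h'.norm a
      have h4 : N = N' := Subtype.ext (hN.trans hN'.symm)
      have h5 := h2 x hx
      have h6 := h3 x hx
      rw [← h4, h5] at h6
      have h7 : ∀ s : (icf k f →ₐ[k] k) → ℕ, (∀ y, s y ≠ 0 → Over0 f y) →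
          ∏ᶠ y : icf k f →ₐ[k] k, y a ^ s y = t ^ s x := by
        intro s hs
        rw [finprod_eq_single _ x]
        · rw [ha x (h.fin.mem_toFinset.2 hx), if_pos rfl]
        · intro y hyx
          by_cases hsy : s y = 0
          · rw [hsy, pow_zero]
          · rw [ha y (h.fin.mem_toFinset.2 (hs y hsy)), if_neg hyx, one_pow]
      rw [h7 r (fun y hy => (h.supp y).1 hy), h7 _ (fun y hy => (h'.supp y).1 hy)] at h6
      exact h6
    have h3 : (Polynomial.X ^ r x - Polynomial.X ^ r' x : Polynomial k) = 0 :=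
      Polynomial.funext fun t => by simp [h1 t]
    have h4 : (Polynomial.X ^ r x : Polynomial k) = Polynomial.X ^ r' x := sub_eq_zero.1 h3
    have h5 := congrArg Polynomial.natDegree h4
    rw [Polynomial.natDegree_X_pow, Polynomial.natDegree_X_pow] at h5
    exact hne h5
  · have h1 : r x = 0 := by
      by_contra h2
      exact hx ((h.supp x).1 h2)
    have h2 : r' x = 0 := by
      by_contra h2
      exact hx ((h'.supp x).1 h2)
    rw [h1, h2]

theorem IsRho.rho_eq [Infinite k] {r : (icf k f →ₐ[k] k) → ℕ} (h : IsRho f r) :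
    rho (k := k) f = r := by
  funext x
  have h' : ∃ r, IsRho f r := ⟨r, h⟩
  rw [rho, dif_pos h']
  exact congrFun (h'.choose_spec.unique74 h) x

theorem IsRho.isRho_rho {r : (icf k f →ₐ[k] k) → ℕ} (h : IsRho f r) :
    IsRho f (rho (k := k) f) := by
  have h' : ∃ r, IsRho f r := ⟨r, h⟩
  have e : rho (k := k) f = h'.choose := by
    funext x
    rw [rho, dif_pos h']
  rw [e]
  exact h'.choose_spec

end Unique

section Exists

variable {k L : Type u} [Field k] [Field L] [Algebra k L] {m : ℕ} {f : Fin m → L}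

/-- The `f i` in the field `k(f)`. -/
def fF (k : Type u) {L : Type u} [Field k] [Field L] [Algebra k L] {m : ℕ} (f : Fin m → L)
    (i : Fin m) : IntermediateField.adjoin k (Set.range f) :=
  ⟨f i, IntermediateField.subset_adjoin k _ ⟨i, rfl⟩⟩

/-- `k[f]` in `k(f)`. -/
def AF (k : Type u) {L : Type u} [Field k] [Field L] [Algebra k L] {m : ℕ} (f : Fin m → L) :
    Subalgebra k (IntermediateField.adjoin k (Set.range f)) :=
  Algebra.adjoin k (Set.range (fF k f))

theorem kf_eq_up (f : Fin m → L) : kf k f = up L (AF k f) := by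
  have h1 : up L (AF k f) = (AF k f).map (IntermediateField.adjoin k (Set.range f)).val := rfl
  rw [h1, AF, AlgHom.map_adjoin, ← Set.range_comp]
  rfl

theorem mem_AF {b : IntermediateField.adjoin k (Set.range f)} : b ∈ AF k f ↔ (b : L) ∈ kf k f := by
  rw [kf_eq_up]
  constructor
  · intro hb
    exact ⟨b, hb, rfl⟩
  · rintro ⟨a, ha, hab⟩
    have e : a = b := Subtype.ext hab
    rw [← e]
    exact ha

theorem AF_frac (g : IntermediateField.adjoin k (Set.range f)) :
    ∃ a ∈ AF k f, ∃ b ∈ AF k f, b ≠ 0 ∧ g = a / b := by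
  obtain ⟨r, hr, s, hs, hrs⟩ := IntermediateField.mem_adjoin_iff_div.1 g.2
  by_cases hs0 : s = 0
  · refine ⟨0, zero_mem _, 1, one_mem _, one_ne_zero, ?_⟩
    rw [hs0, div_zero] at hrs
    rw [div_one]
    exact Subtype.ext hrs
  · refine ⟨⟨r, IntermediateField.algebra_adjoin_le_adjoin k _ hr⟩, mem_AF.2 hr,
      ⟨s, IntermediateField.algebra_adjoin_le_adjoin k _ hs⟩, mem_AF.2 hs, ?_, Subtype.ext hrs⟩
    intro h0
    exact hs0 (congrArg Subtype.val h0)

theorem kf_isIntegrallyClosed (hf : AlgebraicIndependent k f) : IsIntegrallyClosed (kf k f) :=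
  IsIntegrallyClosed.of_equiv hf.aevalEquiv.toRingEquiv

theorem AF_normal (hf : AlgebraicIndependent k f) (b : IntermediateField.adjoin k (Set.range f))
    (hb : IsIntegral (AF k f) b) : b ∈ AF k f := by
  have h0 : AlgebraicIndependent k (fF k f) :=
    AlgebraicIndependent.of_comp (IntermediateField.adjoin k (Set.range f)).val hf
  have h1 : IsIntegrallyClosed (AF k f) := kf_isIntegrallyClosed h0
  have h2 : IsFractionRing (AF k f) (IntermediateField.adjoin k (Set.range f)) :=
    IsFractionRing.of_field _ _ fun z => by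
      obtain ⟨a, ha, b, hb, hb0, hab⟩ := AF_frac z
      exact ⟨⟨a, ha⟩, ⟨b, hb⟩, hab⟩
  obtain ⟨y, hy⟩ := (isIntegrallyClosed_iff (IntermediateField.adjoin k (Set.range f))).1 h1 hb
  rw [← hy]
  exact y.2

/-- **Existence of the function of local degrees.** -/
theorem exists_isRho [IsAlgClosed k] (hf : AlgebraicIndependent k f)
    [FiniteDimensional (IntermediateField.adjoin k (Set.range f)) L] :
    ∃ r : (icf k f →ₐ[k] k) → ℕ, IsRho f r :=
  ⟨_, isRho_rfun (AF_normal hf) (kf_eq_up f) AF_frac⟩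

theorem isRho_rho [IsAlgClosed k] (hf : AlgebraicIndependent k f)
    [FiniteDimensional (IntermediateField.adjoin k (Set.range f)) L] :
    IsRho f (rho (k := k) f) := by
  obtain ⟨r, hr⟩ := exists_isRho hf
  exact hr.isRho_rho

end Exists

section Congr

variable {k L L' : Type u} [Field k] [Field L] [Field L'] [Algebra k L] [Algebra k L'] {m : ℕ}
  {f : Fin m → L} {f' : Fin m → L'}

theorem isIntegral_map_iff (ι : L →ₐ[k] L') (A : Subalgebra k L) (x : L) :
    IsIntegral (A.map ι) (ι x) ↔ IsIntegral A x := by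
  constructor
  · rintro ⟨p, hp, h0⟩
    let φ : A ≃ₐ[k] A.map ι := A.equivMapOfInjective ι ι.injective
    have hφ : ∀ a : A, ((φ a : A.map ι) : L') = ι a := fun a => rfl
    refine ⟨p.map φ.symm.toRingEquiv.toRingHom, hp.map _, ι.injective ?_⟩
    rw [map_zero, ← h0, eval₂_map]
    have e := hom_eval₂ p ((algebraMap A L).comp φ.symm.toRingEquiv.toRingHom) (ι : L →+* L') x
    refine e.trans ?_
    congr 1
    refine RingHom.ext fun a => ?_
    change ι ((φ.symm a : A) : L) = (a : L')
    rw [← hφ, AlgEquiv.apply_symm_apply]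
  · rintro ⟨p, hp, h0⟩
    let φ : A ≃ₐ[k] A.map ι := A.equivMapOfInjective ι ι.injective
    refine ⟨p.map φ.toRingEquiv.toRingHom, hp.map _, ?_⟩
    rw [eval₂_map]
    have e := hom_eval₂ p (algebraMap A L) (ι : L →+* L') x
    have h1 : eval₂ (algebraMap A L) x p = 0 := h0
    rw [h1, map_zero] at e
    exact e.symm

theorem kf_map (e : L ≃ₐ[k] L') (h : ∀ i, f' i = e (f i)) : kf k f' = (kf k f).map e.toAlgHom := by
  have h1 : f' = e ∘ f := funext h
  rw [h1, kf, kf, AlgHom.map_adjoin, Set.range_comp]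
  rfl

theorem mem_icf_map (e : L ≃ₐ[k] L') (h : ∀ i, f' i = e (f i)) (a : L) :
    e a ∈ icf k f' ↔ a ∈ icf k f := by
  have h1 := isIntegral_map_iff e.toAlgHom (kf k f) a
  rw [← kf_map e h] at h1
  exact h1

theorem map_symm (e : L ≃ₐ[k] L') (h : ∀ i, f' i = e (f i)) (i : Fin m) : f i = e.symm (f' i) := by
  rw [h, AlgEquiv.symm_apply_apply]

/-- The isomorphism of the integral closures. -/
def icfMap (e : L ≃ₐ[k] L') (h : ∀ i, f' i = e (f i)) : icf k f ≃ₐ[k] icf k f' where
  toFun a := ⟨e a, (mem_icf_map e h _).2 a.2⟩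
  invFun b := ⟨e.symm b, (mem_icf_map e.symm (map_symm e h) _).2 b.2⟩
  left_inv a := Subtype.ext (e.symm_apply_apply a)
  right_inv b := Subtype.ext (e.apply_symm_apply b)
  map_mul' a b := Subtype.ext (map_mul e (a : L) b)
  map_add' a b := Subtype.ext (map_add e (a : L) b)
  commutes' c := Subtype.ext (e.commutes c)

@[simp] theorem icfMap_coe (e : L ≃ₐ[k] L') (h : ∀ i, f' i = e (f i)) (a : icf k f) :
    ((icfMap e h a : icf k f') : L') = e a := rfl

@[simp] theorem icfMap_symm_coe (e : L ≃ₐ[k] L') (h : ∀ i, f' i = e (f i)) (a : icf k f') :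
    (((icfMap e h).symm a : icf k f) : L) = e.symm a := rfl

/-- The bijection of the points. -/
def ptMap (e : L ≃ₐ[k] L') (h : ∀ i, f' i = e (f i)) :
    (icf k f' →ₐ[k] k) ≃ (icf k f →ₐ[k] k) where
  toFun x := x.comp (icfMap e h).toAlgHom
  invFun y := y.comp (icfMap e h).symm.toAlgHom
  left_inv x := AlgHom.ext fun b => congrArg x ((icfMap e h).apply_symm_apply b)
  right_inv y := AlgHom.ext fun b => congrArg y ((icfMap e h).symm_apply_apply b)

theorem ptMap_apply (e : L ≃ₐ[k] L') (h : ∀ i, f' i = e (f i)) (x : icf k f' →ₐ[k] k)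
    (a : icf k f) : ptMap e h x a = x (icfMap e h a) := rfl

theorem over0_ptMap (e : L ≃ₐ[k] L') (h : ∀ i, f' i = e (f i)) (x : icf k f' →ₐ[k] k) :
    Over0 f (ptMap e h x) ↔ Over0 f' x := by
  have h1 : ∀ i, icfMap e h (icf.X f i) = icf.X f' i := fun i => Subtype.ext (h i).symm
  constructor
  · intro hx i
    rw [← h1]
    exact hx i
  · intro hx i
    rw [ptMap_apply, h1]
    exact hx i

theorem mem_adjoin_map (e : L ≃ₐ[k] L') (h : ∀ i, f' i = e (f i)) (a : L)
    (ha : a ∈ IntermediateField.adjoin k (Set.range f)) :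
    e a ∈ IntermediateField.adjoin k (Set.range f') := by
  have h1 : IntermediateField.adjoin k (Set.range f) ≤
      (IntermediateField.adjoin k (Set.range f')).comap e.toAlgHom := by
    rw [IntermediateField.adjoin_le_iff]
    rintro _ ⟨i, rfl⟩
    change e (f i) ∈ IntermediateField.adjoin k (Set.range f')
    rw [← h]
    exact IntermediateField.subset_adjoin k _ ⟨i, rfl⟩
  exact h1 ha

/-- The isomorphism of the fields `k(f)`. -/
def adjMap (e : L ≃ₐ[k] L') (h : ∀ i, f' i = e (f i)) :
    IntermediateField.adjoin k (Set.range f) ≃+* IntermediateField.adjoin k (Set.range f') where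
  toFun a := ⟨e a, mem_adjoin_map e h _ a.2⟩
  invFun b := ⟨e.symm b, mem_adjoin_map e.symm (map_symm e h) _ b.2⟩
  left_inv a := Subtype.ext (e.symm_apply_apply a)
  right_inv b := Subtype.ext (e.apply_symm_apply b)
  map_mul' a b := Subtype.ext (map_mul e (a : L) b)
  map_add' a b := Subtype.ext (map_add e (a : L) b)

theorem norm_map (e : L ≃ₐ[k] L') (h : ∀ i, f' i = e (f i)) (a : L) :
    ((Algebra.norm (IntermediateField.adjoin k (Set.range f')) (e a) :
      IntermediateField.adjoin k (Set.range f')) : L') =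
    e ((Algebra.norm (IntermediateField.adjoin k (Set.range f)) a :
      IntermediateField.adjoin k (Set.range f)) : L) := by
  have h1 := Algebra.norm_eq_of_equiv_equiv (adjMap e h) e.toRingEquiv
    (RingHom.ext fun c => rfl) a
  rw [h1]
  have h2 : ∀ c : IntermediateField.adjoin k (Set.range f'),
      e (((adjMap e h).symm c : IntermediateField.adjoin k (Set.range f)) : L) = c :=
    fun c => e.apply_symm_apply c
  rw [h2]
  rfl

/-- Transport of the function of local degrees. -/
theorem IsRho.map {r : (icf k f →ₐ[k] k) → ℕ} (hr : IsRho f r) (e : L ≃ₐ[k] L')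
    (h : ∀ i, f' i = e (f i)) : IsRho f' (fun x => r (ptMap e h x)) := by
  refine ⟨?_, fun x => ?_, fun a => ?_⟩
  · have h1 : {x : icf k f' →ₐ[k] k | Over0 f' x} = ptMap e h ⁻¹' {x | Over0 f x} := by
      ext x
      exact (over0_ptMap e h x).symm
    rw [h1]
    exact hr.fin.preimage (ptMap e h).injective.injOn
  · rw [hr.supp, over0_ptMap]
  · obtain ⟨N, hN, h1⟩ := hr.norm ((icfMap e h).symm a)
    refine ⟨icfMap e h N, ?_, fun x hx => ?_⟩
    · rw [icfMap_coe, hN, ← norm_map e h, icfMap_symm_coe, AlgEquiv.apply_symm_apply]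
    · have h2 := h1 (ptMap e h x) ((over0_ptMap e h x).2 hx)
      rw [ptMap_apply] at h2
      rw [h2, ← finprod_comp_equiv (ptMap e h)]
      refine finprod_congr fun y => ?_
      rw [ptMap_apply, AlgEquiv.apply_symm_apply]

/-- The local degree of the image point. -/
theorem rho_map [Infinite k] (e : L ≃ₐ[k] L') (h : ∀ i, f' i = e (f i))
    (x : icf k f' →ₐ[k] k) : rho f' x = rho f (ptMap e h x) := by
  by_cases h1 : ∃ r : (icf k f →ₐ[k] k) → ℕ, IsRho f r
  · obtain ⟨r, hr⟩ := h1
    rw [hr.rho_eq, (hr.map e h).rho_eq]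
  · have h2 : ¬ ∃ r : (icf k f' →ₐ[k] k) → ℕ, IsRho f' r := by
      rintro ⟨r, hr⟩
      exact h1 ⟨_, hr.map e.symm (map_symm e h)⟩
    rw [rho, rho, dif_neg h1, dif_neg h2]

end Congr

section Ker

variable {k L L' S : Type u} [Field k] [Field L] [Field L'] [Algebra k L] [Algebra k L'] {m : ℕ}
  [CommRing S] [Algebra k S]

/-- The field of fractions of the image depends only on the kernel. -/
theorem exists_equiv74 {φ : S →ₐ[k] L} {φ' : S →ₐ[k] L'} (hφ : FracOf φ) (hφ' : FracOf φ')
    (hker : ∀ s, φ s = 0 ↔ φ' s = 0) : ∃ e : L ≃ₐ[k] L', ∀ s, φ' s = e (φ s) := by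
  have hk : ∀ s t, φ s = φ t → φ' s = φ' t := by
    intro s t hst
    rw [← sub_eq_zero, ← map_sub, ← hker, map_sub, hst, sub_self]
  have hk' : ∀ s t, φ' s = φ' t → φ s = φ t := by
    intro s t hst
    rw [← sub_eq_zero, ← map_sub, hker, map_sub, hst, sub_self]
  choose c hc using fun x : φ.range => x.2
  have hc' : ∀ x : φ.range, φ (c x) = x := hc
  let g : φ.range →ₐ[k] L' :=
    { toFun := fun x => φ' (c x)
      map_one' := by
        rw [hk (c 1) 1 (by rw [hc', map_one]; rfl), map_one]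
      map_mul' := fun x y => by
        rw [hk (c (x * y)) (c x * c y) (by rw [hc', map_mul, hc', hc']; rfl), map_mul]
      map_zero' := by
        rw [hk (c 0) 0 (by rw [hc', map_zero]; rfl), map_zero]
      map_add' := fun x y => by
        rw [hk (c (x + y)) (c x + c y) (by rw [hc', map_add, hc', hc']; rfl), map_add]
      commutes' := fun a => by
        rw [hk (c (algebraMap k φ.range a)) (algebraMap k S a)
          (by rw [hc', AlgHom.commutes]; rfl), AlgHom.commutes] }
  have hg : Function.Injective g := fun x y hxy => Subtype.ext (by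
    rw [← hc' x, ← hc' y]
    exact hk' _ _ hxy)
  have hfr : IsFractionRing φ.range L := IsFractionRing.of_field _ _ fun z => by
    obtain ⟨a, b, hb, hab⟩ := hφ z
    exact ⟨⟨φ a, a, rfl⟩, ⟨φ b, b, rfl⟩, (eq_div_iff hb).2 hab⟩
  let ψ : L →ₐ[k] L' := IsFractionRing.liftAlgHom (g := g) hg
  have hψ : ∀ s, ψ (φ s) = φ' s := by
    intro s
    have h1 : ψ (algebraMap φ.range L ⟨φ s, s, rfl⟩) = g ⟨φ s, s, rfl⟩ := by
      change (IsFractionRing.liftAlgHom (g := g) hg : L →ₐ[k] L') _ = _
      rw [IsFractionRing.coe_liftAlgHom, IsFractionRing.lift_algebraMap]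
      rfl
    exact h1.trans (hk _ _ (hc' _))
  have hsurj : Function.Surjective ψ := by
    intro l'
    obtain ⟨a, b, hb, hab⟩ := hφ' l'
    have hb' : φ b ≠ 0 := fun h0 => hb ((hker b).1 h0)
    refine ⟨φ a / φ b, ?_⟩
    rw [map_div₀, hψ, hψ]
    exact (div_eq_iff hb).2 hab.symm
  exact ⟨AlgEquiv.ofBijective ψ ⟨ψ.toRingHom.injective, hsurj⟩, fun s => (hψ s).symm⟩

/-- **`Rho` depends only on the kernel of `φ`.** -/
theorem Rho_congr [Infinite k] {φ : S →ₐ[k] L} {φ' : S →ₐ[k] L'} (hφ : FracOf φ)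
    (hφ' : FracOf φ') (hker : ∀ s, φ s = 0 ↔ φ' s = 0) (res : S →ₐ[k] k) (f : Fin m → S) :
    Rho φ res f = Rho φ' res f := by
  obtain ⟨e, he⟩ := exists_equiv74 hφ hφ' hker
  have h : ∀ i, φ' (f i) = e (φ (f i)) := fun i => he _
  symm
  unfold Rho
  refine finsum_mem_eq_of_bijOn (ptMap e h) ?_ fun x _ => rho_map e h x
  have hD : ∀ x, Doms φ res (fun i => φ (f i)) (ptMap e h x) ↔
      Doms φ' res (fun i => φ' (f i)) x := by
    intro x
    constructor
    · intro hx s
      obtain ⟨a, b, hb, hab, ha⟩ := hx s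
      refine ⟨icfMap e h a, icfMap e h b, hb, ?_, ha⟩
      rw [icfMap_coe, icfMap_coe, ← hab, he, map_mul]
    · intro hx s
      obtain ⟨a, b, hb, hab, ha⟩ := hx s
      refine ⟨(icfMap e h).symm a, (icfMap e h).symm b, ?_, ?_, ?_⟩
      · rw [ptMap_apply, AlgEquiv.apply_symm_apply, hb]
      · rw [icfMap_symm_coe, icfMap_symm_coe, ← hab, he, map_mul, AlgEquiv.symm_apply_apply]
      · rw [ptMap_apply, AlgEquiv.apply_symm_apply, ha]
  refine ⟨fun x hx => ⟨(over0_ptMap e h x).2 hx.1, (hD x).2 hx.2⟩, (ptMap e h).injective.injOn,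
    fun y hy => ⟨(ptMap e h).symm y, ⟨?_, ?_⟩, (ptMap e h).apply_symm_apply y⟩⟩
  · rw [← over0_ptMap e h, Equiv.apply_symm_apply]
    exact hy.1
  · rw [← hD, Equiv.apply_symm_apply]
    exact hy.2

end Ker

end Pool.Agent.TGJ
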