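import Pool.Agent.Lib.TGJ.ResCorr
import Pool.Agent.Lib.TGJ.Dict74

/-!
# TANK G, block C: `Rho φ` depends only on the kernel of `φ` (helper5, from helper74's `Rho_congr`)
-/

set_option autoImplicit false

namespace Pool.Agent.TGJ

universe u

/-- **`Rho φ` depends only on the kernel of `φ`.** -/
theorem rhoCongr (k : Type u) [Field k] [Infinite k] : RhoCongr k := by
  intro S L L' _ _ _ _ _ _ φ φ' res m f hk h h'
  refine Rho_congr h h' (fun s => ?_) res f
  rw [← RingHom.mem_ker, hk, RingHom.mem_ker]

end Pool.Agent.TGJ
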