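import Pool.Agent.Lib.TGJ_h88.Prop

/-!
# TANK G, block C, row R1/R3: prime divisors through `S` and primes of the integral closure of `k[f]`

`A = k[f]` is a polynomial ring, `B = icf k f` its integral closure in `K`, `S = B_x`.
-/

set_option autoImplicit false

namespace Pool.Agent.TGJ

open Pool.Agent.TG (ncl le_ncl ncl_ncl)
open Pool.Agent.TGh4 (Disc ordV IsUnif)
open Pool.Agent.TG51 (valP)
open Pool.Agent.TGJ88

universe u

section

variable {k K : Type u} [Field k] [Field K] [Algebra k K]

/-! ### `S` and `B` -/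

theorem IsDiv.val_eq_one_of_inv {S : Subalgebra k K} {V : ValuationSubring K} (h : IsDiv S V) {c : K}
    (hc : c ∈ S) (hc' : c⁻¹ ∈ S) (h0 : c ≠ 0) : V.valuation c = 1 := by
  have h1 := (V.valuation_le_one_iff _).2 (h.le _ hc)
  have h2 := (V.valuation_le_one_iff _).2 (h.le _ hc')
  rw [map_inv₀] at h2
  refine le_antisymm h1 ?_
  exact (inv_le_one₀ (zero_lt_iff.2 ((Valuation.ne_zero_iff _).2 h0))).1 h2

/-- A prime divisor through the point `x` is a localisation of `A`. -/
theorem IsDiv.of_locx {A : Subalgebra k K} {x : A →ₐ[k] k} {V : ValuationSubring K}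
    (h : IsDiv (locx A x) V) : IsDiv A V where
  le := fun a ha => h.le a (le_locx A x ha)
  loc := fun y hy => by
    obtain ⟨a, ⟨a1, a2, ha2, ha⟩, b, ⟨b1, b2, hb2, hb⟩, hb', e⟩ := h.loc y hy
    have hu : ∀ c : A, x c ≠ 0 → V.valuation (c : K) = 1 := fun c hc =>
      h.val_eq_one_of_inv (le_locx A x c.2) (inv_mem_locx hc) (ne_zero_of_ev hc)
    refine ⟨a1 * b2, mul_mem a1.2 b2.2, b1 * a2, mul_mem b1.2 a2.2, ?_, ?_⟩
    · rw [← hb, map_mul, map_mul, hb', hu a2 ha2, hu b2 hb2, one_mul, one_mul]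
    · rw [← hb, ← ha, ← e]
      ring
  disc := h.disc

theorem isDiv_locx {A : Subalgebra k K} {x : A →ₐ[k] k} {V : ValuationSubring K} (h : IsDiv A V)
    (hx : ∀ c : A, V.valuation (c : K) < 1 → x c = 0) : IsDiv (locx A x) V where
  le := fun y hy => by
    obtain ⟨b, c, hc, e⟩ := hy
    have h1 : V.valuation (c : K) = 1 := by
      refine le_antisymm ((V.valuation_le_one_iff _).2 (h.le _ c.2)) (not_lt.1 fun h2 => ?_)
      exact hc (hx c h2)
    rw [← V.valuation_le_one_iff]
    have h2 : V.valuation y * V.valuation (c : K) = V.valuation (b : K) := by rw [← map_mul, e]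
    rw [h1, mul_one] at h2
    rw [h2]
    exact (V.valuation_le_one_iff _).2 (h.le _ b.2)
  loc := fun y hy => by
    obtain ⟨a, ha, b, hb, hb', e⟩ := h.loc y hy
    exact ⟨a, le_locx A x ha, b, le_locx A x hb, hb', e⟩
  disc := h.disc

/-! ### Powers of the centre -/

theorem IsDiv.pow_iff {A : Subalgebra k K} {V : ValuationSubring K} (h : IsDiv A V)
    (Q : Ideal A) (hQ : ∀ c : A, c ∈ Q ↔ V.valuation (c : K) < 1) {g : A} (hg : (g : K) ≠ 0)
    (n : ℕ) : (∃ s : A, s ∉ Q ∧ s * g ∈ Q ^ n) ↔ (n : ℤ) ≤ ordV V (g : K) := by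
  obtain ⟨π, hπ⟩ := h.disc
  have hle : ∀ a : A, V.valuation (a : K) ≤ 1 := fun a => (V.valuation_le_one_iff _).2 (h.le _ a.2)
  have hnot : ∀ s : A, s ∉ Q ↔ V.valuation (s : K) = 1 := fun s => by
    rw [hQ, not_lt]
    exact ⟨fun h1 => le_antisymm (hle s) h1, fun h1 => h1.ge⟩
  constructor
  · rintro ⟨s, hs, hsg⟩
    let J : ℕ → Ideal A := fun n =>
      { carrier := {c | V.valuation (c : K) ≤ V.valuation π ^ n}
        zero_mem' := by
          change V.valuation ((0 : A) : K) ≤ _
          rw [ZeroMemClass.coe_zero, map_zero]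
          exact zero_le
        add_mem' := fun {a b} ha hb => by
          change V.valuation ((a + b : A) : K) ≤ _
          rw [AddMemClass.coe_add]
          exact (Valuation.map_add _ _ _).trans (max_le ha hb)
        smul_mem' := fun c a ha => by
          change V.valuation ((c * a : A) : K) ≤ _
          rw [MulMemClass.coe_mul, map_mul]
          exact (mul_le_mul' (hle c) ha).trans (one_mul _).le }
    have hJ : ∀ n, Q ^ n ≤ J n := by
      intro n
      induction n with
      | zero =>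
        intro a _
        change V.valuation (a : K) ≤ V.valuation π ^ 0
        rw [pow_zero]
        exact hle a
      | succ n ih =>
        rw [pow_succ, Ideal.mul_le]
        intro r hr c hc
        have h1 : V.valuation (r : K) ≤ V.valuation π ^ n := ih hr
        have h2 : V.valuation (c : K) ≤ V.valuation π := by
          by_cases hc0 : (c : K) = 0
          · rw [hc0, map_zero]
            exact zero_le
          · obtain ⟨m, hm⟩ := hπ.gen _ hc0
            have h3 := (hQ c).1 hc
            rw [hm] at h3 ⊢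
            have h4 : 0 < m := hπ.zpow_lt_one.1 h3
            have h5 := hπ.zpow_le (m := m) (n := 1)
            rw [zpow_one] at h5
            rw [h5]
            omega
        change V.valuation ((r * c : A) : K) ≤ _
        rw [MulMemClass.coe_mul, map_mul, pow_succ]
        exact mul_le_mul' h1 h2
    have h1 : V.valuation ((s * g : A) : K) ≤ V.valuation π ^ n := hJ n hsg
    rw [MulMemClass.coe_mul, map_mul, (hnot s).1 hs, one_mul, hπ.val hg, ← zpow_natCast,
      hπ.zpow_le] at h1
    exact h1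
  · intro hn
    obtain ⟨π', hπ'⟩ : ∃ π' : A, V.valuation (π' : K) = V.valuation π := by
      have hπV : π ∈ V := (V.valuation_le_one_iff _).1 hπ.lt.le
      obtain ⟨a, ha, b, hb, hb', e⟩ := h.loc π hπV
      refine ⟨⟨a, ha⟩, ?_⟩
      change V.valuation a = _
      rw [← e, map_mul, hb', mul_one]
    have hπQ : π' ∈ Q := (hQ π').2 (by rw [hπ']; exact hπ.lt)
    have hπ0 : (π' : K) ≠ 0 := by
      intro h0
      rw [h0, map_zero] at hπ'
      exact hπ.pos.ne hπ'
    have h1 : (g : K) / (π' : K) ^ n ∈ V := by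
      rw [← V.valuation_le_one_iff, map_div₀, map_pow, hπ', hπ.val hg, ← zpow_natCast,
        ← zpow_sub₀ hπ.pos.ne']
      have h2 := hπ.zpow_le (m := ordV V (g : K) - (n : ℤ)) (n := 0)
      rw [zpow_zero] at h2
      rw [h2]
      omega
    obtain ⟨a, ha, s, hs, hs', e⟩ := h.loc _ h1
    refine ⟨⟨s, hs⟩, (hnot _).2 hs', ?_⟩
    have h2 : (⟨s, hs⟩ : A) * g = ⟨a, ha⟩ * π' ^ n := by
      apply Subtype.ext
      change s * (g : K) = a * ((π' ^ n : A) : K)
      rw [SubmonoidClass.coe_pow, ← e]
      have h3 : (π' : K) ^ n ≠ 0 := pow_ne_zero _ hπ0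
      field_simp
    rw [h2]
    exact Ideal.mul_mem_left _ _ (Ideal.pow_mem_pow hπQ n)

/-! ### `k[f]` and its integral closure -/

variable {n : ℕ} {f : Fin n → K}

/-- `f i` in `k[f]`. -/
def kfX (k : Type u) [Field k] {K : Type u} [Field K] [Algebra k K] {n : ℕ} (f : Fin n → K)
    (i : Fin n) : kf k f := ⟨f i, Algebra.subset_adjoin ⟨i, rfl⟩⟩

theorem aevalEquiv_X (hind : AlgebraicIndependent k f) (i : Fin n) :
    hind.aevalEquiv (MvPolynomial.X i) = kfX k f i := by
  apply Subtype.ext
  have h1 := hind.algebraMap_aevalEquiv (MvPolynomial.X i)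
  rw [MvPolynomial.aeval_X] at h1
  exact h1

theorem prime_kfX (hind : AlgebraicIndependent k f) (i : Fin n) : Prime (kfX k f i) := by
  rw [← aevalEquiv_X hind i, MulEquiv.prime_iff]
  exact MvPolynomial.X_prime

theorem isNoetherianRing_kf (f : Fin n → K) : IsNoetherianRing (kf k f) := by
  have : Algebra.FiniteType k (kf k f) := (Subalgebra.fg_iff_finiteType _).1 (icf_fg_kf f)
  exact Algebra.FiniteType.isNoetherianRing k _

theorem isIntegrallyClosed_kf (hind : AlgebraicIndependent k f) : IsIntegrallyClosed (kf k f) :=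
  IsIntegrallyClosed.of_equiv hind.aevalEquiv.toRingEquiv

local instance icfAlg (f : Fin n → K) : Algebra (kf k f) (icf k f) :=
  (Subalgebra.inclusion (kf_le_icf f)).toRingHom.toAlgebra

theorem icfAlg_coe (f : Fin n → K) (a : kf k f) : ((algebraMap (kf k f) (icf k f) a : icf k f) : K)
    = a := rfl

local instance icfTower (f : Fin n → K) : IsScalarTower (kf k f) (icf k f) K :=
  IsScalarTower.of_algebraMap_eq fun _ => rfl

local instance icfInt (f : Fin n → K) : Algebra.IsIntegral (kf k f) (icf k f) := by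
  refine ⟨fun x => ?_⟩
  have hx : IsIntegral (kf k f) (x : K) := x.2
  exact (isIntegral_algHom_iff (IsScalarTower.toAlgHom (kf k f) (icf k f) K)
    Subtype.val_injective).1 hx

local instance icfFaith (f : Fin n → K) : FaithfulSMul (kf k f) (icf k f) :=
  (faithfulSMul_iff_algebraMap_injective _ _).2 fun x y hxy => Subtype.ext (by
    have := congrArg (fun t : icf k f => (t : K)) hxy
    exact this)

/-- `K` is the field of fractions of the integral closure. -/
theorem isFractionRing_icf (hfin : FiniteDimensional (IntermediateField.adjoin k (Set.range f)) K) :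
    IsFractionRing (icf k f) K := by
  refine IsFractionRing.of_field (icf k f) K fun z => ?_
  have h1 : IsAlgebraic (IntermediateField.adjoin k (Set.range f)) z :=
    Algebra.IsAlgebraic.isAlgebraic z
  -- `K₀ = Frac k[f]`
  have hAK : kf k f ≤ (IntermediateField.adjoin k (Set.range f)).toSubalgebra :=
    IntermediateField.algebra_adjoin_le_adjoin k _
  let _ : Algebra (kf k f) (IntermediateField.adjoin k (Set.range f)) :=
    (Subalgebra.inclusion hAK).toRingHom.toAlgebra
  have htow : IsScalarTower (kf k f) (IntermediateField.adjoin k (Set.range f)) K :=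
    IsScalarTower.of_algebraMap_eq fun _ => rfl
  have hfaith : FaithfulSMul (kf k f) (IntermediateField.adjoin k (Set.range f)) :=
    (faithfulSMul_iff_algebraMap_injective _ _).2 fun x y hxy => Subtype.ext (by
      have := congrArg (fun t : IntermediateField.adjoin k (Set.range f) => (t : K)) hxy
      exact this)
  have hfrac : IsFractionRing (kf k f) (IntermediateField.adjoin k (Set.range f)) :=
    IsFractionRing.of_field (kf k f) (IntermediateField.adjoin k (Set.range f)) fun x => by
      obtain ⟨a, ha, c, hc, e⟩ := IntermediateField.mem_adjoin_iff_div.1 x.2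
      exact ⟨⟨a, ha⟩, ⟨c, hc⟩, Subtype.ext e⟩
  have h2 : IsAlgebraic (kf k f) z :=
    (IsFractionRing.isAlgebraic_iff (kf k f) (IntermediateField.adjoin k (Set.range f)) K).2 h1
  obtain ⟨y, hy, hyz⟩ := h2.exists_integral_multiple
  refine ⟨⟨y • z, hyz⟩, ⟨y, kf_le_icf f y.2⟩, ?_⟩
  have hy0 : (y : K) ≠ 0 := fun h0 => hy (Subtype.ext h0)
  change z = (y : K) * z / (y : K)
  rw [mul_div_cancel_left₀ _ hy0]

theorem isIntegrallyClosed_icf [IsFractionRing (icf k f) K] : IsIntegrallyClosed (icf k f) := by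
  rw [isIntegrallyClosed_iff K]
  intro x hx
  have h1 : x ∈ ncl (icf k f) := hx
  rw [icf, ncl_ncl] at h1
  exact ⟨⟨x, h1⟩, rfl⟩

/-- Contraction of primes of height one (going down). -/
theorem comap_eq_span [IsNoetherianRing (icf k f)] (hind : AlgebraicIndependent k f)
    (q : Ideal (icf k f)) [q.IsPrime]
    (hq : q.height = 1) (i : Fin n) (hi : icf.X f i ∈ q) (a : kf k f)
    (ha : algebraMap (kf k f) (icf k f) a ∈ q) : kfX k f i ∣ a := by
  have hic := isIntegrallyClosed_kf hind
  have hnoeth := isNoetherianRing_kf (k := k) f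
  let p : Ideal (kf k f) := q.comap (algebraMap (kf k f) (icf k f))
  have hp : p.IsPrime := Ideal.IsPrime.comap _
  have hlies : q.LiesOver p := ⟨rfl⟩
  have hp0 : p ≠ ⊥ := fun h0 => Ideal.ne_bot_of_height_eq_one hq (Ideal.eq_bot_of_comap_eq_bot h0)
  have hp1 : p.height = 1 := by
    refine le_antisymm ?_ ?_
    · rw [← hq, Ideal.height_eq_height_add_of_liesOver_of_hasGoingDown p q]
      exact le_self_add
    · rw [Order.one_le_iff_ne_zero, Ne, Ideal.height_eq_zero_iff_eq_bot]
      exact hp0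
  have hpr := prime_kfX hind i
  have hP : (Ideal.span {kfX k f i}).IsPrime := (Ideal.span_singleton_prime hpr.ne_zero).2 hpr
  have hle : Ideal.span {kfX k f i} ≤ p := by
    rw [Ideal.span_singleton_le_iff_mem]
    exact hi
  have heq : Ideal.span {kfX k f i} = p := by
    by_contra hne
    have h1 := TG51.eq_bot_of_lt hp1 (lt_of_le_of_ne hle hne)
    rw [Ideal.span_singleton_eq_bot] at h1
    exact hpr.ne_zero h1
  have h2 : a ∈ Ideal.span {kfX k f i} := by
    rw [heq]
    exact ha
  exact Ideal.mem_span_singleton.1 h2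

/-- A prime over `(f i)` has height one (incomparability). -/
theorem height_eq_one (hind : AlgebraicIndependent k f) (Q : Ideal (icf k f)) [Q.IsPrime]
    (i : Fin n) (hQ : ∀ a : kf k f, algebraMap (kf k f) (icf k f) a ∈ Q ↔ kfX k f i ∣ a) :
    Q.height = 1 := by
  have hpr := prime_kfX hind i
  refine TG51.height_eq_one_of_forall ?_ ?_
  · intro h0
    have h1 := (hQ (kfX k f i)).2 dvd_rfl
    rw [h0, Ideal.mem_bot] at h1
    apply hpr.ne_zero
    apply Subtype.ext
    have h2 := congrArg (fun t : icf k f => (t : K)) h1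
    exact h2
  · intro Q' hQ' hlt
    by_contra hne
    have h1 : Q'.comap (algebraMap (kf k f) (icf k f)) < Q.comap (algebraMap (kf k f) (icf k f)) :=
      Ideal.comap_lt_comap_of_integral_mem_sdiff hlt.le
        (SetLike.exists_of_lt hlt).choose_spec (Algebra.IsIntegral.isIntegral _)
    have h2 : Q'.comap (algebraMap (kf k f) (icf k f)) ≠ ⊥ := fun h0 =>
      hne (Ideal.eq_bot_of_comap_eq_bot h0)
    have hp' : (Q'.comap (algebraMap (kf k f) (icf k f))).IsPrime := Ideal.IsPrime.comap _
    obtain ⟨a, ha, ha0⟩ := (Submodule.ne_bot_iff _).1 h2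
    -- `f i ∉ Q'`
    have h3 : kfX k f i ∉ Q'.comap (algebraMap (kf k f) (icf k f)) := by
      intro h3
      apply not_le_of_gt h1
      intro c hc
      obtain ⟨d, rfl⟩ := (hQ c).1 hc
      exact Ideal.mul_mem_right _ _ h3
    -- every power of `f i` divides `a`
    have h4 : ∀ N : ℕ, ∀ a ∈ Q'.comap (algebraMap (kf k f) (icf k f)), kfX k f i ^ N ∣ a := by
      intro N
      induction N with
      | zero => intro a _; rw [pow_zero]; exact one_dvd _
      | succ N ih =>
        intro a ha
        obtain ⟨d, rfl⟩ := (hQ a).1 (h1.le ha)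
        have hd : d ∈ Q'.comap (algebraMap (kf k f) (icf k f)) :=
          (hp'.mem_or_mem ha).resolve_left h3
        rw [pow_succ']
        exact mul_dvd_mul_left _ (ih d hd)
    have hnoeth := isNoetherianRing_kf (k := k) f
    obtain ⟨N, hN⟩ := FiniteMultiplicity.of_not_isUnit hpr.not_isUnit ha0
    exact hN (h4 (N + 1) a ha)

end

/-! ### The rows D1 - D4 -/

section NPt

variable {k K : Type u} [Field k] [Field K] [Algebra k K] {S : Subalgebra k K} {res : S →ₐ[k] k}
  {n : ℕ} {f : Fin n → S}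

theorem NPt.isFractionRing_icf (h : NPt S res) (hf : Proper S.val res f) :
    IsFractionRing (icf k fun i => (f i : K)) K :=
  TGJ.isFractionRing_icf (h.finiteDimensional hf)

/-- A prime divisor through `S` is a localisation of the integral closure of `k[f]`. -/
theorem IsDiv.icf {x : icf k (fun i => (f i : K)) →ₐ[k] k} (hx : locx _ x = S)
    {V : ValuationSubring K} (hV : IsDiv S V) : IsDiv (TGJ.icf k fun i => (f i : K)) V := by
  refine IsDiv.of_locx (x := x) ?_
  rw [hx]
  exact hV

/-- **D1**. -/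
theorem NPt.dvd_of_isDiv [PerfectField k] (h : NPt S res) (hn : Algebra.trdeg k K = n) (hf : Proper S.val res f)
    {V : ValuationSubring K} (hV : IsDiv S V) (i₀ : Fin n) (hg : f i₀ ∈ cen S V) {a : K}
    (ha : a ∈ kf k fun i => (f i : K)) (hav : V.valuation a < 1) :
    ∃ b ∈ kf k fun i => (f i : K), a = f i₀ * b := by
  obtain ⟨x, -, -, hx, -⟩ := h.exists_pt hf
  have hB := hV.icf hx
  have := h.isFractionRing_icf hf
  have hno : IsNoetherianRing (TGJ.icf k fun i => (f i : K)) :=
    ncl_noeth h.fg_top _ (icf_fg_kf _) (h.isAlgebraic hf)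
  obtain ⟨b, hb⟩ := comap_eq_span (h.algebraicIndependent hn hf)
    (cen (TGJ.icf k fun i => (f i : K)) V) hB.height i₀ ((hB.mem_cen _).2 ((hV.mem_cen _).1 hg))
    ⟨a, ha⟩ ((hB.mem_cen _).2 hav)
  exact ⟨b, b.2, congrArg (fun t : kf k fun i => (f i : K) => (t : K)) hb⟩

/-- **D2**. -/
theorem NPt.exists_isDiv_of_prime [PerfectField k] (h : NPt S res) (hn : Algebra.trdeg k K = n)
    (hf : Proper S.val res f) {x : TGJ.icf k (fun i => (f i : K)) →ₐ[k] k} (hx : locx _ x = S)
    (i₀ : Fin n) (Q : Ideal (TGJ.icf k fun i => (f i : K))) [Q.IsPrime]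
    (hQx : ∀ c ∈ Q, x c = 0)
    (hQ : ∀ a : TGJ.icf k fun i => (f i : K), (a : K) ∈ (kf k fun i => (f i : K)) →
      (a ∈ Q ↔ ∃ b ∈ kf k fun i => (f i : K), (a : K) = f i₀ * b)) :
    ∃ V : ValuationSubring K, IsDiv S V ∧
      ∀ c : TGJ.icf k fun i => (f i : K), c ∈ Q ↔ V.valuation (c : K) < 1 := by
  have hfr := h.isFractionRing_icf hf
  have hno : IsNoetherianRing (TGJ.icf k fun i => (f i : K)) :=
    ncl_noeth h.fg_top _ (icf_fg_kf _) (h.isAlgebraic hf)
  have hic : IsIntegrallyClosed (TGJ.icf k fun i => (f i : K)) := isIntegrallyClosed_icf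
  have hht : Q.height = 1 := by
    refine height_eq_one (h.algebraicIndependent hn hf) Q i₀ fun a => ?_
    rw [hQ _ a.2]
    constructor
    · rintro ⟨b, hb, e⟩
      exact ⟨⟨b, hb⟩, Subtype.ext e⟩
    · rintro ⟨b, e⟩
      exact ⟨b, b.2, congrArg (fun t : kf k fun i => (f i : K) => (t : K)) e⟩
  have hd : IsDiv (TGJ.icf k fun i => (f i : K)) (valP K Q hht) := isDiv_valP Q hht
  have hc : ∀ c : TGJ.icf k fun i => (f i : K), c ∈ Q ↔ (valP K Q hht).valuation (c : K) < 1 := by
    intro c
    rw [← hd.mem_cen, cen_valP]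
  refine ⟨valP K Q hht, ?_, hc⟩
  have h1 := isDiv_locx (x := x) hd fun c hcv => hQx c ((hc c).2 hcv)
  rw [hx] at h1
  exact h1

/-- **D3**. -/
theorem IsDiv.eq_of_icf {x : TGJ.icf k (fun i => (f i : K)) →ₐ[k] k} (hx : locx _ x = S)
    {V V' : ValuationSubring K} (hV : IsDiv S V) (hV' : IsDiv S V')
    (h : ∀ c ∈ TGJ.icf k (fun i => (f i : K)), V.valuation c < 1 ↔ V'.valuation c < 1) :
    V = V' := by
  refine (hV.icf hx).eq_of_cen (hV'.icf hx) ?_
  ext c
  rw [(hV.icf hx).mem_cen, (hV'.icf hx).mem_cen]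
  exact h c c.2

/-- **D4**. -/
theorem IsDiv.ord_iff {x : TGJ.icf k (fun i => (f i : K)) →ₐ[k] k} (hx : locx _ x = S)
    {V : ValuationSubring K} (hV : IsDiv S V) (Q : Ideal (TGJ.icf k fun i => (f i : K)))
    (hQ : ∀ c : TGJ.icf k fun i => (f i : K), c ∈ Q ↔ V.valuation (c : K) < 1)
    {g : TGJ.icf k fun i => (f i : K)} (hg : (g : K) ≠ 0) (N : ℕ) :
    (∃ s : TGJ.icf k fun i => (f i : K), s ∉ Q ∧ s * g ∈ Q ^ N) ↔ (N : ℤ) ≤ ordV V (g : K) :=
  (hV.icf hx).pow_iff Q hQ hg N

theorem NPt.param_ne_zero (h : NPt S res) (hn : Algebra.trdeg k K = n)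
    (hf : Proper S.val res f) (i₀ : Fin n) : (f i₀ : K) ≠ 0 :=
  (h.algebraicIndependent hn hf).ne_zero i₀

end NPt

end Pool.Agent.TGJ
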