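import Pool.Agent.Lib.TGJ.Iface

/-!
# TANK G, block C: tools for the assembly (TG_JETS_h97.md, section 4)
-/

set_option autoImplicit false

namespace Pool.Agent.TGJ.C97

open Pool.Agent.TGJ Pool.Agent.TGh4
open scoped WithZero

universe u

variable {k : Type u} [Field k]

section

variable {L S : Type u} [Field L] [Algebra k L] [CommRing S] [Algebra k S]

theorem proper_iff_cons {φ : S →ₐ[k] L} {res : S →ₐ[k] k} {m : ℕ} {f : Fin (m + 1) → S}
    (i : Fin (m + 1)) :
    Proper φ res (Fin.cons (f i) (f ∘ i.succAbove) : Fin (m + 1) → S) ↔ Proper φ res f := by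
  have key : ∀ P : S → Prop, (∀ j, P ((Fin.cons (f i) (f ∘ i.succAbove) : Fin (m + 1) → S) j)) ↔
      ∀ j, P (f j) := by
    intro P
    rw [Fin.forall_fin_succ]
    simp only [Fin.cons_zero, Fin.cons_succ, Function.comp]
    constructor
    · rintro ⟨h0, h⟩ j
      rcases Fin.eq_self_or_eq_succAbove i j with rfl | ⟨l, rfl⟩
      · exact h0
      · exact h l
    · exact fun h => ⟨h i, fun l => h _⟩
  unfold Proper
  rw [key (fun s => res s = 0)]
  constructor
  · rintro ⟨h0, h⟩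
    exact ⟨h0, fun Q hQ hk hf => h Q hQ hk ((key (fun s => s ∈ Q)).2 hf)⟩
  · rintro ⟨h0, h⟩
    exact ⟨h0, fun Q hQ hk hf => h Q hQ hk ((key (fun s => s ∈ Q)).1 hf)⟩

end

variable {K : Type u} [Field K] [Algebra k K] {S : Subalgebra k K} {res : S →ₐ[k] k}

theorem isOrd_of_div {V : ValuationSubring K} (h : IsDiv S V) : IsOrd V.toSubring (ordV V) where
  mul := fun _ _ hx hy => Pool.Agent.TGh4.ordV_mul V hx hy
  mem := fun _ hx => Pool.Agent.TGh4.mem_iff h.disc hx

theorem coe_update {n : ℕ} (f : Fin n → S) (i : Fin n) (G : S) :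
    (fun j => ((Function.update f i G j : S) : K)) =
      Function.update (fun j => (f j : K)) i (G : K) := by
  funext j
  by_cases h : j = i
  · subst h; simp
  · simp [h]

theorem ramV_update {V : ValuationSubring K} (h : IsDiv S V) {n : ℕ} {f : Fin n → S}
    (hD : HasD k V.toSubring (fun i => (f i : K))) {D : Fin n → Derivation k K K}
    (hf : Dual (fun i => (f i : K)) D) (i : Fin n) (G : S) (hG : D i G ≠ 0) :
    (ramV V (Function.update f i G) : ℤ) = ramV V f + ordV V (D i G) := by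
  unfold ramV
  rw [coe_update]
  exact rram_update (isOrd_of_div h) (fun j => h.le _ (f j).2) hD hf i (h.le _ G.2) hG

theorem ker_toRes (S : Subalgebra k K) (V : ValuationSubring K) :
    RingHom.ker (toRes S V) = cen S V := by
  ext a
  rw [RingHom.mem_ker]
  exact Ideal.algebraMap_residueField_eq_zero

theorem ordV_unit {V : ValuationSubring K} (hS : NPt S res) (h : IsDiv S V) {η : S}
    (hη : res η ≠ 0) : ordV V (η : K) = 0 := by
  have h0 : (η : K) ≠ 0 := by
    intro h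
    apply hη
    rw [show η = 0 from Subtype.ext h, map_zero]
  have h1 := (Pool.Agent.TGh4.mem_iff h.disc h0).1 (h.le _ η.2)
  have h2 := (Pool.Agent.TGh4.mem_iff h.disc (inv_ne_zero h0)).1 (h.le _ (hS.inv η hη))
  have h3 := Pool.Agent.TGh4.ordV_mul V h0 (inv_ne_zero h0)
  rw [mul_inv_cancel₀ h0, Pool.Agent.TGh4.ordV_one] at h3
  omega

theorem res_cen {V : ValuationSubring K} (hS : NPt S res) (h : IsDiv S V) {a : S}
    (ha : a ∈ cen S V) : res a = 0 := by
  by_contra h0
  have h1 : (⟨(a : K)⁻¹, hS.inv a h0⟩ : S) * a = 1 := by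
    apply Subtype.ext
    push_cast
    apply inv_mul_cancel₀
    intro h2
    apply h0
    rw [show a = 0 from Subtype.ext h2, map_zero]
  have h2 : (1 : S) ∈ cen S V := h1 ▸ Ideal.mul_mem_left _ _ ha
  exact (cen_prime S V).ne_top ((Ideal.eq_top_iff_one _).2 h2)

theorem mem_cen_iff {V : ValuationSubring K} (h : IsDiv S V) {a : S} (ha : a ≠ 0) :
    a ∈ cen S V ↔ 0 < ordV V (a : K) := by
  rw [mem_cen h.le, Pool.Agent.TGh4.lt_one_iff h.disc (fun h0 => ha (Subtype.ext h0))]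

/-- The intersection number as a finite sum. -/
theorem finsum_eq {M : Type*} [AddCommMonoid M] (T : Finset (ValuationSubring K))
    (hT : ∀ V ∈ T, IsDiv S V) (g : ValuationSubring K → M)
    (hg : ∀ V, IsDiv S V → g V ≠ 0 → V ∈ T) :
    ∑ᶠ V ∈ {V : ValuationSubring K | IsDiv S V}, g V = ∑ V ∈ T, g V := by
  refine finsum_mem_eq_sum_of_inter_support_eq g ?_
  ext V
  simp only [Set.mem_inter_iff, Set.mem_ofPred_eq, Function.mem_support, Finset.mem_coe]
  exact ⟨fun h => ⟨hg V h.1 h.2, h.2⟩, fun h => ⟨hT V h.1, h.2⟩⟩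

theorem IR_eq {m n : ℕ} (w : Fin m → S) (f : Fin n → S) (T : Finset (ValuationSubring K))
    (hT : ∀ V ∈ T, IsDiv S V) (hg : ∀ V, IsDiv S V → ramV V f ≠ 0 → V ∈ T) :
    IR S res w f = ∑ V ∈ T, ramV V f * RhoV S V res w :=
  finsum_eq T hT _ fun V hV h => hg V hV (left_ne_zero_of_mul h)

theorem mov_mono {F F' : Set K} {𝒱 𝒱' : Set (ValuationSubring K)} {N : ℕ} {a : Fin N → k}
    (h : Mov S F 𝒱 a) (hs : Auts S F 𝒱 ⊆ Auts S F' 𝒱') : Mov S F' 𝒱' a := by
  refine Set.Infinite.mono ?_ h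
  rintro b ⟨g, hg, e⟩
  exact ⟨g, hs hg, e⟩

/-- Common denominators. -/
theorem exists_common {w : Type} [Fintype w] (v : w → Valuation S ℤᵐ⁰) (X : Finset K)
    (h : ∀ j, ∀ x ∈ X, ∃ b c : S, v j b ≠ 0 ∧ (b : K) * x = c) :
    ∃ b : S, (∀ j, v j b ≠ 0) ∧ ∀ x ∈ X, ∃ c : S, (b : K) * x = c := by
  classical
  let I : Ideal S :=
    { carrier := {b | ∀ x ∈ X, ∃ c : S, (b : K) * x = c}
      add_mem' := by
        intro a b ha hb x hx
        obtain ⟨c, hc⟩ := ha x hx
        obtain ⟨d, hd⟩ := hb x hx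
        exact ⟨c + d, by push_cast; rw [add_mul, hc, hd]⟩
      zero_mem' := fun x _ => ⟨0, by simp⟩
      smul_mem' := by
        intro a b hb x hx
        obtain ⟨c, hc⟩ := hb x hx
        exact ⟨a * c, by rw [smul_eq_mul]; push_cast; rw [mul_assoc, hc]⟩ }
  have hsupp : ∀ j, ((v j).supp).IsPrime := fun j => inferInstance
  have h1 : ∀ j, ¬ I ≤ (v j).supp := by
    intro j hle
    choose! b c hb hc using h j
    have h2 : (∏ x ∈ X, b x) ∈ I := by
      intro x hx
      rw [← Finset.mul_prod_erase X b hx]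
      refine ⟨c x * ∏ y ∈ X.erase x, b y, ?_⟩
      have h3 := hc x hx
      push_cast
      rw [← h3]
      ring
    have h3 := hle h2
    rw [Valuation.mem_supp_iff, map_prod] at h3
    obtain ⟨x, hx, h4⟩ := Finset.prod_eq_zero_iff.1 h3
    exact hb x hx h4
  rcases isEmpty_or_nonempty w with hw | ⟨⟨j0⟩⟩
  · choose c hc using fun (x : K) => (⟨0, by simp⟩ : ∃ c : S, ((0 : S) : K) * x = c)
    exact ⟨0, fun j => (hw.false j).elim, fun x _ => ⟨c x, hc x⟩⟩
  have h2 : ¬ (I : Set S) ⊆ ⋃ j ∈ ((Finset.univ : Finset w) : Set w), ((v j).supp : Set S) := by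
    rw [Ideal.subset_union_prime j0 j0 fun i _ _ _ => hsupp i]
    rintro ⟨j, -, hj⟩
    exact h1 j hj
  obtain ⟨b, hb, hb'⟩ := Set.not_subset.1 h2
  refine ⟨b, fun j hj => hb' ?_, hb⟩
  simp only [Set.mem_iUnion]
  exact ⟨j, by simp, hj⟩

end Pool.Agent.TGJ.C97

namespace Pool.Agent.TGJ

open Pool.Agent.TGh4

universe u

/-- Every non-zero element of a prime is contained in a prime divisor below it (helper51). -/
def DivLe (k K : Type u) [Field k] [Field K] [Algebra k K] : Prop :=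
  ∀ (S : Subalgebra k K) (res : S →ₐ[k] k), NPt S res → ∀ q : Ideal S, q.IsPrime →
    ∀ g : S, g ∈ q → g ≠ 0 → ∃ V, IsDiv S V ∧ g ∈ cen S V ∧ cen S V ≤ q

/-- Local degrees are positive (helper82, helper88). -/
def RhoPos (k K : Type u) [Field k] [Field K] [Algebra k K] : Prop :=
  IsAlgClosed k → ∀ (S : Subalgebra k K) (res : S →ₐ[k] k), NPt S res → ∀ n : ℕ,
    Algebra.trdeg k K = (n : ℕ) → ∀ f : Fin n → S, Proper S.val res f → 0 < Rho S.val res f

/-- Invariance under `Auts` (helper94). -/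
def RamInv (k K : Type u) [Field k] [Field K] [Algebra k K] : Prop :=
  ∀ (S : Subalgebra k K) (res : S →ₐ[k] k), NPt S res → ∀ (F : Set K)
    (𝒱 : Set (ValuationSubring K)), ∀ g ∈ Auts S F 𝒱, ∀ V : ValuationSubring K,
    (IsDiv S V ↔ IsDiv S (V.comap (g.1 : K →+* K))) ∧ ∀ (n : ℕ) (f : Fin n → S),
      (∀ j, g.1 (f j : K) = f j) → IsDiv S V → ramV (V.comap (g.1 : K →+* K)) f = ramV V f

end Pool.Agent.TGJ
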