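import Pool.Agent.Lib.TGJ.TrDiv
import Pool.Agent.Lib.TGJ.ThmC1

/-!
# R5: the input `DivLe` of THEOREM C
-/

set_option autoImplicit false

namespace Pool.Agent.TGJ

universe u

theorem divLe (k K : Type u) [Field k] [Field K] [Algebra k K] : DivLe k K := by
  intro S res hS q hq g hg hg0
  exact hS.exists_isDiv_le q g hg hg0

end Pool.Agent.TGJ
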