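import Pool.Agent.Lib.TGJ.Iface
import Pool.Agent.Lib.TG_h76.Lem2

/-!
# TANK G, block C, row R6: LEMMA 2 for `K` and for prime divisors (helper76)
-/

set_option autoImplicit false

namespace Pool.Agent.TGJ

open Pool.Agent.TG (ncl Ov ZDim)
open Pool.Agent.TGh4 (Disc ordV)
open Pool.Agent.TGh76 (unique_coeffV)
open scoped WithZero

universe u

section Ord

theorem ordZ_anti {x y : ℤᵐ⁰} (hx : x ≠ 0) (h : x ≤ y) : ordZ y ≤ ordZ x :=
  Pool.Agent.TGh76.ordZ_anti hx h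

theorem ordZ_pow {x : ℤᵐ⁰} (hx0 : x ≠ 0) (hx : x ≤ 1) (n : ℕ) : ordZ (x ^ n) = n * ordZ x :=
  Pool.Agent.TGh76.ordZ_pow hx0 hx n

end Ord

section Perm

variable {k : Type u} [Field k] {S L : Type u} [CommRing S] [Algebra k S] [Field L] [Algebra k L]

theorem Proper.perm {φ : S →ₐ[k] L} {res : S →ₐ[k] k} {m : ℕ} {f : Fin m → S}
    (h : Proper φ res f) (σ : Equiv.Perm (Fin m)) : Proper φ res (f ∘ σ) := by
  refine ⟨fun i => h.1 (σ i), fun Q hQ hk hf => h.2 Q hQ hk fun i => ?_⟩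
  have h1 := hf (σ.symm i)
  rwa [Function.comp_apply, Equiv.apply_symm_apply] at h1

omit [CommRing S] in
theorem update_eq_cons_comp {m : ℕ} (f : Fin (m + 1) → S) (i : Fin (m + 1)) (h : S) :
    Function.update f i h = (Fin.cons h (f ∘ i.succAbove) : Fin (m + 1) → S) ∘ i.cycleRange := by
  rw [Fin.cons_comp_cycleRange]
  funext j
  refine Fin.succAboveCases i ?_ (fun l => ?_) j
  · rw [Function.update_self, Fin.insertNth_apply_same]
  · rw [Function.update_of_ne (Fin.succAbove_ne i l), Fin.insertNth_apply_succAbove]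
    rfl

omit [CommRing S] in
theorem eq_cons_comp {m : ℕ} (f : Fin (m + 1) → S) (i : Fin (m + 1)) :
    f = (Fin.cons (f i) (f ∘ i.succAbove) : Fin (m + 1) → S) ∘ i.cycleRange := by
  conv_lhs => rw [← Function.update_eq_self i f]
  exact update_eq_cons_comp f i (f i)

theorem proper_update_iff {φ : S →ₐ[k] L} {res : S →ₐ[k] k} {m : ℕ} (f : Fin (m + 1) → S)
    (i : Fin (m + 1)) (h : S) : Proper φ res (Function.update f i h) ↔
      Proper φ res (Fin.cons h (f ∘ i.succAbove) : Fin (m + 1) → S) := by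
  rw [update_eq_cons_comp]
  constructor
  · intro h1
    have h2 := h1.perm i.cycleRange.symm
    have h3 : ((Fin.cons h (f ∘ i.succAbove) : Fin (m + 1) → S) ∘ i.cycleRange) ∘
        i.cycleRange.symm = (Fin.cons h (f ∘ i.succAbove) : Fin (m + 1) → S) := by
      funext j
      simp
    rwa [h3] at h2
  · exact fun h1 => h1.perm _

theorem rho_update (hPerm : Perm k) {φ : S →ₐ[k] L} {res : S →ₐ[k] k} {m : ℕ}
    (f : Fin (m + 1) → S) (i : Fin (m + 1)) (h : S) : Rho φ res (Function.update f i h) =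
      Rho φ res (Fin.cons h (f ∘ i.succAbove) : Fin (m + 1) → S) := by
  rw [update_eq_cons_comp]
  exact hPerm S L φ res (m + 1) _ _

theorem rho_eq_cons (hPerm : Perm k) {φ : S →ₐ[k] L} {res : S →ₐ[k] k} {m : ℕ}
    (f : Fin (m + 1) → S) (i : Fin (m + 1)) : Rho φ res f =
      Rho φ res (Fin.cons (f i) (f ∘ i.succAbove) : Fin (m + 1) → S) := by
  rw [← rho_update hPerm, Function.update_eq_self]

/-- The conclusion of LEMMA 2 from the values at the places. -/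
theorem concl_of_hasCv (hPerm : Perm k) {φ : S →ₐ[k] L} {res : S →ₐ[k] k} {m : ℕ}
    (f : Fin (m + 1) → S) (i : Fin (m + 1)) {h : S} {N : ℕ} (hf : Proper φ res f)
    (hh : res h = 0) {J : Type} [Fintype J] {μ : J → ℕ} {v : J → Valuation S ℤᵐ⁰}
    (hle : ∀ j a, v j a ≤ 1)
    (hprop : ∀ g : S, res g = 0 →
      (Proper φ res (Fin.cons g (f ∘ i.succAbove) : Fin (m + 1) → S) ↔ ∀ j, v j g ≠ 0))
    (hrho : ∀ g : S, res g = 0 → (∀ j, v j g ≠ 0) →
      Rho φ res (Fin.cons g (f ∘ i.succAbove) : Fin (m + 1) → S) = ∑ j, μ j * ordZ (v j g))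
    (hv : ∀ j, v j (f i) ^ (N + 1) < v j h) :
    Proper φ res (Function.update f i h) ∧
      Rho φ res (Function.update f i h) ≤ (N + 1) * Rho φ res f := by
  have hfi : ∀ j, v j (f i) ≠ 0 := by
    refine (hprop (f i) (hf.1 i)).1 ?_
    have h1 := hf
    rw [eq_cons_comp f i] at h1
    have h2 := h1.perm i.cycleRange.symm
    have h3 : ((Fin.cons (f i) (f ∘ i.succAbove) : Fin (m + 1) → S) ∘ i.cycleRange) ∘
        i.cycleRange.symm = (Fin.cons (f i) (f ∘ i.succAbove) : Fin (m + 1) → S) := by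
      funext j
      simp
    rwa [h3] at h2
  have hne : ∀ j, v j h ≠ 0 := fun j h0 => by
    have h1 := hv j
    rw [h0] at h1
    exact not_lt_zero h1
  refine ⟨(proper_update_iff f i h).2 ((hprop h hh).2 hne), ?_⟩
  rw [rho_update hPerm, rho_eq_cons hPerm f i, hrho h hh hne, hrho (f i) (hf.1 i) hfi,
    Finset.mul_sum]
  refine Finset.sum_le_sum fun j _ => ?_
  have h1 : ordZ (v j h) ≤ (N + 1) * ordZ (v j (f i)) := by
    rw [← ordZ_pow (hfi j) (hle j _)]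
    exact ordZ_anti (pow_ne_zero _ (hfi j)) (hv j).le
  calc μ j * ordZ (v j h) ≤ μ j * ((N + 1) * ordZ (v j (f i))) := Nat.mul_le_mul_left _ h1
    _ = (N + 1) * (μ j * ordZ (v j (f i))) := by ring

end Perm

section Auts

variable {k K : Type u} [Field k] [Field K] [Algebra k K] {S : Subalgebra k K} {res : S →ₐ[k] k}

theorem res_const (c : k) : res (algebraMap k S c) = c := by
  rw [AlgHom.commutes]
  rfl

theorem NPt.res_ne_zero_iff (hS : NPt S res) (a : S) :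
    res a ≠ 0 ↔ (a : K) ≠ 0 ∧ (a : K)⁻¹ ∈ S := by
  constructor
  · intro h
    refine ⟨fun h0 => h ?_, hS.inv a h⟩
    have h1 : a = 0 := Subtype.ext h0
    rw [h1, map_zero]
  · rintro ⟨h0, hi⟩ h1
    have h2 : a * ⟨(a : K)⁻¹, hi⟩ = 1 := Subtype.ext (mul_inv_cancel₀ h0)
    have h3 := congrArg res h2
    rw [map_mul, h1, zero_mul, map_one] at h3
    exact zero_ne_one h3

/-- The inverse of `τ` on `S`. -/
def back (S : Subalgebra k K) (τ : K ≃+* K) (hτ : ∀ x, x ∈ S ↔ τ x ∈ S) : S →+* S where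
  toFun a := ⟨τ.symm a, by rw [hτ, RingEquiv.apply_symm_apply]; exact a.2⟩
  map_one' := Subtype.ext (map_one τ.symm)
  map_mul' a b := Subtype.ext (map_mul τ.symm (a : K) b)
  map_zero' := Subtype.ext (map_zero τ.symm)
  map_add' a b := Subtype.ext (map_add τ.symm (a : K) b)

theorem coe_back (τ : K ≃+* K) (hτ : ∀ x, x ∈ S ↔ τ x ∈ S) (a : S) :
    ((back S τ hτ a : S) : K) = τ.symm a := rfl

theorem NPt.res_back (hS : NPt S res) (τ : K ≃+* K) (hτ : ∀ x, x ∈ S ↔ τ x ∈ S) (a : S) :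
    res (back S τ hτ a) = 0 ↔ res a = 0 := by
  rw [← not_iff_not, ← ne_eq, ← ne_eq, hS.res_ne_zero_iff, hS.res_ne_zero_iff, coe_back, hτ,
    map_inv₀, RingEquiv.apply_symm_apply]
  simp

theorem NPt.isCv_back (hS : NPt S res) (τ : K ≃+* K) (hτ : ∀ x, x ∈ S ↔ τ x ∈ S)
    {v : Valuation S ℤᵐ⁰} (hv : IsCv res v) : IsCv res (v.comap (back S τ hτ)) where
  le a := hv.le _
  lt a ha := hv.lt _ ((hS.res_back τ hτ a).2 ha)
  one a ha := hv.one _ fun h => ha ((hS.res_back τ hτ a).1 h)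
  ne := by
    obtain ⟨a, ha, hva⟩ := hv.ne
    have h1 : back S τ hτ ⟨τ a, (hτ a).1 a.2⟩ = a := Subtype.ext (by
      rw [coe_back]
      exact RingEquiv.symm_apply_apply τ (a : K))
    refine ⟨⟨τ a, (hτ a).1 a.2⟩, ?_, ?_⟩
    · rw [← hS.res_back τ hτ, h1]
      exact ha
    · rw [Valuation.comap_apply, h1]
      exact hva

/-- The perturbation. -/
def pert (t h' ε : S) {N : ℕ} (a : Fin N → k) : S :=
  h' + ε * ∑ j : Fin N, algebraMap k S (a j) * t ^ (j.1 + 1)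

theorem back_pert (τ : K ≃+* K) (hτ : ∀ x, x ∈ S ↔ τ x ∈ S) (σ : k ≃+* k)
    (hσ : ∀ c : k, τ (algebraMap k K c) = algebraMap k K (σ c)) {t h' ε : S} (ht : τ t = t)
    (hh' : τ h' = h') (hε : τ ε = ε) {N : ℕ} (a : Fin N → k) :
    back S τ hτ (pert t h' ε fun i => σ (a i)) = pert t h' ε a := by
  apply Subtype.ext
  rw [coe_back, RingEquiv.symm_apply_eq]
  unfold pert
  push_cast
  rw [map_add, map_mul, map_sum, hh', hε]
  congr 2
  refine Finset.sum_congr rfl fun j _ => ?_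
  rw [map_mul, map_pow, ht]
  congr 1
  exact (hσ (a j)).symm

/-- A vector with infinitely many conjugates is not bad. -/
theorem good_of_mov {F : Set K} {𝒱 : Set (ValuationSubring K)}
    {Pl Ql : Set (Valuation S ℤᵐ⁰)} (hcv : ∀ v ∈ Pl, IsCv res v) (hQl : Ql.Finite)
    (hPQ : ∀ v' ∈ Pl, ∃ v ∈ Ql, v'.IsEquiv v) (hQP : ∀ v ∈ Ql, v ∈ Pl)
    (hst : ∀ g (hg : g ∈ Auts S F 𝒱), ∀ v ∈ Pl, v.comap (back S g.1 hg.2.1) ∈ Pl)
    {t h' ε : S} (ht : res t = 0) (htv : ∀ v ∈ Pl, v t ≠ 0) (htF : (t : K) ∈ F)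
    (hh'F : (h' : K) ∈ F) (hεF : (ε : K) ∈ F) (hε : res ε ≠ 0) {N : ℕ} {a : Fin N → k}
    (hmov : Mov S F 𝒱 a) : ∀ v ∈ Pl, v t ^ (N + 1) < v (pert t h' ε a) := by
  by_contra hcon
  push Not at hcon
  obtain ⟨v₀, hv₀, hle₀⟩ := hcon
  let Bad : Set (Fin N → k) := {b | ∃ v ∈ Pl, v (pert t h' ε b) ≤ v t ^ (N + 1)}
  have hfin : Bad.Finite := by
    have hsub : Bad ⊆ ⋃ v ∈ Ql, {b : Fin N → k | v (pert t h' ε b) ≤ v t ^ (N + 1)} := by
      rintro b ⟨v', hv', hb⟩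
      obtain ⟨v, hv, heq⟩ := hPQ v' hv'
      rw [Set.mem_iUnion₂]
      refine ⟨v, hv, ?_⟩
      rw [← map_pow] at hb
      have h1 := (heq _ _).1 hb
      rw [map_pow] at h1
      exact h1
    refine Set.Finite.subset (hQl.biUnion fun v hv => ?_) hsub
    have hv' := hcv v (hQP v hv)
    refine Set.Subsingleton.finite fun b hb b' hb' => ?_
    have hp : ∀ b : Fin N → k, pert t h' ε b =
        h' + ∑ j : Fin N, algebraMap k S (b j) * (ε * t ^ (j.1 + 1)) := by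
      intro b
      unfold pert
      rw [Finset.mul_sum]
      congr 1
      exact Finset.sum_congr rfl fun j _ => by ring
    have hb1 : v (pert t h' ε b) ≤ v t ^ (N + 1) := hb
    have hb2 : v (pert t h' ε b') ≤ v t ^ (N + 1) := hb'
    rw [hp] at hb1 hb2
    refine unique_coeffV v (fun c hc => hv'.one _ (by rw [res_const]; exact hc))
      (htv v (hQP v hv)) (hv'.lt t ht) (fun j : Fin N => ε * t ^ (j.1 + 1)) (fun j => ?_) h' hb1 hb2
    rw [map_mul, hv'.one ε hε, one_mul, map_pow]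
  refine hmov (hfin.subset ?_)
  rintro _ ⟨g, hg, rfl⟩
  refine ⟨v₀.comap (back S g.1 hg.2.1), hst g hg v₀ hv₀, ?_⟩
  have htt : back S g.1 hg.2.1 t = t := Subtype.ext (by
    rw [coe_back, RingEquiv.symm_apply_eq, hg.2.2.1 _ htF])
  rw [Valuation.comap_apply, Valuation.comap_apply, htt,
    back_pert g.1 hg.2.1 g.2 hg.1 (hg.2.2.1 _ htF) (hg.2.2.1 _ hh'F) (hg.2.2.1 _ hεF)]
  exact hle₀

end Auts

section Main

variable {k K : Type u} [Field k] [Field K] [Algebra k K]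

theorem lem2K (hF2 : F2 k K) (hPerm : Perm k) : Lem2K k K := by
  intro hk S res hS n hn f hf i N a h' ε h hε hh heq hmov
  obtain ⟨m, rfl⟩ : ∃ m, n = m + 1 := ⟨n - 1, by have := i.2; omega⟩
  obtain ⟨J, _, μ, v, hv1, hv2, hv3, hv4⟩ := (hF2 hk S res hS m).1 hn (f i) (f ∘ i.succAbove) (by
    rw [← proper_update_iff f i, Function.update_eq_self]
    exact hf)
  have hfi : ∀ j, v j (f i) ≠ 0 := by
    refine (hv3 (f i) (hf.1 i)).1 ?_
    rw [← proper_update_iff f i, Function.update_eq_self]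
    exact hf
  have hh' : h = pert (f i) h' ε a := heq
  have hmemF : ∀ l, (f l : K) ∈
      (insert (h' : K) (insert (ε : K) (Set.range fun j => (f j : K))) : Set K) := fun l =>
    Set.mem_insert_of_mem _ (Set.mem_insert_of_mem _ (Set.mem_range_self (f := fun j => (f j : K)) l))
  let Pl : Set (Valuation S ℤᵐ⁰) := {w | IsCv res w ∧ ∀ j, w ((f ∘ i.succAbove) j) = 0}
  have hgood := good_of_mov (Pl := Pl) (Ql := Set.range v) (fun w hw => hw.1)
    (Set.finite_range v) (fun w hw => by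
      obtain ⟨j, hj⟩ := hv2 w hw.1 (fun b hb => by
        have h1 : b = 0 := Subtype.ext hb
        rw [h1, map_zero]) hw.2
      exact ⟨v j, ⟨j, rfl⟩, hj⟩)
    (by rintro _ ⟨j, rfl⟩; exact ⟨(hv1 j).2.1, (hv1 j).2.2.2⟩)
    (fun g hg w hw => ⟨hS.isCv_back g.1 hg.2.1 hw.1, fun j => by
      have h1 : back S g.1 hg.2.1 ((f ∘ i.succAbove) j) = (f ∘ i.succAbove) j := Subtype.ext (by
        rw [coe_back, RingEquiv.symm_apply_eq]
        exact (hg.2.2.1 _ (hmemF (i.succAbove j))).symm)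
      rw [Valuation.comap_apply, h1]
      exact hw.2 j⟩)
    (t := f i) (h' := h') (ε := ε) (hf.1 i) (fun w hw => by
      obtain ⟨j, hj⟩ := hv2 w hw.1 (fun b hb => by
        have h1 : b = 0 := Subtype.ext hb
        rw [h1, map_zero]) hw.2
      exact fun h0 => hfi j ((hj.eq_zero).1 h0))
    (hmemF i) (Set.mem_insert _ _)
    (Set.mem_insert_of_mem _ (Set.mem_insert _ _)) hε hmov
  rw [← hh'] at hgood
  exact concl_of_hasCv hPerm f i hf hh (fun j => (hv1 j).2.1.le) hv3 hv4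
    (fun j => hgood (v j) ⟨(hv1 j).2.1, (hv1 j).2.2.2⟩)

theorem comap_val_lt' (A : ValuationSubring K) (τ : K ≃+* K) (x : K) :
    (A.comap (τ : K →+* K)).valuation x < 1 ↔ A.valuation (τ x) < 1 := by
  by_cases hx : x = 0
  · subst hx
    rw [map_zero, map_zero, map_zero]
    exact ⟨fun _ => zero_lt_one, fun _ => zero_lt_one⟩
  have key : ∀ (V : ValuationSubring K) {z : K}, z ≠ 0 → (V.valuation z < 1 ↔ z⁻¹ ∉ V) := by
    intro V z hz
    rw [← V.valuation_le_one_iff, map_inv₀, not_le]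
    have h2 : V.valuation z ≠ 0 := by simpa using hz
    rw [one_lt_inv₀ (zero_lt_iff.mpr h2)]
  rw [key _ hx, key _ (by simpa using hx : τ x ≠ 0), ValuationSubring.mem_comap, map_inv₀]
  rfl

theorem lem2V (hF2 : F2 k K) (hPerm : Perm k) : Lem2V k K := by
  intro hk S res hS m hm 𝒱 h𝒱 hdiv w hw i N a h' ε h hε hh heq hmov V₀ hV₀
  obtain ⟨m, rfl⟩ : ∃ m', m = m' + 1 := ⟨m - 1, by have := i.2; omega⟩
  have hcv : ∀ V ∈ 𝒱, HasCv (toRes S V) res (w ∘ i.succAbove) := fun V hV =>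
    (hF2 hk S res hS m).2 hm V (hdiv V hV) (w i) (w ∘ i.succAbove) (by
      have h1 := hw V hV
      unfold ProperV at h1 ⊢
      rw [← proper_update_iff w i, Function.update_eq_self]
      exact h1)
  have hh' : h = pert (w i) h' ε a := heq
  have hmemF : ∀ l, (w l : K) ∈
      (insert (h' : K) (insert (ε : K) (Set.range fun j => (w j : K))) : Set K) := fun l =>
    Set.mem_insert_of_mem _ (Set.mem_insert_of_mem _ (Set.mem_range_self (f := fun j => (w j : K)) l))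
  let Cvs : Set (Valuation S ℤᵐ⁰) := {v | IsCv res v ∧ (∃ V ∈ 𝒱, ∀ b, toRes S V b = 0 → v b = 0) ∧
    ∀ j, v ((w ∘ i.succAbove) j) = 0}
  have hex : ∀ V ∈ 𝒱, ∃ Q : Set (Valuation S ℤᵐ⁰), Q.Finite ∧ Q ⊆ Cvs ∧
      (∀ v' : Valuation S ℤᵐ⁰, IsCv res v' → (∀ a, toRes S V a = 0 → v' a = 0) →
        (∀ j, v' ((w ∘ i.succAbove) j) = 0) → ∃ v ∈ Q, v'.IsEquiv v) ∧ ∀ v ∈ Q, v (w i) ≠ 0 := by
    intro V hV
    obtain ⟨J, _, μ, v, hv1, hv2, hv3, hv4⟩ := hcv V hV
    refine ⟨Set.range v, Set.finite_range v, ?_, ?_, ?_⟩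
    · rintro _ ⟨j, rfl⟩
      exact ⟨(hv1 j).2.1, ⟨V, hV, (hv1 j).2.2.1⟩, (hv1 j).2.2.2⟩
    · intro v' h1 h2 h3
      obtain ⟨j, hj⟩ := hv2 v' h1 h2 h3
      exact ⟨v j, ⟨j, rfl⟩, hj⟩
    · rintro _ ⟨j, rfl⟩
      refine (hv3 (w i) ((hw V hV).1 i)).1 ?_ j
      have h1 := hw V hV
      unfold ProperV at h1
      rw [← proper_update_iff w i, Function.update_eq_self]
      exact h1
  choose! Q hQ1 hQ2 hQ3 hQ4 using hex
  have hgood := good_of_mov (Pl := Cvs) (Ql := ⋃ V ∈ 𝒱, Q V) (fun w hw => hw.1)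
    (h𝒱.biUnion hQ1) (by
      rintro v' ⟨h1, ⟨V, hV, h2⟩, h3⟩
      obtain ⟨v, hv, hv'⟩ := hQ3 V hV v' h1 h2 h3
      exact ⟨v, Set.mem_iUnion₂.2 ⟨V, hV, hv⟩, hv'⟩)
    (by
      intro v hv
      obtain ⟨V, hV, hv⟩ := Set.mem_iUnion₂.1 hv
      exact hQ2 V hV hv)
    (by
      rintro g hg v ⟨h1, ⟨V, hV, h2⟩, h3⟩
      refine ⟨hS.isCv_back g.1 hg.2.1 h1, ?_, ?_⟩
      · have hVV : (V.comap (g.1.symm : K →+* K)).comap (g.1 : K →+* K) = V := by
          ext x
          rw [ValuationSubring.mem_comap, ValuationSubring.mem_comap]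
          change g.1.symm (g.1 x) ∈ V ↔ x ∈ V
          rw [RingEquiv.symm_apply_apply]
        have hV' : V.comap (g.1.symm : K →+* K) ∈ 𝒱 := by
          rw [hg.2.2.2, hVV]
          exact hV
        refine ⟨V.comap (g.1.symm : K →+* K), hV', fun b hb => ?_⟩
        rw [Valuation.comap_apply]
        apply h2
        have h4 : b ∈ cen S (V.comap (g.1.symm : K →+* K)) := by
          rw [← Ideal.algebraMap_residueField_eq_zero]
          exact hb
        rw [mem_cen (hdiv _ hV').le, comap_val_lt'] at h4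
        have h5 : back S g.1 hg.2.1 b ∈ cen S V := by
          rw [mem_cen (hdiv _ hV).le]
          exact h4
        rw [← Ideal.algebraMap_residueField_eq_zero] at h5
        exact h5
      · intro j
        have h4 : back S g.1 hg.2.1 ((w ∘ i.succAbove) j) = (w ∘ i.succAbove) j := Subtype.ext (by
          rw [coe_back, RingEquiv.symm_apply_eq]
          exact (hg.2.2.1 _ (hmemF (i.succAbove j))).symm)
        rw [Valuation.comap_apply, h4]
        exact h3 j)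
    (t := w i) (h' := h') (ε := ε) ((hw V₀ hV₀).1 i) (by
      rintro v' ⟨h1, ⟨V, hV, h2⟩, h3⟩
      obtain ⟨v, hv, hv'⟩ := hQ3 V hV v' h1 h2 h3
      exact fun h0 => hQ4 V hV v hv ((hv'.eq_zero).1 h0))
    (hmemF i) (Set.mem_insert _ _)
    (Set.mem_insert_of_mem _ (Set.mem_insert _ _)) hε hmov
  rw [← hh'] at hgood
  obtain ⟨J, _, μ, v, hv1, hv2, hv3, hv4⟩ := hcv V₀ hV₀
  have hw0 := hw V₀ hV₀
  unfold ProperV at hw0 ⊢
  unfold RhoV
  exact concl_of_hasCv hPerm w i hw0 hh (fun j => (hv1 j).2.1.le) hv3 hv4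
    (fun j => hgood (v j) ⟨(hv1 j).2.1, ⟨V₀, hV₀, (hv1 j).2.2.1⟩, (hv1 j).2.2.2⟩)

end Main

end Pool.Agent.TGJ
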