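import Pool.Agent.Lib.TGJ.Iface
import Pool.Agent.Lib.TGJ_h11.Curve2

/-!
# TANK G, block C, row R5b: the coefficient `ramV`

* `ramV_valP`: `ramV` at the valuation ring of a height one prime is `ramP`;
* `ramV_comap`: invariance under the semilinear automorphisms which fix `f`.
-/

set_option autoImplicit false

namespace Pool.Agent.TGJ

open Pool.Agent.TGh4 (Disc ordV IsUnif)
open Pool.Agent.TG51 (locP valP)

universe u

section Comap

variable {K : Type u} [Field K] (V : ValuationSubring K) (τ : K ≃+* K)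

theorem val_eq_one_iff {y : K} (hy : y ≠ 0) : V.valuation y = 1 ↔ y ∈ V ∧ y⁻¹ ∈ V := by
  rw [← ValuationSubring.valuation_le_one_iff, ← ValuationSubring.valuation_le_one_iff, map_inv₀]
  constructor
  · intro h
    rw [h, inv_one]
    exact ⟨le_rfl, le_rfl⟩
  · rintro ⟨h1, h2⟩
    have h0 : 0 < V.valuation y := zero_lt_iff.2 ((Valuation.ne_zero_iff _).2 hy)
    exact le_antisymm h1 ((inv_le_one₀ h0).1 h2)

theorem comap_val_one (x : K) :
    (V.comap (τ : K →+* K)).valuation x = 1 ↔ V.valuation (τ x) = 1 := by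
  by_cases hx : x = 0
  · subst hx
    simp
  · rw [val_eq_one_iff _ hx, val_eq_one_iff _ (by simpa using hx : τ x ≠ 0),
      ValuationSubring.mem_comap, ValuationSubring.mem_comap, RingEquiv.coe_toRingHom, map_inv₀]

theorem comap_val_le (x : K) :
    (V.comap (τ : K →+* K)).valuation x ≤ 1 ↔ V.valuation (τ x) ≤ 1 := by
  rw [ValuationSubring.valuation_le_one_iff, ValuationSubring.valuation_le_one_iff]
  exact Iff.rfl

theorem comap_val_lt (x : K) :
    (V.comap (τ : K →+* K)).valuation x < 1 ↔ V.valuation (τ x) < 1 := by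
  rw [lt_iff_le_and_ne, lt_iff_le_and_ne, comap_val_le, Ne, comap_val_one]

theorem val_eq_iff {x y : K} (hy : y ≠ 0) : V.valuation x = V.valuation y ↔
    V.valuation (x / y) = 1 := by
  rw [map_div₀, div_eq_one_iff_eq ((Valuation.ne_zero_iff _).2 hy)]

theorem comap_val_eq {x y : K} (hy : y ≠ 0) :
    (V.comap (τ : K →+* K)).valuation x = (V.comap (τ : K →+* K)).valuation y ↔
      V.valuation (τ x) = V.valuation (τ y) := by
  rw [val_eq_iff _ hy, val_eq_iff _ (by simpa using hy : τ y ≠ 0), comap_val_one, map_div₀]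

theorem comap_val_zpow {x y : K} (hy : y ≠ 0) (n : ℤ) :
    (V.comap (τ : K →+* K)).valuation x = (V.comap (τ : K →+* K)).valuation y ^ n ↔
      V.valuation (τ x) = V.valuation (τ y) ^ n := by
  rw [← map_zpow₀, comap_val_eq V τ (zpow_ne_zero n hy), map_zpow₀ τ, map_zpow₀]

theorem isUnif_comap {π : K} : IsUnif (V.comap (τ : K →+* K)) π ↔ IsUnif V (τ π) := by
  constructor
  · intro h
    refine ⟨by simpa using h.ne, (comap_val_lt V τ π).1 h.lt, fun x hx => ?_⟩
    obtain ⟨n, hn⟩ := h.gen (τ.symm x) (by simpa using hx)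
    rw [comap_val_zpow V τ h.ne, RingEquiv.apply_symm_apply] at hn
    exact ⟨n, hn⟩
  · intro h
    have h0 : π ≠ 0 := fun e => h.ne (by rw [e, map_zero])
    refine ⟨h0, (comap_val_lt V τ π).2 h.lt, fun x hx => ?_⟩
    obtain ⟨n, hn⟩ := h.gen (τ x) (by simpa using hx)
    exact ⟨n, (comap_val_zpow V τ h0 n).2 hn⟩

theorem disc_comap : Disc (V.comap (τ : K →+* K)) ↔ Disc V := by
  constructor
  · rintro ⟨π, h⟩
    exact ⟨_, (isUnif_comap V τ).1 h⟩
  · rintro ⟨π, h⟩
    refine ⟨τ.symm π, (isUnif_comap V τ).2 ?_⟩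
    rwa [RingEquiv.apply_symm_apply]

theorem ordV_comap (x : K) : ordV (V.comap (τ : K →+* K)) x = ordV V (τ x) := by
  by_cases hV : Disc V
  · obtain ⟨π, h⟩ := hV
    have h1 : IsUnif (V.comap (τ : K →+* K)) (τ.symm π) := by
      rw [isUnif_comap, RingEquiv.apply_symm_apply]
      exact h
    by_cases hx : x = 0
    · rw [hx, map_zero, TGh4.ordV_zero, TGh4.ordV_zero]
    · refine TGh4.ordV_eq h1 ?_
      rw [comap_val_zpow V τ h1.ne, RingEquiv.apply_symm_apply]
      exact h.val (by simpa using hx)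
  · rw [TGh4.ordV_of_not hV, TGh4.ordV_of_not (fun h => hV ((disc_comap V τ).1 h))]

end Comap

section Conj

variable {k K : Type u} [Field k] [Field K] [Algebra k K]

/-- The conjugate `τ⁻¹ ∘ d ∘ τ` of a derivation. -/
def conjD (τ : K ≃+* K) (σ : k ≃+* k)
    (hτ : ∀ c : k, τ (algebraMap k K c) = algebraMap k K (σ c)) (d : Derivation k K K) :
    Derivation k K K :=
  Derivation.mk'
    { toFun := fun x => τ.symm (d (τ x))
      map_add' := fun x y => by rw [map_add, map_add, map_add]
      map_smul' := fun c x => by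
        rw [Algebra.smul_def, map_mul, hτ, ← Algebra.smul_def, Derivation.map_smul,
          Algebra.smul_def, map_mul, ← hτ, RingEquiv.symm_apply_apply, RingHom.id_apply,
          Algebra.smul_def] }
    (fun a b => by
      change τ.symm (d (τ (a * b))) = a • τ.symm (d (τ b)) + b • τ.symm (d (τ a))
      rw [map_mul, Derivation.leibniz, map_add, smul_eq_mul, smul_eq_mul, map_mul, map_mul,
        RingEquiv.symm_apply_apply, RingEquiv.symm_apply_apply, smul_eq_mul, smul_eq_mul])

variable (τ : K ≃+* K) (σ : k ≃+* k) (hτ : ∀ c : k, τ (algebraMap k K c) = algebraMap k K (σ c))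

theorem conjD_apply (d : Derivation k K K) (x : K) : conjD τ σ hτ d x = τ.symm (d (τ x)) := rfl

theorem jac_conjD {n : ℕ} (d : Fin n → Derivation k K K) {f : Fin n → K}
    (hf : ∀ j, τ (f j) = f j) : τ (jac (fun i => conjD τ σ hτ (d i)) f) = jac d f := by
  unfold jac
  rw [RingEquiv.map_det]
  congr 1
  ext i j
  rw [RingEquiv.mapMatrix_apply, Matrix.map_apply, Matrix.of_apply, Matrix.of_apply,
    conjD_apply, hf, RingEquiv.apply_symm_apply]

include hτ in
theorem rram_comap (V : ValuationSubring K) {n : ℕ} {f : Fin n → K} (hf : ∀ j, τ (f j) = f j) :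
    rram k (V.comap (τ : K →+* K)).toSubring (ordV (V.comap (τ : K →+* K))) f =
      rram k V.toSubring (ordV V) f := by
  have hσ : ∀ c : k, τ.symm (algebraMap k K c) = algebraMap k K (σ.symm c) := by
    intro c
    rw [RingEquiv.symm_apply_eq, hτ, RingEquiv.apply_symm_apply]
  unfold rram
  congr 1
  ext m
  constructor
  · rintro ⟨d, hd, h0, h1⟩
    have hf' : ∀ j, τ.symm (f j) = f j := fun j => by
      rw [RingEquiv.symm_apply_eq, hf]
    have h2 := jac_conjD τ.symm σ.symm hσ d hf'
    have h3 : jac (fun i => conjD τ.symm σ.symm hσ (d i)) f = τ (jac d f) := by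
      rw [← h2, RingEquiv.apply_symm_apply]
    refine ⟨fun i => conjD τ.symm σ.symm hσ (d i), fun i x hx => ?_, ?_, ?_⟩
    · rw [conjD_apply, RingEquiv.symm_symm]
      have h4 : τ.symm x ∈ (V.comap (τ : K →+* K)).toSubring := by
        change τ (τ.symm x) ∈ V
        rw [RingEquiv.apply_symm_apply]
        exact hx
      exact hd i _ h4
    · rw [h3]
      simpa using h0
    · rw [h3, ← ordV_comap]
      exact h1
  · rintro ⟨d, hd, h0, h1⟩
    have h2 := jac_conjD τ σ hτ d hf
    refine ⟨fun i => conjD τ σ hτ (d i), fun i x hx => ?_, ?_, ?_⟩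
    · rw [conjD_apply]
      change τ (τ.symm (d i (τ x))) ∈ V
      rw [RingEquiv.apply_symm_apply]
      exact hd i _ hx
    · intro h3
      rw [h3, map_zero] at h2
      exact h0 h2.symm
    · rw [ordV_comap, h2]
      exact h1

include hτ in
/-- **Invariance of `ramV`.** -/
theorem ramV_comap {S : Subalgebra k K} (V : ValuationSubring K) {n : ℕ} (f : Fin n → S)
    (hf : ∀ j, τ (f j : K) = f j) : ramV (V.comap (τ : K →+* K)) f = ramV V f :=
  rram_comap τ σ hτ V hf

theorem ramV_auts {S : Subalgebra k K} {F : Set K} {𝒱 : Set (ValuationSubring K)}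
    {g : (K ≃+* K) × (k ≃+* k)} (hg : g ∈ Auts S F 𝒱) (V : ValuationSubring K) {n : ℕ}
    (f : Fin n → S) (hf : ∀ j, (f j : K) ∈ F) : ramV (V.comap (g.1 : K →+* K)) f = ramV V f :=
  ramV_comap g.1 g.2 hg.1 V f fun j => hg.2.2.1 _ (hf j)

/-- Semilinear automorphisms preserving `S` permute the prime divisors through `S`. -/
theorem IsDiv.comap {S : Subalgebra k K} {V : ValuationSubring K} (h : IsDiv S V)
    (hS : ∀ x, x ∈ S ↔ τ x ∈ S) : IsDiv S (V.comap (τ : K →+* K)) where
  le := fun a ha => h.le _ ((hS a).1 ha)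
  loc := fun x hx => by
    obtain ⟨a, ha, b, hb, hvb, e⟩ := h.loc (τ x) hx
    refine ⟨τ.symm a, (hS _).2 (by rw [RingEquiv.apply_symm_apply]; exact ha), τ.symm b,
      (hS _).2 (by rw [RingEquiv.apply_symm_apply]; exact hb), ?_, ?_⟩
    · rw [comap_val_one, RingEquiv.apply_symm_apply]
      exact hvb
    · apply τ.injective
      rw [map_mul, RingEquiv.apply_symm_apply, RingEquiv.apply_symm_apply]
      exact e
  disc := (disc_comap V τ).2 h.disc

end Conj

section ValP

variable {k K : Type u} [Field k] [Field K] [Algebra k K] {S : Subalgebra k K}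
  [IsNoetherianRing S] [IsIntegrallyClosed S] [IsFractionRing S K]

/-- **Dictionary.** -/
theorem ramV_valP {n : ℕ} (f : Fin n → S) (P : Ideal S) [hP : P.IsPrime] (h : P.height = 1) :
    ramV (valP K P h) f = ramP k K f P := by
  rw [ramP_eq f P h]
  rfl

end ValP

end Pool.Agent.TGJ
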