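import Pool.Agent.Lib.TGJ.RamInv
import Pool.Agent.Lib.TGJ.ThmC1

/-!
# TANK G, block C: the Prop `RamInv` of `ThmC1`
-/

set_option autoImplicit false

namespace Pool.Agent.TGJ

universe u

theorem ramInv (k K : Type u) [Field k] [Field K] [Algebra k K] : RamInv k K := by
  intro S res _ F 𝒱 g hg V
  obtain ⟨hτ, hS, -, -⟩ := hg
  refine ⟨⟨fun h => h.comap g.1 hS, fun h => ?_⟩, fun n f hf _ => ramV_comap g.1 g.2 hτ V f hf⟩
  have hS' : ∀ x, x ∈ S ↔ g.1.symm x ∈ S := fun x => by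
    rw [hS (g.1.symm x), RingEquiv.apply_symm_apply]
  have h1 := h.comap g.1.symm hS'
  have h2 : (V.comap (g.1 : K →+* K)).comap (g.1.symm : K →+* K) = V := by
    ext x
    change g.1 (g.1.symm x) ∈ V ↔ x ∈ V
    rw [RingEquiv.apply_symm_apply]
  rwa [h2] at h1

end Pool.Agent.TGJ
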