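import Pool.Agent.Lib.TGJ.ThmC3
import Pool.Agent.Lib.TGJ_h12.Final
import Pool.Agent.Lib.TGJ_h11.ExD4
import Pool.Agent.Lib.TGJ.ResCorr
import Pool.Agent.Lib.TGJ.Lem2
import Pool.Agent.Lib.TGJ_h78.DenR
import Pool.Agent.Lib.TGJ.RamInv
import Pool.Agent.Lib.TGJ.DivLe
import Pool.Agent.Lib.TGJ.RamInvP

/-!
# TANK G, block C: the theorem at one point, from F1, F2 and the theory of local degrees
-/

set_option autoImplicit false

namespace Pool.Agent.TGJ

universe u

variable (k K : Type u) [Field k] [Field K] [Algebra k K]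

/-- **`ThmC`** from F1, F2 and R1. -/
theorem thmC_of (f1 : F1 k K) (f2 : F2 k K) (h1 : IsAlgClosed k → InR1 k K) : ThmC k K := by
  intro hk
  have h4 : InR4 k K := inR4
  exact C97.thmC f2 (agree f1 f2) (P78.den k K) (divLe k K)
    (fun _ S res hS n hn f hf => rho_pos_of_R1 h1 hk S res hS n hn f hf) (ramInv k K)
    (lem2K f2 (perm k)) (lem2V f2 (perm k)) (lem3 f1 f2 (perm k) (h1 hk) h4)
    (exDual_of_R1 h1) hk

end Pool.Agent.TGJ
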