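import Pool.Agent.Lib.TGJ_h88.NPt
import Pool.Agent.Lib.TG_h4.PlaceD

/-!
# TANK G, block C: normal points of dimension one (helper5)
-/

set_option autoImplicit false

namespace Pool.Agent.TGJ

open Pool.Agent.TG (ncl)
open Pool.Agent.TGh4 (Disc ordV IsUnif vs exists_vs ordV_vs)
open IsDedekindDomain Polynomial

universe u

variable {k : Type u} [Field k]

section

variable {K : Type u} [Field K] [Algebra k K] {S : Subalgebra k K} {res : S →ₐ[k] k}

/-- Nonzero elements of the maximal ideal are transcendental. -/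
theorem NPt.transcendental {g : S} (hg : res g = 0) (hg0 : g ≠ 0) : Transcendental k (g : K) := by
  intro halg
  have hint : IsIntegral k (g : K) := halg.isIntegral
  have hgK : (g : K) ≠ 0 := fun h0 => hg0 (Subtype.ext h0)
  have h1 := minpoly.coeff_zero_ne_zero hint hgK
  apply h1
  have h2 : aeval g (minpoly k (g : K)) = 0 := by
    apply Subtype.ext
    have h3 := aeval_algHom_apply S.val g (minpoly k (g : K))
    have h4 : S.val g = (g : K) := rfl
    rw [h4, minpoly.aeval] at h3
    exact h3.symm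
  have h5 := aeval_algHom_apply res g (minpoly k (g : K))
  rw [h2, map_zero, hg, coe_aeval_eq_eval, ← coeff_zero_eq_eval_zero] at h5
  exact h5

/-- The residue field of a nonzero prime is algebraic over `k` (dimension one). -/
theorem NPt.prime_eq (h : NPt S res) (htr : Algebra.trdeg k K = 1) (P : Ideal S) [hP : P.IsPrime]
    (hP0 : P ≠ ⊥) : P = RingHom.ker res := by
  apply le_antisymm (h.le_ker P hP.ne_top)
  obtain ⟨a, haP, ha0⟩ := (Submodule.ne_bot_iff _).1 hP0
  have har : res a = 0 := h.le_ker P hP.ne_top haP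
  have hat : Transcendental k (a : K) := NPt.transcendental har ha0
  intro s hs
  have hsr : res s = 0 := hs
  -- `s` is algebraic over `k[a]`
  have hai : AlgebraicIndependent k (fun _ : Fin 1 => (a : K)) :=
    (algebraicIndependent_unique_type_iff).2 hat
  have hbas : IsTranscendenceBasis k (fun _ : Fin 1 => (a : K)) :=
    hai.isTranscendenceBasis_of_lift_trdeg_le_of_finite (by rw [htr]; simp)
  have halg : IsAlgebraic (Algebra.adjoin k (Set.range fun _ : Fin 1 => (a : K))) (s : K) :=
    hbas.isAlgebraic.isAlgebraic _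
  obtain ⟨Q, hQ0, hQ⟩ := halg
  -- lift to `k[X][Y]`
  let φ : k[X] →+* Algebra.adjoin k (Set.range fun _ : Fin 1 => (a : K)) :=
    (aeval (R := k) (⟨(a : K), Algebra.subset_adjoin ⟨0, rfl⟩⟩ :
      Algebra.adjoin k (Set.range fun _ : Fin 1 => (a : K)))).toRingHom
  have hφs : Function.Surjective φ := by
    rintro ⟨b, hb⟩
    have hr : (Set.range fun _ : Fin 1 => (a : K)) = {(a : K)} := by
      ext t
      constructor
      · rintro ⟨i, rfl⟩
        rfl
      · rintro rfl
        exact ⟨0, rfl⟩
    have hb' : b ∈ Algebra.adjoin k {(a : K)} := by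
      rw [← hr]
      exact hb
    rw [Algebra.adjoin_singleton_eq_range_aeval] at hb'
    obtain ⟨q, hq⟩ := hb'
    refine ⟨q, Subtype.ext ?_⟩
    have h3 := aeval_algHom_apply (Algebra.adjoin k (Set.range fun _ : Fin 1 => (a : K))).val
      (⟨(a : K), Algebra.subset_adjoin ⟨0, rfl⟩⟩ :
        Algebra.adjoin k (Set.range fun _ : Fin 1 => (a : K))) q
    exact h3.symm.trans hq
  obtain ⟨F₀, hF₀⟩ := Polynomial.map_surjective φ hφs Q
  have hF₀0 : F₀ ≠ 0 := by
    rintro rfl
    apply hQ0
    rw [← hF₀, Polynomial.map_zero]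
  let ψ : k[X] →+* S := (aeval (R := k) a).toRingHom
  have hF₀e : eval₂ ψ s F₀ = 0 := by
    apply Subtype.ext
    have h3 := hom_eval₂ F₀ ψ (S.val : S →+* K) s
    refine h3.trans ?_
    rw [aeval_def, ← hF₀, eval₂_map] at hQ
    have h4 : (algebraMap (Algebra.adjoin k (Set.range fun _ : Fin 1 => (a : K))) K).comp φ =
        ((S.val : S →+* K)).comp ψ := by
      apply Polynomial.ringHom_ext
      · intro c
        change ((aeval _ (C c) : Algebra.adjoin k (Set.range fun _ : Fin 1 => (a : K))) : K) =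
          ((aeval a (C c) : S) : K)
        rw [aeval_C, aeval_C]
        rfl
      · change ((aeval _ X : Algebra.adjoin k (Set.range fun _ : Fin 1 => (a : K))) : K) =
          ((aeval a X : S) : K)
        rw [aeval_X, aeval_X]
    rw [h4] at hQ
    exact hQ
  -- the primitive part
  let _ : NormalizedGCDMonoid k[X] := Classical.choice inferInstance
  set F := F₀.primPart with hF
  have hcont : ψ F₀.content ≠ 0 := by
    intro h3
    have h4 : aeval (a : K) F₀.content = 0 := by
      have h5 := aeval_algHom_apply S.val a F₀.content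
      refine h5.trans ?_
      have h6 : (aeval a) F₀.content = (0 : S) := h3
      rw [h6, map_zero]
    have h7 := (transcendental_iff.1 hat) _ h4
    rw [content_eq_zero_iff] at h7
    exact hF₀0 h7
  have hFe : eval₂ ψ s F = 0 := by
    have h3 := F₀.eq_C_content_mul_primPart
    have h4 := congrArg (eval₂ ψ s) h3
    rw [hF₀e, eval₂_mul, eval₂_C] at h4
    exact (mul_eq_zero.1 h4.symm).resolve_left hcont
  have hprim : F.IsPrimitive := F₀.isPrimitive_primPart
  -- reduce modulo `P`
  set H : k[X] := F.map (evalRingHom 0) with hH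
  have hH0 : H ≠ 0 := by
    intro h3
    have h4 : C X ∣ F := by
      rw [C_dvd_iff_dvd_coeff]
      intro i
      rw [X_dvd_iff, coeff_zero_eq_eval_zero]
      have h5 := congrArg (fun q : k[X] => q.coeff i) h3
      simpa [hH] using h5
    exact not_isUnit_X (hprim _ h4)
  have hquot : aeval (Ideal.Quotient.mk P s) H = 0 := by
    rw [hH, aeval_def, eval₂_map]
    have h3 := hom_eval₂ F ψ (Ideal.Quotient.mk P) s
    rw [hFe, map_zero] at h3
    have h4 : (Ideal.Quotient.mk P).comp ψ =
        (algebraMap k (S ⧸ P)).comp (evalRingHom 0) := by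
      apply Polynomial.ringHom_ext
      · intro c
        change Ideal.Quotient.mk P (aeval a (C c)) = algebraMap k (S ⧸ P) (eval 0 (C c))
        rw [aeval_C, eval_C]
        rfl
      · change Ideal.Quotient.mk P (aeval a X) = algebraMap k (S ⧸ P) (eval 0 X)
        rw [aeval_X, eval_X, map_zero]
        exact Ideal.Quotient.eq_zero_iff_mem.2 haP
    rw [← h4]
    exact h3.symm
  by_contra hsP
  have hs0 : Ideal.Quotient.mk P s ≠ 0 := fun h3 => hsP (Ideal.Quotient.eq_zero_iff_mem.1 h3)
  have hsint : IsIntegral k (Ideal.Quotient.mk P s) :=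
    IsAlgebraic.isIntegral ⟨H, hH0, hquot⟩
  have h6 := minpoly.coeff_zero_ne_zero hsint hs0
  apply h6
  have h7 : aeval s (minpoly k (Ideal.Quotient.mk P s)) ∈ P := by
    rw [← Ideal.Quotient.eq_zero_iff_mem]
    have h8 := aeval_algHom_apply (Ideal.Quotient.mkₐ k P) s (minpoly k (Ideal.Quotient.mk P s))
    refine h8.symm.trans ?_
    exact minpoly.aeval _ _
  have h9 : res (aeval s (minpoly k (Ideal.Quotient.mk P s))) = 0 := h.le_ker P hP.ne_top h7
  have h10 := aeval_algHom_apply res s (minpoly k (Ideal.Quotient.mk P s))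
  rw [h9, hsr, coe_aeval_eq_eval, ← coeff_zero_eq_eval_zero] at h10
  exact h10

theorem NPt.exists_ne (h : NPt S res) (htr : Algebra.trdeg k K ≠ 0) :
    ∃ a : S, res a = 0 ∧ a ≠ 0 := by
  by_contra hcon
  push Not at hcon
  apply htr
  have h1 : ∀ s : S, (s : K) = algebraMap k K (res s) := by
    intro s
    have h2 := hcon (s - algebraMap k S (res s)) (by
      rw [map_sub, AlgHom.commutes]
      exact sub_self _)
    exact congrArg Subtype.val (sub_eq_zero.1 h2)
  have h2 : Algebra.IsAlgebraic k K := by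
    refine ⟨fun f => ?_⟩
    obtain ⟨a, b, hb, hab⟩ := h.frac f
    have h3 : f = algebraMap k K (res a / res b) := by
      rw [map_div₀, ← h1, ← h1, ← hab, mul_div_cancel_right₀ _ hb]
    rw [h3]
    exact isAlgebraic_algebraMap _
  exact _root_.trdeg_eq_zero

/-- A normal point of dimension one is a discrete valuation ring. -/
theorem NPt.isDVR (h : NPt S res) (htr : Algebra.trdeg k K = 1) : IsDiscreteValuationRing S := by
  have hloc := h.isLocalRing
  have hno := h.isNoetherianRing
  have hic := h.isIntegrallyClosed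
  obtain ⟨a, ha, ha0⟩ := h.exists_ne (by rw [htr]; exact one_ne_zero)
  have hmax := h.maximalIdeal_eq
  have hne : IsLocalRing.maximalIdeal S ≠ ⊥ := by
    intro h0
    rw [hmax] at h0
    have h1 : a ∈ RingHom.ker res := ha
    rw [h0, Ideal.mem_bot] at h1
    exact ha0 h1
  have hnf : ¬ IsField S := fun h0 => hne (IsLocalRing.isField_iff_maximalIdeal_eq.1 h0)
  have key := (IsDiscreteValuationRing.TFAE S hnf).out 0 3
  rw [key]
  refine ⟨hic, IsLocalRing.maximalIdeal S, ⟨hne, inferInstance⟩, ?_⟩
  rintro P ⟨hP0, hP⟩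
  rw [hmax]
  exact h.prime_eq htr P hP0

open scoped WithZero in
/-- **Normal points of dimension one**: there is exactly one place, and it is the prime divisor. -/
theorem dvr0 (h : NPt S res) (htr : Algebra.trdeg k K = 1) :
    ∃ v : Valuation S ℤᵐ⁰, IsCv res v ∧ (∀ a, v a ≠ 0 ↔ a ≠ 0) ∧
      (∀ v' : Valuation S ℤᵐ⁰, IsCv res v' → v'.IsEquiv v) ∧
      ∀ V, IsDiv S V → ∀ a : S, a ≠ 0 → ordZ (v a) = (ordV V (a : K)).toNat := by
  have hdvr := h.isDVR htr
  have hfr := h.isFractionRing
  have hmax := h.maximalIdeal_eq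
  let v₀ : HeightOneSpectrum S := ⟨IsLocalRing.maximalIdeal S, inferInstance,
    IsDiscreteValuationRing.not_a_field S⟩
  have hv₀ : ∀ a : S, a ∈ v₀.asIdeal ↔ res a = 0 := by
    intro a
    change a ∈ IsLocalRing.maximalIdeal S ↔ _
    rw [hmax]
    rfl
  have hcv : IsCv res v₀.intValuation := by
    refine ⟨fun a => v₀.intValuation_le_one a, fun a ha => ?_, fun a ha => ?_, ?_⟩
    · rw [v₀.intValuation_lt_one_iff_mem, hv₀]
      exact ha
    · refine le_antisymm (v₀.intValuation_le_one a) (not_lt.1 ?_)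
      rw [v₀.intValuation_lt_one_iff_mem, hv₀]
      exact ha
    · obtain ⟨a, ha, ha0⟩ := h.exists_ne (by rw [htr]; exact one_ne_zero)
      exact ⟨a, ha, v₀.intValuation_ne_zero a ha0⟩
  have hne : ∀ a : S, v₀.intValuation a ≠ 0 ↔ a ≠ 0 := by
    intro a
    constructor
    · rintro h1 rfl
      exact h1 (map_zero _)
    · exact fun h1 => v₀.intValuation_ne_zero a h1
  refine ⟨v₀.intValuation, hcv, hne, ?_, ?_⟩
  · intro v' hv'
    obtain ⟨π, hπ⟩ := IsDiscreteValuationRing.exists_irreducible S
    have hπm : res π = 0 := by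
      rw [← hv₀]
      change π ∈ IsLocalRing.maximalIdeal S
      rw [(IsDiscreteValuationRing.irreducible_iff_uniformizer π).1 hπ]
      exact Ideal.mem_span_singleton_self π
    have hunit : ∀ u : Sˣ, res (u : S) ≠ 0 := fun u => (u.isUnit.map res).ne_zero
    have hpow : ∀ a : S, a ≠ 0 → ∃ n : ℕ, v' a = v' π ^ n ∧
        v₀.intValuation a = v₀.intValuation π ^ n := by
      intro a ha
      obtain ⟨n, u, hu⟩ := IsDiscreteValuationRing.eq_unit_mul_pow_irreducible ha hπ
      refine ⟨n, ?_, ?_⟩
      · rw [hu, map_mul, map_pow, hv'.one _ (hunit u), one_mul]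
      · rw [hu, map_mul, map_pow, hcv.one _ (hunit u), one_mul]
    have hπ0 : v' π ≠ 0 := by
      intro h0
      obtain ⟨a, ha, ha0⟩ := hv'.ne
      have hane : a ≠ 0 := by
        rintro rfl
        exact ha0 (map_zero _)
      obtain ⟨n, u, hu⟩ := IsDiscreteValuationRing.eq_unit_mul_pow_irreducible hane hπ
      apply ha0
      rcases Nat.eq_zero_or_pos n with rfl | hn
      · exfalso
        rw [pow_zero, mul_one] at hu
        rw [hu] at ha
        exact hunit u ha
      · rw [hu, map_mul, map_pow, h0, zero_pow hn.ne', mul_zero]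
    have hπ1 : v' π < 1 := hv'.lt π hπm
    have hπ1' : v₀.intValuation π < 1 := hcv.lt π hπm
    have hπ0' : v₀.intValuation π ≠ 0 := (hne π).2 hπ.ne_zero
    have hzero' : ∀ a : S, a ≠ 0 → v' a ≠ 0 := by
      intro a ha
      obtain ⟨n, h1, -⟩ := hpow a ha
      rw [h1]
      exact pow_ne_zero n hπ0
    have hmono : ∀ {x : ℤᵐ⁰}, x ≠ 0 → x < 1 → ∀ m n : ℕ, x ^ m ≤ x ^ n ↔ n ≤ m := by
      intro x hx hx1 m n
      exact pow_le_pow_iff_right_of_lt_one₀ (zero_lt_iff.2 hx) hx1
    intro r s
    by_cases hr : r = 0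
    · subst hr
      rw [map_zero, map_zero]
      exact ⟨fun _ => zero_le', fun _ => zero_le'⟩
    by_cases hs : s = 0
    · subst hs
      rw [map_zero, map_zero, le_zero_iff, le_zero_iff]
      exact ⟨fun h1 => absurd h1 (hzero' r hr), fun h1 => absurd h1 ((hne r).2 hr)⟩
    obtain ⟨m, h1, h2⟩ := hpow r hr
    obtain ⟨n, h3, h4⟩ := hpow s hs
    rw [h1, h2, h3, h4, hmono hπ0 hπ1, hmono hπ0' hπ1']
  · intro V hV a ha
    have hVtop : V ≠ ⊤ := by
      rintro rfl
      obtain ⟨π, hπ⟩ := hV.disc
      have h1 := hπ.lt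
      have h2 : (π : K)⁻¹ ∈ (⊤ : ValuationSubring K) := ValuationSubring.mem_top _
      rw [← ValuationSubring.valuation_le_one_iff, map_inv₀] at h2
      have h3 := (inv_le_one₀ hπ.pos).1 h2
      exact absurd h1 (not_lt.2 h3)
    obtain ⟨w, hw⟩ := exists_vs (B := S) hVtop fun b => hV.le _ b.2
    have hwv : w = v₀ := by
      apply HeightOneSpectrum.ext
      change w.asIdeal = IsLocalRing.maximalIdeal S
      rw [hmax]
      exact @NPt.prime_eq k _ K _ _ S res h htr w.asIdeal w.isPrime w.ne_bot
    have h1 := ordV_vs (K := K) v₀ ha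
    have h2 : algebraMap S K a = (a : K) := rfl
    rw [hw, hwv, ← h2, h1, v₀.intValuation_eq_exp_neg_multiplicity ha, ordZ, WithZero.log_exp,
      neg_neg]

end

end Pool.Agent.TGJ
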