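import Pool.Agent.Lib.TGJ.Dict74

/-!
# TANK G, block C: the field `k(f)` as the field of fractions of a polynomial ring

`F` is a field of fractions of `k[X_0 .. X_(m-1)]`, `F → L` maps `X_i` to `f i`; `A` is the image
of the polynomial ring in `F`.  These are the hypotheses of `TGJ.Link`.
-/

set_option autoImplicit false

open Polynomial

namespace Pool.Agent.TGJ

open Pool.Agent.TG (ncl up Ov ZDim)

universe u

section Poly

variable (k F : Type u) [Field k] [Field F] [Algebra k F] (m : ℕ)
  [Algebra (MvPolynomial (Fin m) k) F] [IsScalarTower k (MvPolynomial (Fin m) k) F]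

/-- The polynomial ring in its field of fractions `F`. -/
noncomputable def AP : Subalgebra k F := (IsScalarTower.toAlgHom k (MvPolynomial (Fin m) k) F).range

variable {k F m}

theorem mem_AP {a : F} : a ∈ AP k F m ↔ ∃ P : MvPolynomial (Fin m) k,
    algebraMap (MvPolynomial (Fin m) k) F P = a := Iff.rfl

theorem AP_eq_adjoin : AP k F m = Algebra.adjoin k (Set.range fun i : Fin m =>
    algebraMap (MvPolynomial (Fin m) k) F (MvPolynomial.X i)) := by
  rw [AP, ← Algebra.map_top, ← MvPolynomial.adjoin_range_X, AlgHom.map_adjoin, ← Set.range_comp]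
  rfl

variable [IsFractionRing (MvPolynomial (Fin m) k) F]

theorem AP_frac (g : F) : ∃ a ∈ AP k F m, ∃ b ∈ AP k F m, b ≠ 0 ∧ g = a / b := by
  obtain ⟨P, Q, hQ, h⟩ := IsFractionRing.div_surjective (A := MvPolynomial (Fin m) k) g
  refine ⟨_, ⟨P, rfl⟩, _, ⟨Q, rfl⟩, ?_, h.symm⟩
  exact IsFractionRing.to_map_ne_zero_of_mem_nonZeroDivisors (K := F) hQ

theorem AP_normal (b : F) (hb : IsIntegral (AP k F m) b) : b ∈ AP k F m := by
  have h1 : IsIntegral (MvPolynomial (Fin m) k) b := by
    obtain ⟨p, hp, hpb⟩ := hb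
    let φ : MvPolynomial (Fin m) k →+* AP k F m :=
      (IsScalarTower.toAlgHom k (MvPolynomial (Fin m) k) F).rangeRestrict.toRingHom
    have hφ : Function.Surjective φ :=
      (IsScalarTower.toAlgHom k (MvPolynomial (Fin m) k) F).rangeRestrict_surjective
    obtain ⟨q, hq, hqm⟩ := Polynomial.lifts_and_natDegree_eq_and_monic (f := φ) (p := p)
      ((Polynomial.mem_lifts _).2 (Polynomial.map_surjective _ hφ p)) hp
    refine ⟨q, hqm.2, ?_⟩
    rw [← hq, Polynomial.eval₂_map] at hpb
    exact hpb
  obtain ⟨y, hy⟩ := IsIntegrallyClosed.isIntegral_iff.1 h1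
  exact ⟨y, hy⟩

variable {L : Type u} [Field L] [Algebra k L] [Algebra F L] [IsScalarTower k F L] {f : Fin m → L}

omit [IsFractionRing (MvPolynomial (Fin m) k) F] in
theorem kf_eq_up_AP (hX : ∀ i, algebraMap F L (algebraMap (MvPolynomial (Fin m) k) F
    (MvPolynomial.X i)) = f i) : kf k f = up L (AP k F m) := by
  rw [AP_eq_adjoin, up, AlgHom.map_adjoin, ← Set.range_comp]
  have h : f = (IsScalarTower.toAlgHom k F L) ∘ fun i =>
      algebraMap (MvPolynomial (Fin m) k) F (MvPolynomial.X i) := funext fun i => (hX i).symm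
  rw [← h]

theorem finiteDimensional_AP (hX : ∀ i, algebraMap F L (algebraMap (MvPolynomial (Fin m) k) F
    (MvPolynomial.X i)) = f i)
    [hfin : FiniteDimensional (IntermediateField.adjoin k (Set.range f)) L] :
    FiniteDimensional F L := by
  let e := adjE (kf_eq_up_AP hX) (AP_frac (k := k) (F := F) (m := m))
  obtain ⟨s, hs⟩ := hfin
  refine ⟨s, ?_⟩
  rw [eq_top_iff] at hs ⊢
  intro x _
  have h1 := hs (Submodule.mem_top (x := x))
  induction h1 using Submodule.span_induction with
  | mem x hx => exact Submodule.subset_span hx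
  | zero => exact zero_mem _
  | add x y _ _ hx hy => exact add_mem (hx Submodule.mem_top) (hy Submodule.mem_top)
  | smul c x _ hx =>
    have h2 : c • x = (e.symm c) • x := by
      rw [Algebra.smul_def, Algebra.smul_def]
      congr 1
      have h3 := adjE_coe (kf_eq_up_AP hX) (AP_frac (k := k) (F := F) (m := m)) (e.symm c)
      have h4 : adjE (kf_eq_up_AP hX) (AP_frac (k := k) (F := F) (m := m)) (e.symm c) = c :=
        e.apply_symm_apply c
      rw [h4] at h3
      exact h3
    rw [h2]
    exact Submodule.smul_mem _ _ (hx Submodule.mem_top)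

/-- The map `F → L`, `X_i ↦ f i`. -/
noncomputable def algP (hf : AlgebraicIndependent k f) : F →+* L :=
  IsFractionRing.lift (A := MvPolynomial (Fin m) k) (K := F)
    (g := (MvPolynomial.aeval f : MvPolynomial (Fin m) k →ₐ[k] L).toRingHom) hf

omit [Algebra k F] [IsScalarTower k (MvPolynomial (Fin m) k) F] [Algebra F L]
  [IsScalarTower k F L] in
theorem algP_algebraMap (hf : AlgebraicIndependent k f) (P : MvPolynomial (Fin m) k) :
    algP (F := F) hf (algebraMap (MvPolynomial (Fin m) k) F P) = MvPolynomial.aeval f P :=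
  IsFractionRing.lift_algebraMap _ P

omit [Algebra k F] [IsScalarTower k (MvPolynomial (Fin m) k) F] [Algebra F L]
  [IsScalarTower k F L] in
theorem algP_X (hf : AlgebraicIndependent k f) (i : Fin m) :
    algP (F := F) hf (algebraMap (MvPolynomial (Fin m) k) F (MvPolynomial.X i)) = f i := by
  rw [algP_algebraMap, MvPolynomial.aeval_X]

omit [Algebra F L] [IsScalarTower k F L] in
theorem algP_tower (hf : AlgebraicIndependent k f) (c : k) :
    algP (F := F) hf (algebraMap k F c) = algebraMap k L c := by
  rw [IsScalarTower.algebraMap_apply k (MvPolynomial (Fin m) k) F, algP_algebraMap,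
    AlgHom.commutes]

end Poly

end Pool.Agent.TGJ
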