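import Pool.Agent.Lib.TGJ.DivS
import Pool.Agent.Lib.TGJ_h12.Agree

/-!
# R5: the input `H12.DivFin` of `Agree` and `Lem3`
-/

set_option autoImplicit false

namespace Pool.Agent.TGJ

universe u

theorem divFin (k K : Type u) [Field k] [Field K] [Algebra k K] : H12.DivFin k K := by
  intro S res hS g hg
  exact hS.finite_div g (fun h => hg (by rw [h]; rfl))

end Pool.Agent.TGJ
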