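import Pool.Agent.Lib.TGT.Count1

/-!
# TANK G, block C: extension of discrete valuations on rings (helper76)
-/

set_option autoImplicit false

namespace Pool.Agent.TGJ

open Pool.Agent.TAO (OVal VPos exists_extVal ge_of_isIntegral val_add_vpos)
open scoped WithZero

universe u

section Fields

variable {κ κ' : Type u} [Field κ] [Field κ'] [Algebra κ κ']

/-- The real valuation of a valuation with values in `ℤᵐ⁰`. -/
noncomputable def toO (v : Valuation κ ℤᵐ⁰) : OVal ℝ κ where
  toFun x := -((WithZero.log (v x) : ℤ) : ℝ)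
  map_mul' x y hx hy := by
    rw [map_mul, WithZero.log_mul (v.ne_zero_iff.2 hx) (v.ne_zero_iff.2 hy)]
    push_cast
    ring
  map_add' x y hx hy hxy := by
    have h1 := v.map_add x y
    have hx' := v.ne_zero_iff.2 hx
    have hy' := v.ne_zero_iff.2 hy
    have hxy' := v.ne_zero_iff.2 hxy
    rcases le_max_iff.1 h1 with h2 | h2
    · have h3 := (WithZero.log_le_log hxy' hx').2 h2
      have h4 : ((WithZero.log (v (x + y)) : ℤ) : ℝ) ≤ ((WithZero.log (v x) : ℤ) : ℝ) := by
        exact_mod_cast h3
      exact le_trans (min_le_left _ _) (by linarith)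
    · have h3 := (WithZero.log_le_log hxy' hy').2 h2
      have h4 : ((WithZero.log (v (x + y)) : ℤ) : ℝ) ≤ ((WithZero.log (v y) : ℤ) : ℝ) := by
        exact_mod_cast h3
      exact le_trans (min_le_right _ _) (by linarith)

theorem toO_apply (v : Valuation κ ℤᵐ⁰) (x : κ) :
    toO v x = -((WithZero.log (v x) : ℤ) : ℝ) := rfl

theorem vpos_sum {L : Type*} [Field L] (w : OVal ℝ L) {ι : Type*} (s : Finset ι) (f : ι → L)
    (hf : ∀ i ∈ s, VPos w (f i)) : VPos w (∑ i ∈ s, f i) := by
  classical
  induction s using Finset.induction_on with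
  | empty => rw [Finset.sum_empty]; exact VPos.zero
  | insert i s hi ih =>
    rw [Finset.sum_insert hi]
    exact VPos.add (hf i (Finset.mem_insert_self i s))
      (ih fun j hj => hf j (Finset.mem_insert_of_mem hj))

/-- A multiple of the value of an element of degree at most `d` is a value of `κ`. -/
theorem exists_pow_le [FiniteDimensional κ κ'] (w : OVal ℝ κ') (x : κ') (hx : x ≠ 0) :
    ∃ n : ℕ, 0 < n ∧ n ≤ Module.finrank κ κ' ∧ ∃ a b : κ, a ≠ 0 ∧ b ≠ 0 ∧
      (n : ℝ) * w x = w (algebraMap κ κ' a) - w (algebraMap κ κ' b) := by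
  classical
  have hint : IsIntegral κ x := Algebra.IsIntegral.isIntegral x
  set P := minpoly κ x with hP
  have hdeg : P.natDegree ≤ Module.finrank κ κ' := minpoly.natDegree_le x
  set f : ℕ → κ' := fun i => algebraMap κ κ' (P.coeff i) * x ^ i with hf
  have hsum : ∑ i ∈ P.support, f i = 0 := by
    have h0 : Polynomial.aeval x P = 0 := minpoly.aeval κ x
    rw [Polynomial.aeval_eq_sum_range' (n := P.natDegree + 1) (by omega)] at h0
    rw [← h0, ← Finset.sum_subset (s₁ := P.support) (s₂ := Finset.range (P.natDegree + 1))]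
    · refine Finset.sum_congr rfl fun i _ => ?_
      rw [Algebra.smul_def]
    · exact Polynomial.supp_subset_range (by omega)
    · intro i _ hi
      rw [Polynomial.notMem_support_iff] at hi
      rw [hi, zero_smul]
  have hne : ∀ i ∈ P.support, f i ≠ 0 := by
    intro i hi
    refine mul_ne_zero ?_ (pow_ne_zero _ hx)
    rw [Ne, map_eq_zero]
    exact Polynomial.mem_support_iff.1 hi
  obtain ⟨i, hi, hmin⟩ := Finset.exists_min_image P.support (fun i => w (f i))
    (Polynomial.support_nonempty.2 (minpoly.ne_zero hint))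
  obtain ⟨j, hj, hji, hv⟩ : ∃ j ∈ P.support, j ≠ i ∧ w (f j) = w (f i) := by
    by_contra hcon
    push Not at hcon
    have h1 : VPos w (∑ j ∈ P.support.erase i, f j / f i) := by
      refine vpos_sum w _ _ fun j hj => ?_
      rw [Finset.mem_erase] at hj
      intro _
      rw [w.map_div (hne j hj.2) (hne i hi)]
      have h2 := lt_of_le_of_ne (hmin j hj.2) (hcon j hj.2 hj.1).symm
      linarith
    have h2 := (val_add_vpos (v := w) one_ne_zero w.map_one h1).1
    apply h2
    rw [← Finset.sum_div, ← div_self (hne i hi), ← add_div, Finset.add_sum_erase _ _ hi, hsum,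
      zero_div]
  have hval : ∀ i ∈ P.support, w (f i) = w (algebraMap κ κ' (P.coeff i)) + i * w x := by
    intro i hi
    have h1 : algebraMap κ κ' (P.coeff i) ≠ 0 := by
      rw [Ne, map_eq_zero]
      exact Polynomial.mem_support_iff.1 hi
    rw [hf]
    change w (algebraMap κ κ' (P.coeff i) * x ^ i) = _
    rw [w.map_mul h1 (pow_ne_zero _ hx), w.map_pow hx]
  have key : ∀ i j, i ∈ P.support → j ∈ P.support → i < j → w (f j) = w (f i) →
      ∃ n : ℕ, 0 < n ∧ n ≤ Module.finrank κ κ' ∧ ∃ a b : κ, a ≠ 0 ∧ b ≠ 0 ∧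
        (n : ℝ) * w x = w (algebraMap κ κ' a) - w (algebraMap κ κ' b) := by
    intro i j hi hj hij h
    have hjd : j ≤ P.natDegree := Polynomial.le_natDegree_of_mem_supp j hj
    refine ⟨j - i, by omega, by omega, P.coeff i, P.coeff j, Polynomial.mem_support_iff.1 hi,
      Polynomial.mem_support_iff.1 hj, ?_⟩
    rw [hval i hi, hval j hj] at h
    rw [Nat.cast_sub hij.le]
    linarith
  rcases lt_or_gt_of_ne hji with h | h
  · exact key j i hj hi h hv.symm
  · exact key i j hi hj h hv

/-- Extension of a discrete valuation to a finite extension, up to a power. -/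
theorem exists_ext_field [FiniteDimensional κ κ'] (v : Valuation κ ℤᵐ⁰) :
    ∃ (M : ℕ) (w : OVal ℝ κ') (v' : Valuation κ' ℤᵐ⁰), 0 < M ∧
      (∀ a : κ, a ≠ 0 → w (algebraMap κ κ' a) = toO v a) ∧
      (∀ x, x ≠ 0 → ((WithZero.log (v' x) : ℤ) : ℝ) = - (M * w x)) ∧
      ∀ a : κ, v' (algebraMap κ κ' a) = v a ^ M := by
  classical
  obtain ⟨w, hw⟩ := exists_extVal κ κ' (toO v)
  set M := (Module.finrank κ κ').factorial with hM
  have hM0 : 0 < M := Nat.factorial_pos _
  have hint : ∀ x : κ', ∃ z : ℤ, x ≠ 0 → (z : ℝ) = M * w x := by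
    intro x
    by_cases hx : x = 0
    · exact ⟨0, fun h => absurd hx h⟩
    obtain ⟨n, hn0, hn, a, b, ha, hb, hab⟩ := exists_pow_le (κ := κ) w x hx
    rw [hw a ha, hw b hb, toO_apply, toO_apply] at hab
    obtain ⟨c, hc⟩ := Nat.dvd_factorial hn0 hn
    refine ⟨c * (WithZero.log (v b) - WithZero.log (v a)), fun _ => ?_⟩
    rw [hM, hc]
    push_cast
    have h1 : (n : ℝ) * c * w x = c * (n * w x) := by ring
    rw [h1, hab]
    ring
  choose m hm using hint
  have hmul : ∀ x y, x ≠ 0 → y ≠ 0 → m (x * y) = m x + m y := by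
    intro x y hx hy
    have h1 := hm (x * y) (mul_ne_zero hx hy)
    rw [w.map_mul hx hy] at h1
    have h2 := hm x hx
    have h3 := hm y hy
    have h4 : (m (x * y) : ℝ) = ((m x + m y : ℤ) : ℝ) := by
      push_cast
      rw [h1, h2, h3]
      ring
    exact_mod_cast h4
  have hadd : ∀ x y, x ≠ 0 → y ≠ 0 → x + y ≠ 0 → min (m x) (m y) ≤ m (x + y) := by
    intro x y hx hy hxy
    have h1 := hm (x + y) hxy
    have h2 := hm x hx
    have h3 := hm y hy
    have h4 := w.map_add hx hy hxy
    have hMr : (0 : ℝ) < M := by exact_mod_cast hM0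
    rcases min_le_iff.1 h4 with h5 | h5
    · refine le_trans (min_le_left _ _) ?_
      have h6 : (m x : ℝ) ≤ m (x + y) := by
        rw [h1, h2]
        exact mul_le_mul_of_nonneg_left h5 hMr.le
      exact_mod_cast h6
    · refine le_trans (min_le_right _ _) ?_
      have h6 : (m y : ℝ) ≤ m (x + y) := by
        rw [h1, h3]
        exact mul_le_mul_of_nonneg_left h5 hMr.le
      exact_mod_cast h6
  have hone : m 1 = 0 := by
    have h1 := hmul 1 1 one_ne_zero one_ne_zero
    rw [mul_one] at h1
    omega
  let v' : Valuation κ' ℤᵐ⁰ :=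
    { toFun := fun x => if x = 0 then 0 else WithZero.exp (-(m x))
      map_zero' := by simp
      map_one' := by
        rw [if_neg one_ne_zero, hone]
        simp
      map_mul' := fun x y => by
        by_cases hx : x = 0
        · simp [hx]
        by_cases hy : y = 0
        · simp [hy]
        rw [if_neg hx, if_neg hy, if_neg (mul_ne_zero hx hy), hmul x y hx hy, ← WithZero.exp_add]
        congr 1
        ring
      map_add_le_max' := fun x y => by
        by_cases hxy : x + y = 0
        · simp [hxy]
        by_cases hx : x = 0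
        · simp [hx]
        by_cases hy : y = 0
        · simp [hy]
        rw [if_neg hx, if_neg hy, if_neg hxy, le_max_iff, WithZero.exp_le_exp,
          WithZero.exp_le_exp]
        rcases min_le_iff.1 (hadd x y hx hy hxy) with h | h
        · left
          omega
        · right
          omega }
  have hv' : ∀ x, x ≠ 0 → v' x = WithZero.exp (-(m x)) := fun x hx => if_neg hx
  refine ⟨M, w, v', hM0, hw, ?_, ?_⟩
  · intro x hx
    rw [hv' x hx, WithZero.log_exp]
    push_cast
    rw [hm x hx]
  · intro a
    by_cases ha : a = 0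
    · subst ha
      rw [map_zero, map_zero, map_zero, zero_pow hM0.ne']
    · have ha' : algebraMap κ κ' a ≠ 0 := by simpa using ha
      have h1 := hm _ ha'
      rw [hw a ha, toO_apply] at h1
      have h2 : -(m (algebraMap κ κ' a)) = M * WithZero.log (v a) := by
        have h3 : ((-(m (algebraMap κ κ' a)) : ℤ) : ℝ) = ((M * WithZero.log (v a) : ℤ) : ℝ) := by
          push_cast
          rw [h1]
          ring
        exact_mod_cast h3
      rw [hv' _ ha', h2]
      have h4 : v a ≠ 0 := v.ne_zero_iff.2 ha
      have h5 : WithZero.log (v a ^ M) = M * WithZero.log (v a) := by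
        rw [WithZero.log_pow, nsmul_eq_mul]
      rw [← h5, WithZero.exp_log (pow_ne_zero _ h4)]

/-- The valuation ring of the extension contains the elements integral over a ring on which `v`
is at most one. -/
theorem ge_zero_of_isIntegral {O : Type*} [CommRing O] [Algebra O κ'] {w : OVal ℝ κ'}
    (hO : ∀ a : O, w.Ge 0 (algebraMap O κ' a)) {c : κ'} (hc : IsIntegral O c) : w.Ge 0 c :=
  ge_of_isIntegral hO hc

end Fields

section Rings

open scoped nonZeroDivisors

theorem finiteDimensional_frac {R S κ κ' : Type u} [CommRing R] [CommRing S] [IsDomain R]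
    [IsDomain S] [Field κ] [Field κ'] [Algebra R κ] [Algebra S κ'] [IsFractionRing R κ]
    [IsFractionRing S κ'] [Algebra κ κ'] [Algebra R S] [Module.Finite R S]
    (hcomp : ∀ r : R, algebraMap κ κ' (algebraMap R κ r) = algebraMap S κ' (algebraMap R S r)) :
    FiniteDimensional κ κ' := by
  classical
  obtain ⟨s, hs⟩ := (inferInstance : Module.Finite R S).fg_top
  have hint : ∀ b : S, IsIntegral κ (algebraMap S κ' b) := by
    intro b
    obtain ⟨p, hp, hpb⟩ := (Algebra.IsIntegral.isIntegral (R := R) b)
    refine ⟨p.map (algebraMap R κ), hp.map _, ?_⟩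
    rw [Polynomial.eval₂_map]
    have h1 : (algebraMap κ κ').comp (algebraMap R κ) = (algebraMap S κ').comp (algebraMap R S) :=
      RingHom.ext hcomp
    rw [h1, ← Polynomial.hom_eval₂, hpb, map_zero]
  let E : IntermediateField κ κ' := IntermediateField.adjoin κ ((algebraMap S κ') '' (s : Set S))
  have hE : FiniteDimensional κ E := by
    refine IntermediateField.finiteDimensional_adjoin ?_
    rintro _ ⟨b, _, rfl⟩
    exact hint b
  have hS : ∀ b : S, algebraMap S κ' b ∈ E := by
    intro b
    have hb : b ∈ Submodule.span R (s : Set S) := by rw [hs]; trivial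
    induction hb using Submodule.span_induction with
    | mem x hx => exact IntermediateField.subset_adjoin _ _ ⟨x, hx, rfl⟩
    | zero => rw [map_zero]; exact E.zero_mem
    | add x y _ _ hx hy => rw [map_add]; exact E.add_mem hx hy
    | smul r x _ hx =>
      rw [Algebra.smul_def, map_mul, ← hcomp]
      exact E.mul_mem (E.algebraMap_mem _) hx
  have htop : E = ⊤ := by
    rw [eq_top_iff]
    intro x _
    obtain ⟨a, b, _, rfl⟩ := IsFractionRing.div_surjective (A := S) x
    exact E.div_mem (hS a) (hS b)
  rw [htop] at hE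
  exact (IntermediateField.topEquiv (F := κ) (E := κ')).toLinearEquiv.finiteDimensional

/-- **Extension of discrete valuations** from a ring to a finite extension. -/
theorem exists_ext_valuation {B B' : Type u} [CommRing B] [CommRing B'] [IsDomain B] [IsDomain B']
    [Algebra B B'] [FaithfulSMul B B'] [Module.Finite B B'] (v : Valuation B ℤᵐ⁰)
    (hv : ∀ b, v b ≤ 1) (_hne : ∃ b, v b ≠ 0 ∧ v b < 1) :
    ∃ v' : Valuation B' ℤᵐ⁰, (∀ b, v' b ≤ 1) ∧ (v'.comap (algebraMap B B')).IsEquiv v := by
  classical
  set q : Ideal B := v.supp with hq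
  have hqp : q.IsPrime := inferInstance
  obtain ⟨Q, -, hQp, hQ⟩ := Ideal.exists_ideal_over_prime_of_isIntegral q (⊥ : Ideal B') (by
    intro b hb
    rw [Ideal.mem_comap, Ideal.mem_bot] at hb
    have h1 : b = 0 := by
      apply FaithfulSMul.algebraMap_injective B B'
      rw [hb, map_zero]
    rw [h1]
    exact q.zero_mem)
  let R := B ⧸ q
  let S := B' ⧸ Q
  let κ := FractionRing R
  let κ' := FractionRing S
  let i : R →+* S := Ideal.quotientMap Q (algebraMap B B') (by rw [hQ])
  have hi : Function.Injective i := Ideal.quotientMap_injective' (by rw [hQ])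
  have himk : ∀ b : B, i (Ideal.Quotient.mk q b) = Ideal.Quotient.mk Q (algebraMap B B' b) :=
    fun b => rfl
  let _ : Algebra R S := i.toAlgebra
  let j : κ →+* κ' := IsFractionRing.map (A := R) (B := S) (K := κ) (L := κ') hi
  have hj : ∀ r : R, j (algebraMap R κ r) = algebraMap S κ' (i r) := fun r =>
    IsLocalization.map_eq _ r
  let _ : Algebra κ κ' := j.toAlgebra
  have hRS : Module.Finite R S := by
    obtain ⟨s, hs⟩ := (inferInstance : Module.Finite B B').fg_top
    refine ⟨⟨s.image (Ideal.Quotient.mk Q), ?_⟩⟩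
    rw [eq_top_iff]
    rintro x -
    obtain ⟨b, rfl⟩ := Ideal.Quotient.mk_surjective x
    have hb : b ∈ Submodule.span B (s : Set B') := by rw [hs]; trivial
    induction hb using Submodule.span_induction with
    | mem y hy =>
      refine Submodule.subset_span ?_
      rw [Finset.coe_image]
      exact ⟨y, hy, rfl⟩
    | zero => rw [map_zero]; exact Submodule.zero_mem _
    | add y z _ _ hy hz => rw [map_add]; exact Submodule.add_mem _ hy hz
    | smul r y _ hy =>
      have h1 : Ideal.Quotient.mk Q (r • y) = (Ideal.Quotient.mk q r : R) • (Ideal.Quotient.mk Q y) := by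
        rw [Algebra.smul_def, map_mul, Algebra.smul_def]
        rfl
      rw [h1]
      exact Submodule.smul_mem _ _ hy
  have hfd : FiniteDimensional κ κ' := finiteDimensional_frac (R := R) (S := S) hj
  -- the valuation of `κ`
  let vq : Valuation R ℤᵐ⁰ := v.onQuot le_rfl
  have hvq : ∀ b : B, vq (Ideal.Quotient.mk q b) = v b := fun b => rfl
  have hsupp : R⁰ ≤ vq.supp.primeCompl := by
    intro r hr hr'
    have h1 : vq r = 0 := hr'
    obtain ⟨b, rfl⟩ := Ideal.Quotient.mk_surjective r
    rw [hvq] at h1
    have h2 : b ∈ q := h1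
    have h3 : (Ideal.Quotient.mk q b : R) = 0 := Ideal.Quotient.eq_zero_iff_mem.2 h2
    rw [h3] at hr
    exact nonZeroDivisors.ne_zero hr rfl
  let vκ : Valuation κ ℤᵐ⁰ := vq.extendToLocalization hsupp κ
  have hvκ : ∀ r : R, vκ (algebraMap R κ r) = vq r := fun r =>
    Valuation.extendToLocalization_apply_map_apply vq hsupp κ r
  obtain ⟨M, w, v', hM, hw, hwv', hv'⟩ := exists_ext_field (κ' := κ') vκ
  have hO : ∀ a : B, ∀ r : κ', r = algebraMap S κ' (Ideal.Quotient.mk Q (algebraMap B B' a)) →
      w.Ge 0 r := by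
    rintro a _ rfl ha
    rw [← himk, ← hj] at ha ⊢
    have ha' : algebraMap R κ (Ideal.Quotient.mk q a) ≠ 0 := by
      intro h0
      rw [h0, map_zero] at ha
      exact ha rfl
    have h1 : w (j (algebraMap R κ (Ideal.Quotient.mk q a))) =
        toO vκ (algebraMap R κ (Ideal.Quotient.mk q a)) := hw _ ha'
    rw [h1, toO_apply, hvκ, hvq]
    have h2 : v a ≠ 0 := by
      rw [← hvq, ← hvκ]
      exact vκ.ne_zero_iff.2 ha'
    have h3 := (WithZero.log_le_log h2 one_ne_zero).2 (hv a)
    rw [WithZero.log_one] at h3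
    have h4 : ((WithZero.log (v a) : ℤ) : ℝ) ≤ 0 := by exact_mod_cast h3
    linarith
  refine ⟨v'.comap ((algebraMap S κ').comp (Ideal.Quotient.mk Q)), ?_, ?_⟩
  · intro b
    rw [Valuation.comap_apply]
    set x : κ' := ((algebraMap S κ').comp (Ideal.Quotient.mk Q)) b with hx
    by_cases hx0 : x = 0
    · rw [hx0, map_zero]
      exact zero_le_one
    let algBκ : Algebra B κ' :=
      (((algebraMap S κ').comp (Ideal.Quotient.mk Q)).comp (algebraMap B B')).toAlgebra
    have hbint : IsIntegral B x := by
      obtain ⟨p, hp, hpb⟩ := (Algebra.IsIntegral.isIntegral (R := B) b)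
      refine ⟨p, hp, ?_⟩
      have h1 : algebraMap B κ' =
          ((algebraMap S κ').comp (Ideal.Quotient.mk Q)).comp (algebraMap B B') := rfl
      rw [h1, hx, ← Polynomial.hom_eval₂, hpb, map_zero]
    have h1 : w.Ge 0 x := ge_of_isIntegral (O := B) (fun a => hO a _ rfl) hbint
    have h2 := h1 hx0
    have h3 := hwv' x hx0
    have h4 : v' x ≠ 0 := v'.ne_zero_iff.2 hx0
    rw [← WithZero.log_le_log h4 one_ne_zero, WithZero.log_one]
    have h5 : (0 : ℝ) < M := by exact_mod_cast hM
    have h6 : ((WithZero.log (v' x) : ℤ) : ℝ) ≤ 0 := by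
      rw [h3]
      have := mul_nonneg h5.le h2
      linarith
    exact_mod_cast h6
  · intro r s
    have h1 : ∀ b : B, (v'.comap ((algebraMap S κ').comp (Ideal.Quotient.mk Q))).comap
        (algebraMap B B') b = v b ^ M := by
      intro b
      rw [Valuation.comap_apply, Valuation.comap_apply]
      change v' (algebraMap S κ' (Ideal.Quotient.mk Q (algebraMap B B' b))) = _
      rw [← himk, ← hj]
      change v' (algebraMap κ κ' (algebraMap R κ (Ideal.Quotient.mk q b))) = _
      rw [hv', hvκ, hvq]
    rw [h1, h1]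
    exact pow_le_pow_iff_left₀ zero_le zero_le hM.ne'

end Rings

end Pool.Agent.TGJ
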