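import Pool.Agent.Lib.TG.Defs
import Pool.Agent.Lib.TG_h4.OrdV
import Pool.Agent.Lib.TGJ_h11.Ram

/-!
# TANK G, block C (TG_JETS_h97.md): definitions and statements of the rows

A point `S` is a normal local subalgebra of `K` with residue field `k`, essentially of finite type,
together with its residue map `res : S →ₐ[k] k`.  A prime divisor through `S` is a discrete
valuation subring `V` of `K` which is a localisation of `S`.
-/

set_option autoImplicit false

namespace Pool.Agent.TGJ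

open Pool.Agent.TG (ncl Ov ZDim)
open Pool.Agent.TGh4 (Disc ordV)

universe u

variable {k : Type u} [Field k]

section Rho

variable {L : Type u} [Field L] [Algebra k L] {m : ℕ}

/-- `k[f]`. -/
abbrev kf (k : Type u) [Field k] {L : Type u} [Field L] [Algebra k L] {m : ℕ} (f : Fin m → L) :
    Subalgebra k L := Algebra.adjoin k (Set.range f)

/-- The integral closure of `k[f]` in `L`. -/
def icf (k : Type u) [Field k] {L : Type u} [Field L] [Algebra k L] {m : ℕ} (f : Fin m → L) :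
    Subalgebra k L := ncl (kf k f)

theorem kf_le_icf (f : Fin m → L) : kf k f ≤ icf k f := fun x hx =>
  isIntegral_algebraMap (R := kf k f) (x := ⟨x, hx⟩)

/-- `f i` as an element of the integral closure. -/
def icf.X (f : Fin m → L) (i : Fin m) : icf k f :=
  ⟨f i, kf_le_icf f (Algebra.subset_adjoin ⟨i, rfl⟩)⟩

/-- The `k`-point `x` of the integral closure lies over `f = 0`. -/
def Over0 (f : Fin m → L) (x : icf k f →ₐ[k] k) : Prop := ∀ i, x (icf.X f i) = 0

/-- `r` is the function of local degrees over `f = 0`: `N(a)(0) = ∏ x(a) ^ r(x)`. -/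
structure IsRho (f : Fin m → L) (r : (icf k f →ₐ[k] k) → ℕ) : Prop where
  fin : {x : icf k f →ₐ[k] k | Over0 f x}.Finite
  supp : ∀ x : icf k f →ₐ[k] k, r x ≠ 0 ↔ Over0 f x
  norm : ∀ a : icf k f, ∃ N : icf k f,
    (N : L) = ((Algebra.norm (IntermediateField.adjoin k (Set.range f)) (a : L) :
      IntermediateField.adjoin k (Set.range f)) : L) ∧
    ∀ x : icf k f →ₐ[k] k, Over0 f x → x N = ∏ᶠ y : icf k f →ₐ[k] k, y a ^ r y

open Classical in
/-- The local degree of the map `f` at the `k`-point `x` of the integral closure of `k[f]` in `L`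
over `f = 0`. -/
noncomputable def rho (f : Fin m → L) (x : icf k f →ₐ[k] k) : ℕ :=
  if h : ∃ r, IsRho f r then h.choose x else 0

variable {S : Type u} [CommRing S] [Algebra k S]

/-- The `k`-point `x` of the integral closure of `k[f]` in `L` dominates the point `res` of `S`,
where `S` is mapped to `L` by `φ`. -/
def Doms (φ : S →ₐ[k] L) (res : S →ₐ[k] k) (f : Fin m → L) (x : icf k f →ₐ[k] k) : Prop :=
  ∀ s : S, ∃ a b : icf k f, x b = 1 ∧ φ s * b = a ∧ x a = res s

/-- `ρ_L(x; f)` for the point `res` of `S` and the map `φ : S → L`. -/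
noncomputable def Rho (φ : S →ₐ[k] L) (res : S →ₐ[k] k) (f : Fin m → S) : ℕ :=
  ∑ᶠ x ∈ {x : icf k (fun i => φ (f i)) →ₐ[k] k | Over0 _ x ∧ Doms φ res _ x}, rho _ x

/-- `f` is a system of parameters of the image of `S` at the point `res`. -/
def Proper (φ : S →ₐ[k] L) (res : S →ₐ[k] k) (f : Fin m → S) : Prop :=
  (∀ i, res (f i) = 0) ∧
    ∀ Q : Ideal S, Q.IsPrime → RingHom.ker φ ≤ Q → (∀ i, f i ∈ Q) → Q = RingHom.ker res

/-- `L` is the field of fractions of the image of `S`. -/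
def FracOf (φ : S →ₐ[k] L) : Prop := ∀ l : L, ∃ a b : S, φ b ≠ 0 ∧ l * φ b = φ a

open scoped WithZero in
/-- A place of a curve through the point `res` of `S`: a valuation on the ring `S` whose support is
the generic point of the curve. -/
structure IsCv (res : S →ₐ[k] k) (v : Valuation S ℤᵐ⁰) : Prop where
  le : ∀ a, v a ≤ 1
  lt : ∀ a, res a = 0 → v a < 1
  one : ∀ a, res a ≠ 0 → v a = 1
  ne : ∃ a, res a = 0 ∧ v a ≠ 0

open scoped WithZero in
/-- The order of an element of `ℤᵐ⁰` which is at most one. -/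
noncomputable def ordZ (x : ℤᵐ⁰) : ℕ := (-(WithZero.log x)).toNat

end Rho

section Points

variable {K : Type u} [Field K] [Algebra k K]

/-- A closed point of a normal model of `K`. -/
structure NPt (S : Subalgebra k K) (res : S →ₐ[k] k) : Prop where
  inv : ∀ a : S, res a ≠ 0 → (a : K)⁻¹ ∈ S
  ic : ∀ a : K, IsIntegral S a → a ∈ S
  fg : ∃ A : Subalgebra k K, A.FG ∧ ∃ hA : A ≤ S, ∀ s : S, ∃ a b : A,
    res (Subalgebra.inclusion hA b) = 1 ∧ (s : K) * b = a
  frac : ∀ f : K, ∃ a b : S, (b : K) ≠ 0 ∧ f * b = a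

/-- The valuation subring `V` is a prime divisor through the point `S`. -/
structure IsDiv (S : Subalgebra k K) (V : ValuationSubring K) : Prop where
  le : ∀ a ∈ S, a ∈ V
  loc : ∀ x ∈ V, ∃ a ∈ S, ∃ b ∈ S, V.valuation b = 1 ∧ x * b = a
  disc : Disc V

open Classical in
/-- The centre of `V` on `S`. -/
noncomputable def cen (S : Subalgebra k K) (V : ValuationSubring K) : Ideal S :=
  if h : ∀ a ∈ S, a ∈ V then
    (IsLocalRing.maximalIdeal V).comap
      (({ toFun := fun a => ⟨(a : K), h a a.2⟩, map_one' := rfl, map_mul' := fun _ _ => rfl,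
          map_zero' := rfl, map_add' := fun _ _ => rfl } : S →+* V))
  else ⊥

instance cen_prime (S : Subalgebra k K) (V : ValuationSubring K) : (cen S V).IsPrime := by
  unfold cen
  split_ifs with h
  · infer_instance
  · exact Ideal.isPrime_bot

theorem mem_cen {S : Subalgebra k K} {V : ValuationSubring K} (h : ∀ a ∈ S, a ∈ V) (a : S) :
    a ∈ cen S V ↔ V.valuation (a : K) < 1 := by
  unfold cen
  rw [dif_pos h, Ideal.mem_comap]
  exact ValuationSubring.valuation_lt_one_iff V ⟨(a : K), h a a.2⟩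

/-- The map from `S` to the residue field of `V` (the fraction field of `S / cen S V`). -/
noncomputable abbrev toRes (S : Subalgebra k K) (V : ValuationSubring K) :
    S →ₐ[k] (cen S V).ResidueField := IsScalarTower.toAlgHom k S (cen S V).ResidueField

/-- `ρ_κ(V)(S; w)`. -/
noncomputable def RhoV (S : Subalgebra k K) (V : ValuationSubring K) (res : S →ₐ[k] k) {m : ℕ}
    (w : Fin m → S) : ℕ := Rho (toRes S V) res w

/-- `w` is a system of parameters of `S / cen S V`. -/
def ProperV (S : Subalgebra k K) (V : ValuationSubring K) (res : S →ₐ[k] k) {m : ℕ}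
    (w : Fin m → S) : Prop := Proper (toRes S V) res w

/-- The coefficient of the ramification divisor `R_f` at `V`. -/
noncomputable def ramV {S : Subalgebra k K} (V : ValuationSubring K) {n : ℕ} (f : Fin n → S) : ℕ :=
  rram k V.toSubring (ordV V) (fun i => (f i : K))

/-- `R_f` is proper for `w`. -/
def ProperR (S : Subalgebra k K) (res : S →ₐ[k] k) {m n : ℕ} (w : Fin m → S) (f : Fin n → S) :
    Prop := ∀ V, IsDiv S V → ramV V f ≠ 0 → ProperV S V res w

/-- `I(w; R_f)`. -/
noncomputable def IR (S : Subalgebra k K) (res : S →ₐ[k] k) {m n : ℕ} (w : Fin m → S)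
    (f : Fin n → S) : ℕ :=
  ∑ᶠ V ∈ {V : ValuationSubring K | IsDiv S V}, ramV V f * RhoV S V res w

/-- Semilinear automorphisms `(τ, σ)` of `K / k` which preserve `S`, fix `F` pointwise and permute
the set `𝒱` of valuation rings. -/
def Auts (S : Subalgebra k K) (F : Set K) (𝒱 : Set (ValuationSubring K)) :
    Set ((K ≃+* K) × (k ≃+* k)) :=
  {g | (∀ c : k, g.1 (algebraMap k K c) = algebraMap k K (g.2 c)) ∧ (∀ x, x ∈ S ↔ g.1 x ∈ S) ∧
    (∀ x ∈ F, g.1 x = x) ∧ ∀ V, V ∈ 𝒱 ↔ V.comap (g.1 : K →+* K) ∈ 𝒱}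

/-- The vector `a` has infinitely many conjugates under `Auts S F 𝒱`. -/
def Mov (S : Subalgebra k K) (F : Set K) (𝒱 : Set (ValuationSubring K)) {N : ℕ} (a : Fin N → k) :
    Prop := {b : Fin N → k | ∃ g ∈ Auts S F 𝒱, b = fun i => g.2 (a i)}.Infinite

/-! ### Statements -/

/-- F1 (J3, helper82). -/
def F1 (k K : Type u) [Field k] [Field K] [Algebra k K] : Prop :=
  IsAlgClosed k →
  ∀ (S : Subalgebra k K) (res : S →ₐ[k] k), NPt S res → ∀ m : ℕ, Algebra.trdeg k K = (m + 1 : ℕ) →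
    ∀ (g : S) (w : Fin m → S), Proper S.val res (Fin.cons g w : Fin (m + 1) → S) →
      (∀ V, IsDiv S V → g ∈ cen S V → ProperV S V res w) ∧
      Rho S.val res (Fin.cons g w : Fin (m + 1) → S) =
        ∑ᶠ V ∈ {V : ValuationSubring K | IsDiv S V}, (ordV V (g : K)).toNat * RhoV S V res w

open scoped WithZero in
/-- The conclusion of F2: the places of the curve `w = 0` through the point, with weights. -/
def HasCv {S L : Type u} [CommRing S] [Algebra k S] [Field L] [Algebra k L] (φ : S →ₐ[k] L)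
    (res : S →ₐ[k] k) {m : ℕ} (w : Fin m → S) : Prop :=
  ∃ (J : Type) (_ : Fintype J) (μ : J → ℕ) (v : J → Valuation S ℤᵐ⁰),
    (∀ j, 0 < μ j ∧ IsCv res (v j) ∧ (∀ a, φ a = 0 → v j a = 0) ∧ ∀ i, v j (w i) = 0) ∧
    (∀ v' : Valuation S ℤᵐ⁰, IsCv res v' → (∀ a, φ a = 0 → v' a = 0) → (∀ i, v' (w i) = 0) →
      ∃ j, v'.IsEquiv (v j)) ∧
    (∀ g : S, res g = 0 →
      (Proper φ res (Fin.cons g w : Fin (m + 1) → S) ↔ ∀ j, v j g ≠ 0)) ∧
    ∀ g : S, res g = 0 → (∀ j, v j g ≠ 0) →
      Rho φ res (Fin.cons g w : Fin (m + 1) → S) = ∑ j, μ j * ordZ (v j g)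

/-- F2 (J3z, helper88): for `φ = S.val` and for `φ = toRes S V`. -/
def F2 (k K : Type u) [Field k] [Field K] [Algebra k K] : Prop :=
  IsAlgClosed k →
  ∀ (S : Subalgebra k K) (res : S →ₐ[k] k), NPt S res → ∀ m : ℕ,
    (Algebra.trdeg k K = (m + 1 : ℕ) → ∀ (g : S) (w : Fin m → S),
      Proper S.val res (Fin.cons g w : Fin (m + 1) → S) → HasCv S.val res w) ∧
    (Algebra.trdeg k K = (m + 2 : ℕ) → ∀ V, IsDiv S V → ∀ (g : S) (w : Fin m → S),
      ProperV S V res (Fin.cons g w : Fin (m + 1) → S) → HasCv (toRes S V) res w)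

/-- Symmetry (J1, helper82). -/
def Perm (k : Type u) [Field k] : Prop :=
  ∀ (S L : Type u) [CommRing S] [Algebra k S] [Field L] [Algebra k L] (φ : S →ₐ[k] L)
    (res : S →ₐ[k] k) (m : ℕ) (f : Fin m → S) (σ : Equiv.Perm (Fin m)),
    Rho φ res (f ∘ σ) = Rho φ res f

/-- LEMMA 2 for `K` (J4, helper76). -/
def Lem2K (k K : Type u) [Field k] [Field K] [Algebra k K] : Prop :=
  IsAlgClosed k →
  ∀ (S : Subalgebra k K) (res : S →ₐ[k] k), NPt S res → ∀ n : ℕ, Algebra.trdeg k K = (n : ℕ) →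
    ∀ (f : Fin n → S), Proper S.val res f → ∀ (i : Fin n) (N : ℕ) (a : Fin N → k) (h' ε h : S),
      res ε ≠ 0 → res h = 0 → h = h' + ε * ∑ j : Fin N, algebraMap k S (a j) * f i ^ (j.1 + 1) →
      Mov S (insert (h' : K) (insert (ε : K) (Set.range fun j => (f j : K)))) ∅ a →
        Proper S.val res (Function.update f i h) ∧
          Rho S.val res (Function.update f i h) ≤ (N + 1) * Rho S.val res f

/-- LEMMA 2 for a finite set of prime divisors (J4, helper76). -/
def Lem2V (k K : Type u) [Field k] [Field K] [Algebra k K] : Prop :=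
  IsAlgClosed k →
  ∀ (S : Subalgebra k K) (res : S →ₐ[k] k), NPt S res → ∀ m : ℕ, Algebra.trdeg k K = (m + 1 : ℕ) →
    ∀ 𝒱 : Set (ValuationSubring K), 𝒱.Finite → (∀ V ∈ 𝒱, IsDiv S V) → ∀ (w : Fin m → S),
      (∀ V ∈ 𝒱, ProperV S V res w) → ∀ (i : Fin m) (N : ℕ) (a : Fin N → k) (h' ε h : S),
      res ε ≠ 0 → res h = 0 → h = h' + ε * ∑ j : Fin N, algebraMap k S (a j) * w i ^ (j.1 + 1) →
      Mov S (insert (h' : K) (insert (ε : K) (Set.range fun j => (w j : K)))) 𝒱 a →
        ∀ V ∈ 𝒱, ProperV S V res (Function.update w i h) ∧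
          RhoV S V res (Function.update w i h) ≤ (N + 1) * RhoV S V res w

open scoped WithZero in
/-- F1 + F2 for fractions (assembly, helper97): if `g = g₁ / g₂`, `g' = g₁' / g₂'` have the same
order on all places of the curve `w = 0`, then `I(w; div g) = I(w; div g')`. -/
def Agree (k K : Type u) [Field k] [Field K] [Algebra k K] : Prop :=
  IsAlgClosed k →
  ∀ (S : Subalgebra k K) (res : S →ₐ[k] k), NPt S res → ∀ m : ℕ, Algebra.trdeg k K = (m + 1 : ℕ) →
    ∀ (w : Fin m → S), (∃ g, Proper S.val res (Fin.cons g w : Fin (m + 1) → S)) →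
    ∀ (g₁ g₂ g₁' g₂' : S),
      (∀ v : Valuation S ℤᵐ⁰, IsCv res v → (∀ i, v (w i) = 0) →
        v g₁ ≠ 0 ∧ v g₂ ≠ 0 ∧ v g₁' ≠ 0 ∧ v g₂' ≠ 0 ∧ v g₁ * v g₂' = v g₁' * v g₂) →
      ∑ᶠ V ∈ {V : ValuationSubring K | IsDiv S V}, ordV V ((g₁ : K) / g₂) * RhoV S V res w =
        ∑ᶠ V ∈ {V : ValuationSubring K | IsDiv S V}, ordV V ((g₁' : K) / g₂') * RhoV S V res w

/-- Existence of the dual derivations (J6, helper11): `ρ < p` implies that `K / k(f)` is
separable; every prime divisor has enough derivations; `R_f` has finitely many components. -/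
def ExDual (k K : Type u) [Field k] [Field K] [Algebra k K] : Prop :=
  IsAlgClosed k →
  ∀ (p : ℕ), p.Prime → CharP k p → ∀ (S : Subalgebra k K) (res : S →ₐ[k] k), NPt S res →
    ∀ n : ℕ, Algebra.trdeg k K = (n : ℕ) → ∀ (f : Fin n → S), Proper S.val res f →
      Rho S.val res f < p →
      (∃ D : Fin n → Derivation k K K, Dual (fun i => (f i : K)) D) ∧
      (∀ V, IsDiv S V → HasD k V.toSubring (fun i => (f i : K))) ∧
      {V : ValuationSubring K | IsDiv S V ∧ ramV V f ≠ 0}.Finite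

open scoped WithZero in
/-- DENOMINATORS (J6, helper78 + helper11): on a curve through the point, not contained in `R_f`,
the dual derivations are regular. -/
def Den (k K : Type u) [Field k] [Field K] [Algebra k K] : Prop :=
  IsAlgClosed k →
  ∀ (S : Subalgebra k K) (res : S →ₐ[k] k), NPt S res → ∀ n : ℕ, Algebra.trdeg k K = (n : ℕ) →
    ∀ (f : Fin n → S), Proper S.val res f → ∀ D : Fin n → Derivation k K K,
      Dual (fun i => (f i : K)) D → ∀ m : ℕ, n = m + 1 → ∀ w : Fin m → S, ProperR S res w f →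
      ∀ v : Valuation S ℤᵐ⁰, IsCv res v → (∀ i, v (w i) = 0) → ∀ (i : Fin n) (G : S),
        ∃ b c : S, v b ≠ 0 ∧ (b : K) * D i G = c

open scoped WithZero in
/-- The place form of LEMMA 3 (J6 + J5: helper78, helper11, helper43, helper76): on a place `v` of
the curve `w = 0`, `w = f` without `f i`, the derivation `D i` induces `d / d f_i`. -/
def DerPl (k K : Type u) [Field k] [Field K] [Algebra k K] : Prop :=
  IsAlgClosed k →
  ∀ (p : ℕ), p.Prime → CharP k p → ∀ (S : Subalgebra k K) (res : S →ₐ[k] k), NPt S res →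
    ∀ m : ℕ, Algebra.trdeg k K = (m + 1 : ℕ) →
    ∀ (f : Fin (m + 1) → S), Proper S.val res f → Rho S.val res f < p →
      ∀ D : Fin (m + 1) → Derivation k K K, Dual (fun i => (f i : K)) D → ∀ i : Fin (m + 1),
      ProperR S res (f ∘ i.succAbove) f →
      ∀ v : Valuation S ℤᵐ⁰, IsCv res v → (∀ j, v (f (i.succAbove j)) = 0) →
      -- `N - 1` new coefficients: `at most one c`
      ∀ (N : ℕ), N < p → ∀ (G' ε : S), res ε ≠ 0 → ∀ c c' : Fin N → k,
        (∀ a ∈ ({c, c'} : Set (Fin N → k)), ∀ b e : S, v b ≠ 0 →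
          (b : K) * D i (G' + ε * ∑ j : Fin N, algebraMap k S (a j) * f i ^ (j.1 + 1) : S) = e →
            v e ≤ v b * v (f i) ^ N) → c = c'

/-- LEMMA 3 (J5 + J6 + assembly). -/
def Lem3 (k K : Type u) [Field k] [Field K] [Algebra k K] : Prop :=
  IsAlgClosed k →
  ∀ (p : ℕ), p.Prime → CharP k p → ∀ (S : Subalgebra k K) (res : S →ₐ[k] k), NPt S res →
    ∀ m : ℕ, Algebra.trdeg k K = (m + 1 : ℕ) →
    ∀ (f : Fin (m + 1) → S), Proper S.val res f → Rho S.val res f < p →
      ∀ D : Fin (m + 1) → Derivation k K K, Dual (fun i => (f i : K)) D → ∀ i : Fin (m + 1),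
      ProperR S res (f ∘ i.succAbove) f → ∀ (N : ℕ), 1 ≤ N → N < p →
      ∀ (c : Fin N → k) (G' ε G : S), res ε ≠ 0 →
      G = G' + ε * ∑ j : Fin N, algebraMap k S (c j) * f i ^ (j.1 + 1) →
      Mov S (insert (G' : K) (insert (ε : K) (Set.range fun j => (f j : K)))) ∅ c →
        D i (G : K) ≠ 0 ∧ ProperR S res (f ∘ i.succAbove) (Function.update f i G) ∧
        IR S res (f ∘ i.succAbove) (Function.update f i G) ≤
          IR S res (f ∘ i.succAbove) f + N * Rho S.val res f

/-- THE THEOREM at one point (J8, helper97). -/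
def ThmC (k K : Type u) [Field k] [Field K] [Algebra k K] : Prop :=
  IsAlgClosed k →
  ∀ (p : ℕ), p.Prime → CharP k p → ∀ (S : Subalgebra k K) (res : S →ₐ[k] k), NPt S res →
    ∀ m : ℕ, Algebra.trdeg k K = (m + 1 : ℕ) → ∀ (C₁ C₂ C₃ N : ℕ), 1 ≤ N →
      (N + 1) ^ (m + 1) * C₁ < p → N < p → ∀ (u y : Fin (m + 1) → S) (η : S), res η ≠ 0 →
      Proper S.val res u → Rho S.val res u ≤ C₁ →
      ProperR S res (u ∘ Fin.succ) u → IR S res (u ∘ Fin.succ) u ≤ C₂ →
      ∀ Θ : Set (ValuationSubring K), Θ.Finite → (∀ V ∈ Θ, IsDiv S V) →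
      (∀ V ∈ Θ, ProperV S V res (u ∘ Fin.castSucc) ∧ RhoV S V res (u ∘ Fin.castSucc) ≤ C₃) →
      (∀ i, res (y i) = 0) →
      (∀ l i : Fin (m + 1), (i = l ∨ i.1 = l.1 + 1) → ∃ (a : Fin N → k) (h' : S),
        η * y l = h' + ∑ j : Fin N, algebraMap k S (a j) * u i ^ (j.1 + 1) ∧
        Mov S (insert (h' : K) (insert (η : K) ((Set.range fun j => (u j : K)) ∪
          ((fun j => (y j : K)) '' {j | j ≠ l})))) Θ a) →
      Proper S.val res y ∧ Rho S.val res y ≤ (N + 1) ^ (m + 1) * C₁ ∧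
      ∀ V, IsDiv S V → (ramV V y ≠ 0 ∨ V ∈ Θ) → ProperV S V res (y ∘ Fin.castSucc) ∧
        RhoV S V res (y ∘ Fin.castSucc) ≤
          (N + 1) ^ m * (C₂ + C₃) + (m + 1) * N * (N + 1) ^ m * C₁

end Points

end Pool.Agent.TGJ
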