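import Pool.Agent.Lib.TGJ.Dict74
import Pool.Agent.Lib.TGJ_h11.ExD2

/-!
# TANK G, block C: the input `InR1` of the rows R7 - R10
-/

set_option autoImplicit false

namespace Pool.Agent.TGJ

universe u

theorem inR1 (k K : Type u) [Field k] [Field K] [Algebra k K] [IsAlgClosed k] : InR1 k K := by
  intro n f hf hfin
  have h1 := isRho_rho hf
  refine ⟨h1.fin, fun x hx => ⟨(h1.supp x).2 hx, ?_⟩⟩
  rw [rho_eq_rfun (AF_normal hf) (kf_eq_up f) AF_frac x, rfun, if_pos hx]
  exact ⟨_, rfl⟩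

end Pool.Agent.TGJ
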