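import Pool.Agent.Lib.TGJ.Link

/-!
# TANK G, block C, row R13: `rho A x ≤ Rho φ res y`
-/

set_option autoImplicit false

namespace Pool.Agent.TGJ

open Pool.Agent.TG (ncl up Ov ZDim)
open Pool.Agent.TG82 (toC)

universe u

section LinkB

variable {k F L S : Type u} [Field k] [Field F] [Field L] [Algebra k F] [Algebra k L]
  [Algebra F L] [IsScalarTower k F L] [CommRing S] [Algebra k S] {m : ℕ} {A : Subalgebra k F}

/-- The support of the sum `Rho` is finite. -/
theorem Rho_supp_finite {f : Fin m → L} (hf : ∃ r, IsRho (k := k) f r) (φ : S →ₐ[k] L)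
    (res : S →ₐ[k] k) : {x : icf k f →ₐ[k] k | Over0 f x ∧ Doms φ res f x}.Finite := by
  obtain ⟨r, hr⟩ := hf
  exact hr.fin.subset fun x hx => hx.1

/-- Each local degree is at most `Rho`. -/
theorem rho_le_Rho' {φ : S →ₐ[k] L} {res : S →ₐ[k] k} {y : Fin m → S}
    (hf : ∃ r, IsRho (k := k) (fun i => φ (y i)) r) (x : icf k (fun i => φ (y i)) →ₐ[k] k)
    (h0 : Over0 _ x) (hd : Doms φ res _ x) :
    rho (fun i => φ (y i)) x ≤ Rho φ res y := by
  classical
  have hfin := Rho_supp_finite hf φ res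
  rw [Rho, finsum_mem_eq_finite_toFinset_sum _ hfin]
  exact Finset.single_le_sum (f := fun x => rho (fun i => φ (y i)) x) (fun _ _ => Nat.zero_le _)
    (hfin.mem_toFinset.2 ⟨h0, hd⟩)

variable [IsAlgClosed k] [FiniteDimensional F L]

/-- **R13 (b)**: the local degree of the point `x` of the integral closure of `A` in `L` is at
most `Rho`, if `x` dominates the point `res` of `S`. -/
theorem rho_le_Rho (hA : ∀ b : F, IsIntegral A b → b ∈ A)
    (hfr : ∀ g : F, ∃ a ∈ A, ∃ b ∈ A, b ≠ 0 ∧ g = a / b) {φ : S →ₐ[k] L} {res : S →ₐ[k] k}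
    {y : Fin m → S} (hf : kf k (fun i => φ (y i)) = up L A) (x : ncl (up L A) →ₐ[k] k)
    (h0 : Over0 _ (x.comp (icfE hf).toAlgHom)) (hd : Doms φ res _ (x.comp (icfE hf).toAlgHom)) :
    TG82.rho A x ≤ Rho φ res y := by
  rw [← link_rho hA hf hfr x h0]
  exact rho_le_Rho' ⟨_, isRho_rfun hA hf hfr⟩ _ h0 hd

/-- **R13 (b)**, valuation form: `W` is centred at the point `res` of `S` and at the point `x` of
the integral closure of `A`; the hypothesis `hdom` is `doms_of_proper` (helper32). -/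
theorem rho_le_Rho_of_val (hA : ∀ b : F, IsIntegral A b → b ∈ A)
    (hfr : ∀ g : F, ∃ a ∈ A, ∃ b ∈ A, b ≠ 0 ∧ g = a / b) {φ : S →ₐ[k] L} {res : S →ₐ[k] k}
    {y : Fin m → S} (hf : kf k (fun i => φ (y i)) = up L A) (x : ncl (up L A) →ₐ[k] k)
    (W : ValuationSubring L)
    (hx : ∀ a : ncl (up L A), W.valuation ((a : L) - algebraMap k L (x a)) < 1)
    (hdom : ∀ x' : icf k (fun i => φ (y i)) →ₐ[k] k,
      (∀ a : icf k (fun i => φ (y i)), W.valuation ((a : L) - algebraMap k L (x' a)) < 1) →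
        Over0 _ x' ∧ Doms φ res _ x') : TG82.rho A x ≤ Rho φ res y := by
  obtain ⟨h0, hd⟩ := hdom (x.comp (icfE hf).toAlgHom) fun a => hx (icfE hf a)
  exact rho_le_Rho hA hfr hf x h0 hd

end LinkB

section Chart

variable {k L : Type u} [Field k] [Field L] [Algebra k L] {m : ℕ}

/-- Subtracting constants does not change `k[f]`. -/
theorem kf_sub_const (f f' : Fin m → L) (c : Fin m → k)
    (h : ∀ i, f' i = f i - algebraMap k L (c i)) : kf k f' = kf k f := by
  apply le_antisymm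
  · refine Algebra.adjoin_le ?_
    rintro _ ⟨i, rfl⟩
    change f' i ∈ kf k f
    rw [h i]
    exact sub_mem (Algebra.subset_adjoin ⟨i, rfl⟩) (Subalgebra.algebraMap_mem _ _)
  · refine Algebra.adjoin_le ?_
    rintro _ ⟨i, rfl⟩
    change f i ∈ kf k f'
    have h1 : f i = f' i + algebraMap k L (c i) := by rw [h i]; ring
    rw [h1]
    exact add_mem (Algebra.subset_adjoin ⟨i, rfl⟩) (Subalgebra.algebraMap_mem _ _)

end Chart

end Pool.Agent.TGJ
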