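import Pool.Agent.Lib.TGJ.GPOut
import Pool.Agent.Lib.TG.A5
import Pool.Agent.Lib.LU2_h15.Stage3B

/-!
# TANK G, block C: the local rings of a normalised model are normal points
-/

set_option autoImplicit false

namespace Pool.Agent.TGJ

open Pool.Agent.TG (ncl Ov ZDim IsMin IsModel NV RV Fin' ch chN)
open Pool.Agent.LU2 (locV le_locV locV_mono locV_le locV_inv locV_locV)

universe u

section Res

variable {k K : Type u} [Field k] [Field K] [Algebra k K] {V : ValuationSubring K}

theorem res_uniq (hV : Ov k V) {a : K} {c c' : k} (h : V.valuation (a - algebraMap k K c) < 1)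
    (h' : V.valuation (a - algebraMap k K c') < 1) : c = c' := by
  by_contra hne
  have h1 : V.valuation (algebraMap k K (c' - c)) < 1 := by
    have h2 : algebraMap k K (c' - c) = (a - algebraMap k K c) - (a - algebraMap k K c') := by
      rw [map_sub]; ring
    rw [h2]
    exact Valuation.map_sub_lt _ h h'
  have h0 : c' - c ≠ 0 := sub_ne_zero.2 (Ne.symm hne)
  have h3 : V.valuation (algebraMap k K (c' - c)⁻¹) ≤ 1 := (V.valuation_le_one_iff _).2 (hV _)
  have h4 : V.valuation (algebraMap k K (c' - c)) * V.valuation (algebraMap k K (c' - c)⁻¹) = 1 := by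
    rw [← map_mul, ← map_mul, mul_inv_cancel₀ h0, map_one, map_one]
  have h5 : V.valuation (algebraMap k K (c' - c)) * V.valuation (algebraMap k K (c' - c)⁻¹) < 1 :=
    mul_lt_one_of_nonneg_of_lt_one_left zero_le h1 h3
  exact absurd h4 h5.ne

/-- The residue map of a subalgebra of a zero-dimensional valuation ring. -/
theorem exists_resAt {S : Subalgebra k K} (hS : ∀ a ∈ S, a ∈ V) (hV : ZDim k V) :
    ∃ res : S →ₐ[k] k, ResAt V res := by
  have h1 : ∀ a : S, ∃ c : k, V.valuation ((a : K) - algebraMap k K c) < 1 :=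
    fun a => hV.res _ (hS _ a.2)
  choose Q hQ using h1
  have hu : ∀ (a : S) (c : k), V.valuation ((a : K) - algebraMap k K c) < 1 → Q a = c :=
    fun a c h => res_uniq hV.ov (hQ a) h
  refine ⟨{ toFun := Q, map_one' := ?_, map_mul' := ?_, map_zero' := ?_, map_add' := ?_,
            commutes' := ?_ }, hQ⟩
  · refine hu _ _ ?_
    rw [map_one]
    change V.valuation ((1 : K) - 1) < 1
    rw [sub_self, map_zero]
    exact zero_lt_one
  · intro a b
    refine hu _ _ ?_
    have h2 : ((a * b : S) : K) - algebraMap k K (Q a * Q b) =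
        (a : K) * ((b : K) - algebraMap k K (Q b)) +
          algebraMap k K (Q b) * ((a : K) - algebraMap k K (Q a)) := by
      rw [map_mul]
      change (a : K) * (b : K) - _ = _
      ring
    rw [h2]
    refine Valuation.map_add_lt _ ?_ ?_
    · rw [map_mul]
      exact lt_of_le_of_lt (mul_le_of_le_one_left'
        ((V.valuation_le_one_iff _).2 (hS _ a.2))) (hQ b)
    · rw [map_mul]
      exact lt_of_le_of_lt (mul_le_of_le_one_left'
        ((V.valuation_le_one_iff _).2 (hV.ov _))) (hQ a)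
  · refine hu _ _ ?_
    rw [map_zero]
    change V.valuation ((0 : K) - 0) < 1
    rw [sub_self, map_zero]
    exact zero_lt_one
  · intro a b
    refine hu _ _ ?_
    have h2 : ((a + b : S) : K) - algebraMap k K (Q a + Q b) =
        ((a : K) - algebraMap k K (Q a)) + ((b : K) - algebraMap k K (Q b)) := by
      rw [map_add]
      change (a : K) + (b : K) - _ = _
      ring
    rw [h2]
    exact Valuation.map_add_lt _ (hQ a) (hQ b)
  · intro c
    refine hu _ _ ?_
    change V.valuation (algebraMap k K c - algebraMap k K c) < 1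
    rw [sub_self, map_zero]
    exact zero_lt_one

theorem ResAt.eq_zero_iff (hV : Ov k V) {S : Subalgebra k K} {res : S →ₐ[k] k}
    (h : ResAt V res) (a : S) : res a = 0 ↔ V.valuation (a : K) < 1 := by
  constructor
  · intro h0
    have h1 := h a
    rw [h0, map_zero, sub_zero] at h1
    exact h1
  · intro h1
    exact res_uniq hV (h a) (by rw [map_zero, sub_zero]; exact h1)

theorem ResAt.mem (hV : Ov k V) {S : Subalgebra k K} {res : S →ₐ[k] k} (h : ResAt V res)
    (a : S) : (a : K) ∈ V := by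
  have h1 := (V.valuation_le_one_iff _).1 (h a).le
  have h2 := V.add_mem _ _ h1 (hV (res a))
  rwa [sub_add_cancel] at h2

theorem ResAt.ne_zero_iff (hV : Ov k V) {S : Subalgebra k K} {res : S →ₐ[k] k}
    (h : ResAt V res) (a : S) : res a ≠ 0 ↔ V.valuation (a : K) = 1 := by
  rw [Ne, h.eq_zero_iff hV, not_lt]
  exact ⟨fun h1 => le_antisymm ((V.valuation_le_one_iff _).2 (h.mem hV a)) h1, fun h1 => h1.ge⟩

end Res

section NV

variable {k K : Type u} [Field k] [Field K] [Algebra k K] {V : ValuationSubring K}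
  {W : Submodule k K}

theorem ncl_NV_le : ncl (NV V W) ≤ NV V W := by
  have h1 : locV V (ncl (NV V W)) = NV V W := by
    rw [NV, TG.locV_ncl_locV, TG.ncl_ncl]
  conv_rhs => rw [← h1]
  exact le_locV _

/-- **The local rings of the normalised model are normal points.** -/
theorem nPt_NV [PerfectField k] (hK : (⊤ : IntermediateField k K).FG) (hW : IsModel W)
    (hF : Fin' W) (hV : ZDim k V) {res : NV V W →ₐ[k] k} (hres : ResAt V res) :
    NPt (NV V W) res := by
  refine ⟨fun a ha => TG.NV_inv a.2 ((hres.ne_zero_iff hV.ov a).1 ha), fun a ha => ncl_NV_le ha,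
    ?_, fun f => ?_⟩
  · obtain ⟨P', M, hP', -, -, -, hall⟩ := TG.exists_normal_model hK hW hF
    obtain ⟨hmin, hRV, -⟩ := hall V hV.ov
    obtain ⟨f, hf⟩ := TG.exists_isMin hV.ov hP'
    have h1 : NV V W = locV V (ch P' f) := by rw [← hRV, TG.RV_eq hf]
    have hle : ch P' f ≤ NV V W := by rw [h1]; exact le_locV _
    refine ⟨ch P' f, TG.ch_fg hP'.fg, hle, fun s => ?_⟩
    have hs : (s : K) ∈ locV V (ch P' f) := by rw [← h1]; exact s.2
    obtain ⟨a, ha, b, hb, hb1, hab⟩ := hs
    have hb0 : b ≠ 0 := by rintro rfl; rw [map_zero] at hb1; exact zero_ne_one hb1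
    obtain ⟨c, hc⟩ : ∃ c, c = res ⟨b, hle hb⟩ := ⟨_, rfl⟩
    have hc0 : c ≠ 0 := by
      rw [hc, hres.ne_zero_iff hV.ov]
      exact hb1
    refine ⟨c⁻¹ • ⟨a, ha⟩, c⁻¹ • ⟨b, hb⟩, ?_, ?_⟩
    · have h2 : Subalgebra.inclusion hle (c⁻¹ • (⟨b, hb⟩ : ch P' f)) =
          c⁻¹ • (⟨b, hle hb⟩ : NV V W) := rfl
      rw [h2, map_smul, ← hc, smul_eq_mul, inv_mul_cancel₀ hc0]
    · change (s : K) * (c⁻¹ • b) = c⁻¹ • a
      rw [hab, mul_smul_comm, div_mul_cancel₀ _ hb0]
  · obtain ⟨f₀, hf₀⟩ := TG.exists_isMin hV.ov hW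
    obtain ⟨y, hy0, hy⟩ := (hF.isAlgebraic hf₀.ne f).exists_integral_multiple
    have hle : ncl (ch W f₀) ≤ NV V W := by
      rw [TG.NV_eq hf₀]
      exact le_locV _
    have hy0' : (y : K) ≠ 0 := fun h => hy0 (Subtype.ext h)
    refine ⟨⟨y • f, hle hy⟩, ⟨y, hle (TG.le_ncl _ y.2)⟩, hy0', ?_⟩
    change f * (y : K) = y • f
    rw [Algebra.smul_def, mul_comm]
    rfl

/-- The local rings at a coarser valuation ring. -/
theorem locV_NV_of_le {v : ValuationSubring K} (hle : V ≤ v) (hV : Ov k V) (hW : IsModel W) :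
    locV v (NV V W) = NV v W := by
  obtain ⟨f, hf⟩ := TG.exists_isMin hV hW
  rw [TG.NV_eq hf, LU2.locV_locV_of_le hle, TG.NV_eq (hf.of_le hle)]

theorem NV_le_of_le {v : ValuationSubring K} (hle : V ≤ v) (hV : Ov k V) (hW : IsModel W) :
    NV V W ≤ NV v W := by
  rw [← locV_NV_of_le hle hV hW]
  exact le_locV _

end NV

end Pool.Agent.TGJ
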