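import Pool.Agent.Lib.TGJ_h88.Prop

/-!
# TANK G, block C: the points of the integral closure which dominate `S`, as normal points
(helper5)
-/

set_option autoImplicit false

namespace Pool.Agent.TGJ

open Pool.Agent.TG (ncl le_ncl ncl_mono ncl_ncl)
open Pool.Agent.TGJ88

universe u

variable {k : Type u} [Field k]

section

variable {S L : Type u} [CommRing S] [Algebra k S] [Field L] [Algebra k L] {φ : S →ₐ[k] L}
  {res : S →ₐ[k] k} {n : ℕ}

/-- A localisation of a normal algebra at a `k`-point is normal. -/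
theorem ncl_locx_le {A : Subalgebra k L} (hA : ncl A ≤ A) (x : A →ₐ[k] k) :
    ncl (locx A x) ≤ locx A x := by
  intro z hz
  obtain ⟨P, hP, hPz⟩ := hz
  classical
  -- a common denominator
  have hex : ∀ i, ∃ b c : A, x c ≠ 0 ∧ ((P.coeff i : locx A x) : L) * c = b := fun i =>
    (P.coeff i).2
  choose b c hc hbc using hex
  let d : A := ∏ i ∈ Finset.range (P.natDegree + 1), c i
  have hd : x d ≠ 0 := by
    change x (∏ i ∈ Finset.range (P.natDegree + 1), c i) ≠ 0
    rw [map_prod]
    exact Finset.prod_ne_zero_iff.2 fun i _ => hc i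
  have hcoef : ∀ i, i ≤ P.natDegree → ((P.coeff i : locx A x) : L) * d ∈ A := by
    intro i hi
    have h1 : d = c i * ∏ j ∈ (Finset.range (P.natDegree + 1)).erase i, c j :=
      (Finset.mul_prod_erase _ _ (Finset.mem_range.2 (by omega))).symm
    rw [h1, MulMemClass.coe_mul, ← mul_assoc, hbc]
    exact A.mul_mem (b i).2 (Subtype.mem _)
  let Q : Polynomial L := P.map (algebraMap (locx A x) L)
  have hQm : Q.Monic := hP.map _
  have hQd : Q.natDegree = P.natDegree := hP.natDegree_map _
  have hQz : Q.eval z = 0 := by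
    rw [Polynomial.eval_map]
    exact hPz
  let T : Polynomial L := Q.scaleRoots (d : L)
  have hTm : T.Monic := (Polynomial.monic_scaleRoots_iff _).2 hQm
  have hTe : T.eval ((d : L) * z) = 0 := by
    have h2 := Polynomial.scaleRoots_eval₂_mul (p := Q) (f := RingHom.id L) (r := z) (s := (d : L))
    rw [RingHom.id_apply, ← Polynomial.eval, ← Polynomial.eval, hQz, mul_zero] at h2
    exact h2
  have hTc : ∀ i, T.coeff i ∈ A := by
    intro i
    rw [Polynomial.coeff_scaleRoots, hQd]
    rcases lt_trichotomy i P.natDegree with h2 | h2 | h2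
    · obtain ⟨j, hj⟩ := Nat.exists_eq_add_of_lt h2
      have e : P.natDegree - i = j + 1 := by omega
      have e2 : Q.coeff i = ((P.coeff i : locx A x) : L) := Polynomial.coeff_map _ _
      rw [e, pow_succ, mul_left_comm, e2]
      exact A.mul_mem (A.pow_mem d.2 j) (hcoef i h2.le)
    · have e : P.natDegree - i = 0 := by omega
      rw [e, pow_zero, mul_one, h2, ← hQd, hQm.coeff_natDegree]
      exact A.one_mem
    · rw [← hQd] at h2
      rw [Polynomial.coeff_eq_zero_of_natDegree_lt h2, zero_mul]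
      exact A.zero_mem
  have hlift : T ∈ Polynomial.lifts (algebraMap A L) := by
    rw [Polynomial.lifts_iff_coeff_lifts]
    intro i
    exact ⟨⟨T.coeff i, hTc i⟩, rfl⟩
  obtain ⟨U, hU, -, hUm⟩ := Polynomial.lifts_and_degree_eq_and_monic hlift hTm
  have hmem : (d : L) * z ∈ A := hA ⟨U, hUm, by rw [← Polynomial.eval_map, hU]; exact hTe⟩
  exact ⟨⟨_, hmem⟩, d, hd, mul_comm _ _⟩

/-- The local ring of a point of the integral closure is a normal point. -/
theorem nPt_locx [PerfectField k] (hL : (⊤ : IntermediateField k L).FG) {g : Fin n → L}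
    (halg : ∀ a : L, IsAlgebraic (kf k g) a) (x : icf k g →ₐ[k] k) :
    NPt (locx (icf k g) x) (evx (icf k g) x) where
  inv := fun _ ha => inv_mem_of_evx ha
  ic := fun a ha => ncl_locx_le (by
    change ncl (ncl (kf k g)) ≤ ncl (kf k g)
    rw [ncl_ncl]) x ha
  fg := by
    refine ⟨icf k g, ncl_fg hL (kf k g) ?_ halg, le_locx _ _, ?_⟩
    · refine ⟨(Set.finite_range g).toFinset, ?_⟩
      rw [Set.Finite.coe_toFinset]
    · rintro ⟨s, b, c, hc, hsc⟩
      have hc0 : (x c)⁻¹ ≠ 0 := inv_ne_zero hc
      refine ⟨(x c)⁻¹ • b, (x c)⁻¹ • c, ?_, ?_⟩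
      · have h1 := evx_coe (x := x) ((x c)⁻¹ • c)
        have h2 : evx (icf k g) x (Subalgebra.inclusion (le_locx _ _) ((x c)⁻¹ • c)) =
            x ((x c)⁻¹ • c) := h1
        rw [h2, map_smul, smul_eq_mul, inv_mul_cancel₀ hc]
      · change s * ((x c)⁻¹ • (c : L)) = (x c)⁻¹ • (b : L)
        rw [mul_smul_comm, hsc]
  frac := by
    intro z
    obtain ⟨y, hy0, hy⟩ := (halg z).exists_integral_multiple
    have h1 : IsIntegral (kf k g) (y • z) := hy
    have h2 : ((y : kf k g) : L) * z ∈ icf k g := by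
      have e : y • z = ((y : kf k g) : L) * z := rfl
      rw [← e]
      exact h1
    refine ⟨⟨_, le_locx _ _ h2⟩, ⟨(y : L), le_locx _ _ (kf_le_icf g y.2)⟩, ?_, mul_comm _ _⟩
    intro h3
    exact hy0 (Subtype.ext h3)

/-- `S` maps to the local ring of a point which dominates it. -/
theorem Doms.mem {g : Fin n → L} {x : icf k g →ₐ[k] k} (h : Doms φ res g x) (s : S) :
    φ s ∈ locx (icf k g) x := by
  obtain ⟨a, b, hb, hab, -⟩ := h s
  exact ⟨a, b, by rw [hb]; exact one_ne_zero, hab⟩

theorem Doms.ev {g : Fin n → L} {x : icf k g →ₐ[k] k} (h : Doms φ res g x) (s : S) :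
    evx (icf k g) x ⟨φ s, h.mem s⟩ = res s := by
  obtain ⟨a, b, hb, hab, ha⟩ := h s
  have h1 : (⟨φ s, h.mem s⟩ : locx (icf k g) x) * ⟨b, le_locx _ _ b.2⟩ =
      ⟨a, le_locx _ _ a.2⟩ := Subtype.ext hab
  have h2 := congrArg (evx (icf k g) x) h1
  rw [map_mul, evx_mk (b : L) b.2, evx_mk (a : L) a.2] at h2
  have h3 : x ⟨(b : L), b.2⟩ = 1 := hb
  have h4 : x ⟨(a : L), a.2⟩ = res s := ha
  rw [h3, h4, mul_one] at h2
  exact h2

/-- The point dominates its own local ring. -/
theorem doms_locx {g : Fin n → L} (x : icf k g →ₐ[k] k) :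
    Doms (locx (icf k g) x).val (evx (icf k g) x) g x := by
  intro s
  obtain ⟨b, c, hc, hsc⟩ := s.2
  refine ⟨(x c)⁻¹ • b, (x c)⁻¹ • c, ?_, ?_, ?_⟩
  · rw [map_smul, smul_eq_mul, inv_mul_cancel₀ hc]
  · change (s : L) * ((x c)⁻¹ • (c : L)) = (x c)⁻¹ • (b : L)
    rw [mul_smul_comm, hsc]
  · have h1 : s * (⟨c, le_locx _ _ c.2⟩ : locx (icf k g) x) = ⟨b, le_locx _ _ b.2⟩ :=
      Subtype.ext hsc
    have h2 : evx (icf k g) x s * x c = x b := by
      rw [← evx_coe (x := x) c, ← evx_coe (x := x) b, ← map_mul]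
      exact congrArg _ h1
    rw [map_smul, smul_eq_mul, ← h2, mul_comm, mul_assoc, mul_inv_cancel₀ hc, mul_one]

/-- The parameters are parameters of the local ring of the point. -/
theorem proper_locx {g : Fin n → L} {x : icf k g →ₐ[k] k} (hx : Over0 g x)
    (f : Fin n → locx (icf k g) x) (hf : ∀ i, (f i : L) = g i) :
    Proper (locx (icf k g) x).val (evx (icf k g) x) f := by
  have hfe : ∀ i, f i = ⟨g i, le_locx _ _ (icf.X g i).2⟩ := fun i => Subtype.ext (hf i)
  refine ⟨fun i => ?_, fun Q hQ _ hfQ => ?_⟩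
  · rw [hfe, evx_mk (g i) (icf.X g i).2]
    exact hx i
  -- `Q ∩ icf` is maximal
  have hker : Q ≤ RingHom.ker (evx (icf k g) x) := by
    intro s hs
    rw [RingHom.mem_ker]
    by_contra h0
    apply hQ.ne_top
    refine Ideal.eq_top_of_isUnit_mem _ hs ?_
    rw [isUnit_iff_exists_inv]
    have hs0 : (s : L) ≠ 0 := by
      intro h1
      apply h0
      rw [show s = 0 from Subtype.ext h1, map_zero]
    exact ⟨⟨_, inv_mem_of_evx h0⟩, Subtype.ext (mul_inv_cancel₀ hs0)⟩
  refine le_antisymm hker ?_
  let ι : icf k g →+* locx (icf k g) x := algebraMap (icf k g) (locx (icf k g) x)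
  have hq : (Q.comap ι).IsPrime := Ideal.IsPrime.comap ι
  have hgq : ∀ i, icf.X g i ∈ Q.comap ι := by
    intro i
    have h1 := hfQ i
    rw [hfe] at h1
    exact h1
  -- every element of the integral closure which vanishes at `x` is in `Q`
  have key : ∀ c : icf k g, x c = 0 → c ∈ Q.comap ι := by
    intro c hc
    -- the image of `k[g]` modulo `Q ∩ icf` is `k`
    have hmod : ∀ a (ha : a ∈ kf k g), ∃ r : k, (⟨a, kf_le_icf g ha⟩ : icf k g) -
        algebraMap k (icf k g) r ∈ Q.comap ι := by
      intro a ha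
      induction ha using Algebra.adjoin_induction with
      | mem y hy =>
        obtain ⟨i, rfl⟩ := hy
        refine ⟨0, ?_⟩
        rw [map_zero, sub_zero]
        exact hgq i
      | algebraMap r =>
        refine ⟨r, ?_⟩
        have e : (⟨algebraMap k L r, kf_le_icf g (Subalgebra.algebraMap_mem _ r)⟩ : icf k g) =
            algebraMap k (icf k g) r := rfl
        rw [e, sub_self]
        exact Ideal.zero_mem _
      | add y z hy hz h1 h2 =>
        obtain ⟨r, hr⟩ := h1
        obtain ⟨t, ht⟩ := h2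
        refine ⟨r + t, ?_⟩
        have e : (⟨y + z, kf_le_icf g (Subalgebra.add_mem _ hy hz)⟩ : icf k g) -
            algebraMap k (icf k g) (r + t) =
            ((⟨y, kf_le_icf g hy⟩ : icf k g) - algebraMap k (icf k g) r) +
            ((⟨z, kf_le_icf g hz⟩ : icf k g) - algebraMap k (icf k g) t) := by
          rw [map_add]
          have e0 : (⟨y + z, kf_le_icf g (Subalgebra.add_mem _ hy hz)⟩ : icf k g) =
            ⟨y, kf_le_icf g hy⟩ + ⟨z, kf_le_icf g hz⟩ := rfl
          rw [e0]
          ring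
        rw [e]
        exact Ideal.add_mem _ hr ht
      | mul y z hy hz h1 h2 =>
        obtain ⟨r, hr⟩ := h1
        obtain ⟨t, ht⟩ := h2
        refine ⟨r * t, ?_⟩
        have e : (⟨y * z, kf_le_icf g (Subalgebra.mul_mem _ hy hz)⟩ : icf k g) -
            algebraMap k (icf k g) (r * t) =
            ((⟨y, kf_le_icf g hy⟩ : icf k g) - algebraMap k (icf k g) r) *
              ⟨z, kf_le_icf g hz⟩ +
            algebraMap k (icf k g) r *
              ((⟨z, kf_le_icf g hz⟩ : icf k g) - algebraMap k (icf k g) t) := by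
          rw [map_mul]
          have e0 : (⟨y * z, kf_le_icf g (Subalgebra.mul_mem _ hy hz)⟩ : icf k g) =
            ⟨y, kf_le_icf g hy⟩ * ⟨z, kf_le_icf g hz⟩ := rfl
          rw [e0]
          ring
        rw [e]
        exact Ideal.add_mem _ (Ideal.mul_mem_right _ _ hr) (Ideal.mul_mem_left _ _ ht)
    -- so `c` is algebraic over `k` modulo `Q ∩ icf`
    obtain ⟨P, hP, hPc⟩ := c.2
    choose r hr using fun i => hmod ((P.coeff i : kf k g) : L) (P.coeff i).2
    set q : Ideal (icf k g) := Q.comap ι with hqdef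
    let H : Polynomial k := ∑ i ∈ Finset.range (P.natDegree + 1), Polynomial.monomial i (r i)
    have hPc' : ∑ i ∈ Finset.range (P.natDegree + 1),
        (⟨((P.coeff i : kf k g) : L), kf_le_icf g (P.coeff i).2⟩ : icf k g) * c ^ i = 0 := by
      apply Subtype.ext
      rw [Polynomial.eval₂_eq_sum_range] at hPc
      rw [AddSubmonoidClass.coe_finsetSum]
      exact hPc
    have hHc : Polynomial.aeval (Ideal.Quotient.mk q c) H = 0 := by
      rw [map_sum]
      have h1 : ∀ i, Polynomial.aeval (Ideal.Quotient.mk q c) (Polynomial.monomial i (r i)) =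
          Ideal.Quotient.mk q ((⟨((P.coeff i : kf k g) : L), kf_le_icf g (P.coeff i).2⟩ :
            icf k g) * c ^ i) := by
        intro i
        rw [Polynomial.aeval_monomial, map_mul, map_pow]
        congr 1
        have h2 := Ideal.Quotient.eq.2 (hr i)
        rw [h2]
        rfl
      rw [Finset.sum_congr rfl fun i _ => h1 i, ← map_sum, hPc', map_zero]
    have hH0 : H ≠ 0 := by
      intro h1
      have h2 : H.coeff P.natDegree = r P.natDegree := by
        change (∑ i ∈ Finset.range (P.natDegree + 1), Polynomial.monomial i (r i)).coeff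
          P.natDegree = _
        rw [Polynomial.finsetSum_coeff, Finset.sum_eq_single P.natDegree]
        · rw [Polynomial.coeff_monomial, if_pos rfl]
        · intro i _ hi
          rw [Polynomial.coeff_monomial, if_neg hi]
        · intro hi
          exact absurd (Finset.mem_range.2 (by omega)) hi
      rw [h1, Polynomial.coeff_zero] at h2
      have h3 := hr P.natDegree
      rw [← h2, map_zero, sub_zero] at h3
      have h4 : (⟨((P.coeff P.natDegree : kf k g) : L), kf_le_icf g (P.coeff P.natDegree).2⟩ :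
          icf k g) = 1 := by
        apply Subtype.ext
        change ((P.coeff P.natDegree : kf k g) : L) = 1
        rw [hP.coeff_natDegree]
        rfl
      rw [h4] at h3
      exact hq.ne_top ((Ideal.eq_top_iff_one _).2 h3)
    by_contra hcq
    have hc0 : Ideal.Quotient.mk q c ≠ 0 := fun h1 => hcq (Ideal.Quotient.eq_zero_iff_mem.1 h1)
    have hint : IsIntegral k (Ideal.Quotient.mk q c) :=
      IsAlgebraic.isIntegral ⟨H, hH0, hHc⟩
    have h6 := minpoly.coeff_zero_ne_zero hint hc0
    apply h6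
    have h7 : Polynomial.aeval c (minpoly k (Ideal.Quotient.mk q c)) ∈ q := by
      rw [← Ideal.Quotient.eq_zero_iff_mem]
      have h8 := Polynomial.aeval_algHom_apply (Ideal.Quotient.mkₐ k q) c
        (minpoly k (Ideal.Quotient.mk q c))
      refine h8.symm.trans ?_
      exact minpoly.aeval _ _
    have h9 : x (Polynomial.aeval c (minpoly k (Ideal.Quotient.mk q c))) = 0 := by
      have h8 : ι (Polynomial.aeval c (minpoly k (Ideal.Quotient.mk q c))) ∈
        RingHom.ker (evx (icf k g) x) := hker h7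
      rw [RingHom.mem_ker, evx_coe] at h8
      exact h8
    have h10 := Polynomial.aeval_algHom_apply x c (minpoly k (Ideal.Quotient.mk q c))
    rw [h9, hc, Polynomial.coe_aeval_eq_eval, ← Polynomial.coeff_zero_eq_eval_zero] at h10
    exact h10
  intro s hs
  rw [RingHom.mem_ker] at hs
  obtain ⟨b, c, hc, hsc⟩ := s.2
  have h1 : s * ι c = ι b := Subtype.ext hsc
  have h2 : x b = 0 := by
    have h3 := congrArg (evx (icf k g) x) h1
    rw [map_mul, evx_coe, evx_coe, hs, zero_mul] at h3
    exact h3.symm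
  have h3 : ι b ∈ Q := key b h2
  rw [← h1] at h3
  rcases hQ.mem_or_mem h3 with h4 | h4
  · exact h4
  · exfalso
    have h5 := hker h4
    rw [RingHom.mem_ker, evx_coe] at h5
    exact hc h5

/-- **`Rho φ` is the sum of the local degrees of the normal points above `S`.** -/
theorem Rho_eq_sum [PerfectField k] (hL : (⊤ : IntermediateField k L).FG) {f : Fin n → S}
    (halg : ∀ a : L, IsAlgebraic (kf k fun i => φ (f i)) a) :
    Rho φ res f = ∑ᶠ x ∈ {x : icf k (fun i => φ (f i)) →ₐ[k] k | Over0 _ x ∧ Doms φ res _ x},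
      Rho (locx (icf k fun i => φ (f i)) x).val (evx _ x)
        (fun i => (⟨φ (f i), le_locx _ _ (icf.X (fun i => φ (f i)) i).2⟩ :
          locx (icf k fun i => φ (f i)) x)) := by
  unfold Rho
  refine finsum_mem_congr rfl fun x hx => ?_
  have h := nPt_locx hL halg x
  have hp : Proper (locx (icf k fun i => φ (f i)) x).val (evx _ x)
      (fun i => (⟨φ (f i), le_locx _ _ (icf.X (fun i => φ (f i)) i).2⟩ :
        locx (icf k fun i => φ (f i)) x)) := proper_locx hx.1 _ fun i => rfl
  have h1 := h.Rho_eq hp (x := x) (doms_locx x)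
  exact h1.symm

end

end Pool.Agent.TGJ
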