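import Pool.Agent.Lib.TGJ.R13coord
import Pool.Agent.Lib.TGJ.LinkB
import Pool.Agent.Lib.TG_h55.Chart
import Pool.Agent.Lib.TGJ_h32.Doms

/-!
# TANK G, block C, R13: the local degrees over `P^(m+1)` from general position
-/

set_option autoImplicit false

namespace Pool.Agent.TGJ

open Pool.Agent.TG (ncl up Ov ZDim IsMin IsModel NV RV Fin' ch LDeg)
open Pool.Agent.TG55 (hB hP wP wB)

universe u

variable {k K : Type u} [Field k] [Field K] [Algebra k K] {m : ℕ} {W : Submodule k K}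
  {h : Fin (m + 2) → K} {Θ : Set (ValuationSubring K)} {d : ℕ} {b : Fin m → K} {z : K}

/-- The homogeneous coordinates `(1, b, z)` are `h i / h 0`. -/
theorem hP_ratio (hb : ∀ i : Fin m, b i = h i.succ.castSucc / h 0)
    (hz : z = h (Fin.last (m + 1)) / h 0) (h0 : h 0 ≠ 0) (i : Fin (m + 2)) :
    hP b z i = h i / h 0 := by
  refine Fin.lastCases ?_ (fun i => ?_) i
  · simp only [hP, Fin.snoc_last]
    exact hz
  · simp only [hP, Fin.snoc_castSucc]
    refine Fin.cases ?_ (fun i => ?_) i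
    · change (1 : K) = h 0 / h 0
      rw [div_self h0]
    · exact hb i

theorem hP_div (hb : ∀ i : Fin m, b i = h i.succ.castSucc / h 0)
    (hz : z = h (Fin.last (m + 1)) / h 0) (hne : ∀ i, h i ≠ 0) (i j : Fin (m + 2)) :
    hP b z i / hP b z j = h i / h j := by
  rw [hP_ratio hb hz (hne 0), hP_ratio hb hz (hne 0), div_div_div_cancel_right₀ (hne 0)]

/-- The chart of `P^(m+1)`, seen in `K`. -/
theorem up_wP (hb : ∀ i : Fin m, b i = h i.succ.castSucc / h 0)
    (hz : z = h (Fin.last (m + 1)) / h 0) (hne : ∀ i, h i ≠ 0) (j : Fin (m + 2)) :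
    up K (Algebra.adjoin k (Set.range fun i => wP k b z i / wP k b z j)) =
      Algebra.adjoin k (Set.range fun i => h i / h j) := by
  rw [up, AlgHom.map_adjoin, ← Set.range_comp]
  congr 2
  funext i
  change ((wP k b z i / wP k b z j : TG.KB k b z) : K) = h i / h j
  have h1 : ((wP k b z i / wP k b z j : TG.KB k b z) : K) =
      (wP k b z i : K) / (wP k b z j : K) := rfl
  rw [h1, TG55.wP_coe, TG55.wP_coe, hP_div hb hz hne]

/-- Finite generation of a normal point, in the form of `doms_of_proper`. -/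
theorem NPt.exists_fg' {S : Subalgebra k K} {res : S →ₐ[k] k} (hS : NPt S res) :
    ∃ A₀ : Subalgebra k S, A₀.FG ∧ ∀ s : S, ∃ a ∈ A₀, ∃ b ∈ A₀, res b = 1 ∧ s * b = a := by
  obtain ⟨A, hfg, hA, hall⟩ := hS.fg
  refine ⟨(Subalgebra.inclusion hA).range, ?_, fun s => ?_⟩
  · rw [← Algebra.map_top]
    exact Subalgebra.FG.map _ (Subalgebra.fg_top A |>.2 hfg)
  · obtain ⟨a, b, hb, hab⟩ := hall s
    exact ⟨_, ⟨a, rfl⟩, _, ⟨b, rfl⟩, hb, Subtype.ext hab⟩

/-- **The local degrees over `P^(m+1)`.** -/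
theorem gpOut_deg [IsAlgClosed k] (hK : (⊤ : IntermediateField k K).FG)
    (htr : Algebra.trdeg k K = ((m + 1 : ℕ) : Cardinal)) (H : GPOut W h Θ d)
    (hb : ∀ i : Fin m, b i = h i.succ.castSucc / h 0)
    (hz : z = h (Fin.last (m + 1)) / h 0) [FiniteDimensional (TG.KB k b z) K]
    (v₀ : ValuationSubring (TG.KB k b z)) (hv₀ : ZDim k v₀) :
    LDeg K v₀ (RV v₀ (TG.PP k b z)) d := by
  have hbne : ∀ i, b i ≠ 0 := fun i => by
    rw [hb]; exact div_ne_zero (H.ne _) (H.ne _)
  have hzne : z ≠ 0 := by rw [hz]; exact div_ne_zero (H.ne _) (H.ne _)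
  refine TG55.lDeg_PP hbne hzne htr hK ?_ v₀ hv₀
  intro j V hV hj x hx
  have hj' : ∀ i, h i / h j ∈ V := fun i => by
    rw [← hP_div hb hz H.ne]; exact hj i
  have hNV : ∀ a ∈ NV V W, a ∈ V := TG.NV_le hV.ov H.model
  obtain ⟨res, hres⟩ := exists_resAt hNV hV
  obtain ⟨y, hy⟩ := H.exists_coord hV hj' res
  obtain ⟨hprop, hrho⟩ := H.deg V hV j hj' res hres y hy
  have hN := nPt_NV hK H.model H.fin' hV hres
  have hgen := TG55.adjoin_ratio_eq_top (wP k b z) (TG55.wP_ne hbne hzne) (TG55.wP_gen b z) j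
  have hA : ∀ c : TG.KB k b z,
      IsIntegral (Algebra.adjoin k (Set.range fun i => wP k b z i / wP k b z j)) c →
      c ∈ Algebra.adjoin k (Set.range fun i => wP k b z i / wP k b z j) := by
    rw [TG55.adjoin_ratio_eq (wP k b z) (TG55.wP_ne hbne hzne) j]
    exact TG55.mem_adjoin_of_isIntegral _ (TG55.algInd_ratio (wP k b z)
      (TG55.wP_ne hbne hzne) (TG55.wP_gen b z) (TG55.trdeg_KB htr) j) hgen
  have hfr : ∀ g : TG.KB k b z,
      ∃ a ∈ Algebra.adjoin k (Set.range fun i => wP k b z i / wP k b z j),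
      ∃ c ∈ Algebra.adjoin k (Set.range fun i => wP k b z i / wP k b z j),
      c ≠ 0 ∧ g = a / c := by
    intro g
    rw [TG55.adjoin_ratio_eq (wP k b z) (TG55.wP_ne hbne hzne) j]
    have hg : g ∈ IntermediateField.adjoin k
        (Set.range fun i : Fin (m + 1) => wP k b z (j.succAbove i) / wP k b z j) := by
      rw [hgen]; trivial
    obtain ⟨a, ha, c, hc, hac⟩ := (IntermediateField.mem_adjoin_iff_div).1 hg
    by_cases hc0 : c = 0
    · exact ⟨0, zero_mem _, 1, one_mem _, one_ne_zero, by rw [hac, hc0, div_zero, zero_div]⟩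
    · exact ⟨a, ha, c, hc, hc0, hac⟩
  have hf : kf k (fun i => (NV V W).val (y i)) =
      up K (Algebra.adjoin k (Set.range fun i => wP k b z i / wP k b z j)) := by
    rw [up_wP hb hz H.ne]
    exact hy.adjoin_eq H.ne
  refine le_trans (rho_le_Rho_of_val hA hfr hf x V hx fun x' hx' => ?_) hrho
  exact TGJ32.doms_of_proper hN.exists_fg' hprop V hV hres x' hx'

end Pool.Agent.TGJ
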