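import Pool.Agent.Lib.TGJ.R13e
import Pool.Agent.Lib.TGJ.R13deg
import Pool.Agent.Lib.TGJ_h32.ResDeg
import Pool.Agent.Lib.TGJ_h78.NPtB
import Pool.Agent.Lib.TGJ_h25.TopDefs

/-!
# TANK G, block C, R13: `GPOut → ProjP`
-/

set_option autoImplicit false

namespace Pool.Agent.TGJ

open Pool.Agent.TG (ncl Ov ZDim IsMin IsModel NV RV Fin' ch chN PDiv LB KB PB PP)
open Pool.Agent.LU2 (locV le_locV locV_mono locV_le locV_inv locV_locV)
open Pool.Agent.TGh4 (Disc ordV)
open Pool.Agent.TG55 (hP hB hP_zero range_hP range_hB)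
open Pool.Agent.TGJ32 (ResBd)

universe u

variable {k K : Type u} [Field k] [Field K] [Algebra k K] {m : ℕ}
  {W : Submodule k K} {h : Fin (m + 2) → K} {Θ : Set (ValuationSubring K)} {d : ℕ}
  {V v : ValuationSubring K}

/-- The field generated by the coordinates of the chart `0`. -/
theorem adjoin_coord {S : Subalgebra k K} {res : S →ₐ[k] k} {y : Fin (m + 1) → S}
    (hne : ∀ i, h i ≠ 0) (hy : Coord h 0 res y) :
    IntermediateField.adjoin k (Set.range fun i => (y i : K)) = KB k (bOf h) (zOf h) := by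
  have h1 : Algebra.adjoin k (Set.range fun i => (y i : K)) =
      Algebra.adjoin k (Set.range fun i => h i / h 0) := Coord.adjoin_eq hne hy
  rw [← adjoin_adjoin, h1, ← adjoin_of (hne 0), adjoin_adjoin]

theorem adjoin_Aff (hne : ∀ i, h i ≠ 0) :
    IntermediateField.adjoin k (Aff k h : Set K) = KB k (bOf h) (zOf h) := by
  rw [Aff, ← adjoin_of (hne 0), adjoin_adjoin]

open scoped IntermediateField.algebraAdjoinAdjoin in
theorem alg_adjoin_of {S : Set K} (h : Algebra.IsAlgebraic (IntermediateField.adjoin k S) K) :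
    Algebra.IsAlgebraic (Algebra.adjoin k S) K := by
  have h2 : Algebra.IsAlgebraic (Algebra.adjoin k S) (IntermediateField.adjoin k S) :=
    IsLocalization.isAlgebraic _ (nonZeroDivisors (Algebra.adjoin k S))
  exact Algebra.IsAlgebraic.trans (Algebra.adjoin k S) (IntermediateField.adjoin k S) K

/-- The coordinates are algebraically independent. -/
theorem ind_tr {b : Fin m → K} {z : K} (htr : Algebra.trdeg k K = ((m + 1 : ℕ) : Cardinal))
    [FiniteDimensional (KB k b z) K] :
    AlgebraicIndependent k b ∧ Transcendental (LB k b) z := by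
  let y : Fin (m + 1) → K := Fin.snoc b z
  have hr : Set.range y = insert z (Set.range b) := Fin.range_snoc _ _
  have halg : Algebra.IsAlgebraic (Algebra.adjoin k (Set.range y)) K := by
    refine alg_adjoin_of ?_
    rw [hr]
    exact Algebra.IsAlgebraic.of_finite (KB k b z) K
  have h3 : AlgebraicIndependent k y :=
    (Algebra.IsAlgebraic.isTranscendenceBasis_of_lift_le_trdeg_of_finite k y (by
      rw [Cardinal.mk_fin, htr]
      simp)).1
  have hb : AlgebraicIndependent k b := by
    have h4 := h3.comp Fin.castSucc (Fin.castSucc_injective m)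
    have h5 : y ∘ Fin.castSucc = b := by
      funext i
      simp [y]
    rwa [h5] at h4
  refine ⟨hb, ?_⟩
  -- `z` is transcendental over `k(b)`
  intro hz
  have h6 : Algebra.IsAlgebraic (Algebra.adjoin k (Set.range b)) K := by
    have h7 : Algebra.IsAlgebraic (LB k b) K := by
      have h8 : Algebra.IsAlgebraic (LB k b) (IntermediateField.adjoin (LB k b) {z}) :=
        IntermediateField.isAlgebraic_adjoin (by
          rintro x rfl
          exact hz.isIntegral)
      have h9 : ∀ x ∈ KB k b z, x ∈ IntermediateField.adjoin (LB k b) {z} := by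
        intro x hx
        have h10 : KB k b z ≤ (IntermediateField.adjoin (LB k b) {z}).restrictScalars k := by
          rw [KB, IntermediateField.adjoin_le_iff]
          rintro x (rfl | hx)
          · exact IntermediateField.mem_adjoin_simple_self _ x
          · exact (IntermediateField.adjoin (LB k b) {z}).algebraMap_mem
              ⟨x, IntermediateField.subset_adjoin _ _ hx⟩
        exact h10 hx
      have h11 : Algebra.IsAlgebraic (IntermediateField.adjoin (LB k b) {z}) K := by
        refine ⟨fun x => ?_⟩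
        have h12 : IsAlgebraic (KB k b z) x :=
          (Algebra.IsAlgebraic.of_finite (KB k b z) K).isAlgebraic x
        let ψ : KB k b z →+* IntermediateField.adjoin (LB k b) {z} :=
          { toFun := fun x => ⟨x, h9 x x.2⟩
            map_one' := rfl
            map_mul' := fun _ _ => rfl
            map_zero' := rfl
            map_add' := fun _ _ => rfl }
        obtain ⟨p, hp0, hp⟩ := h12
        refine ⟨p.map ψ, (Polynomial.map_ne_zero_iff ψ.injective).2 hp0, ?_⟩
        rw [Polynomial.aeval_def, Polynomial.eval₂_map]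
        exact hp
      exact Algebra.IsAlgebraic.trans (LB k b) (IntermediateField.adjoin (LB k b) {z}) K
    exact alg_adjoin_of h7
  have h7 : Algebra.trdeg k K ≤ Cardinal.lift.{u} (Cardinal.mk (Set.range b)) := by
    have h8 := Algebra.IsAlgebraic.trdeg_le_cardinalMk (R := k) (A := K) (s := Set.range b)
    simpa using h8
  have h8 : Cardinal.mk (Set.range b) ≤ (m : Cardinal) := by
    have h9 := Cardinal.mk_range_le_lift (f := b)
    rw [Cardinal.mk_fin] at h9
    simpa using h9
  rw [htr] at h7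
  have h9 : ((m + 1 : ℕ) : Cardinal.{u}) ≤ (m : Cardinal.{u}) := by
    refine h7.trans ?_
    rw [Cardinal.lift_id]
    exact h8
  rw [Nat.cast_le] at h9
  omega

/-- The basic facts at a point of the chart `0`. -/
theorem GPOut.exists_base [IsAlgClosed k] (hK : (⊤ : IntermediateField k K).FG)
    (H : GPOut W h Θ d) : ∃ (V : ValuationSubring K) (res : NV V W →ₐ[k] k)
      (y : Fin (m + 1) → NV V W), ZDim k V ∧ (∀ i, h i / h 0 ∈ V) ∧ ResAt V res ∧
      NPt (NV V W) res ∧ Coord h 0 res y := by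
  obtain ⟨V, -, hV, hi⟩ := exists_zdim_aff (k := k) h (⊤ : ValuationSubring K)
    (fun a _ => ValuationSubring.mem_top a)
  obtain ⟨res, hres⟩ := exists_resAt (TG.NV_le hV.ov H.model) hV
  obtain ⟨y, hy⟩ := H.exists_coord hV hi res
  exact ⟨V, res, y, hV, hi, hres, nPt_NV hK H.model H.fin' hV hres, hy⟩

theorem ratio_mem_v (hv : PDA (Aff k h) v) (i : Fin (m + 2)) : h i / h 0 ∈ v :=
  hv.le _ (Algebra.subset_adjoin ⟨i, rfl⟩)

/-- If `v` is bad then it is bad in every chart at every point. -/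
theorem GPOut.bad_chart [IsAlgClosed k] (hK : (⊤ : IntermediateField k K).FG)
    {p : ℕ} (hp : p.Prime) (hchar : CharP k p) (hEx : ExDual k K)
    (htr : Algebra.trdeg k K = ((m + 1 : ℕ) : Cardinal)) (H : GPOut W h Θ d) (hd : d < p)
    (hv : PDA (Aff k h) v) (hvo : Ov k v) (hU : ¬ Unr k (fun i => h i / h 0) v)
    (hV : ZDim k V) (hle : V ≤ v) {j : Fin (m + 2)} (hj : ∀ i, h i / h j ∈ V)
    {res : NV V W →ₐ[k] k} (hres : ResAt V res) {y : Fin (m + 1) → NV V W}
    (hy : Coord h j res y) : ramV v y ≠ 0 := by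
  have hN := nPt_NV hK H.model H.fin' hV hres
  obtain ⟨hprop, hrho⟩ := H.deg V hV j hj res hres y hy
  have hdiv := H.isDiv hK hv hvo hV hle
  obtain ⟨⟨D, hD⟩, hHas, -⟩ := hEx inferInstance p hp hchar (NV V W) res hN (m + 1) htr y hprop
    (hrho.trans_lt hd)
  have h1 := ramV_eq_zero_iff hdiv.disc hdiv.le hD (hHas v hdiv)
  rw [Ne, h1, unr_coord_iff_ratio H.ne hy (j' := 0) (fun i => hle (hj i)) (ratio_mem_v hv)]
  exact hU


/-- **`GPOut → ResBd` for bad `v`.** -/
theorem GPOut.resBd [IsAlgClosed k] (hK : (⊤ : IntermediateField k K).FG)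
    {p : ℕ} (hp : p.Prime) (hchar : CharP k p) (hEx : ExDual k K)
    (htr : Algebra.trdeg k K = ((m + 1 : ℕ) : Cardinal)) (H : GPOut W h Θ d) (hd : d < p)
    (hv : PDA (Aff k h) v) (hvo : Ov k v) (hbad : v ∈ Θ ∨ ¬ Unr k (fun i => h i / h 0) v) :
    ResBd (k := k) (bOf h) v d := by
  intro V hV hle j hj
  have hquot : ∀ i, hB (bOf h) i / hB (bOf h) j = h i.castSucc / h j.castSucc := by
    intro i
    rw [hB_of (H.ne 0), hB_of (H.ne 0), div_div_div_cancel_right₀ (H.ne 0)]
  have hj1 : ∀ i : Fin (m + 1), h i.castSucc / h j.castSucc ∈ V := fun i => by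
    rw [← hquot]; exact hj i
  have hdiv := H.isDiv hK hv hvo hV hle
  have hj2 : ∀ i : Fin (m + 2), h i / h j.castSucc ∈ V := by
    by_contra hcon
    have hlast : h (Fin.last (m + 1)) / h j.castSucc ∉ V := by
      intro hl
      apply hcon
      intro i
      refine Fin.lastCases hl (fun i => hj1 i) i
    have h0 : h (Fin.last (m + 1)) / h j.castSucc ≠ 0 := div_ne_zero (H.ne _) (H.ne _)
    have hlt : V.valuation (h j.castSucc / h (Fin.last (m + 1))) < 1 := by
      have h1 : h j.castSucc / h (Fin.last (m + 1)) ≠ 0 := div_ne_zero (H.ne _) (H.ne _)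
      rw [TG.val_lt_one_iff' V h1, inv_div]
      exact hlast
    have hall : ∀ i, i ≠ Fin.last (m + 1) →
        V.valuation (h i / h (Fin.last (m + 1))) < 1 := by
      intro i
      refine Fin.lastCases (fun h => absurd rfl h) (fun i _ => ?_) i
      have h2 : h i.castSucc / h (Fin.last (m + 1)) =
          (h i.castSucc / h j.castSucc) * (h j.castSucc / h (Fin.last (m + 1))) := by
        rw [div_mul_div_cancel₀ (H.ne _)]
      rw [h2, map_mul]
      exact lt_of_le_of_lt (mul_le_of_le_one_left' ((V.valuation_le_one_iff _).2 (hj1 i))) hlt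
    have hlast' : ∀ i, h i / h (Fin.last (m + 1)) ∈ V := by
      intro i
      by_cases hi : i = Fin.last (m + 1)
      · rw [hi, div_self (H.ne _)]
        exact V.one_mem
      · exact (V.valuation_le_one_iff _).1 (hall i hi).le
    obtain ⟨res, hres⟩ := exists_resAt (TG.NV_le hV.ov H.model) hV
    obtain ⟨y, hy⟩ := H.exists_coord hV hlast' res
    obtain ⟨h3, h4⟩ := H.out V hV hlast' hall res hres y hy v hdiv
    rcases hbad with hb | hb
    · exact h4 hb
    · exact H.bad_chart hK hp hchar hEx htr hd hv hvo hb hV hle hlast' hres hy h3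
  obtain ⟨res, hres⟩ := exists_resAt (TG.NV_le hV.ov H.model) hV
  obtain ⟨y, hy⟩ := H.exists_coord hV hj2 res
  have hbad' : ramV v y ≠ 0 ∨ v ∈ Θ := by
    rcases hbad with hb | hb
    · exact Or.inr hb
    · exact Or.inl (H.bad_chart hK hp hchar hEx htr hd hv hvo hb hV hle hj2 hres hy)
  obtain ⟨h5, h6⟩ := H.ram V hV j.castSucc (Fin.castSucc_lt_last j).ne hj2 res hres y hy v hdiv
    hbad'
  refine ⟨NV V W, res, nPt_NV hK H.model H.fin' hV hres, hdiv, hres, y ∘ Fin.castSucc,
    fun i => ?_, h5, h6⟩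
  obtain ⟨c, hc⟩ := (hy i.castSucc).2
  refine ⟨c, ?_⟩
  change (y i.castSucc : K) = _
  rw [hc, hquot, Fin.castSucc_succAbove_castSucc]

/-- **ROW R13.** -/
theorem rowR13 (hEx : ExDual k K) : TGTop.RowR13 k K := by
  classical
  intro hk hK p hp hchar m htr d hd W h Θ H A₀ hA₀ hic hfr hΘ
  have hpf : Fact p.Prime := ⟨hp⟩
  obtain ⟨V₀, res₀, y₀, hV₀, hi₀, hres₀, hN₀, hy₀⟩ := H.exists_base hK
  obtain ⟨hprop₀, hrho₀⟩ := H.deg V₀ hV₀ 0 hi₀ res₀ hres₀ y₀ hy₀
  have hadj := adjoin_coord (k := k) H.ne hy₀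
  have hfinK : FiniteDimensional (KB k (bOf h) (zOf h)) K := by
    have h1 := hN₀.finiteDimensional hprop₀
    rw [hadj] at h1
    exact h1
  have hess : Algebra.EssFiniteType k K := IntermediateField.fg_top_iff.1 hK
  obtain ⟨⟨D, hD⟩, -, -⟩ := hEx hk p hp hchar (NV V₀ W) res₀ hN₀ (m + 1) htr y₀ hprop₀
    (hrho₀.trans_lt hd)
  have hsep : Algebra.IsSeparable (KB k (bOf h) (zOf h)) K := by
    have h1 := P78.isSeparable_of_dual hD
    rw [hadj] at h1
    exact h1
  obtain ⟨hbi, hztr⟩ := ind_tr (k := k) (b := bOf h) (z := zOf h) htr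
  have halg := H.isAlgebraic hK
  -- the bad prime divisors
  let B : Set (ValuationSubring K) :=
    {v | PDA (Aff k h) v ∧ Ov k v ∧ (v ∈ Θ ∨ ¬ Unr k (fun i => h i / h 0) v)}
  have hBfin : B.Finite := by
    have h1 := PDA.finite_ram hK (aff_fg h) halg hD
    refine (H.fin.union h1).subset ?_
    rintro v ⟨hv, -, hb⟩
    rcases hb with hb | hb
    · exact Or.inl hb
    · refine Or.inr ⟨hv, fun hU => hb ?_⟩
      exact (unr_coord_iff_ratio H.ne hy₀ (ratio_mem_v hv) (ratio_mem_v hv)).1 hU
  let c : ValuationSubring K → K := fun v =>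
    if hx : ∃ x ∈ LB k (bOf h), x ∉ v then hx.choose else 1
  have hc1 : ∀ v, c v ∈ LB k (bOf h) := by
    intro v
    simp only [c]
    split_ifs with hx
    · exact hx.choose_spec.1
    · exact one_mem _
  have hc2 : ∀ v, c v ≠ 0 := by
    intro v
    simp only [c]
    split_ifs with hx
    · intro h0
      exact hx.choose_spec.2 (by rw [h0]; exact v.zero_mem)
    · exact one_ne_zero
  refine ⟨bOf h, zOf h, hBfin.toFinset.image c, {v | v ∈ B ∧ ∀ x ∈ LB k (bOf h), x ∈ v}, ?_⟩
  refine
    { ind := hbi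
      tr := hztr
      fin := hfinK
      sep := hsep
      C_mem := fun x hx => ?_
      C_ne := fun x hx => ?_
      bad_fin := hBfin.subset fun v hv => hv.1
      good := ?_
      deg := fun v₀ hv₀ => gpOut_deg (b := bOf h) (z := zOf h) hK htr H (fun _ => rfl) rfl v₀ hv₀
      bad_le := fun v hv => hv.2
      bad := ?_ }
  · obtain ⟨v, -, rfl⟩ := Finset.mem_image.1 hx
    exact hc1 v
  · obtain ⟨v, -, rfl⟩ := Finset.mem_image.1 hx
    exact hc2 v
  · intro v hv hz hb hC hnot
    have hPDA := pda_of_pdiv (k := k) (H.ne 0) hv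
    have hvB : v ∉ B := by
      intro hvB
      have h1 : ∃ x ∈ LB k (bOf h), x ∉ v := by
        by_contra hcon
        push Not at hcon
        exact hnot ⟨hvB, hcon⟩
      have h2 : c v ∉ v := by
        simp only [c]
        rw [dif_pos h1]
        exact h1.choose_spec.2
      have h3 := hC (c v) (Finset.mem_image_of_mem c (hBfin.mem_toFinset.2 hvB))
      exact h2 ((v.valuation_le_one_iff _).1 h3.le)
    have hΘv : v ∉ Θ := fun h1 => hvB ⟨hPDA, hv.ov, Or.inl h1⟩
    have hUv : Unr k (fun i => h i / h 0) v := by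
      by_contra h1
      exact hvB ⟨hPDA, hv.ov, Or.inr h1⟩
    obtain ⟨V, hle, hV, hi⟩ := exists_zdim_aff (k := k) h v hPDA.le
    obtain ⟨h1, h2⟩ := hΘ V hV v (H.isDiv hK hPDA hv.ov hV hle) hΘv
    refine ⟨fun d hdb hdz x hx => hUv d (fun i => ?_) x hx, h1, h2⟩
    have h3 : h i / h 0 ∈ insert 1 (insert (zOf h) (Set.range (bOf h))) := by
      rw [← range_hP]
      exact ⟨i, hP_of (H.ne 0) i⟩
    change d (h i / h 0) ∈ v
    rcases h3 with h4 | h4 | ⟨i', h4⟩
    · rw [h4, Derivation.map_one_eq_zero]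
      exact v.zero_mem
    · rw [h4]; exact hdz
    · rw [← h4]; exact hdb i'
  · rintro v ⟨⟨hPDA, hvo, hbad⟩, hLv⟩
    have hPDiv : PDiv k (bOf h) (zOf h) v := by
      refine ⟨hvo, fun i => ratio_mem_v hPDA _, ratio_mem_v hPDA _, ?_, ?_⟩
      · rw [adjoin_of (H.ne 0), ← adjoin_Aff H.ne]
        exact hPDA.cen
      · rw [← adjoin_Aff H.ne]
        exact hPDA.ne
    have hRB := H.resBd hK hp hchar hEx htr hd hPDA hvo hbad
    obtain ⟨M, i1, i2, i3, π, i4, hπ, hfinM, hMfg, -, hmin⟩ :=
      TG21.exists_res v hPDiv hLv hbi hfinK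
    exact ⟨M, i1, i3, π ⟨zOf h, hPDiv.z_mem⟩, hfinM,
      TGJ32.isSeparable_of_resBd hbi hπ hp hchar hd hRB,
      fun v₀ hv₀ => TGJ32.lDeg_of_resBd hbi hπ hMfg hRB v₀ hv₀, hmin⟩

end Pool.Agent.TGJ
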