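import Pool.Agent.Lib.TGJ.R13d
import Pool.Agent.Lib.TGJ.NVPt
import Pool.Agent.Lib.TG_h51.Div
import Pool.Agent.Lib.TG_h55.Chart

/-!
# TANK G, block C, R13: prime divisors of affine space in `K`
-/

set_option autoImplicit false

namespace Pool.Agent.TGJ

open Pool.Agent.TG (ncl Ov ZDim IsMin IsModel NV RV Fin' ch chN)
open Pool.Agent.LU2 (locV le_locV locV_mono locV_le locV_inv locV_locV)
open Pool.Agent.TGh4 (Disc ordV)
open Pool.Agent.TG51 (valP InLoc)

universe u

/-- Krull's intersection theorem at a prime. -/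
theorem krull_step {A : Type*} [CommRing A] [IsDomain A] [IsNoetherianRing A] (p : Ideal A)
    [p.IsPrime] {t s : A} (ht : t ∈ p) (hs : ∀ n : ℕ, ∃ c, c ∉ p ∧ ∃ a, s * c = a * t ^ n) :
    s = 0 := by
  have hn : IsNoetherianRing (Localization.AtPrime p) :=
    IsLocalization.isNoetherianRing p.primeCompl _ inferInstance
  have hd : IsDomain (Localization.AtPrime p) :=
    IsLocalization.isDomain_localization p.primeCompl_le_nonZeroDivisors
  let φ := algebraMap A (Localization.AtPrime p)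
  have hinj : Function.Injective φ :=
    IsLocalization.injective _ p.primeCompl_le_nonZeroDivisors
  let I : Ideal (Localization.AtPrime p) := Ideal.span {φ t}
  have hI : I ≠ ⊤ := by
    intro h
    have h1 : I ≤ IsLocalRing.maximalIdeal (Localization.AtPrime p) := by
      rw [Ideal.span_singleton_le_iff_mem, ← Localization.AtPrime.map_eq_maximalIdeal]
      exact Ideal.mem_map_of_mem _ ht
    rw [h] at h1
    exact (IsLocalRing.maximalIdeal.isMaximal _).ne_top (top_le_iff.1 h1)
  have h2 : φ s ∈ ⨅ i : ℕ, I ^ i := by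
    rw [Ideal.mem_iInf]
    intro n
    obtain ⟨c, hc, a, e⟩ := hs n
    have hu : IsUnit (φ c) := IsLocalization.map_units (Localization.AtPrime p)
      (⟨c, hc⟩ : p.primeCompl)
    obtain ⟨u, hu⟩ := hu
    have h3 : φ s = (φ a * ↑u⁻¹) * φ t ^ n := by
      have h4 : φ s * u = φ a * φ t ^ n := by
        rw [hu, ← map_mul, ← map_pow, ← map_mul, e]
      calc φ s = φ s * u * ↑u⁻¹ := by rw [mul_assoc, Units.mul_inv, mul_one]
        _ = _ := by rw [h4]; ring
    rw [h3]
    refine Ideal.mul_mem_left _ _ ?_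
    exact Ideal.pow_mem_pow (Ideal.mem_span_singleton_self _) n
  rw [Ideal.iInf_pow_eq_bot_of_isLocalRing I hI, Ideal.mem_bot] at h2
  exact hinj (by rw [h2, map_zero])

section Height

variable {k K : Type u} [Field k] [Field K] [Algebra k K] {A : Subalgebra k K}
  {v : ValuationSubring K}

theorem ncl_mem_v (hAv : ∀ a ∈ A, a ∈ v) (a : ncl A) : algebraMap (ncl A) K a ∈ v :=
  TG.ncl_mem hAv _ a.2

/-- The primes below the centre of `v`. -/
theorem eq_bot_of_lt_cen [IsNoetherianRing A] (hAv : ∀ a ∈ A, a ∈ v)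
    (hcen : ∀ x ∈ IntermediateField.adjoin k (A : Set K), x ∈ v → x ∈ locV v A)
    (Q : Ideal (ncl A)) [Q.IsPrime] (hQ : Q < TG51.cen (ncl A) v (ncl_mem_v hAv)) : Q = ⊥ := by
  classical
  let φ : A →+* ncl A := (Subalgebra.inclusion (TG.le_ncl A)).toRingHom
  let _ : Algebra A (ncl A) := φ.toAlgebra
  have htow : IsScalarTower A (ncl A) K := IsScalarTower.of_algebraMap_eq fun _ => rfl
  have hint : Algebra.IsIntegral A (ncl A) := ⟨fun c => by
    have h1 : IsIntegral A ((algebraMap (ncl A) K) c) := c.2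
    exact (isIntegral_algebraMap_iff (R := A) (A := ncl A) (B := K) Subtype.val_injective).1 h1⟩
  by_contra hbot
  have h1 : Q.comap (algebraMap A (ncl A)) ≠ ⊥ := fun h => hbot
    (Ideal.eq_bot_of_comap_eq_bot (R := A) h)
  have h2 := Ideal.IsIntegral.comap_lt_comap (R := A) hQ
  obtain ⟨s, hs, hs0⟩ := (Submodule.ne_bot_iff _).1 h1
  obtain ⟨-, t, ht, htQ⟩ := SetLike.lt_iff_le_and_exists.1 h2
  have hP : (TG51.cen (ncl A) v (ncl_mem_v hAv)).IsPrime := inferInstance
  have hp0 : ((TG51.cen (ncl A) v (ncl_mem_v hAv)).comap (algebraMap A (ncl A))).IsPrime :=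
    Ideal.comap_isPrime _ _
  have hq0 : (Q.comap (algebraMap A (ncl A))).IsPrime := Ideal.comap_isPrime _ _
  have hmem : ∀ a : A, a ∈ (TG51.cen (ncl A) v (ncl_mem_v hAv)).comap (algebraMap A (ncl A)) ↔
      v.valuation (a : K) < 1 := fun a => Iff.rfl
  have ht0 : (t : K) ≠ 0 := by
    intro h
    apply htQ
    have : t = 0 := Subtype.ext h
    rw [this]
    exact Ideal.zero_mem _
  have hs0' : (s : K) ≠ 0 := fun h => hs0 (Subtype.ext h)
  have hE : ∀ a : A, (a : K) ∈ IntermediateField.adjoin k (A : Set K) := fun a =>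
    IntermediateField.subset_adjoin _ _ a.2
  apply hs0
  refine krull_step ((TG51.cen (ncl A) v (ncl_mem_v hAv)).comap (algebraMap A (ncl A))) ht
    fun n => ?_
  rcases v.mem_or_inv_mem ((s : K) / (t : K) ^ n) with h3 | h3
  · obtain ⟨a, ha, c, hc, hc1, e⟩ := hcen _ (div_mem (hE s) (pow_mem (hE t) n)) h3
    refine ⟨⟨c, hc⟩, fun h4 => ?_, ⟨a, ha⟩, Subtype.ext ?_⟩
    · have h5 : v.valuation c < 1 := (hmem ⟨c, hc⟩).1 h4
      rw [hc1] at h5
      exact lt_irrefl _ h5
    · have hc0 : c ≠ 0 := by rintro rfl; rw [map_zero] at hc1; exact zero_ne_one hc1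
      change (s : K) * c = a * (t : K) ^ n
      field_simp at e
      linear_combination e
  · exfalso
    rw [inv_div] at h3
    obtain ⟨a, ha, c, hc, hc1, e⟩ := hcen _ (div_mem (pow_mem (hE t) n) (hE s)) h3
    have hc0 : c ≠ 0 := by rintro rfl; rw [map_zero] at hc1; exact zero_ne_one hc1
    have h6 : t ^ n * ⟨c, hc⟩ = ⟨a, ha⟩ * s := by
      apply Subtype.ext
      change (t : K) ^ n * c = a * (s : K)
      field_simp at e
      linear_combination e
    have h7 : t ^ n * ⟨c, hc⟩ ∈ Q.comap (algebraMap A (ncl A)) := by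
      rw [h6]
      exact Ideal.mul_mem_left _ _ hs
    rcases hq0.mem_or_mem h7 with h8 | h8
    · exact htQ (hq0.mem_of_pow_mem _ h8)
    · have h9 := (hmem ⟨c, hc⟩).1 (h2.le h8)
      change v.valuation c < 1 at h9
      rw [hc1] at h9
      exact lt_irrefl _ h9

end Height

/-! ## `v` is the localisation of the integral closure at a height one prime -/

section PDA

variable {k K : Type u} [Field k] [Field K] [Algebra k K] {A : Subalgebra k K}
  {v : ValuationSubring K}

/-- The restriction of `v` to the field of fractions of `A` is the local ring of its centre. -/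
structure PDA (A : Subalgebra k K) (v : ValuationSubring K) : Prop where
  le : ∀ a ∈ A, a ∈ v
  cen : ∀ x ∈ IntermediateField.adjoin k (A : Set K), x ∈ v → x ∈ locV v A
  ne : ∃ x ∈ IntermediateField.adjoin k (A : Set K), x ∉ v

theorem ncl_fg [PerfectField k] (hK : (⊤ : IntermediateField k K).FG) (hA : A.FG)
    (halg : ∀ z : K, IsAlgebraic A z) : (ncl A).FG := by
  have h3 := TGh68.finite_integralClosure hK A hA halg
  have h4 : Algebra.FiniteType k A := (Subalgebra.fg_iff_finiteType _).1 hA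
  have h5 : Algebra.FiniteType k (integralClosure A K) :=
    Algebra.FiniteType.trans (S := A) h4 inferInstance
  have h6 : ncl A = (integralClosure A K).restrictScalars k := by
    ext a
    rfl
  rw [h6, Subalgebra.fg_iff_finiteType]
  exact h5

theorem noeth_of_fg (hA : A.FG) : IsNoetherianRing A := by
  have h4 : Algebra.FiniteType k A := (Subalgebra.fg_iff_finiteType _).1 hA
  exact Algebra.FiniteType.isNoetherianRing k A

theorem ncl_frac (halg : ∀ z : K, IsAlgebraic A z) : IsFractionRing (ncl A) K := by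
  refine IsFractionRing.of_field (ncl A) K fun z => ?_
  obtain ⟨y, hy0, hy⟩ := (halg z).exists_integral_multiple
  have hy0' : (y : K) ≠ 0 := fun h => hy0 (Subtype.ext h)
  refine ⟨⟨y • z, hy⟩, ⟨y, TG.le_ncl _ y.2⟩, ?_⟩
  change z = (y • z) / (y : K)
  rw [Algebra.smul_def, mul_comm]
  exact (mul_div_cancel_right₀ _ hy0').symm

theorem ncl_ic (halg : ∀ z : K, IsAlgebraic A z) : IsIntegrallyClosed (ncl A) := by
  have := ncl_frac halg
  rw [isIntegrallyClosed_iff K]
  intro x hx
  have h1 : x ∈ ncl (ncl A) := hx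
  rw [TG.ncl_ncl] at h1
  exact ⟨⟨x, h1⟩, rfl⟩

/-- **`v` is the localisation of the integral closure of `A` at a height one prime.** -/
theorem PDA.eq_valP [IsNoetherianRing A] (h : PDA A v) [IsFractionRing (ncl A) K]
    [IsNoetherianRing (ncl A)] [IsIntegrallyClosed (ncl A)] :
    ∃ h1 : (TG51.cen (ncl A) v (ncl_mem_v h.le)).height = 1,
      v = valP K (TG51.cen (ncl A) v (ncl_mem_v h.le)) h1 := by
  have htop : v ≠ ⊤ := by
    rintro rfl
    obtain ⟨x, -, hx⟩ := h.ne
    exact hx trivial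
  have h1 : (TG51.cen (ncl A) v (ncl_mem_v h.le)).height = 1 :=
    TG51.height_eq_one_of_forall (TG51.cen_ne_bot htop) fun Q hQ hlt =>
      eq_bot_of_lt_cen h.le h.cen Q hlt
  exact ⟨h1, TG51.eq_valP_of_le h1 v htop fun x hx => TG51.mem_of_inLoc_cen hx⟩

theorem PDA.disc [PerfectField k] (hK : (⊤ : IntermediateField k K).FG) (hA : A.FG)
    (halg : ∀ z : K, IsAlgebraic A z) (h : PDA A v) : Disc v := by
  have := noeth_of_fg hA
  have := noeth_of_fg (ncl_fg hK hA halg)
  have := ncl_frac halg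
  have := ncl_ic halg
  obtain ⟨h1, h2⟩ := h.eq_valP
  rw [h2]
  exact TG51.disc_valP h1

theorem PDA.loc [PerfectField k] (hK : (⊤ : IntermediateField k K).FG) (hA : A.FG)
    (halg : ∀ z : K, IsAlgebraic A z) (h : PDA A v) {x : K} (hx : x ∈ v) : x ∈ locV v (ncl A) := by
  have := noeth_of_fg hA
  have := noeth_of_fg (ncl_fg hK hA halg)
  have := ncl_frac halg
  have := ncl_ic halg
  obtain ⟨h1, h2⟩ := h.eq_valP
  have hx' : x ∈ valP K (TG51.cen (ncl A) v (ncl_mem_v h.le)) h1 := h2 ▸ hx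
  obtain ⟨a, b, hb, e⟩ := TG51.mem_valP.1 hx'
  have hb1 : v.valuation (b : K) = 1 := TG51.notMem_cen.1 hb
  have hb0 : (b : K) ≠ 0 := by
    intro h0
    rw [h0, map_zero] at hb1
    exact zero_ne_one hb1
  refine ⟨a, a.2, b, b.2, hb1, ?_⟩
  have e' : x * (b : K) = a := e
  rw [← e', mul_div_cancel_right₀ _ hb0]

/-- Finitely many prime divisors `v` have a given nonzero element in their maximal ideal. -/
theorem PDA.finite [PerfectField k] (hK : (⊤ : IntermediateField k K).FG) (hA : A.FG)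
    (halg : ∀ z : K, IsAlgebraic A z) (c : ncl A) (hc : c ≠ 0) :
    {v : ValuationSubring K | PDA A v ∧ v.valuation (c : K) < 1}.Finite := by
  classical
  have := noeth_of_fg hA
  have := noeth_of_fg (ncl_fg hK hA halg)
  have := ncl_frac halg
  have := ncl_ic halg
  have hfin := TG51.finite_height_one (A := ncl A) c hc
  let F : Ideal (ncl A) → ValuationSubring K := fun P =>
    if h : ∃ (_ : P.IsPrime), P.height = 1 then
      letI := h.choose
      valP K P h.choose_spec
    else ⊤
  refine (hfin.image F).subset ?_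
  rintro v ⟨hv, hvc⟩
  obtain ⟨h1, h2⟩ := hv.eq_valP
  refine ⟨TG51.cen (ncl A) v (ncl_mem_v hv.le), ⟨inferInstance, h1, hvc⟩, ?_⟩
  have h3 : ∃ (_ : (TG51.cen (ncl A) v (ncl_mem_v hv.le)).IsPrime),
      (TG51.cen (ncl A) v (ncl_mem_v hv.le)).height = 1 := ⟨inferInstance, h1⟩
  simp only [F]
  rw [dif_pos h3]
  exact h2.symm

/-- Finitely many prime divisors are ramified. -/
theorem PDA.finite_ram [PerfectField k] (hK : (⊤ : IntermediateField k K).FG) (hA : A.FG)
    (halg : ∀ z : K, IsAlgebraic A z) {n : ℕ} {f : Fin n → K} {D : Fin n → Derivation k K K}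
    (hD : Dual f D) : {v : ValuationSubring K | PDA A v ∧ ¬ Unr k f v}.Finite := by
  classical
  have hfg := ncl_fg hK hA halg
  have hfr := ncl_frac halg
  have hFr : IsFracS (ncl A).toSubring := by
    intro x
    obtain ⟨a, b, hb, e⟩ := IsFractionRing.div_surjective (ncl A) x
    refine ⟨a, a.2, b, b.2, ?_, e.symm⟩
    intro h0
    exact nonZeroDivisors.ne_zero hb (Subtype.ext h0)
  -- a common denominator of the `D i`
  obtain ⟨T, hT⟩ := hfg
  obtain ⟨c, hc, hc0, hcx⟩ := hFr.common (Finset.univ.biUnion fun i : Fin n => T.image (D i))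
  have hTc : ∀ i, ∀ a ∈ T, c * D i a ∈ ncl A := fun i a ha => hcx _
    (Finset.mem_biUnion.2 ⟨i, Finset.mem_univ i, Finset.mem_image_of_mem _ ha⟩)
  have hcl : ∀ i, ∀ a ∈ ncl A, c * D i a ∈ ncl A := by
    intro i a ha
    rw [← hT] at ha
    induction ha using Algebra.adjoin_induction with
    | mem a ha => exact hTc i a ha
    | algebraMap r => rw [Derivation.map_algebraMap, mul_zero]; exact Subalgebra.zero_mem _
    | add a b _ _ iha ihb => rw [map_add, mul_add]; exact Subalgebra.add_mem _ iha ihb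
    | mul a b ha hb iha ihb =>
      rw [hT] at ha hb
      rw [Derivation.leibniz, smul_eq_mul, smul_eq_mul, mul_add]
      refine Subalgebra.add_mem _ ?_ ?_
      · rw [mul_left_comm]
        exact Subalgebra.mul_mem _ ha ihb
      · rw [mul_left_comm]
        exact Subalgebra.mul_mem _ hb iha
  refine (PDA.finite hK hA halg ⟨c, hc⟩ fun h => hc0 (congrArg Subtype.val h)).subset ?_
  rintro v ⟨hv, hU⟩
  refine ⟨hv, lt_of_le_of_ne ((v.valuation_le_one_iff _).2 (TG.ncl_mem hv.le _ hc)) fun h1 => hU ?_⟩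
  have hci : c⁻¹ ∈ v := by
    rw [← v.valuation_le_one_iff, map_inv₀, h1, inv_one]
  have hDv : ∀ i, ∀ a ∈ ncl A, D i a ∈ v := by
    intro i a ha
    have h2 := v.mul_mem _ _ hci (TG.ncl_mem hv.le _ (hcl i a ha))
    rwa [inv_mul_cancel_left₀ hc0] at h2
  intro d hd x hx
  rw [hD.span d x]
  refine sum_mem fun i _ => v.mul_mem _ _ (hd i) ?_
  obtain ⟨a, ha, b, hb, hb1, rfl⟩ := hv.loc hK hA halg hx
  have hb0 : b ≠ 0 := by rintro rfl; rw [map_zero] at hb1; exact zero_ne_one hb1
  have hbi : b⁻¹ ∈ v := by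
    rw [← v.valuation_le_one_iff, map_inv₀, hb1, inv_one]
  rw [der_div (D i) a hb0]
  exact v.mul_mem _ _ (v.mul_mem _ _ hbi hbi)
    (v.sub_mem (v.mul_mem _ _ (TG.ncl_mem hv.le _ hb) (hDv i a ha))
      (v.mul_mem _ _ (TG.ncl_mem hv.le _ ha) (hDv i b hb)))

end PDA

end Pool.Agent.TGJ
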