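import Pool.Agent.Lib.TGJ.GPOut
import Pool.Agent.Lib.TGJ_h11.Curve
import Pool.Agent.Lib.TGJ_h11.Glob

/-!
# TANK G, block C, R13: unramified prime divisors and change of the chart
-/

set_option autoImplicit false

namespace Pool.Agent.TGJ

open Pool.Agent.TG (ncl Ov ZDim IsMin IsModel NV)
open Pool.Agent.TGh4 (Disc ordV)

universe u

variable {k K : Type u} [Field k] [Field K] [Algebra k K]

/-- Every derivation with `D (f i) ∈ v` preserves `v`. -/
def Unr (k : Type u) {K : Type u} [Field k] [Field K] [Algebra k K] {ι : Type*} (f : ι → K)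
    (v : ValuationSubring K) : Prop :=
  ∀ D : Derivation k K K, (∀ i, D (f i) ∈ v) → ∀ x ∈ v, D x ∈ v

/-- `R_f` does not contain `v` iff `v` is unramified. -/
theorem ramV_eq_zero_iff {S : Subalgebra k K} {n : ℕ} {f : Fin n → S} {v : ValuationSubring K}
    (hv : Disc v) (hS : ∀ a ∈ S, a ∈ v) {D : Fin n → Derivation k K K}
    (hD : Dual (fun i => (f i : K)) D) (h : HasD k v.toSubring (fun i => (f i : K))) :
    ramV v f = 0 ↔ Unr k (fun i => (f i : K)) v := by
  have hO := isOrd_ordV hv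
  have hf : ∀ j, (f j : K) ∈ v.toSubring := fun j => hS _ (f j).2
  constructor
  · intro h0 d hd x hx
    rw [hD.span d x]
    exact sum_mem fun j _ => v.mul_mem _ _ (hd j) (pres_of_rram hO hf h hD h0 j x hx)
  · intro hU
    refine rram_eq_zero hO hf hD fun j => hU (D j) fun i => ?_
    rw [hD.dual]
    split_ifs
    · exact v.one_mem
    · exact v.zero_mem

theorem unr_congr {ι ι' : Type*} {f : ι → K} {g : ι' → K} {v : ValuationSubring K}
    (h : ∀ D : Derivation k K K, (∀ i, D (g i) ∈ v) → ∀ i, D (f i) ∈ v) (hf : Unr k f v) :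
    Unr k g v := fun D hD => hf D (h D hD)

variable {m : ℕ}

theorem der_ratio_mem {ι : Type*} {h : ι → K} (hne : ∀ i, h i ≠ 0) {v : ValuationSubring K}
    {j j' : ι} (hj : ∀ i, h i / h j ∈ v) (hj' : ∀ i, h i / h j' ∈ v)
    (D : Derivation k K K) (hD : ∀ i, D (h i / h j) ∈ v) (i : ι) : D (h i / h j') ∈ v := by
  have h1 : h i / h j' = (h i / h j) / (h j' / h j) := by
    rw [div_div_div_cancel_right₀ (hne j)]
  have h2 : h j' / h j ≠ 0 := div_ne_zero (hne _) (hne _)
  have h3 : (h j' / h j)⁻¹ ∈ v := by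
    rw [inv_div]
    exact hj' j
  rw [h1, der_div D _ h2]
  exact v.mul_mem _ _ (v.mul_mem _ _ h3 h3)
    (v.sub_mem (v.mul_mem _ _ (hj _) (hD _)) (v.mul_mem _ _ (hj _) (hD _)))

/-- The coordinates of a chart: `D (y i) ∈ v` for all `i` iff `D (h i / h j) ∈ v` for all `i`. -/
theorem coord_der {h : Fin (m + 2) → K} (hne : ∀ i, h i ≠ 0) {j : Fin (m + 2)}
    {S : Subalgebra k K} {res : S →ₐ[k] k} {y : Fin (m + 1) → S} (hy : Coord h j res y)
    (v : ValuationSubring K) (D : Derivation k K K) :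
    (∀ i, D (y i : K) ∈ v) ↔ ∀ i, D (h i / h j) ∈ v := by
  have h1 : ∀ i, D (y i : K) = D (h (j.succAbove i) / h j) := by
    intro i
    obtain ⟨c, hc⟩ := (hy i).2
    rw [hc, map_sub, Derivation.map_algebraMap, sub_zero]
  constructor
  · intro h2 i
    by_cases hij : i = j
    · rw [hij, div_self (hne j), Derivation.map_one_eq_zero]
      exact v.zero_mem
    · obtain ⟨i', rfl⟩ := Fin.exists_succAbove_eq hij
      rw [← h1]
      exact h2 i'
  · intro h2 i
    rw [h1]
    exact h2 _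

/-- **Change of the chart.** -/
theorem unr_coord_iff {h : Fin (m + 2) → K} (hne : ∀ i, h i ≠ 0) {j j' : Fin (m + 2)}
    {S S' : Subalgebra k K} {res : S →ₐ[k] k} {res' : S' →ₐ[k] k} {y : Fin (m + 1) → S}
    {y' : Fin (m + 1) → S'} (hy : Coord h j res y) (hy' : Coord h j' res' y')
    {v : ValuationSubring K} (hj : ∀ i, h i / h j ∈ v) (hj' : ∀ i, h i / h j' ∈ v) :
    Unr k (fun i => (y i : K)) v ↔ Unr k (fun i => (y' i : K)) v :=
  ⟨unr_congr fun D hD => (coord_der hne hy v D).2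
      (der_ratio_mem hne hj' hj D ((coord_der hne hy' v D).1 hD)),
    unr_congr fun D hD => (coord_der hne hy' v D).2
      (der_ratio_mem hne hj hj' D ((coord_der hne hy v D).1 hD))⟩

/-- The chart `0` in terms of `h i / h 0`. -/
theorem unr_coord_iff_ratio {h : Fin (m + 2) → K} (hne : ∀ i, h i ≠ 0) {j j' : Fin (m + 2)}
    {S : Subalgebra k K} {res : S →ₐ[k] k} {y : Fin (m + 1) → S} (hy : Coord h j res y)
    {v : ValuationSubring K} (hj : ∀ i, h i / h j ∈ v) (hj' : ∀ i, h i / h j' ∈ v) :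
    Unr k (fun i => (y i : K)) v ↔ Unr k (fun i => h i / h j') v :=
  ⟨unr_congr fun D hD => (coord_der hne hy v D).2 (der_ratio_mem hne hj' hj D hD),
    unr_congr fun D hD => der_ratio_mem hne hj hj' D ((coord_der hne hy v D).1 hD)⟩

end Pool.Agent.TGJ
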