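import Pool.Agent.Lib.TGJ.R13c
import Pool.Agent.Lib.TGJ.R13coord
import Pool.Agent.Lib.TGJ_h88.Prop
import Pool.Agent.Lib.TG.Cpt

/-!
# TANK G, block C, R13: the prime divisors of affine space are prime divisors of the model
-/

set_option autoImplicit false

namespace Pool.Agent.TGJ

open Pool.Agent.TG (ncl Ov ZDim IsMin IsModel NV RV Fin' ch chN PDiv)
open Pool.Agent.LU2 (locV le_locV locV_mono locV_le locV_inv locV_locV)
open Pool.Agent.TGh4 (Disc ordV)
open Pool.Agent.TG55 (hP hB hP_zero range_hP)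

universe u

variable {k K : Type u} [Field k] [Field K] [Algebra k K] {m : ℕ}

/-- The affine coordinates `b i = h_(i+1) / h_0`. -/
def bOf (h : Fin (m + 2) → K) : Fin m → K := fun i => h i.succ.castSucc / h 0

/-- The affine coordinate `z = h_(m+1) / h_0`. -/
def zOf (h : Fin (m + 2) → K) : K := h (Fin.last (m + 1)) / h 0

theorem hB_of {h : Fin (m + 2) → K} (h0 : h 0 ≠ 0) (i : Fin (m + 1)) :
    hB (bOf h) i = h i.castSucc / h 0 := by
  refine Fin.cases ?_ (fun i => ?_) i
  · change (1 : K) = h 0 / h 0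
    rw [div_self h0]
  · rfl

theorem hP_of {h : Fin (m + 2) → K} (h0 : h 0 ≠ 0) (i : Fin (m + 2)) :
    hP (bOf h) (zOf h) i = h i / h 0 := by
  refine Fin.lastCases ?_ (fun i => ?_) i
  · simp [hP, zOf]
  · rw [hP, Fin.snoc_castSucc, hB_of h0]

theorem adjoin_of {h : Fin (m + 2) → K} (h0 : h 0 ≠ 0) :
    Algebra.adjoin k (insert (zOf h) (Set.range (bOf h))) =
      Algebra.adjoin k (Set.range fun i => h i / h 0) := by
  have h1 : (Set.range fun i => h i / h 0) = insert 1 (insert (zOf h) (Set.range (bOf h))) := by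
    rw [← range_hP]
    congr 1
    funext i
    exact (hP_of h0 i).symm
  rw [h1]
  refine le_antisymm (Algebra.adjoin_mono (Set.subset_insert _ _)) (Algebra.adjoin_le ?_)
  rintro x (rfl | hx)
  · exact one_mem _
  · exact Algebra.subset_adjoin hx

theorem adjoin_adjoin (S : Set K) :
    IntermediateField.adjoin k (Algebra.adjoin k S : Set K) = IntermediateField.adjoin k S := by
  refine le_antisymm (IntermediateField.adjoin_le_iff.2 ?_)
    (IntermediateField.adjoin.mono k _ _ Algebra.subset_adjoin)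
  exact IntermediateField.algebra_adjoin_le_adjoin k S

/-- The affine algebra `k[h_i / h_0]`. -/
abbrev Aff (k : Type u) {K : Type u} [Field k] [Field K] [Algebra k K] {m : ℕ}
    (h : Fin (m + 2) → K) : Subalgebra k K := Algebra.adjoin k (Set.range fun i => h i / h 0)

theorem aff_fg (h : Fin (m + 2) → K) : (Aff k h).FG :=
  ⟨(Set.finite_range _).toFinset, by rw [Set.Finite.coe_toFinset]⟩

theorem pda_of_pdiv {h : Fin (m + 2) → K} (h0 : h 0 ≠ 0) {v : ValuationSubring K}
    (hv : PDiv k (bOf h) (zOf h) v) : PDA (Aff k h) v := by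
  rw [Aff, ← adjoin_of h0]
  refine ⟨?_, ?_, ?_⟩
  · have h1 : Algebra.adjoin k (insert (zOf h) (Set.range (bOf h))) ≤ TG.valg hv.ov := by
      refine Algebra.adjoin_le ?_
      rintro x (rfl | ⟨i, rfl⟩)
      · exact hv.z_mem
      · exact hv.b_mem i
    exact fun a ha => h1 ha
  · rw [adjoin_adjoin]
    exact hv.centre
  · rw [adjoin_adjoin]
    exact hv.ne

variable {W : Submodule k K} {h : Fin (m + 2) → K} {Θ : Set (ValuationSubring K)} {d : ℕ}
  {V v : ValuationSubring K}

theorem ratio_mem_of_le {A : Subalgebra k K} (hA : ∀ a ∈ Aff k h, a ∈ V) (i : Fin (m + 2)) :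
    h i / h 0 ∈ V := hA _ (Algebra.subset_adjoin ⟨i, rfl⟩)

/-- There is a zero-dimensional valuation ring in the chart `0`. -/
theorem exists_zdim_aff [IsAlgClosed k] (h : Fin (m + 2) → K) (v : ValuationSubring K)
    (hv : ∀ a ∈ Aff k h, a ∈ v) :
    ∃ V : ValuationSubring K, V ≤ v ∧ ZDim k V ∧ ∀ i, h i / h 0 ∈ V := by
  obtain ⟨V, h1, h2, h3⟩ := TG.zdim_le_sub v (Aff k h) (aff_fg h) hv
  exact ⟨V, h1, h2, fun i => h3 _ (Algebra.subset_adjoin ⟨i, rfl⟩)⟩

theorem GPOut.isAlgebraic [IsAlgClosed k] (hK : (⊤ : IntermediateField k K).FG)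
    (H : GPOut W h Θ d) (x : K) : IsAlgebraic (Aff k h) x := by
  obtain ⟨V, -, hV, hi⟩ := exists_zdim_aff (k := k) h (⊤ : ValuationSubring K)
    (fun a _ => ValuationSubring.mem_top a)
  obtain ⟨res, hres⟩ := exists_resAt (TG.NV_le hV.ov H.model) hV
  obtain ⟨y, hy⟩ := H.exists_coord hV hi res
  have hN := nPt_NV hK H.model H.fin' hV hres
  have h1 := hN.isAlgebraic (H.deg V hV 0 hi res hres y hy).1 x
  rw [Coord.adjoin_eq H.ne hy] at h1
  exact h1

/-- **Prime divisors of affine space are prime divisors at all points below.** -/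
theorem GPOut.isDiv [IsAlgClosed k] (hK : (⊤ : IntermediateField k K).FG)
    (H : GPOut W h Θ d) (hv : PDA (Aff k h) v) (hvo : Ov k v) (hV : ZDim k V) (hle : V ≤ v) :
    IsDiv (NV V W) v := by
  have halg := H.isAlgebraic hK
  obtain ⟨V', h1, hV', hi⟩ := exists_zdim_aff (k := k) h v hv.le
  obtain ⟨N, hmin, hmem⟩ := H.exists_isMin hV' hi
  have hmin' := hmin.of_le h1
  have hNV : ncl (Aff k h) ≤ NV v W := by
    have h2 : NV v W = NV v (W ^ (N + 1)) :=
      (TG.NV_congr (TG.RV_pow hvo H.model N)).symm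
    rw [h2, TG.NV_eq hmin']
    refine le_trans (TG.ncl_mono ?_) (le_locV _)
    refine Algebra.adjoin_le ?_
    rintro _ ⟨i, rfl⟩
    exact TG.div_mem_ch (hmem i)
  have hloc : ∀ x ∈ v, x ∈ NV v W := by
    intro x hx
    have h3 := hv.loc hK (aff_fg h) halg hx
    exact locV_le hNV (fun f hf h1 => TG.NV_inv hf h1) h3
  refine ⟨fun a ha => TG.NV_le hvo H.model _ (NV_le_of_le hle hV.ov H.model ha),
    fun x hx => ?_, hv.disc hK (aff_fg h) halg⟩
  have h4 := hloc x hx
  rw [← locV_NV_of_le hle hV.ov H.model] at h4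
  obtain ⟨a, ha, b, hb, hb1, rfl⟩ := h4
  have hb0 : b ≠ 0 := by rintro rfl; rw [map_zero] at hb1; exact zero_ne_one hb1
  exact ⟨a, ha, b, hb, hb1, div_mul_cancel₀ _ hb0⟩

end Pool.Agent.TGJ
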