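import Pool.Agent.Lib.TGJ.ThmC1

/-!
# TANK G, block C: one step of the assembly (TG_JETS_h97.md, section 4)
-/

set_option autoImplicit false

namespace Pool.Agent.TGJ.C97

open Pool.Agent.TGJ Pool.Agent.TGh4
open scoped WithZero

universe u

variable {k : Type u} [Field k] {K : Type u} [Field K] [Algebra k K] {S : Subalgebra k K}
  {res : S →ₐ[k] k}

/-- Comparison of intersection numbers. -/
theorem IR_le_mul {m n : ℕ} {w w' : Fin m → S} {f : Fin n → S} {c : ℕ}
    (hfin : {V : ValuationSubring K | IsDiv S V ∧ ramV V f ≠ 0}.Finite)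
    (h : ∀ V, IsDiv S V → ramV V f ≠ 0 → RhoV S V res w' ≤ c * RhoV S V res w) :
    IR S res w' f ≤ c * IR S res w f := by
  have h1 : ∀ V ∈ hfin.toFinset, IsDiv S V := fun V hV => (hfin.mem_toFinset.1 hV).1
  have h2 : ∀ V, IsDiv S V → ramV V f ≠ 0 → V ∈ hfin.toFinset :=
    fun V hV h0 => hfin.mem_toFinset.2 ⟨hV, h0⟩
  rw [IR_eq w' f _ h1 h2, IR_eq w f _ h1 h2, Finset.mul_sum]
  refine Finset.sum_le_sum fun V hV => ?_
  have h3 := hfin.mem_toFinset.1 hV
  calc ramV V f * RhoV S V res w' ≤ ramV V f * (c * RhoV S V res w) :=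
        Nat.mul_le_mul_left _ (h V h3.1 h3.2)
    _ = c * (ramV V f * RhoV S V res w) := by ring

/-- One component is bounded by the intersection number. -/
theorem RhoV_le_IR {m n : ℕ} {w : Fin m → S} {f : Fin n → S}
    (hfin : {V : ValuationSubring K | IsDiv S V ∧ ramV V f ≠ 0}.Finite)
    {V : ValuationSubring K} (hV : IsDiv S V) (h : ramV V f ≠ 0) :
    RhoV S V res w ≤ IR S res w f := by
  have h1 : ∀ V ∈ hfin.toFinset, IsDiv S V := fun V hV => (hfin.mem_toFinset.1 hV).1
  have h2 : ∀ V, IsDiv S V → ramV V f ≠ 0 → V ∈ hfin.toFinset :=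
    fun V hV h0 => hfin.mem_toFinset.2 ⟨hV, h0⟩
  rw [IR_eq w f _ h1 h2]
  calc RhoV S V res w ≤ ramV V f * RhoV S V res w :=
        Nat.le_mul_of_pos_left _ (Nat.pos_of_ne_zero h)
    _ ≤ _ := Finset.single_le_sum (f := fun V => ramV V f * RhoV S V res w)
        (fun _ _ => Nat.zero_le _) (h2 V hV h)

/-- **The unit fix**: on the curve `w = 0` (with `y` in the span of `w`), `D y` and
`η⁻¹ D (η y)` agree; so `I(w; R)` is the same for `f` with `f i` replaced by `y` or `η y`. -/
theorem unit_fix (hk : IsAlgClosed k) (hF2 : F2 k K) (hAg : Agree k K) (hDen : Den k K)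
    (hDL : DivLe k K) (hpos : RhoPos k K) (hS : NPt S res) {m : ℕ} (hm : Algebra.trdeg k K = (m + 1 : ℕ))
    {f : Fin (m + 1) → S} (hf : Proper S.val res f) {D : Fin (m + 1) → Derivation k K K}
    (hD : Dual (fun i => (f i : K)) D)
    (hH : ∀ V, IsDiv S V → HasD k V.toSubring (fun i => (f i : K)))
    (i : Fin (m + 1)) (w : Fin m → S) (y η g : S) (hη : res η ≠ 0)
    (hw : ∃ j, w j = y) (hg : Proper S.val res (Fin.cons g w : Fin (m + 1) → S))
    (hRf : ProperR S res w f) (hRG : ProperR S res w (Function.update f i (η * y)))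
    (hG0 : D i ((η * y : S) : K) ≠ 0)
    (hfin1 : {V : ValuationSubring K | IsDiv S V ∧ ramV V f ≠ 0}.Finite)
    (hfin2 : {V : ValuationSubring K | IsDiv S V ∧
      ramV V (Function.update f i (η * y)) ≠ 0}.Finite) :
    D i (y : K) ≠ 0 ∧ ProperR S res w (Function.update f i y) ∧
      ({V : ValuationSubring K | IsDiv S V ∧ ramV V (Function.update f i y) ≠ 0}.Finite →
      IR S res w (Function.update f i y) = IR S res w (Function.update f i (η * y))) := by
  classical
  obtain ⟨j0, hj0⟩ := hw
  obtain ⟨J, hJ, μ, v, hv, hcomp, hprop, hrho⟩ := (hF2 hk S res hS m).1 hm g w hg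
  have hη0 : (η : K) ≠ 0 := by
    intro h
    apply hη
    rw [show η = 0 from Subtype.ext h, map_zero]
  -- common denominators
  obtain ⟨b, hb, hb'⟩ := exists_common v {D i (y : K), D i (η : K), D i ((η * y : S) : K)} (by
    intro j x hx
    obtain ⟨-, hcv, -, hvw⟩ := hv j
    simp only [Finset.mem_insert, Finset.mem_singleton] at hx
    rcases hx with rfl | rfl | rfl
    · exact hDen hk S res hS (m + 1) hm f hf D hD m rfl w hRf (v j) hcv hvw i y
    · exact hDen hk S res hS (m + 1) hm f hf D hD m rfl w hRf (v j) hcv hvw i η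
    · exact hDen hk S res hS (m + 1) hm f hf D hD m rfl w hRf (v j) hcv hvw i (η * y))
  obtain ⟨c1, hc1⟩ := hb' (D i (y : K)) (by simp)
  obtain ⟨c2, hc2⟩ := hb' (D i (η : K)) (by simp)
  obtain ⟨c3, hc3⟩ := hb' (D i ((η * y : S) : K)) (by simp)
  -- the relation
  have hrel : c3 = η * c1 + y * c2 := by
    apply Subtype.ext
    push_cast
    rw [← hc1, ← hc2, ← hc3]
    push_cast
    rw [Derivation.leibniz]
    simp only [smul_eq_mul]
    ring
  -- there is a place
  obtain ⟨j1⟩ : Nonempty J := by
    by_contra hne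
    rw [not_nonempty_iff] at hne
    have h1 := hrho g (hg.1 0) fun j => (hne.false j).elim
    have h2 := hpos hk S res hS (m + 1) hm _ hg
    rw [h1, Finset.univ_eq_empty, Finset.sum_empty] at h2
    exact lt_irrefl _ h2
  have hb0 : (b : K) ≠ 0 := by
    intro h0
    apply hb j1
    rw [show b = 0 from Subtype.ext h0, map_zero]
  have hbS : b ≠ 0 := fun h => hb0 (by rw [h]; rfl)
  have hc30 : c3 ≠ 0 := by
    intro h
    apply mul_ne_zero hb0 hG0
    rw [hc3, h]
    rfl
  have hv3 : ∀ j, v j c3 ≠ 0 := by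
    intro j h0
    obtain ⟨-, hcv, -, hvw⟩ := hv j
    obtain ⟨V, hV, h1, h2⟩ := hDL S res hS (v j).supp inferInstance c3 h0 hc30
    have h3 : b ∉ cen S V := fun h => hb j (h2 h)
    have h4 : ordV V (b : K) = 0 := by
      have h5 := (Pool.Agent.TGh4.mem_iff hV.disc hb0).1 (hV.le _ b.2)
      rw [mem_cen_iff hV hbS] at h3
      omega
    have h5 : 0 < ordV V (c3 : K) := (mem_cen_iff hV hc30).1 h1
    have h6 : ordV V (c3 : K) = ordV V (D i ((η * y : S) : K)) := by
      rw [← hc3, Pool.Agent.TGh4.ordV_mul V hb0 hG0, h4, zero_add]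
    have h7 := ramV_update hV (hH V hV) hD i (η * y) hG0
    have h8 : ramV V (Function.update f i (η * y)) ≠ 0 := by
      intro h9
      rw [h9, Nat.cast_zero] at h7
      omega
    have h9 := (hRG V hV h8).2 (v j).supp inferInstance (by rw [ker_toRes]; exact h2)
      fun l => hvw l
    obtain ⟨a, ha, ha'⟩ := hcv.ne
    apply ha'
    have : a ∈ (v j).supp := by rw [h9]; exact ha
    exact this
  have hy0 : ∀ j, v j y = 0 := fun j => by rw [← hj0]; exact (hv j).2.2.2 j0
  have hadd : ∀ u : Valuation S ℤᵐ⁰, u y = 0 → u c3 = u η * u c1 := by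
    intro u hu
    rw [hrel]
    have h1 : u (y * c2) = 0 := by rw [map_mul, hu, zero_mul]
    rcases eq_or_ne (u (η * c1)) 0 with h2 | h2
    · have h3 := u.map_add (η * c1) (y * c2)
      rw [h1, h2, max_self] at h3
      rw [← map_mul, h2]
      exact le_antisymm h3 zero_le
    · rw [← map_mul]
      exact u.map_add_eq_of_lt_left (by rw [h1]; exact zero_lt_iff.2 h2)
  have hv1 : ∀ j, v j c1 ≠ 0 := by
    intro j h0
    apply hv3 j
    rw [hadd (v j) (hy0 j), h0, mul_zero]
  have hDy : D i (y : K) ≠ 0 := by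
    intro h0
    apply hv1 j1
    rw [h0, mul_zero] at hc1
    rw [show c1 = 0 from Subtype.ext hc1.symm, map_zero]
  have hc10 : c1 ≠ 0 := by
    intro h0
    exact hv1 j1 (by rw [h0, map_zero])
  refine ⟨hDy, ?_, ?_⟩
  · intro V hV h0
    have h7 := ramV_update hV (hH V hV) hD i y hDy
    by_cases h1 : ramV V f = 0
    · have h2 : 0 < ordV V (D i (y : K)) := by
        rw [h1, Nat.cast_zero] at h7
        omega
      have h3 : c1 ∈ cen S V := by
        rw [mem_cen_iff hV hc10, ← hc1, Pool.Agent.TGh4.ordV_mul V hb0 hDy]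
        have h5 := (Pool.Agent.TGh4.mem_iff hV.disc hb0).1 (hV.le _ b.2)
        omega
      have h4 := (hprop c1 (res_cen hS hV h3)).2 hv1
      refine ⟨fun l => hg.1 l.succ, fun Q hQ hk' hwQ => h4.2 Q hQ ?_ ?_⟩
      · intro a ha
        rw [RingHom.mem_ker] at ha
        rw [show a = 0 from Subtype.ext ha]
        exact Q.zero_mem
      · intro l
        refine Fin.cases ?_ (fun l => ?_) l
        · rw [Fin.cons_zero]
          rw [ker_toRes] at hk'
          exact hk' h3
        · rw [Fin.cons_succ]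
          exact hwQ l
    · exact hRf V hV h1
  · intro hfin3
    have hag := hAg hk S res hS m hm w ⟨g, hg⟩ c1 b c3 (b * η) (by
      intro u hu huw
      have hu0 : u y = 0 := by rw [← hj0]; exact huw j0
      obtain ⟨j, hj⟩ := hcomp u hu (fun a ha => by
        have : a = 0 := Subtype.ext ha
        rw [this, map_zero]) huw
      have hub : u b ≠ 0 := fun h => hb j (hj.eq_zero.1 h)
      have huc : u c1 ≠ 0 := fun h => hv1 j (hj.eq_zero.1 h)
      have huη : u η = 1 := hu.one _ hη
      have hu3 : u c3 = u c1 := by rw [hadd u hu0, huη, one_mul]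
      refine ⟨huc, hub, by rw [hu3]; exact huc, by rw [map_mul, huη, mul_one]; exact hub, ?_⟩
      rw [map_mul, huη, mul_one, hu3])
    set T := hfin1.toFinset ∪ hfin2.toFinset ∪ hfin3.toFinset with hT
    have hTd : ∀ V ∈ T, IsDiv S V := by
      intro V hV
      simp only [hT, Finset.mem_union, Set.Finite.mem_toFinset] at hV
      rcases hV with (h | h) | h
      · exact h.1
      · exact h.1
      · exact h.1
    have hT1 : ∀ V, IsDiv S V → ramV V f ≠ 0 → V ∈ T := by
      intro V hV h
      simp only [hT, Finset.mem_union, Set.Finite.mem_toFinset]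
      exact Or.inl (Or.inl ⟨hV, h⟩)
    have hT2 : ∀ V, IsDiv S V → ramV V (Function.update f i (η * y)) ≠ 0 → V ∈ T := by
      intro V hV h
      simp only [hT, Finset.mem_union, Set.Finite.mem_toFinset]
      exact Or.inl (Or.inr ⟨hV, h⟩)
    have hT3 : ∀ V, IsDiv S V → ramV V (Function.update f i y) ≠ 0 → V ∈ T := by
      intro V hV h
      simp only [hT, Finset.mem_union, Set.Finite.mem_toFinset]
      exact Or.inr ⟨hV, h⟩
    have e1 : ((c1 : K)) / b = D i (y : K) := by
      rw [← hc1, mul_div_cancel_left₀ _ hb0]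
    have e2 : ∀ V, IsDiv S V → ordV V ((c3 : K) / ((b * η : S) : K)) =
        ordV V (D i ((η * y : S) : K)) := by
      intro V hV
      have : (c3 : K) / ((b * η : S) : K) = D i ((η * y : S) : K) / η := by
        rw [← hc3]
        push_cast
        rw [mul_div_mul_left _ _ hb0]
      rw [this, Pool.Agent.TGh4.ordV_div V hG0 hη0, ordV_unit hS hV hη, sub_zero]
    have r1 : ∀ V, IsDiv S V → (ramV V (Function.update f i y) : ℤ) =
        ramV V f + ordV V (D i (y : K)) := fun V hV => ramV_update hV (hH V hV) hD i y hDy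
    have r2 : ∀ V, IsDiv S V → (ramV V (Function.update f i (η * y)) : ℤ) =
        ramV V f + ordV V (D i ((η * y : S) : K)) :=
      fun V hV => ramV_update hV (hH V hV) hD i (η * y) hG0
    rw [e1] at hag
    rw [finsum_eq T hTd (fun V => ordV V (D i (y : K)) * (RhoV S V res w : ℤ)) ?_,
      finsum_eq T hTd (fun V => ordV V ((c3 : K) / ((b * η : S) : K)) * (RhoV S V res w : ℤ)) ?_]
      at hag
    · rw [IR_eq w _ T hTd hT3, IR_eq w _ T hTd hT2]
      have h1 : ∑ V ∈ T, ((ramV V (Function.update f i y) * RhoV S V res w : ℕ) : ℤ) =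
          ∑ V ∈ T, ((ramV V (Function.update f i (η * y)) * RhoV S V res w : ℕ) : ℤ) := by
        have h2 : ∑ V ∈ T, ((ramV V (Function.update f i y) * RhoV S V res w : ℕ) : ℤ) =
            ∑ V ∈ T, ((ramV V f : ℤ) * RhoV S V res w) +
              ∑ V ∈ T, ordV V (D i (y : K)) * (RhoV S V res w : ℤ) := by
          rw [← Finset.sum_add_distrib]
          refine Finset.sum_congr rfl fun V hV => ?_
          rw [Nat.cast_mul, r1 V (hTd V hV)]
          ring
        have h3 : ∑ V ∈ T, ((ramV V (Function.update f i (η * y)) * RhoV S V res w : ℕ) : ℤ) =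
            ∑ V ∈ T, ((ramV V f : ℤ) * RhoV S V res w) +
              ∑ V ∈ T, ordV V ((c3 : K) / ((b * η : S) : K)) * (RhoV S V res w : ℤ) := by
          rw [← Finset.sum_add_distrib]
          refine Finset.sum_congr rfl fun V hV => ?_
          rw [Nat.cast_mul, r2 V (hTd V hV), e2 V (hTd V hV)]
          ring
        rw [h2, h3, hag]
      exact_mod_cast h1
    · intro V hV h
      by_contra hn
      have h1 : ramV V f = 0 := by by_contra h'; exact hn (hT1 V hV h')
      have h2 : ramV V (Function.update f i (η * y)) = 0 := by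
        by_contra h'; exact hn (hT2 V hV h')
      have h3 := r2 V hV
      rw [h1, h2, Nat.cast_zero, zero_add] at h3
      apply left_ne_zero_of_mul h
      rw [e2 V hV]
      exact h3.symm
    · intro V hV h
      by_contra hn
      have h1 : ramV V f = 0 := by by_contra h'; exact hn (hT1 V hV h')
      have h2 : ramV V (Function.update f i y) = 0 := by
        by_contra h'; exact hn (hT3 V hV h')
      have h3 := r1 V hV
      rw [h1, h2, Nat.cast_zero, zero_add] at h3
      apply left_ne_zero_of_mul h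
      exact h3.symm

end Pool.Agent.TGJ.C97
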