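import Pool.Agent.Lib.TGJ.ThmC2

/-!
# TANK G, block C: the theorem at one point (TG_JETS_h97.md, section 4)
-/

set_option autoImplicit false

namespace Pool.Agent.TGJ.C97

open Pool.Agent.TGJ Pool.Agent.TGh4
open scoped WithZero

universe u

section Mix

variable {α : Type*} {m : ℕ}

/-- `(y_0, .., y_(l-1), u_l, .., u_m)`. -/
def mixf (u y : Fin (m + 1) → α) (l : ℕ) : Fin (m + 1) → α :=
  fun j => if j.1 < l then y j else u j

/-- `(y_0, .., y_(l-1), u_(l+1), .., u_m)`. -/
def mixw (u y : Fin (m + 1) → α) (l : ℕ) : Fin m → α :=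
  fun j => if j.1 < l then y j.castSucc else u j.succ

/-- `(y_0, .., y_(l-1), u_l, .., u_(m-1))`. -/
def mixt (u y : Fin (m + 1) → α) (l : ℕ) : Fin m → α :=
  fun j => if j.1 < l then y j.castSucc else u j.castSucc

variable (u y : Fin (m + 1) → α)

theorem mixf_zero : mixf u y 0 = u := by
  funext j; simp [mixf]

theorem mixf_last : mixf u y (m + 1) = y := by
  funext j; exact if_pos j.2

theorem mixf_succ (l : Fin (m + 1)) :
    mixf u y (l.1 + 1) = Function.update (mixf u y l.1) l (y l) := by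
  funext j
  unfold mixf
  by_cases h : j = l
  · subst h; simp
  · have h1 : j.1 ≠ l.1 := fun e => h (Fin.ext e)
    simp only [ne_eq, h, not_false_eq_true, Function.update_of_ne]
    by_cases h2 : j.1 < l.1
    · rw [if_pos h2, if_pos (by omega)]
    · rw [if_neg h2, if_neg (by omega)]

theorem mixf_self (l : Fin (m + 1)) : mixf u y l.1 l = u l := by
  simp [mixf]

theorem mixf_succAbove (l : Fin (m + 1)) : mixf u y l.1 ∘ l.succAbove = mixw u y l.1 := by
  funext j
  simp only [Function.comp, mixf, mixw]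
  by_cases h : j.1 < l.1
  · rw [Fin.succAbove_of_castSucc_lt _ _ (by rw [Fin.lt_def]; exact h), Fin.val_castSucc, if_pos h,
      if_pos h]
  · rw [Fin.succAbove_of_le_castSucc _ _ (by rw [Fin.le_def, Fin.val_castSucc]; omega),
      Fin.val_succ, if_neg (by omega), if_neg h]

theorem mixw_zero : mixw u y 0 = u ∘ Fin.succ := by
  funext j; simp [mixw]

theorem mixw_last : mixw u y m = y ∘ Fin.castSucc := by
  funext j; simp [mixw]

theorem mixw_succ (l : Fin m) :
    mixw u y (l.1 + 1) = Function.update (mixw u y l.1) l (y l.castSucc) := by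
  funext j
  unfold mixw
  by_cases h : j = l
  · subst h; simp
  · have h1 : j.1 ≠ l.1 := fun e => h (Fin.ext e)
    simp only [ne_eq, h, not_false_eq_true, Function.update_of_ne]
    by_cases h2 : j.1 < l.1
    · rw [if_pos h2, if_pos (by omega)]
    · rw [if_neg h2, if_neg (by omega)]

theorem mixw_self (l : Fin m) : mixw u y l.1 l = u l.succ := by
  simp [mixw]

theorem mixt_zero : mixt u y 0 = u ∘ Fin.castSucc := by
  funext j; simp [mixt]

theorem mixt_last : mixt u y m = y ∘ Fin.castSucc := by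
  funext j; simp [mixt]

theorem mixt_succ (l : Fin m) :
    mixt u y (l.1 + 1) = Function.update (mixt u y l.1) l (y l.castSucc) := by
  funext j
  unfold mixt
  by_cases h : j = l
  · subst h; simp
  · have h1 : j.1 ≠ l.1 := fun e => h (Fin.ext e)
    simp only [ne_eq, h, not_false_eq_true, Function.update_of_ne]
    by_cases h2 : j.1 < l.1
    · rw [if_pos h2, if_pos (by omega)]
    · rw [if_neg h2, if_neg (by omega)]

theorem mixt_self (l : Fin m) : mixt u y l.1 l = u l.castSucc := by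
  simp [mixt]

/-- The entries of the mixed tuples. -/
theorem mixf_mem (l : Fin (m + 1)) (j : Fin (m + 1)) :
    (∃ i, mixf u y l.1 j = u i) ∨ ∃ i, i ≠ l ∧ mixf u y l.1 j = y i := by
  unfold mixf
  split_ifs with h
  · exact Or.inr ⟨j, fun e => by rw [e] at h; exact lt_irrefl _ h, rfl⟩
  · exact Or.inl ⟨j, rfl⟩

theorem mixw_mem (l : Fin (m + 1)) (j : Fin m) :
    (∃ i, mixw u y l.1 j = u i) ∨ ∃ i, i ≠ l ∧ mixw u y l.1 j = y i := by
  unfold mixw
  split_ifs with h
  · refine Or.inr ⟨j.castSucc, fun e => ?_, rfl⟩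
    rw [← e, Fin.val_castSucc] at h
    exact lt_irrefl _ h
  · exact Or.inl ⟨j.succ, rfl⟩

theorem mixt_mem (l : Fin (m + 1)) (j : Fin m) :
    (∃ i, mixt u y l.1 j = u i) ∨ ∃ i, i ≠ l ∧ mixt u y l.1 j = y i := by
  unfold mixt
  split_ifs with h
  · refine Or.inr ⟨j.castSucc, fun e => ?_, rfl⟩
    rw [← e, Fin.val_castSucc] at h
    exact lt_irrefl _ h
  · exact Or.inl ⟨j.castSucc, rfl⟩

end Mix

variable {k : Type u} [Field k] {K : Type u} [Field K] [Algebra k K] {S : Subalgebra k K}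
  {res : S →ₐ[k] k}

/-- The hypothesis of genericity of `ThmC` for one block. -/
def Blk (S : Subalgebra k K) {m : ℕ} (N : ℕ) (u y : Fin (m + 1) → S) (η : S)
    (Θ : Set (ValuationSubring K)) (l i : Fin (m + 1)) : Prop :=
  ∃ (a : Fin N → k) (h' : S),
    η * y l = h' + ∑ j : Fin N, algebraMap k S (a j) * u i ^ (j.1 + 1) ∧
    Mov S (insert (h' : K) (insert (η : K) ((Set.range fun j => (u j : K)) ∪
      ((fun j => (y j : K)) '' {j | j ≠ l})))) Θ a

/-- The elements fixed by the automorphisms of a block. -/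
theorem fixed_of {m : ℕ} {u y : Fin (m + 1) → S} {η h' : S} {Θ : Set (ValuationSubring K)}
    {l : Fin (m + 1)} {g : (K ≃+* K) × (k ≃+* k)}
    (hg : g ∈ Auts S (insert (h' : K) (insert (η : K) ((Set.range fun j => (u j : K)) ∪
      ((fun j => (y j : K)) '' {j | j ≠ l})))) Θ) :
    g.1 (h' : K) = h' ∧ g.1 (η : K) = η ∧ (∀ s : S, ((∃ i, s = u i) ∨ ∃ i, i ≠ l ∧ s = y i) →
      g.1 (s : K) = s) := by
  obtain ⟨-, -, h, -⟩ := hg
  refine ⟨h _ (Set.mem_insert _ _), h _ (Set.mem_insert_of_mem _ (Set.mem_insert _ _)), ?_⟩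
  rintro s (⟨i, rfl⟩ | ⟨i, hi, rfl⟩)
  · exact h _ (Set.mem_insert_of_mem _ (Set.mem_insert_of_mem _ (Or.inl ⟨i, rfl⟩)))
  · exact h _ (Set.mem_insert_of_mem _ (Set.mem_insert_of_mem _ (Or.inr ⟨i, hi, rfl⟩)))

theorem auts_sub {m : ℕ} {u y : Fin (m + 1) → S} {η h' : S} {Θ 𝒱 : Set (ValuationSubring K)}
    {l : Fin (m + 1)} {F : Set K}
    (hF : ∀ g : (K ≃+* K) × (k ≃+* k), (g.1 (h' : K) = h' ∧ g.1 (η : K) = η ∧
      (∀ s : S, ((∃ i, s = u i) ∨ ∃ i, i ≠ l ∧ s = y i) → g.1 (s : K) = s)) →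
      ∀ x ∈ F, g.1 x = x)
    (hV : ∀ g ∈ Auts S (insert (h' : K) (insert (η : K) ((Set.range fun j => (u j : K)) ∪
      ((fun j => (y j : K)) '' {j | j ≠ l})))) Θ,
      ∀ V, V ∈ 𝒱 ↔ V.comap (g.1 : K →+* K) ∈ 𝒱) :
    Auts S (insert (h' : K) (insert (η : K) ((Set.range fun j => (u j : K)) ∪
      ((fun j => (y j : K)) '' {j | j ≠ l})))) Θ ⊆ Auts S F 𝒱 := by
  intro g hg
  exact ⟨hg.1, hg.2.1, hF g (fixed_of hg), hV g hg⟩

theorem exists_inv (hS : NPt S res) {η : S} (hη : res η ≠ 0) :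
    ∃ η' : S, η' * η = 1 ∧ res η' ≠ 0 ∧ (η' : K) = (η : K)⁻¹ := by
  have h0 : (η : K) ≠ 0 := by
    intro h
    apply hη
    rw [show η = 0 from Subtype.ext h, map_zero]
  have h1 : (⟨(η : K)⁻¹, hS.inv η hη⟩ : S) * η = 1 := by
    apply Subtype.ext
    push_cast
    exact inv_mul_cancel₀ h0
  refine ⟨⟨(η : K)⁻¹, hS.inv η hη⟩, h1, fun h => ?_, rfl⟩
  have h2 := congrArg res h1
  rw [map_mul, h, zero_mul, map_one] at h2
  exact zero_ne_one h2

section Step

variable {m N : ℕ} {u y : Fin (m + 1) → S} {η : S} {Θ : Set (ValuationSubring K)}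

/-- Step (a): the local degrees. -/
theorem stepE (hk : IsAlgClosed k) (hL : Lem2K k K) (hS : NPt S res)
    (hm : Algebra.trdeg k K = (m + 1 : ℕ)) (hη : res η ≠ 0) (hy : ∀ i, res (y i) = 0)
    (l : Fin (m + 1)) (hB : Blk S N u y η Θ l l) (hf : Proper S.val res (mixf u y l.1)) :
    (Proper S.val res (mixf u y (l.1 + 1)) ∧
      Rho S.val res (mixf u y (l.1 + 1)) ≤ (N + 1) * Rho S.val res (mixf u y l.1)) ∧
    Proper S.val res (Function.update (mixf u y l.1) l (η * y l)) ∧
      Rho S.val res (Function.update (mixf u y l.1) l (η * y l)) ≤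
        (N + 1) * Rho S.val res (mixf u y l.1) := by
  obtain ⟨η', h1, h2, h3⟩ := exists_inv hS hη
  obtain ⟨a, h', e, hM⟩ := hB
  constructor
  · rw [mixf_succ]
    refine hL hk S res hS (m + 1) hm _ hf l N a (η' * h') η' (y l) h2 (hy l) ?_ ?_
    · rw [mixf_self, ← mul_add, ← e, ← mul_assoc, h1, one_mul]
    · refine mov_mono hM (auts_sub ?_ fun g _ V => by simp)
      rintro g ⟨g1, g2, g3⟩ x hx
      simp only [Set.mem_insert_iff, Set.mem_range] at hx
      rcases hx with rfl | rfl | ⟨j, rfl⟩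
      · push_cast
        rw [map_mul, g1, h3, map_inv₀, g2]
      · rw [h3, map_inv₀, g2]
      · exact g3 _ (mixf_mem u y l j)
  · refine hL hk S res hS (m + 1) hm _ hf l N a h' 1 (η * y l) (by rw [map_one]; exact one_ne_zero)
      (by rw [map_mul, hy, mul_zero]) ?_ ?_
    · rw [mixf_self, one_mul, e]
    · refine mov_mono hM (auts_sub ?_ fun g _ V => by simp)
      rintro g ⟨g1, g2, g3⟩ x hx
      simp only [Set.mem_insert_iff, Set.mem_range] at hx
      rcases hx with rfl | rfl | ⟨j, rfl⟩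
      · exact g1
      · push_cast
        rw [map_one]
      · exact g3 _ (mixf_mem u y l j)

/-- Step (d): the local degrees on the boundary. -/
theorem stepT (hk : IsAlgClosed k) (hL : Lem2V k K) (hS : NPt S res)
    (hm : Algebra.trdeg k K = (m + 1 : ℕ)) (hη : res η ≠ 0) (hy : ∀ i, res (y i) = 0)
    (hΘ : Θ.Finite) (hΘd : ∀ V ∈ Θ, IsDiv S V)
    (l : Fin m) (hB : Blk S N u y η Θ l.castSucc l.castSucc)
    (hf : ∀ V ∈ Θ, ProperV S V res (mixt u y l.1)) :
    ∀ V ∈ Θ, ProperV S V res (mixt u y (l.1 + 1)) ∧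
      RhoV S V res (mixt u y (l.1 + 1)) ≤ (N + 1) * RhoV S V res (mixt u y l.1) := by
  obtain ⟨η', h1, h2, h3⟩ := exists_inv hS hη
  obtain ⟨a, h', e, hM⟩ := hB
  rw [mixt_succ]
  refine hL hk S res hS m hm Θ hΘ hΘd _ hf l N a (η' * h') η' (y l.castSucc) h2 (hy _) ?_ ?_
  · rw [mixt_self, ← mul_add, ← e, ← mul_assoc, h1, one_mul]
  · refine mov_mono hM (auts_sub ?_ fun g hg V => hg.2.2.2 V)
    rintro g ⟨g1, g2, g3⟩ x hx
    simp only [Set.mem_insert_iff, Set.mem_range] at hx
    rcases hx with rfl | rfl | ⟨j, rfl⟩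
    · push_cast
      rw [map_mul, g1, h3, map_inv₀, g2]
    · rw [h3, map_inv₀, g2]
    · exact g3 _ (mixt_mem u y l.castSucc j)

/-- Step (b), first part: LEMMA 3 for `η y_l`. -/
theorem stepG (hk : IsAlgClosed k) {p : ℕ} (hp : p.Prime) (hc : CharP k p) (hL : Lem3 k K)
    (hS : NPt S res) (hm : Algebra.trdeg k K = (m + 1 : ℕ)) (hN : 1 ≤ N) (hNp : N < p)
    (l : Fin (m + 1)) (hB : Blk S N u y η Θ l l)
    (hf : Proper S.val res (mixf u y l.1)) (hfp : Rho S.val res (mixf u y l.1) < p)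
    {D : Fin (m + 1) → Derivation k K K} (hD : Dual (fun i => ((mixf u y l.1 i : S) : K)) D)
    (hR : ProperR S res (mixw u y l.1) (mixf u y l.1)) :
    D l ((η * y l : S) : K) ≠ 0 ∧
      ProperR S res (mixw u y l.1) (Function.update (mixf u y l.1) l (η * y l)) ∧
      IR S res (mixw u y l.1) (Function.update (mixf u y l.1) l (η * y l)) ≤
        IR S res (mixw u y l.1) (mixf u y l.1) + N * Rho S.val res (mixf u y l.1) := by
  obtain ⟨a, h', e, hM⟩ := hB
  rw [← mixf_succAbove] at hR ⊢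
  refine hL hk p hp hc S res hS m hm _ hf hfp D hD l hR N hN hNp a h' 1 (η * y l)
    (by rw [map_one]; exact one_ne_zero) ?_ ?_
  · rw [mixf_self, one_mul, e]
  · refine mov_mono hM (auts_sub ?_ fun g _ V => by simp)
    rintro g ⟨g1, g2, g3⟩ x hx
    simp only [Set.mem_insert_iff, Set.mem_range] at hx
    rcases hx with rfl | rfl | ⟨j, rfl⟩
    · exact g1
    · push_cast
      rw [map_one]
    · exact g3 _ (mixf_mem u y l j)

/-- Step (c): LEMMA 3 for `y_m`. -/
theorem stepL (hk : IsAlgClosed k) {p : ℕ} (hp : p.Prime) (hc : CharP k p) (hL : Lem3 k K)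
    (hS : NPt S res) (hm : Algebra.trdeg k K = (m + 1 : ℕ)) (hN : 1 ≤ N) (hNp : N < p)
    (hη : res η ≠ 0) (hB : Blk S N u y η Θ (Fin.last m) (Fin.last m))
    (hf : Proper S.val res (mixf u y m)) (hfp : Rho S.val res (mixf u y m) < p)
    {D : Fin (m + 1) → Derivation k K K} (hD : Dual (fun i => ((mixf u y m i : S) : K)) D)
    (hR : ProperR S res (mixw u y m) (mixf u y m)) :
    ProperR S res (y ∘ Fin.castSucc) y ∧
      IR S res (y ∘ Fin.castSucc) y ≤
        IR S res (mixw u y m) (mixf u y m) + N * Rho S.val res (mixf u y m) := by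
  obtain ⟨η', h1, h2, h3⟩ := exists_inv hS hη
  obtain ⟨a, h', e, hM⟩ := hB
  have e0 : mixf u y m ∘ (Fin.last m).succAbove = mixw u y m := mixf_succAbove u y (Fin.last m)
  have e1 : Function.update (mixf u y m) (Fin.last m) (y (Fin.last m)) = y := by
    have := mixf_succ u y (Fin.last m)
    rw [Fin.val_last] at this
    rw [← this, mixf_last]
  have h4 := hL hk p hp hc S res hS m hm _ hf hfp D hD (Fin.last m) (by rw [e0]; exact hR) N hN hNp
    a (η' * h') η' (y (Fin.last m)) h2 (by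
      have : mixf u y m (Fin.last m) = u (Fin.last m) := mixf_self u y (Fin.last m)
      rw [this, ← mul_add, ← e, ← mul_assoc, h1, one_mul]) (by
      refine mov_mono hM (auts_sub ?_ fun g _ V => by simp)
      rintro g ⟨g1, g2, g3⟩ x hx
      simp only [Set.mem_insert_iff, Set.mem_range] at hx
      rcases hx with rfl | rfl | ⟨j, rfl⟩
      · push_cast
        rw [map_mul, g1, h3, map_inv₀, g2]
      · rw [h3, map_inv₀, g2]
      · exact g3 _ (mixf_mem u y (Fin.last m) j))
  rw [e0, e1, mixw_last] at h4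
  rw [mixw_last]
  exact h4.2

/-- Step (b), second part. -/
theorem stepB (hk : IsAlgClosed k) (hF2 : F2 k K) (hAg : Agree k K) (hDen : Den k K)
    (hDL : DivLe k K) (hpos : RhoPos k K) (hRI : RamInv k K) (hL : Lem2V k K)
    (hS : NPt S res) (hm : Algebra.trdeg k K = (m + 1 : ℕ)) (hη : res η ≠ 0)
    (hy : ∀ i, res (y i) = 0) (l : Fin m) (hB : Blk S N u y η Θ l.castSucc l.succ)
    (hf : Proper S.val res (mixf u y l.1)) (hf' : Proper S.val res (mixf u y (l.1 + 1)))
    {D : Fin (m + 1) → Derivation k K K} (hD : Dual (fun i => ((mixf u y l.1 i : S) : K)) D)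
    (hH : ∀ V, IsDiv S V → HasD k V.toSubring (fun i => ((mixf u y l.1 i : S) : K)))
    (hR : ProperR S res (mixw u y l.1) (mixf u y l.1))
    (hG0 : D l.castSucc ((η * y l.castSucc : S) : K) ≠ 0)
    (hRG : ProperR S res (mixw u y l.1)
      (Function.update (mixf u y l.1) l.castSucc (η * y l.castSucc)))
    (hfin1 : {V : ValuationSubring K | IsDiv S V ∧ ramV V (mixf u y l.1) ≠ 0}.Finite)
    (hfin2 : {V : ValuationSubring K | IsDiv S V ∧
      ramV V (Function.update (mixf u y l.1) l.castSucc (η * y l.castSucc)) ≠ 0}.Finite)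
    (hfin3 : {V : ValuationSubring K | IsDiv S V ∧ ramV V (mixf u y (l.1 + 1)) ≠ 0}.Finite) :
    ProperR S res (mixw u y (l.1 + 1)) (mixf u y (l.1 + 1)) ∧
      IR S res (mixw u y (l.1 + 1)) (mixf u y (l.1 + 1)) ≤
        (N + 1) * IR S res (mixw u y l.1)
          (Function.update (mixf u y l.1) l.castSucc (η * y l.castSucc)) := by
  obtain ⟨η', h1, h2, h3⟩ := exists_inv hS hη
  obtain ⟨a, h', e, hM⟩ := hB
  set i : Fin (m + 1) := l.castSucc with hi
  set f := mixf u y l.1 with hfdef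
  -- `D_i (η y) = D_i h'`
  have hne : l.succ ≠ i := by
    intro h
    have := congrArg Fin.val h
    rw [Fin.val_succ, hi, Fin.val_castSucc] at this
    omega
  have hfu : f l.succ = u l.succ := by
    rw [hfdef]
    unfold mixf
    rw [if_neg (by rw [Fin.val_succ]; omega)]
  have hDu : D i (u l.succ : K) = 0 := by
    have := hD.dual i l.succ
    rw [if_neg hne.symm] at this
    rw [← hfu]
    exact this
  have hDh : D i ((η * y i : S) : K) = D i (h' : K) := by
    rw [e]
    push_cast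
    rw [map_add, map_sum, Finset.sum_eq_zero, add_zero]
    intro j _
    rw [Derivation.leibniz, Derivation.leibniz_pow, hDu]
    rw [Derivation.map_algebraMap]
    simp
  have hh0 : D i (h' : K) ≠ 0 := by rw [← hDh]; exact hG0
  have hram : ∀ V, IsDiv S V → ramV V (Function.update f i (η * y i)) =
      ramV V (Function.update f i h') := by
    intro V hV
    have r1 := ramV_update hV (hH V hV) hD i (η * y i) hG0
    have r2 := ramV_update hV (hH V hV) hD i h' hh0
    rw [hDh] at r1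
    exact_mod_cast r1.trans r2.symm
  -- LEMMA 2 for the components of `R_f` and `R_~`
  set 𝒱 : Set (ValuationSubring K) := {V | IsDiv S V ∧ (ramV V f ≠ 0 ∨
    ramV V (Function.update f i (η * y i)) ≠ 0)} with h𝒱
  have h𝒱fin : 𝒱.Finite := by
    refine (hfin1.union hfin2).subset ?_
    rintro V ⟨hV, h | h⟩
    · exact Or.inl ⟨hV, h⟩
    · exact Or.inr ⟨hV, h⟩
  have hV2 := hL hk S res hS m hm 𝒱 h𝒱fin (fun V hV => hV.1) (mixw u y l.1) (by
    rintro V ⟨hV, h | h⟩
    · exact hR V hV h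
    · exact hRG V hV h) l N a (η' * h') η' (y i) h2 (hy _) (by
      rw [mixw_self, ← mul_add, ← e, ← mul_assoc, h1, one_mul]) (by
      refine mov_mono hM (auts_sub ?_ ?_)
      · rintro g ⟨g1, g2, g3⟩ x hx
        simp only [Set.mem_insert_iff, Set.mem_range] at hx
        rcases hx with rfl | rfl | ⟨j, rfl⟩
        · push_cast
          rw [map_mul, g1, h3, map_inv₀, g2]
        · rw [h3, map_inv₀, g2]
        · exact g3 _ (mixw_mem u y i j)
      · intro g hg V
        obtain ⟨g1, g2, g3⟩ := fixed_of hg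
        have hr := hRI S res hS _ _ g hg V
        have hr1 : IsDiv S V → ramV (V.comap (g.1 : K →+* K)) f = ramV V f :=
          hr.2 (m + 1) f (fun j => g3 _ (mixf_mem u y i j))
        have hr2 : IsDiv S V → ramV (V.comap (g.1 : K →+* K)) (Function.update f i h') =
            ramV V (Function.update f i h') := by
          refine hr.2 (m + 1) _ (fun j => ?_)
          by_cases hj : j = i
          · subst hj
            rw [Function.update_self]
            exact g1
          · rw [Function.update_of_ne hj]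
            exact g3 _ (mixf_mem u y i j)
        simp only [h𝒱, Set.mem_ofPred_eq]
        constructor
        · rintro ⟨hV, h⟩
          have hV' := hr.1.1 hV
          refine ⟨hV', ?_⟩
          rw [hram V hV] at h
          rw [hram _ hV', hr1 hV, hr2 hV]
          exact h
        · rintro ⟨hV', h⟩
          have hV := hr.1.2 hV'
          refine ⟨hV, ?_⟩
          rw [hram _ hV', hr1 hV, hr2 hV] at h
          rw [hram V hV]
          exact h)
  rw [← mixw_succ] at hV2
  have e1 : mixf u y (l.1 + 1) = Function.update f i (y i) := mixf_succ u y i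
  have e2 : mixf u y (l.1 + 1) ∘ (l.succ).succAbove = mixw u y (l.1 + 1) :=
    mixf_succAbove u y l.succ
  have hR1 : ProperR S res (mixw u y (l.1 + 1)) f := fun V hV h => (hV2 V ⟨hV, Or.inl h⟩).1
  have hR2 : ProperR S res (mixw u y (l.1 + 1)) (Function.update f i (η * y i)) :=
    fun V hV h => (hV2 V ⟨hV, Or.inr h⟩).1
  have hwy : ∃ j, mixw u y (l.1 + 1) j = y i := by
    refine ⟨l, ?_⟩
    unfold mixw
    rw [if_pos (by omega)]
  have hcons : Proper S.val res (Fin.cons (mixf u y (l.1 + 1) l.succ) (mixw u y (l.1 + 1)) :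
      Fin (m + 1) → S) := by
    rw [← e2]
    exact (proper_iff_cons l.succ).2 hf'
  obtain ⟨-, hP, hI⟩ := unit_fix hk hF2 hAg hDen hDL hpos hS hm hf hD hH i (mixw u y (l.1 + 1))
    (y i) η (mixf u y (l.1 + 1) l.succ) hη hwy hcons hR1 hR2 hG0 hfin1 hfin2
  rw [← e1] at hP hI
  refine ⟨hP, ?_⟩
  rw [hI hfin3]
  refine IR_le_mul hfin2 fun V hV h => (hV2 V ⟨hV, Or.inr h⟩).2

end Step

/-- **The theorem at one point** (TG_JETS_h97.md, section 4), from the other rows. -/
theorem thmC (hF2 : F2 k K) (hAg : Agree k K) (hDen : Den k K) (hDL : DivLe k K)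
    (hpos : RhoPos k K) (hRI : RamInv k K) (hK : Lem2K k K) (hV : Lem2V k K) (h3 : Lem3 k K)
    (hEx : ExDual k K) : ThmC k K := by
  intro hk p hp hc S res hS m hm C₁ C₂ C₃ N hN hNp hNp' u y η hη hu hu1 hRu hIu Θ hΘ hΘd hΘb hy hmv
  -- the local degrees
  have hE : ∀ l : ℕ, l ≤ m + 1 → Proper S.val res (mixf u y l) ∧
      Rho S.val res (mixf u y l) ≤ (N + 1) ^ l * C₁ := by
    intro l
    induction l with
    | zero =>
      intro _
      rw [mixf_zero, pow_zero, one_mul]
      exact ⟨hu, hu1⟩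
    | succ l ih =>
      intro hl
      obtain ⟨h1, h2⟩ := ih (by omega)
      have h4 := (stepE hk hK hS hm hη hy (⟨l, by omega⟩ : Fin (m + 1)) (Θ := Θ) (N := N)
        (hmv _ _ (Or.inl rfl)) h1).1
      refine ⟨h4.1, h4.2.trans ?_⟩
      calc (N + 1) * Rho S.val res (mixf u y l) ≤ (N + 1) * ((N + 1) ^ l * C₁) :=
            Nat.mul_le_mul_left _ h2
        _ = (N + 1) ^ (l + 1) * C₁ := by ring
  have hEp : ∀ l : ℕ, l ≤ m + 1 → Rho S.val res (mixf u y l) < p := by
    intro l hl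
    refine ((hE l hl).2.trans (Nat.mul_le_mul_right _ ?_)).trans_lt hNp
    exact Nat.pow_le_pow_right (by omega) hl
  -- the ramification divisors
  have hW : ∀ l : ℕ, l ≤ m → ProperR S res (mixw u y l) (mixf u y l) ∧
      IR S res (mixw u y l) (mixf u y l) ≤ (N + 1) ^ l * C₂ + l * N * (N + 1) ^ l * C₁ := by
    intro l
    induction l with
    | zero =>
      intro _
      rw [mixf_zero, mixw_zero]
      refine ⟨hRu, hIu.trans ?_⟩
      simp
    | succ l ih =>
      intro hl
      obtain ⟨h1, h2⟩ := ih (by omega)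
      obtain ⟨⟨D, hD⟩, hH, hfin1⟩ := hEx hk p hp hc S res hS (m + 1) hm (mixf u y l)
        (hE l (by omega)).1 (hEp l (by omega))
      obtain ⟨-, -, hfin3⟩ := hEx hk p hp hc S res hS (m + 1) hm (mixf u y (l + 1))
        (hE (l + 1) (by omega)).1 (hEp (l + 1) (by omega))
      have hl1 : l < m := by omega
      have hG := stepG hk hp hc h3 hS hm hN hNp' (Fin.castSucc ⟨l, hl1⟩ : Fin (m + 1)) (Θ := Θ)
        (N := N) (u := u) (y := y) (η := η) (hmv _ _ (Or.inl rfl)) (hE l (by omega)).1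
        (hEp l (by omega)) hD h1
      have hE2 := (stepE hk hK hS hm hη hy (Fin.castSucc ⟨l, hl1⟩ : Fin (m + 1)) (Θ := Θ) (N := N)
        (hmv _ _ (Or.inl rfl)) (hE l (by omega)).1).2
      have hfin2 : {V : ValuationSubring K | IsDiv S V ∧ ramV V (Function.update (mixf u y l)
          (Fin.castSucc ⟨l, hl1⟩) (η * y (Fin.castSucc ⟨l, hl1⟩))) ≠ 0}.Finite := by
        refine (hEx hk p hp hc S res hS (m + 1) hm _ hE2.1 ?_).2.2
        refine (hE2.2.trans (Nat.mul_le_mul_left _ (hE l (by omega)).2)).trans_lt ?_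
        refine lt_of_le_of_lt ?_ hNp
        calc (N + 1) * ((N + 1) ^ l * C₁) = (N + 1) ^ (l + 1) * C₁ := by ring
          _ ≤ (N + 1) ^ (m + 1) * C₁ :=
            Nat.mul_le_mul_right _ (Nat.pow_le_pow_right (by omega) (by omega))
      have hB := stepB hk hF2 hAg hDen hDL hpos hRI hV hS hm hη hy (⟨l, hl1⟩ : Fin m) (Θ := Θ)
        (N := N) (hmv _ _ (Or.inr (by simp))) (hE l (by omega)).1 (hE (l + 1) (by omega)).1 hD hH
        h1 hG.1 hG.2.1 hfin1 hfin2 hfin3
      refine ⟨hB.1, hB.2.trans ?_⟩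
      calc (N + 1) * IR S res (mixw u y l) (Function.update (mixf u y l)
            (Fin.castSucc ⟨l, hl1⟩) (η * y (Fin.castSucc ⟨l, hl1⟩))) ≤
            (N + 1) * (((N + 1) ^ l * C₂ + l * N * (N + 1) ^ l * C₁) +
              N * ((N + 1) ^ l * C₁)) := by
            refine Nat.mul_le_mul_left _ (hG.2.2.trans (Nat.add_le_add h2 ?_))
            exact Nat.mul_le_mul_left _ (hE l (by omega)).2
        _ = (N + 1) ^ (l + 1) * C₂ + (l + 1) * N * (N + 1) ^ (l + 1) * C₁ := by ring
  -- the boundary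
  have hT : ∀ l : ℕ, l ≤ m → ∀ V ∈ Θ, ProperV S V res (mixt u y l) ∧
      RhoV S V res (mixt u y l) ≤ (N + 1) ^ l * C₃ := by
    intro l
    induction l with
    | zero =>
      intro _ V hVΘ
      rw [mixt_zero, pow_zero, one_mul]
      exact hΘb V hVΘ
    | succ l ih =>
      intro hl V hVΘ
      have h1 := ih (by omega)
      have h2 := stepT hk hV hS hm hη hy hΘ hΘd (⟨l, by omega⟩ : Fin m) (N := N)
        (hmv _ _ (Or.inl rfl)) (fun V hV => (h1 V hV).1) V hVΘ
      refine ⟨h2.1, h2.2.trans ?_⟩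
      calc (N + 1) * RhoV S V res (mixt u y l) ≤ (N + 1) * ((N + 1) ^ l * C₃) :=
            Nat.mul_le_mul_left _ (h1 V hVΘ).2
        _ = (N + 1) ^ (l + 1) * C₃ := by ring
  -- the last step
  obtain ⟨⟨D, hD⟩, hH, hfin1⟩ := hEx hk p hp hc S res hS (m + 1) hm (mixf u y m)
    (hE m (by omega)).1 (hEp m (by omega))
  have hLst := stepL hk hp hc h3 hS hm hN hNp' hη (Θ := Θ) (N := N) (hmv _ _ (Or.inl rfl))
    (hE m (by omega)).1 (hEp m (by omega)) hD (hW m le_rfl).1
  have hEl := hE (m + 1) le_rfl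
  have hEpl := hEp (m + 1) le_rfl
  rw [mixf_last] at hEl hEpl
  obtain ⟨-, -, hfiny⟩ := hEx hk p hp hc S res hS (m + 1) hm y hEl.1 hEpl
  refine ⟨hEl.1, hEl.2, fun V hVd hVr => ?_⟩
  have hbound1 : (N + 1) ^ m * C₂ + m * N * (N + 1) ^ m * C₁ + N * ((N + 1) ^ m * C₁) ≤
      (N + 1) ^ m * (C₂ + C₃) + (m + 1) * N * (N + 1) ^ m * C₁ := by
    have : (N + 1) ^ m * (C₂ + C₃) + (m + 1) * N * (N + 1) ^ m * C₁ =
      (N + 1) ^ m * C₂ + m * N * (N + 1) ^ m * C₁ + N * ((N + 1) ^ m * C₁) +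
        (N + 1) ^ m * C₃ := by ring
    omega
  have hbound2 : (N + 1) ^ m * C₃ ≤
      (N + 1) ^ m * (C₂ + C₃) + (m + 1) * N * (N + 1) ^ m * C₁ := by
    have : (N + 1) ^ m * (C₂ + C₃) + (m + 1) * N * (N + 1) ^ m * C₁ =
      (N + 1) ^ m * C₃ + ((N + 1) ^ m * C₂ + (m + 1) * N * (N + 1) ^ m * C₁) := by ring
    omega
  by_cases h0 : ramV V y = 0
  · have hVΘ : V ∈ Θ := by
      rcases hVr with h | h
      · exact absurd h0 h
      · exact h
    have h1 := hT m le_rfl V hVΘ
    rw [mixt_last] at h1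
    exact ⟨h1.1, h1.2.trans hbound2⟩
  · refine ⟨hLst.1 V hVd h0, (RhoV_le_IR hfiny hVd h0).trans (hLst.2.trans (le_trans ?_ hbound1))⟩
    exact Nat.add_le_add (hW m le_rfl).2 (Nat.mul_le_mul_left _ (hE m (by omega)).2)

end Pool.Agent.TGJ.C97
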