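import Pool.Agent.Lib.TGJ.DivS
import Pool.Agent.Lib.TG_h51.FracV
import Pool.Agent.Lib.TGJ_h88.NPt

/-!
# TANK G, block C, row R4t: the residue field of a prime divisor, and `DivLe`

* `trdeg_residue` : the residue field of a prime divisor has transcendence degree one less
* `exists_isDiv_le` : a nonzero element of a prime lies in the centre of a prime divisor inside this prime
-/

set_option autoImplicit false

namespace Pool.Agent.TGJ

open Pool.Agent.TG51 (IndMod valP)
open Pool.Agent.TGJ88

universe u

variable {k K : Type u} [Field k] [Field K] [Algebra k K] {S : Subalgebra k K} {res : S →ₐ[k] k}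

section R4t

/-- `trdeg A = trdeg K` if `K` is the field of fractions of `A`. -/
theorem trdeg_of_frac (A : Subalgebra k K) (hA : ∀ f : K, ∃ a b : A, (b : K) ≠ 0 ∧ f * b = a) :
    Algebra.trdeg k A = Algebra.trdeg k K := by
  have hfr : IsFractionRing A K := by
    refine IsFractionRing.of_field A K fun z => ?_
    obtain ⟨a, b, hb, e⟩ := hA z
    refine ⟨a, b, ?_⟩
    have e' : z * algebraMap A K b = algebraMap A K a := e
    have hb' : algebraMap A K b ≠ 0 := hb
    rw [eq_div_iff hb']
    exact e'
  have h1 := _root_.trdeg_add_eq (R := k) (S := A) (A := K)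
  have h2 : Algebra.trdeg A K = 0 := by
    have : Algebra.IsAlgebraic A K :=
      IsLocalization.isAlgebraic (R := A) (S := K) (nonZeroDivisors A)
    exact _root_.trdeg_eq_zero
  rw [← h1, h2, add_zero]

/-- The transcendence degree of the residue field of a prime. -/
theorem trdeg_residueField_eq {R : Type u} [CommRing R] [Algebra k R] (P : Ideal R) [P.IsPrime] :
    Algebra.trdeg k P.ResidueField = Algebra.trdeg k (R ⧸ P) := by
  have h1 := _root_.trdeg_add_eq (R := k) (S := R ⧸ P) (A := P.ResidueField)
  have h2 : Algebra.trdeg (R ⧸ P) P.ResidueField = 0 := by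
    have : Algebra.IsAlgebraic (R ⧸ P) P.ResidueField :=
      IsLocalization.isAlgebraic (R := R ⧸ P) (S := P.ResidueField) (nonZeroDivisors (R ⧸ P))
    exact _root_.trdeg_eq_zero
  rw [← h1, h2, add_zero]

/-- Independent residues on `A` are independent on `S`. -/
theorem IndMod.map_of_comap {R T : Type u} [CommRing R] [CommRing T] [Algebra k R] [Algebra k T]
    (φ : R →ₐ[k] T) (P : Ideal T) {m : ℕ} {t : Fin m → R}
    (h : IndMod k (P.comap φ) t) : IndMod k P (fun i => φ (t i)) := by
  intro f hf
  apply h f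
  rw [Ideal.mem_comap]
  have e : φ (MvPolynomial.aeval t f) = MvPolynomial.aeval (fun i => φ (t i)) f := by
    have : φ.comp (MvPolynomial.aeval t) = MvPolynomial.aeval (fun i => φ (t i)) := by
      ext i
      simp
    rw [← this]
    rfl
  rw [e]
  exact hf

/-- R4t: the residue field of a prime divisor through a normal point has transcendence degree
one less. -/
theorem trdeg_residue (h : NPt S res) {V : ValuationSubring K} (hV : IsDiv S V) {n : ℕ}
    (hn : Algebra.trdeg k K = (n + 1 : ℕ)) :
    Algebra.trdeg k (cen S V).ResidueField = (n : ℕ) := by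
  have hfrac := h.isFractionRing
  have hSfrac := h.frac
  obtain ⟨A, x, hA, hS, hAS⟩ := h.exists_locx
  subst hS
  rw [trdeg_residueField_eq]
  have hP1 := hV.height
  have hPbot : cen (locx A x) V ≠ ⊥ := hV.cen_ne_bot
  have hStr : Algebra.trdeg k (locx A x) = (n + 1 : ℕ) := by
    rw [trdeg_of_frac _ hSfrac, hn]
  apply le_antisymm
  · by_contra hcon
    rw [not_le] at hcon
    have h1 : ((n + 1 : ℕ) : Cardinal.{u}) ≤ Algebra.trdeg k (locx A x ⧸ cen (locx A x) V) := by
      rw [Nat.cast_succ]
      rw [← Cardinal.succ_natCast]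
      exact Order.succ_le_of_lt hcon
    obtain ⟨t, ht⟩ := TG51.exists_indMod_of_le_trdeg _ (n + 1) h1
    have h2 := ht.card_lt hPbot hStr.le
    omega
  · have hAtr : Algebra.trdeg k A = (n + 1 : ℕ) := by
      rw [trdeg_of_frac A, hn]
      intro f
      obtain ⟨a, b, hb, e⟩ := hSfrac f
      obtain ⟨a1, a2, ha2, ea⟩ := a.2
      obtain ⟨b1, b2, hb2, eb⟩ := b.2
      have ha20 : (a2 : K) ≠ 0 := ne_zero_of_ev ha2
      have hb20 : (b2 : K) ≠ 0 := ne_zero_of_ev hb2
      refine ⟨a1 * b2, b1 * a2, ?_, ?_⟩
      · rw [MulMemClass.coe_mul, ← eb]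
        exact mul_ne_zero (mul_ne_zero hb hb20) ha20
      · rw [MulMemClass.coe_mul, MulMemClass.coe_mul, ← eb, ← ea, ← e]
        ring
    have hft : Algebra.FiniteType k A := (Subalgebra.fg_iff_finiteType A).1 hA
    have hh : ((cen (locx A x) V).comap (algebraMap A (locx A x))).height = 1 := by
      have := IsLocalization.height_under (idl x).primeCompl (cen (locx A x) V)
      rw [← hP1, ← this]
    have hPA : ((cen (locx A x) V).comap (algebraMap A (locx A x))).IsPrime := Ideal.IsPrime.comap _
    obtain ⟨t, ht⟩ := TG51.exists_indMod _ hh n hAtr.ge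
    have ht2 := IndMod.map_of_comap (IsScalarTower.toAlgHom k A (locx A x)) (cen (locx A x) V) ht
    exact ht2.le_trdeg

/-- The input `DivLe` of THEOREM C. -/
theorem NPt.exists_isDiv_le (h : NPt S res) (q : Ideal S) [hq : q.IsPrime] (g : S) (hg : g ∈ q)
    (hg0 : g ≠ 0) : ∃ V, IsDiv S V ∧ g ∈ cen S V ∧ cen S V ≤ q := by
  have := h.isFractionRing
  have := h.isNoetherianRing
  have := h.isIntegrallyClosed
  have hle : Ideal.span {g} ≤ q := by rwa [Ideal.span_le, Set.singleton_subset_iff]
  obtain ⟨P, hP, hPq⟩ := Ideal.exists_minimalPrimes_le hle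
  have hPp : P.IsPrime := hP.1.1
  have hgP : g ∈ P := hP.1.2 (Ideal.subset_span rfl)
  have h1 : P.height ≤ 1 := Ideal.height_le_one_of_isPrincipal_of_mem_minimalPrimes _ P hP
  have hP1 : P.height = 1 := by
    refine le_antisymm h1 ?_
    rw [Order.one_le_iff_ne_zero, Ne, Ideal.height_eq_zero_iff_eq_bot]
    rintro rfl
    exact hg0 (by simpa using hgP)
  refine ⟨valP K P hP1, isDiv_valP P hP1, ?_, ?_⟩
  · rw [cen_valP]; exact hgP
  · rw [cen_valP]; exact hPq

end R4t

end Pool.Agent.TGJ
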