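import Pool.Agent.Lib.TGJ.Iface
import Pool.Agent.Lib.TG_h82.Pts

/-!
# TANK G, block C, row R12t: transport of `Rho` along semilinear isomorphisms
-/

set_option autoImplicit false

namespace Pool.Agent.TGJ.Tr

open Pool.Agent.TG (ncl)
open Pool.Agent.TGJ

universe u

/-- A semilinear isomorphism of `k`-algebras. -/
structure SL (k L L' : Type u) [Field k] [CommRing L] [CommRing L'] [Algebra k L]
    [Algebra k L'] where
  σ : k ≃+* k
  E : L ≃+* L'
  comm : ∀ c : k, E (algebraMap k L c) = algebraMap k L' (σ c)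

section Field

variable {k L L' : Type u} [Field k] [Field L] [Field L'] [Algebra k L] [Algebra k L']

/-- The inverse. -/
def SL.symm {L L' : Type u} [CommRing L] [CommRing L'] [Algebra k L] [Algebra k L']
    (e : SL k L L') : SL k L' L where
  σ := e.σ.symm
  E := e.E.symm
  comm := fun c => by
    rw [RingEquiv.symm_apply_eq, e.comm, RingEquiv.apply_symm_apply]

variable (e : SL k L L')

theorem SL.mem_adjoin {T : Set L} {T' : Set L'} (h : ∀ t ∈ T, e.E t ∈ T') {x : L}
    (hx : x ∈ Algebra.adjoin k T) : e.E x ∈ Algebra.adjoin k T' := by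
  induction hx using Algebra.adjoin_induction with
  | mem x hx => exact Algebra.subset_adjoin (h x hx)
  | algebraMap r =>
    rw [e.comm]
    exact Subalgebra.algebraMap_mem _ _
  | add x y _ _ hx hy =>
    rw [map_add]
    exact add_mem hx hy
  | mul x y _ _ hx hy =>
    rw [map_mul]
    exact mul_mem hx hy

theorem SL.mem_fadjoin {T : Set L} {T' : Set L'} (h : ∀ t ∈ T, e.E t ∈ T') {x : L}
    (hx : x ∈ IntermediateField.adjoin k T) : e.E x ∈ IntermediateField.adjoin k T' := by
  induction hx using IntermediateField.adjoin_induction with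
  | mem x hx => exact IntermediateField.subset_adjoin _ _ (h x hx)
  | algebraMap r =>
    rw [e.comm]
    exact IntermediateField.algebraMap_mem _ _
  | add x y _ _ hx hy =>
    rw [map_add]
    exact add_mem hx hy
  | inv x _ hx =>
    rw [map_inv₀]
    exact inv_mem hx
  | mul x y _ _ hx hy =>
    rw [map_mul]
    exact mul_mem hx hy

theorem SL.mem_ncl {R : Subalgebra k L} {R' : Subalgebra k L'} (h : ∀ x ∈ R, e.E x ∈ R') {x : L}
    (hx : IsIntegral R x) : IsIntegral R' (e.E x) := by
  let φ : R →+* R' := ((e.E : L →+* L').comp (algebraMap R L)).codRestrict R'.toSubring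
    fun a => h a a.2
  exact IsIntegral.map_of_comp_eq φ (e.E : L →+* L') (RingHom.ext fun a => rfl) hx

variable {m : ℕ} {f : Fin m → L} {f' : Fin m → L'} (hf : ∀ i, f' i = e.E (f i))

include hf in
theorem SL.symm_hf (i : Fin m) : f i = e.symm.E (f' i) := by
  rw [hf]
  exact (e.E.symm_apply_apply _).symm

include hf in
theorem SL.mem_kf {x : L} (hx : x ∈ kf k f) : e.E x ∈ kf k f' := by
  refine e.mem_adjoin ?_ hx
  rintro _ ⟨i, rfl⟩
  exact ⟨i, hf i⟩

include hf in
theorem SL.mem_icf {x : L} (hx : x ∈ icf k f) : e.E x ∈ icf k f' :=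
  e.mem_ncl (fun _ h => e.mem_kf hf h) hx

/-- The isomorphism of the integral closures. -/
def SL.ringE : icf k f ≃+* icf k f' where
  toFun a := ⟨e.E a, e.mem_icf hf a.2⟩
  invFun a := ⟨e.E.symm a, e.symm.mem_icf (e.symm_hf hf) a.2⟩
  left_inv a := Subtype.ext (e.E.symm_apply_apply _)
  right_inv a := Subtype.ext (e.E.apply_symm_apply _)
  map_mul' a b := Subtype.ext (map_mul e.E _ _)
  map_add' a b := Subtype.ext (map_add e.E _ _)

theorem SL.ringE_coe (a : icf k f) : ((e.ringE hf a : icf k f') : L') = e.E a := rfl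

theorem SL.ringE_symm_coe (a : icf k f') : (((e.ringE hf).symm a : icf k f) : L) = e.E.symm a :=
  rfl

/-- The point `x` of the integral closure of `k[f]`, transported. -/
def SL.pt (x : icf k f →ₐ[k] k) : icf k f' →ₐ[k] k where
  toFun a := e.σ (x ((e.ringE hf).symm a))
  map_one' := by simp only [map_one]
  map_mul' a b := by simp only [map_mul]
  map_zero' := by simp only [map_zero]
  map_add' a b := by simp only [map_add]
  commutes' c := by
    have h1 : (e.ringE hf).symm (algebraMap k (icf k f') c) =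
        algebraMap k (icf k f) (e.σ.symm c) := by
      refine Subtype.ext ?_
      exact e.symm.comm c
    rw [h1, AlgHom.commutes]
    exact e.σ.apply_symm_apply c

theorem SL.pt_apply (x : icf k f →ₐ[k] k) (a : icf k f) :
    e.pt hf x (e.ringE hf a) = e.σ (x a) := by
  change e.σ (x ((e.ringE hf).symm (e.ringE hf a))) = _
  rw [RingEquiv.symm_apply_apply]

/-- The bijection of the points. -/
def SL.ptE : (icf k f →ₐ[k] k) ≃ (icf k f' →ₐ[k] k) where
  toFun x := e.pt hf x
  invFun y := e.symm.pt (e.symm_hf hf) y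
  left_inv x := AlgHom.ext fun a => by
    change e.σ.symm (e.σ (x _)) = x a
    rw [RingEquiv.symm_apply_apply]
    exact congrArg x (Subtype.ext (e.E.symm_apply_apply _))
  right_inv y := AlgHom.ext fun a => by
    change e.σ (e.σ.symm (y _)) = y a
    rw [RingEquiv.apply_symm_apply]
    exact congrArg y (Subtype.ext (e.E.apply_symm_apply _))

theorem SL.ptE_apply (x : icf k f →ₐ[k] k) (a : icf k f) :
    e.ptE hf x (e.ringE hf a) = e.σ (x a) := e.pt_apply hf x a

theorem SL.over0 (x : icf k f →ₐ[k] k) : Over0 f' (e.ptE hf x) ↔ Over0 f x := by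
  have h1 : ∀ i, icf.X f' i = e.ringE hf (icf.X f i) := fun i => Subtype.ext (hf i)
  refine forall_congr' fun i => ?_
  rw [h1, SL.ptE_apply]
  exact EmbeddingLike.map_eq_zero_iff

/-- The isomorphism of the fields generated by `f`. -/
def SL.fadjE : IntermediateField.adjoin k (Set.range f) ≃+*
    IntermediateField.adjoin k (Set.range f') where
  toFun a := ⟨e.E a, e.mem_fadjoin (by rintro _ ⟨i, rfl⟩; exact ⟨i, hf i⟩) a.2⟩
  invFun a := ⟨e.E.symm a, e.symm.mem_fadjoin
    (by rintro _ ⟨i, rfl⟩; exact ⟨i, e.symm_hf hf i⟩) a.2⟩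
  left_inv a := Subtype.ext (e.E.symm_apply_apply _)
  right_inv a := Subtype.ext (e.E.apply_symm_apply _)
  map_mul' a b := Subtype.ext (map_mul e.E _ _)
  map_add' a b := Subtype.ext (map_add e.E _ _)

include hf in
theorem SL.norm (a : L) :
    ((Algebra.norm (IntermediateField.adjoin k (Set.range f')) (e.E a) :
      IntermediateField.adjoin k (Set.range f')) : L') =
    e.E ((Algebra.norm (IntermediateField.adjoin k (Set.range f)) a :
      IntermediateField.adjoin k (Set.range f)) : L) := by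
  rw [Algebra.norm_eq_of_equiv_equiv (e.fadjE hf) e.E (RingHom.ext fun c => rfl) a]
  change _ = ((e.fadjE hf ((e.fadjE hf).symm _) : IntermediateField.adjoin k (Set.range f')) : L')
  rw [RingEquiv.apply_symm_apply]

theorem SL.isRho {r : (icf k f →ₐ[k] k) → ℕ} (h : IsRho f r) :
    IsRho f' (fun y => r ((e.ptE hf).symm y)) where
  fin := by
    refine (h.fin.image (e.ptE hf)).subset ?_
    intro y hy
    refine ⟨(e.ptE hf).symm y, ?_, Equiv.apply_symm_apply _ _⟩
    change Over0 f _
    rw [← e.over0 hf, Equiv.apply_symm_apply]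
    exact hy
  supp := fun y => by
    rw [h.supp, ← e.over0 hf, Equiv.apply_symm_apply]
  norm := fun a => by
    obtain ⟨N, hN, hx⟩ := h.norm ((e.ringE hf).symm a)
    refine ⟨e.ringE hf N, ?_, ?_⟩
    · rw [e.ringE_coe, hN, e.ringE_symm_coe, ← e.norm hf, RingEquiv.apply_symm_apply]
    · intro y hy
      have h1 := hx ((e.ptE hf).symm y) (by
        rw [← e.over0 hf, Equiv.apply_symm_apply]
        exact hy)
      have h2 := congrArg e.σ h1
      rw [← e.ptE_apply hf, Equiv.apply_symm_apply] at h2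
      rw [h2, ← finprod_comp_equiv (e.ptE hf)]
      have h3 := MulEquiv.map_finprod (e.σ : k ≃* k)
        (fun y : icf k f →ₐ[k] k => y ((e.ringE hf).symm a) ^ r y)
      refine h3.trans (finprod_congr fun z => ?_)
      rw [Equiv.symm_apply_apply]
      change e.σ (_ ^ _) = _
      rw [map_pow, ← e.ptE_apply hf, RingEquiv.apply_symm_apply]

/-- **Uniqueness of the function of local degrees.** -/
theorem isRho_unique [Infinite k] {r r' : (icf k f →ₐ[k] k) → ℕ} (h : IsRho f r)
    (h' : IsRho f r') : r = r' := by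
  classical
  funext x
  by_cases hx : Over0 f x
  · by_contra hne
    have h1 : ∀ t : k, t ^ r x = t ^ r' x := by
      intro t
      obtain ⟨a, ha⟩ := TG82.exists_values' (h.fin.toFinset) (fun y => if y = x then t else 1)
      obtain ⟨N, hN, h2⟩ := h.norm a
      obtain ⟨N', hN', h3⟩ := h'.norm a
      have h4 : N = N' := Subtype.ext (hN.trans hN'.symm)
      have h5 := h2 x hx
      have h6 := h3 x hx
      rw [← h4, h5] at h6
      have h7 : ∀ s : (icf k f →ₐ[k] k) → ℕ, (∀ y, s y ≠ 0 → Over0 f y) →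
          ∏ᶠ y : icf k f →ₐ[k] k, y a ^ s y = t ^ s x := by
        intro s hs
        rw [finprod_eq_single _ x]
        · rw [ha x (h.fin.mem_toFinset.2 hx), if_pos rfl]
        · intro y hyx
          by_cases hsy : s y = 0
          · rw [hsy, pow_zero]
          · rw [ha y (h.fin.mem_toFinset.2 (hs y hsy)), if_neg hyx, one_pow]
      rw [h7 r (fun y hy => (h.supp y).1 hy), h7 _ (fun y hy => (h'.supp y).1 hy)] at h6
      exact h6
    have h3 : (Polynomial.X ^ r x - Polynomial.X ^ r' x : Polynomial k) = 0 :=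
      Polynomial.funext fun t => by simp [h1 t]
    have h4 : (Polynomial.X ^ r x : Polynomial k) = Polynomial.X ^ r' x := sub_eq_zero.1 h3
    have h5 := congrArg Polynomial.natDegree h4
    rw [Polynomial.natDegree_X_pow, Polynomial.natDegree_X_pow] at h5
    exact hne h5
  · have h1 : r x = 0 := by
      by_contra h2
      exact hx ((h.supp x).1 h2)
    have h2 : r' x = 0 := by
      by_contra h2
      exact hx ((h'.supp x).1 h2)
    rw [h1, h2]

theorem rho_eq [Infinite k] {r : (icf k f →ₐ[k] k) → ℕ} (h : IsRho f r) (x : icf k f →ₐ[k] k) :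
    rho f x = r x := by
  have h0 : ∃ r, IsRho f r := ⟨r, h⟩
  rw [rho, dif_pos h0]
  exact congrFun (isRho_unique h0.choose_spec h) x

theorem SL.rho [Infinite k] (x : icf k f →ₐ[k] k) : TGJ.rho f' (e.ptE hf x) = TGJ.rho f x := by
  by_cases h : ∃ r : (icf k f →ₐ[k] k) → ℕ, IsRho f r
  · obtain ⟨r, hr⟩ := h
    rw [rho_eq hr, rho_eq (e.isRho hf hr), Equiv.symm_apply_apply]
  · have h' : ¬ ∃ r : (icf k f' →ₐ[k] k) → ℕ, IsRho f' r := by
      rintro ⟨r, hr⟩
      exact h ⟨_, e.symm.isRho (e.symm_hf hf) hr⟩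
    rw [TGJ.rho, TGJ.rho, dif_neg h, dif_neg h']

end Field

section Rho

variable {k L L' S S' : Type u} [Field k] [Field L] [Field L'] [Algebra k L] [Algebra k L']
  [CommRing S] [CommRing S'] [Algebra k S] [Algebra k S'] (e : SL k L L') (eS : S ≃+* S')
  {φ : S →ₐ[k] L} {φ' : S' →ₐ[k] L'} {res : S →ₐ[k] k} {res' : S' →ₐ[k] k}
  (hφ : ∀ s, φ' (eS s) = e.E (φ s)) (hres : ∀ s, res' (eS s) = e.σ (res s))

include hφ hres

theorem doms {m : ℕ} {f : Fin m → L} {f' : Fin m → L'} (hf : ∀ i, f' i = e.E (f i))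
    (x : icf k f →ₐ[k] k) : Doms φ' res' f' (e.ptE hf x) ↔ Doms φ res f x := by
  constructor
  · intro h s
    obtain ⟨a, b, hb, hab, ha⟩ := h (eS s)
    refine ⟨(e.ringE hf).symm a, (e.ringE hf).symm b, ?_, ?_, ?_⟩
    · apply e.σ.injective
      rw [← e.ptE_apply hf, RingEquiv.apply_symm_apply, hb, map_one]
    · apply e.E.injective
      rw [map_mul, ← hφ, e.ringE_symm_coe, e.ringE_symm_coe, RingEquiv.apply_symm_apply,
        RingEquiv.apply_symm_apply]
      exact hab
    · apply e.σ.injective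
      rw [← e.ptE_apply hf, RingEquiv.apply_symm_apply, ha, hres]
  · intro h s
    obtain ⟨a, b, hb, hab, ha⟩ := h (eS.symm s)
    refine ⟨e.ringE hf a, e.ringE hf b, ?_, ?_, ?_⟩
    · rw [e.ptE_apply, hb, map_one]
    · rw [e.ringE_coe, e.ringE_coe, ← hab, map_mul, ← hφ, RingEquiv.apply_symm_apply]
    · rw [e.ptE_apply, ha, ← hres, RingEquiv.apply_symm_apply]

/-- **Transport of `Rho`.** -/
theorem Rho_eq [Infinite k] {m : ℕ} {u : Fin m → S} {u' : Fin m → S'} (hu : ∀ i, u' i = eS (u i)) :
    Rho φ' res' u' = Rho φ res u := by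
  have hf : ∀ i, φ' (u' i) = e.E (φ (u i)) := fun i => by rw [hu, hφ]
  unfold Rho
  rw [← finsum_comp_equiv (e.ptE hf)]
  refine finsum_congr fun x => ?_
  have h1 : (e.ptE hf x ∈ {x : icf k (fun i => φ' (u' i)) →ₐ[k] k | Over0 _ x ∧
      Doms φ' res' _ x}) = (x ∈ {x : icf k (fun i => φ (u i)) →ₐ[k] k | Over0 _ x ∧
      Doms φ res _ x}) := propext (and_congr (e.over0 hf x) (doms e eS hφ hres hf x))
  exact finsum_congr_Prop h1 fun _ => e.rho hf x

theorem proper {m : ℕ} {u : Fin m → S} {u' : Fin m → S'} (hu : ∀ i, u' i = eS (u i))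
    (h : Proper φ res u) : Proper φ' res' u' := by
  refine ⟨fun i => by rw [hu, hres, h.1, map_zero], fun Q hQ hk hu' => ?_⟩
  have h1 := h.2 (Q.comap (eS : S →+* S')) (Ideal.IsPrime.comap _) (fun s hs => by
      refine hk ?_
      rw [RingHom.mem_ker] at hs ⊢
      exact (hφ s).trans (by rw [show φ s = 0 from hs, map_zero]))
    (fun i => by
      change eS (u i) ∈ Q
      rw [← hu]
      exact hu' i)
  ext s
  have h2 : s ∈ Q ↔ eS.symm s ∈ Q.comap (eS : S →+* S') := by
    change _ ↔ eS (eS.symm s) ∈ Q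
    rw [RingEquiv.apply_symm_apply]
  rw [h2, h1, RingHom.mem_ker, RingHom.mem_ker]
  have h3 := hres (eS.symm s)
  rw [RingEquiv.apply_symm_apply] at h3
  change res (eS.symm s) = 0 ↔ res' s = 0
  rw [h3]
  exact EmbeddingLike.map_eq_zero_iff.symm

end Rho

section Frac

variable {k S S' : Type u} [Field k] [CommRing S] [CommRing S'] [Algebra k S] [Algebra k S']
  (σ : k ≃+* k) (eS : S ≃+* S') (hS : ∀ c, eS (algebraMap k S c) = algebraMap k S' (σ c))

/-- The isomorphism of the residue fields of corresponding primes. -/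
noncomputable def resE (P : Ideal S) [P.IsPrime] (P' : Ideal S') [P'.IsPrime]
    (h : P' = P.map (eS : S →+* S')) : P.ResidueField ≃+* P'.ResidueField :=
  IsFractionRing.ringEquivOfRingEquiv (Ideal.quotientEquiv P P' eS h)

theorem resE_apply (P : Ideal S) [P.IsPrime] (P' : Ideal S') [P'.IsPrime]
    (h : P' = P.map (eS : S →+* S')) (s : S) :
    resE eS P P' h (algebraMap S P.ResidueField s) = algebraMap S' P'.ResidueField (eS s) := by
  have h1 : algebraMap S P.ResidueField s =
      algebraMap (S ⧸ P) P.ResidueField (Ideal.Quotient.mk P s) := rfl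
  rw [h1, resE, IsFractionRing.ringEquivOfRingEquiv_algebraMap, Ideal.quotientEquiv_mk]
  rfl

include hS in
theorem resE_comm (P : Ideal S) [P.IsPrime] (P' : Ideal S') [P'.IsPrime]
    (h : P' = P.map (eS : S →+* S')) (c : k) :
    resE eS P P' h (algebraMap k P.ResidueField c) = algebraMap k P'.ResidueField (σ c) := by
  rw [IsScalarTower.algebraMap_apply k S P.ResidueField, resE_apply, hS,
    ← IsScalarTower.algebraMap_apply k S' P'.ResidueField]

end Frac

end Pool.Agent.TGJ.Tr
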