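import Pool.Agent.Lib.TGJ.TransA
import Pool.Agent.Lib.TGJ.RamInv
import Pool.Agent.Lib.TGBC_h29.Rows

/-!
# TANK G, block C, row R12t: transport of the output at a point by a semilinear automorphism
-/

set_option autoImplicit false

namespace Pool.Agent.TGJ.Tr

open Pool.Agent.TG (ncl)
open Pool.Agent.TGh4 (Disc ordV)
open Pool.Agent.TGJ
open Pool.Agent.TGBC (PtOut)

universe u

variable {k K : Type u} [Field k] [Field K] [Algebra k K]

/-- The data: `τ` is a `σ`-semilinear automorphism of `K` which maps the point `(S, res)` to the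
point `(S', res')`. -/
structure Tran (τ : K ≃+* K) (σ : k ≃+* k) {S S' : Subalgebra k K} (res : S →ₐ[k] k)
    (res' : S' →ₐ[k] k) : Prop where
  comm : ∀ c : k, τ (algebraMap k K c) = algebraMap k K (σ c)
  mem : ∀ x : K, x ∈ S ↔ τ x ∈ S'
  res : ∀ (a : S) (a' : S'), (a' : K) = τ a → res' a' = σ (res a)

namespace Tran

variable {τ : K ≃+* K} {σ : k ≃+* k} {S S' : Subalgebra k K} {res : S →ₐ[k] k}
  {res' : S' →ₐ[k] k}

theorem mem_symm (h : Tran τ σ res res') (x : K) : x ∈ S' ↔ τ.symm x ∈ S := by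
  rw [h.mem, RingEquiv.apply_symm_apply]

/-- The inverse. -/
theorem symm (h : Tran τ σ res res') : Tran τ.symm σ.symm res' res where
  comm := fun c => by
    rw [RingEquiv.symm_apply_eq, h.comm, RingEquiv.apply_symm_apply]
  mem := fun x => h.mem_symm x
  res := fun a a' e => by
    rw [h.res a' a (by rw [e, RingEquiv.apply_symm_apply]), RingEquiv.symm_apply_apply]

/-- The semilinear isomorphism of `K`. -/
def sl (h : Tran τ σ res res') : SL k K K := ⟨σ, τ, h.comm⟩

/-- The isomorphism of the local rings. -/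
def eS (h : Tran τ σ res res') : S ≃+* S' where
  toFun a := ⟨τ a, (h.mem _).1 a.2⟩
  invFun a := ⟨τ.symm a, (h.mem_symm _).1 a.2⟩
  left_inv _ := Subtype.ext (τ.symm_apply_apply _)
  right_inv _ := Subtype.ext (τ.apply_symm_apply _)
  map_mul' _ _ := Subtype.ext (map_mul τ _ _)
  map_add' _ _ := Subtype.ext (map_add τ _ _)

theorem eS_coe (h : Tran τ σ res res') (a : S) : ((h.eS a : S') : K) = τ a := rfl

theorem eS_symm_coe (h : Tran τ σ res res') (a : S') : ((h.eS.symm a : S) : K) = τ.symm a := rfl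

theorem eS_comm (h : Tran τ σ res res') (c : k) :
    h.eS (algebraMap k S c) = algebraMap k S' (σ c) := Subtype.ext (h.comm c)

theorem res_eS (h : Tran τ σ res res') (a : S) : res' (h.eS a) = σ (res a) := h.res _ _ rfl

/-- **(1)** -/
theorem npt (h : Tran τ σ res res') (hN : NPt S res) : NPt S' res' where
  inv := fun a ha => by
    have h1 : res (h.eS.symm a) ≠ 0 := by
      intro h0
      have h2 := h.res_eS (h.eS.symm a)
      rw [RingEquiv.apply_symm_apply, h0, map_zero] at h2
      exact ha h2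
    have h3 := (h.mem _).1 (hN.inv _ h1)
    rwa [h.eS_symm_coe, map_inv₀, RingEquiv.apply_symm_apply] at h3
  ic := fun a ha => by
    rw [h.mem_symm]
    refine hN.ic _ ?_
    exact h.symm.sl.mem_ncl (fun x hx => (h.mem_symm x).1 hx) ha
  fg := by
    obtain ⟨A, ⟨T, hT⟩, hA, hs⟩ := hN.fg
    classical
    have key : ∀ x, x ∈ Algebra.adjoin k ((T.image τ : Finset K) : Set K) ↔ τ.symm x ∈ A := by
      intro x
      rw [← hT]
      constructor
      · intro hx
        refine h.symm.sl.mem_adjoin ?_ hx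
        intro t ht
        rw [Finset.coe_image] at ht
        obtain ⟨y, hy, rfl⟩ := ht
        change τ.symm (τ y) ∈ _
        rw [RingEquiv.symm_apply_apply]
        exact hy
      · intro hx
        have h1 := h.sl.mem_adjoin (T' := ((T.image τ : Finset K) : Set K)) (fun t ht => by
          rw [Finset.coe_image]
          exact ⟨t, ht, rfl⟩) hx
        change τ (τ.symm x) ∈ _ at h1
        rwa [RingEquiv.apply_symm_apply] at h1
    refine ⟨Algebra.adjoin k ((T.image τ : Finset K) : Set K), ⟨_, rfl⟩, ?_, ?_⟩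
    · intro x hx
      rw [h.mem_symm]
      exact hA ((key x).1 hx)
    · intro s
      obtain ⟨a, b, hb, hab⟩ := hs (h.eS.symm s)
      refine ⟨⟨τ a, (key _).2 (by rw [RingEquiv.symm_apply_apply]; exact a.2)⟩,
        ⟨τ b, (key _).2 (by rw [RingEquiv.symm_apply_apply]; exact b.2)⟩, ?_, ?_⟩
      · rw [h.res (Subalgebra.inclusion hA b) _ rfl, hb, map_one]
      · change (s : K) * τ b = τ a
        rw [← hab, map_mul, h.eS_symm_coe, RingEquiv.apply_symm_apply]
  frac := fun x => by
    obtain ⟨a, b, hb, hab⟩ := hN.frac (τ.symm x)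
    refine ⟨h.eS a, h.eS b, ?_, ?_⟩
    · rw [h.eS_coe]
      simpa using hb
    · rw [h.eS_coe, h.eS_coe, ← hab, map_mul, RingEquiv.apply_symm_apply]

/-- **(2)** -/
theorem proper (h : Tran τ σ res res') {m : ℕ} {u : Fin m → S} {u' : Fin m → S'}
    (hu : ∀ i, (u' i : K) = τ (u i)) (hp : Proper S.val res u) : Proper S'.val res' u' :=
  Tr.proper h.sl h.eS (fun _ => rfl) h.res_eS (fun i => Subtype.ext (hu i)) hp

/-- **(3)** -/
theorem rho [Infinite k] (h : Tran τ σ res res') {m : ℕ} {u : Fin m → S} {u' : Fin m → S'}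
    (hu : ∀ i, (u' i : K) = τ (u i)) : Rho S'.val res' u' = Rho S.val res u :=
  Rho_eq h.sl h.eS (fun _ => rfl) h.res_eS (fun i => Subtype.ext (hu i))

/-- **(4)** prime divisors. -/
theorem isDiv (h : Tran τ σ res res') {V : ValuationSubring K} (hV : IsDiv S' V) :
    IsDiv S (V.comap (τ : K →+* K)) where
  le := fun a ha => hV.le _ ((h.mem a).1 ha)
  loc := fun x hx => by
    obtain ⟨a, ha, b, hb, hvb, e⟩ := hV.loc (τ x) hx
    refine ⟨τ.symm a, (h.mem_symm _).1 ha, τ.symm b, (h.mem_symm _).1 hb, ?_, ?_⟩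
    · rw [comap_val_one, RingEquiv.apply_symm_apply]
      exact hvb
    · apply τ.injective
      rw [map_mul, RingEquiv.apply_symm_apply, RingEquiv.apply_symm_apply]
      exact e
  disc := (disc_comap V τ).2 hV.disc

omit [Algebra k K] in
theorem comap_comap (V : ValuationSubring K) (τ : K ≃+* K) :
    (V.comap (τ : K →+* K)).comap (τ.symm : K →+* K) = V := by
  ext x
  change τ (τ.symm x) ∈ V ↔ x ∈ V
  rw [RingEquiv.apply_symm_apply]

omit [Algebra k K] in
theorem comap_comap' (V : ValuationSubring K) (τ : K ≃+* K) :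
    (V.comap (τ.symm : K →+* K)).comap (τ : K →+* K) = V := by
  ext x
  change τ.symm (τ x) ∈ V ↔ x ∈ V
  rw [RingEquiv.symm_apply_apply]

theorem isDiv_iff (h : Tran τ σ res res') (V : ValuationSubring K) :
    IsDiv S (V.comap (τ : K →+* K)) ↔ IsDiv S' V := by
  refine ⟨fun hV => ?_, h.isDiv⟩
  have h1 := h.symm.isDiv hV
  rwa [comap_comap] at h1

/-- The centre. -/
theorem cen_map (h : Tran τ σ res res') {V : ValuationSubring K} (hV : ∀ a ∈ S', a ∈ V) :
    cen S' V = (cen S (V.comap (τ : K →+* K))).map (h.eS : S →+* S') := by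
  ext s
  have h0 : (cen S (V.comap (τ : K →+* K))).map (h.eS : S →+* S') =
      (cen S (V.comap (τ : K →+* K))).comap (h.eS.symm : S' →+* S) :=
    Ideal.map_comap_of_equiv h.eS
  rw [h0, Ideal.mem_comap,
    mem_cen hV, mem_cen (S := S) (V := V.comap (τ : K →+* K)) (fun a ha => hV _ ((h.mem a).1 ha)),
    comap_val_lt]
  have h1 : τ ((h.eS.symm s : S) : K) = s := by
    rw [h.eS_symm_coe, RingEquiv.apply_symm_apply]
  exact iff_of_eq (congrArg (fun x : K => V.valuation x < 1) h1.symm)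

/-- The isomorphism of the residue fields. -/
noncomputable def slV (h : Tran τ σ res res') {V : ValuationSubring K} (hV : ∀ a ∈ S', a ∈ V) :
    SL k (cen S (V.comap (τ : K →+* K))).ResidueField (cen S' V).ResidueField where
  σ := σ
  E := resE h.eS _ _ (h.cen_map hV)
  comm := resE_comm σ h.eS h.eS_comm _ _ (h.cen_map hV)

theorem slV_apply (h : Tran τ σ res res') {V : ValuationSubring K} (hV : ∀ a ∈ S', a ∈ V)
    (s : S) : toRes S' V (h.eS s) = (h.slV hV).E (toRes S (V.comap (τ : K →+* K)) s) :=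
  (resE_apply h.eS _ _ (h.cen_map hV) s).symm

theorem properV (h : Tran τ σ res res') {V : ValuationSubring K} (hV : ∀ a ∈ S', a ∈ V) {m : ℕ}
    {w : Fin m → S} {w' : Fin m → S'} (hw : ∀ i, (w' i : K) = τ (w i))
    (hp : ProperV S (V.comap (τ : K →+* K)) res w) : ProperV S' V res' w' :=
  Tr.proper (h.slV hV) h.eS (h.slV_apply hV) h.res_eS (fun i => Subtype.ext (hw i)) hp

theorem rhoV [Infinite k] (h : Tran τ σ res res') {V : ValuationSubring K}
    (hV : ∀ a ∈ S', a ∈ V) {m : ℕ} {w : Fin m → S} {w' : Fin m → S'}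
    (hw : ∀ i, (w' i : K) = τ (w i)) :
    RhoV S' V res' w' = RhoV S (V.comap (τ : K →+* K)) res w :=
  Rho_eq (h.slV hV) h.eS (h.slV_apply hV) h.res_eS (fun i => Subtype.ext (hw i))

end Tran

section Ram

variable (τ : K ≃+* K) (σ : k ≃+* k) (hτ : ∀ c : k, τ (algebraMap k K c) = algebraMap k K (σ c))

theorem jac_conjD' {n : ℕ} (d : Fin n → Derivation k K K) (f : Fin n → K) :
    τ (jac (fun i => conjD τ σ hτ (d i)) f) = jac d fun j => τ (f j) := by
  unfold jac
  rw [RingEquiv.map_det]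
  congr 1
  ext i j
  rw [RingEquiv.mapMatrix_apply, Matrix.map_apply, Matrix.of_apply, Matrix.of_apply,
    conjD_apply, RingEquiv.apply_symm_apply]

include hτ in
theorem rram_comap' (V : ValuationSubring K) {n : ℕ} (f : Fin n → K) :
    rram k (V.comap (τ : K →+* K)).toSubring (ordV (V.comap (τ : K →+* K))) f =
      rram k V.toSubring (ordV V) fun j => τ (f j) := by
  have hσ : ∀ c : k, τ.symm (algebraMap k K c) = algebraMap k K (σ.symm c) := by
    intro c
    rw [RingEquiv.symm_apply_eq, hτ, RingEquiv.apply_symm_apply]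
  unfold rram
  congr 1
  ext m
  constructor
  · rintro ⟨d, hd, h0, h1⟩
    have h2 := jac_conjD' τ.symm σ.symm hσ d (fun j => τ (f j))
    have hff : (fun j => τ.symm (τ (f j))) = f := funext fun j => τ.symm_apply_apply _
    rw [hff] at h2
    have h3 : jac (fun i => conjD τ.symm σ.symm hσ (d i)) (fun j => τ (f j)) = τ (jac d f) := by
      rw [← h2, RingEquiv.apply_symm_apply]
    refine ⟨fun i => conjD τ.symm σ.symm hσ (d i), fun i x hx => ?_, ?_, ?_⟩
    · rw [conjD_apply, RingEquiv.symm_symm]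
      have h4 : τ.symm x ∈ (V.comap (τ : K →+* K)).toSubring := by
        change τ (τ.symm x) ∈ V
        rw [RingEquiv.apply_symm_apply]
        exact hx
      exact hd i _ h4
    · rw [h3]
      simpa using h0
    · rw [h3, ← ordV_comap]
      exact h1
  · rintro ⟨d, hd, h0, h1⟩
    have h2 := jac_conjD' τ σ hτ d f
    refine ⟨fun i => conjD τ σ hτ (d i), fun i x hx => ?_, ?_, ?_⟩
    · rw [conjD_apply]
      change τ (τ.symm (d i (τ x))) ∈ V
      rw [RingEquiv.apply_symm_apply]
      exact hd i _ hx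
    · intro h3
      rw [h3, map_zero] at h2
      exact h0 h2.symm
    · rw [ordV_comap, h2]
      exact h1

end Ram

namespace Tran

variable {τ : K ≃+* K} {σ : k ≃+* k} {S S' : Subalgebra k K} {res : S →ₐ[k] k}
  {res' : S' →ₐ[k] k}

theorem ramV (h : Tran τ σ res res') (V : ValuationSubring K) {n : ℕ} {u : Fin n → S}
    {u' : Fin n → S'} (hu : ∀ i, (u' i : K) = τ (u i)) :
    TGJ.ramV V u' = TGJ.ramV (V.comap (τ : K →+* K)) u := by
  have h1 := rram_comap' τ σ h.comm V (fun i => (u i : K))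
  have h2 : (fun i => (u' i : K)) = fun i => τ (u i) := funext hu
  rw [← h2] at h1
  exact h1.symm

/-- Bijection of the valuation rings. -/
def comapE (τ : K ≃+* K) : ValuationSubring K ≃ ValuationSubring K where
  toFun V := V.comap (τ : K →+* K)
  invFun V := V.comap (τ.symm : K →+* K)
  left_inv V := comap_comap V τ
  right_inv V := comap_comap' V τ

theorem ir [Infinite k] (h : Tran τ σ res res') {m n : ℕ} {w : Fin m → S} {w' : Fin m → S'}
    (hw : ∀ i, (w' i : K) = τ (w i)) {u : Fin n → S} {u' : Fin n → S'}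
    (hu : ∀ i, (u' i : K) = τ (u i)) : IR S' res' w' u' = IR S res w u := by
  unfold IR
  refine Eq.trans ?_ (finsum_comp_equiv (comapE τ))
  refine finsum_congr fun V => ?_
  have h1 : (V ∈ {V : ValuationSubring K | IsDiv S' V}) =
      (comapE τ V ∈ {V : ValuationSubring K | IsDiv S V}) := propext (h.isDiv_iff V).symm
  refine finsum_congr_Prop h1 fun hV => ?_
  rw [h.ramV V hu, h.rhoV (((h.isDiv_iff V).1 hV).le) hw]
  rfl

/-- **(5)** -/
theorem ptOut [Infinite k] (h : Tran τ σ res res') {n : ℕ} {u : Fin (n + 1) → S}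
    {u' : Fin (n + 1) → S'} (hu : ∀ i, (u' i : K) = τ (u i)) {Θ : Set (ValuationSubring K)}
    {c₁ c₂ c₃ : ℕ}
    (hp : PtOut res u ((fun E : ValuationSubring K => E.comap (τ : K →+* K)) '' Θ) c₁ c₂ c₃) :
    PtOut res' u' Θ c₁ c₂ c₃ where
  npt := h.npt hp.npt
  proper := h.proper hu hp.proper
  rho := by
    rw [h.rho hu]
    exact hp.rho
  properR := fun V hV hr => by
    refine h.properV hV.le (w := u ∘ Fin.succ) (fun i => hu _) ?_
    refine hp.properR _ (h.isDiv hV) ?_
    rwa [← h.ramV V hu]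
  ir := by
    have h1 : IR S' res' (u' ∘ Fin.succ) u' = IR S res (u ∘ Fin.succ) u :=
      h.ir (fun i => hu _) hu
    rw [h1]
    exact hp.ir
  fin := Set.Finite.of_finite_image hp.fin ((comapE τ).injective.injOn)
  div := fun V hV => (h.isDiv_iff V).1 (hp.div _ ⟨V, hV, rfl⟩)
  rhoΘ := fun V hV => by
    have hd := (h.isDiv_iff V).1 (hp.div _ ⟨V, hV, rfl⟩)
    obtain ⟨h1, h2⟩ := hp.rhoΘ _ ⟨V, hV, rfl⟩
    refine ⟨h.properV hd.le (w := u ∘ Fin.castSucc) (fun i => hu _) h1, ?_⟩
    have h3 : RhoV S' V res' (u' ∘ Fin.castSucc) =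
        RhoV S (V.comap (τ : K →+* K)) res (u ∘ Fin.castSucc) := h.rhoV hd.le (fun i => hu _)
    rw [h3]
    exact h2

end Tran

/-- **ROW R12t.** -/
theorem ptOut_transport [Infinite k] (τ : K ≃+* K) (σ : k ≃+* k)
    (hτ : ∀ c : k, τ (algebraMap k K c) = algebraMap k K (σ c)) {S S' : Subalgebra k K}
    (hSS : ∀ x, x ∈ S ↔ τ x ∈ S') {res : S →ₐ[k] k} {res' : S' →ₐ[k] k}
    (hres : ∀ (a : S) (a' : S'), (a' : K) = τ a → res' a' = σ (res a)) {n : ℕ}
    {u : Fin (n + 1) → S} {u' : Fin (n + 1) → S'} (hu : ∀ i, (u' i : K) = τ (u i))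
    {Θ : Set (ValuationSubring K)} {c₁ c₂ c₃ : ℕ}
    (hp : PtOut res u ((fun E : ValuationSubring K => E.comap (τ : K →+* K)) '' Θ) c₁ c₂ c₃) :
    PtOut res' u' Θ c₁ c₂ c₃ :=
  Tran.ptOut ⟨hτ, hSS, hres⟩ hu hp

end Pool.Agent.TGJ.Tr
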